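import Mathlib

/-!
# Generalities on smooth representations (helper file)
-/

namespace Pool.Agent.H330R2

open scoped BigOperators

section Coinv

variable {G V : Type*} [Group G] [AddCommGroup V] [Module ℂ V]

attribute [local instance] Subgroup.fintypeQuotientOfFiniteIndex

/-- The stabiliser of a vector. -/
def stab (ρ : Representation ℂ G V) (x : V) : Subgroup G where
  carrier := {g | ρ g x = x}
  one_mem' := by simp
  mul_mem' := by
    intro a b ha hb
    simp only [Set.mem_ofPred_eq] at *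
    rw [map_mul, Module.End.mul_apply, hb, ha]
  inv_mem' := by
    intro a ha
    simp only [Set.mem_ofPred_eq] at *
    conv_lhs => rw [← ha]
    rw [← Module.End.mul_apply, ← map_mul]
    simp

lemma mem_stab (ρ : Representation ℂ G V) (x : V) (g : G) : g ∈ stab ρ x ↔ ρ g x = x := Iff.rfl

/-- The span of the vectors `ρ u x - x`, `u ∈ U`. -/
def coinvKer (ρ : Representation ℂ G V) (U : Subgroup G) : Submodule ℂ V :=
  Submodule.span ℂ {y | ∃ u ∈ U, ∃ x, y = ρ u x - x}

lemma sub_mem_coinvKer (ρ : Representation ℂ G V) {U : Subgroup G} {u : G} (hu : u ∈ U) (x : V) :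
    ρ u x - x ∈ coinvKer ρ U :=
  Submodule.subset_span ⟨u, hu, x, rfl⟩

lemma coinvKer_mono (ρ : Representation ℂ G V) {U U' : Subgroup G} (h : U ≤ U') :
    coinvKer ρ U ≤ coinvKer ρ U' := by
  apply Submodule.span_mono
  rintro y ⟨u, hu, x, rfl⟩
  exact ⟨u, h hu, x, rfl⟩

/-- If `h` normalises `U` then `ρ h` preserves `coinvKer`. -/
lemma map_mem_coinvKer (ρ : Representation ℂ G V) {U : Subgroup G} {h : G}
    (hn : ∀ u ∈ U, h * u * h⁻¹ ∈ U) {x : V} (hx : x ∈ coinvKer ρ U) : ρ h x ∈ coinvKer ρ U := by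
  unfold coinvKer at hx
  induction hx using Submodule.span_induction with
  | mem y hy =>
    obtain ⟨u, hu, z, rfl⟩ := hy
    have : ρ h (ρ u z - z) = ρ (h * u * h⁻¹) (ρ h z) - ρ h z := by
      rw [map_sub, ← Module.End.mul_apply, ← Module.End.mul_apply, ← map_mul, ← map_mul]
      simp
    rw [this]
    exact sub_mem_coinvKer ρ (hn u hu) _
  | zero => simp
  | add a b _ _ ha hb => rw [map_add]; exact Submodule.add_mem _ ha hb
  | smul c a _ ha => rw [map_smul]; exact Submodule.smul_mem _ c ha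

/-- every vector has a stabiliser of finite relative index in `U` -/
def LocFin (ρ : Representation ℂ G V) (U : Subgroup G) : Prop :=
  ∀ x : V, (stab ρ x).relIndex U ≠ 0

/-- Sum over coset representatives. -/
noncomputable def cosetSum (ρ : Representation ℂ G V) (U : Subgroup G) (N : Subgroup U)
    [N.FiniteIndex] : V →ₗ[ℂ] V :=
  ∑ q : U ⧸ N, ρ ((q.out : U) : G)

lemma cosetSum_apply (ρ : Representation ℂ G V) (U : Subgroup G) (N : Subgroup U)
    [N.FiniteIndex] (x : V) :
    cosetSum ρ U N x = ∑ q : U ⧸ N, ρ ((q.out : U) : G) x := by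
  simp [cosetSum]

lemma rho_eq_of_coset (ρ : Representation ℂ G V) {U : Subgroup G} {N : Subgroup U} {x : V}
    (hx : ∀ n ∈ N, ρ ((n : U) : G) x = x) {a b : U} (h : (a : U ⧸ N) = (b : U ⧸ N)) :
    ρ (a : G) x = ρ (b : G) x := by
  have h1 : a⁻¹ * b ∈ N := QuotientGroup.eq.mp h
  have h2 : ρ (b : G) x = ρ (a : G) (ρ ((a⁻¹ * b : U) : G) x) := by
    rw [← Module.End.mul_apply, ← map_mul]
    congr 2
    simp
  rw [h2, hx _ h1]

lemma cosetSum_rho (ρ : Representation ℂ G V) (U : Subgroup G) (N : Subgroup U) [N.Normal]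
    [N.FiniteIndex] {x : V} (hx : ∀ n ∈ N, ρ ((n : U) : G) x = x) (u : U) :
    cosetSum ρ U N (ρ (u : G) x) = cosetSum ρ U N x := by
  rw [cosetSum_apply, cosetSum_apply]
  have : ∀ q : U ⧸ N, ρ ((q.out : U) : G) (ρ (u : G) x) = ρ (((q * (u : U ⧸ N)).out : U) : G) x := by
    intro q
    rw [← Module.End.mul_apply, ← map_mul]
    have : ((q.out * u : U) : G) = (q.out : G) * (u : G) := by simp
    rw [← this]
    apply rho_eq_of_coset ρ hx
    simp
  simp_rw [this]
  exact Fintype.sum_equiv (Equiv.mulRight (u : U ⧸ N)) _ _ (fun q => rfl)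

lemma rho_cosetSum (ρ : Representation ℂ G V) (U : Subgroup G) (N : Subgroup U)
    [N.FiniteIndex] {x : V} (hx : ∀ n ∈ N, ρ ((n : U) : G) x = x) (u : U) :
    ρ (u : G) (cosetSum ρ U N x) = cosetSum ρ U N x := by
  rw [cosetSum_apply, map_sum]
  have : ∀ q : U ⧸ N, ρ (u : G) (ρ ((q.out : U) : G) x) = ρ (((u • q).out : U) : G) x := by
    intro q
    rw [← Module.End.mul_apply, ← map_mul]
    have : ((u * q.out : U) : G) = (u : G) * (q.out : G) := by simp
    rw [← this]
    apply rho_eq_of_coset ρ hx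
    simp only [Quotient.out_eq']
    conv_rhs => rw [← Quotient.out_eq' q]
    rfl
  simp_rw [this]
  exact Fintype.sum_equiv (MulAction.toPerm (β := U ⧸ N) u) _ _ (fun q => rfl)

lemma cosetSum_fixed (ρ : Representation ℂ G V) (U : Subgroup G) (N : Subgroup U)
    [N.FiniteIndex] {x : V} (hx : ∀ u ∈ U, ρ u x = x) :
    cosetSum ρ U N x = (N.index : ℂ) • x := by
  rw [cosetSum_apply]
  have : ∀ q : U ⧸ N, ρ ((q.out : U) : G) x = x := fun q => hx _ (q.out).2
  simp_rw [this]
  rw [Finset.sum_const, Finset.card_univ, Nat.cast_smul_eq_nsmul, Subgroup.index_eq_card, Nat.card_eq_fintype_card]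

lemma exists_normal (ρ : Representation ℂ G V) {U : Subgroup G} (h : LocFin ρ U) (x : V) :
    ∃ N : Subgroup U, N.Normal ∧ N.FiniteIndex ∧ ∀ n ∈ N, ρ ((n : U) : G) x = x := by
  have h1 : ((stab ρ x).subgroupOf U).FiniteIndex := ⟨h x⟩
  refine ⟨((stab ρ x).subgroupOf U).normalCore, inferInstance, inferInstance, ?_⟩
  intro n hn
  have := Subgroup.normalCore_le _ hn
  exact this

lemma cosetSum_coinvKer (ρ : Representation ℂ G V) {U : Subgroup G} (h : LocFin ρ U) {z : V}
    (hz : z ∈ coinvKer ρ U) :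
    ∃ N : Subgroup U, N.Normal ∧ ∃ _ : N.FiniteIndex, ∀ N' : Subgroup U, N' ≤ N → N'.Normal →
      ∀ _ : N'.FiniteIndex, cosetSum ρ U N' z = 0 := by
  unfold coinvKer at hz
  induction hz using Submodule.span_induction with
  | mem y hy =>
    obtain ⟨u, hu, x, rfl⟩ := hy
    obtain ⟨N, hN1, hN2, hN3⟩ := exists_normal ρ h x
    refine ⟨N, hN1, hN2, ?_⟩
    intro N' hN' hn' hf'
    rw [map_sub]
    have := cosetSum_rho ρ U N' (x := x) (fun n hn => hN3 n (hN' hn)) ⟨u, hu⟩
    simp only at this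
    rw [this, sub_self]
  | zero =>
    refine ⟨⊤, inferInstance, inferInstance, ?_⟩
    intros; simp
  | add a b _ _ ha hb =>
    obtain ⟨N1, h1, h1', h1''⟩ := ha
    obtain ⟨N2, h2, h2', h2''⟩ := hb
    refine ⟨N1 ⊓ N2, inferInstance, inferInstance, ?_⟩
    intro N' hN' hn' hf'
    rw [map_add, h1'' N' (hN'.trans inf_le_left) hn' hf', h2'' N' (hN'.trans inf_le_right) hn' hf',
      add_zero]
  | smul c a _ ha =>
    obtain ⟨N1, h1, h1', h1''⟩ := ha
    refine ⟨N1, h1, h1', ?_⟩
    intro N' hN' hn' hf'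
    rw [map_smul, h1'' N' hN' hn' hf', smul_zero]

/-- **Lemma A.** -/
theorem eq_zero_of_fixed_of_mem (ρ : Representation ℂ G V) {U : Subgroup G} (h : LocFin ρ U)
    {z : V} (hz : z ∈ coinvKer ρ U) (hf : ∀ u ∈ U, ρ u z = z) : z = 0 := by
  obtain ⟨N, h1, h2, h3⟩ := cosetSum_coinvKer ρ h hz
  have h4 := h3 N le_rfl h1 h2
  rw [cosetSum_fixed ρ U N hf] at h4
  rcases smul_eq_zero.mp h4 with h5 | h5
  · exact absurd (by exact_mod_cast h5) h2.index_ne_zero
  · exact h5

/-- **Lemma B.** the average of a vector -/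
theorem exists_average (ρ : Representation ℂ G V) {U : Subgroup G} (h : LocFin ρ U) (y : V) :
    ∃ e : V, (∀ u ∈ U, ρ u e = e) ∧ y - e ∈ coinvKer ρ U ∧
      ∀ W : Submodule ℂ V, (∀ u ∈ U, ∀ x ∈ W, ρ u x ∈ W) → y ∈ W → e ∈ W := by
  obtain ⟨N, h1, h2, h3⟩ := exists_normal ρ h y
  have hne : (N.index : ℂ) ≠ 0 := by exact_mod_cast h2.index_ne_zero
  refine ⟨(N.index : ℂ)⁻¹ • cosetSum ρ U N y, ?_, ?_, ?_⟩
  · intro u hu
    rw [map_smul]
    have := rho_cosetSum ρ U N h3 ⟨u, hu⟩
    simp only at this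
    rw [this]
  · have : y - (N.index : ℂ)⁻¹ • cosetSum ρ U N y =
        (N.index : ℂ)⁻¹ • ∑ q : U ⧸ N, (y - ρ ((q.out : U) : G) y) := by
      rw [Finset.sum_sub_distrib, smul_sub, ← cosetSum_apply, Finset.sum_const, Finset.card_univ,
        ← Nat.card_eq_fintype_card, ← Subgroup.index_eq_card, ← Nat.cast_smul_eq_nsmul ℂ, smul_smul,
        inv_mul_cancel₀ hne, one_smul]
    rw [this]
    apply Submodule.smul_mem
    apply Submodule.sum_mem
    intro q _
    rw [← neg_sub]
    exact Submodule.neg_mem _ (sub_mem_coinvKer ρ (q.out).2 _)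
  · intro W hW hy
    apply Submodule.smul_mem
    rw [cosetSum_apply]
    apply Submodule.sum_mem
    intro q _
    exact hW _ (q.out).2 _ hy

/-- restriction of LocFin to smaller subgroups -/
lemma LocFin.mono {ρ : Representation ℂ G V} {U U' : Subgroup G} (h : LocFin ρ U) (hle : U' ≤ U) :
    LocFin ρ U' := by
  intro x h0
  exact h x (Subgroup.relIndex_eq_zero_of_le_right hle h0)

end Coinv

end Pool.Agent.H330R2
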