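import Mathlib
import Pool.Agent.H330R2.Rep

/-!
# Local theory: `GL₂` of a discretely valued field (helper file)
-/

namespace Pool.Agent.H330R2

open WithZero Matrix

noncomputable section

variable {F : Type*} [Field F] (w : Valuation F ℤᵐ⁰)

/-- `GL₂(O)`. -/
def GLint : Subgroup (GL (Fin 2) F) :=
  (Matrix.GeneralLinearGroup.map (n := Fin 2) w.integer.subtype).range

/-- constructor -/
def mk2 (a b c d : F) (h : a * d - b * c ≠ 0) : GL (Fin 2) F :=
  Matrix.GeneralLinearGroup.mkOfDetNeZero !![a, b; c, d] (by rwa [Matrix.det_fin_two_of])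

@[simp] lemma mk2_00 (a b c d : F) (h) : (mk2 a b c d h) 0 0 = a := rfl
@[simp] lemma mk2_01 (a b c d : F) (h) : (mk2 a b c d h) 0 1 = b := rfl
@[simp] lemma mk2_10 (a b c d : F) (h) : (mk2 a b c d h) 1 0 = c := rfl
@[simp] lemma mk2_11 (a b c d : F) (h) : (mk2 a b c d h) 1 1 = d := rfl

@[simp] lemma mk2_det (a b c d : F) (h) :
    ((mk2 a b c d h : GL (Fin 2) F) : Matrix (Fin 2) (Fin 2) F).det = a * d - b * c := by
  rw [Matrix.det_fin_two]; rfl

lemma GL_ext {g h : GL (Fin 2) F} (h00 : g 0 0 = h 0 0) (h01 : g 0 1 = h 0 1) (h10 : g 1 0 = h 1 0)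
    (h11 : g 1 1 = h 1 1) : g = h := by
  apply Units.ext
  ext i j
  fin_cases i <;> fin_cases j <;> assumption

lemma mul_apply' (g h : GL (Fin 2) F) (i j : Fin 2) :
    (g * h) i j = g i 0 * h 0 j + g i 1 * h 1 j := by
  simp [Matrix.mul_apply, Fin.sum_univ_two]

@[simp] lemma one_00 : (1 : GL (Fin 2) F) 0 0 = 1 := rfl
@[simp] lemma one_01 : (1 : GL (Fin 2) F) 0 1 = 0 := rfl
@[simp] lemma one_10 : (1 : GL (Fin 2) F) 1 0 = 0 := rfl
@[simp] lemma one_11 : (1 : GL (Fin 2) F) 1 1 = 1 := rfl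

lemma det_eq (g : GL (Fin 2) F) : (g : Matrix (Fin 2) (Fin 2) F).det = g 0 0 * g 1 1 - g 0 1 * g 1 0 := by
  rw [Matrix.det_fin_two]

lemma det_ne (g : GL (Fin 2) F) : g 0 0 * g 1 1 - g 0 1 * g 1 0 ≠ 0 := by
  rw [← det_eq]
  exact (Matrix.GeneralLinearGroup.det g).ne_zero

lemma det_ne' (g : GL (Fin 2) F) : (g : Matrix (Fin 2) (Fin 2) F).det ≠ 0 :=
  (Matrix.GeneralLinearGroup.det g).ne_zero

lemma inv_00 (g : GL (Fin 2) F) : (g⁻¹) 0 0 = (g : Matrix (Fin 2) (Fin 2) F).det⁻¹ * g 1 1 := by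
  rw [Matrix.coe_units_inv, Matrix.inv_def, Matrix.adjugate_fin_two]
  simp

lemma inv_01 (g : GL (Fin 2) F) : (g⁻¹) 0 1 = -((g : Matrix (Fin 2) (Fin 2) F).det⁻¹ * g 0 1) := by
  rw [Matrix.coe_units_inv, Matrix.inv_def, Matrix.adjugate_fin_two]
  simp

lemma inv_10 (g : GL (Fin 2) F) : (g⁻¹) 1 0 = -((g : Matrix (Fin 2) (Fin 2) F).det⁻¹ * g 1 0) := by
  rw [Matrix.coe_units_inv, Matrix.inv_def, Matrix.adjugate_fin_two]
  simp

lemma inv_11 (g : GL (Fin 2) F) : (g⁻¹) 1 1 = (g : Matrix (Fin 2) (Fin 2) F).det⁻¹ * g 0 0 := by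
  rw [Matrix.coe_units_inv, Matrix.inv_def, Matrix.adjugate_fin_two]
  simp

lemma det_mul' (g h : GL (Fin 2) F) : ((g * h : GL (Fin 2) F) : Matrix (Fin 2) (Fin 2) F).det =
    (g : Matrix (Fin 2) (Fin 2) F).det * (h : Matrix (Fin 2) (Fin 2) F).det := by
  rw [Units.val_mul, Matrix.det_mul]

lemma det_inv' (g : GL (Fin 2) F) : ((g⁻¹ : GL (Fin 2) F) : Matrix (Fin 2) (Fin 2) F).det =
    (g : Matrix (Fin 2) (Fin 2) F).det⁻¹ := by
  have h := det_mul' g g⁻¹
  rw [mul_inv_cancel] at h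
  simp only [Units.val_one, Matrix.det_one] at h
  exact eq_inv_of_mul_eq_one_right h.symm

theorem mem_GLint (g : GL (Fin 2) F) :
    g ∈ GLint w ↔ (∀ i j, w (g i j) ≤ 1) ∧ w (g : Matrix (Fin 2) (Fin 2) F).det = 1 := by
  constructor
  · rintro ⟨h, rfl⟩
    refine ⟨fun i j => ?_, ?_⟩
    · exact (h i j).2
    · have h1 : ((Matrix.GeneralLinearGroup.map (n := Fin 2) w.integer.subtype h : GL (Fin 2) F) :
          Matrix (Fin 2) (Fin 2) F).det = w.integer.subtype (h : Matrix (Fin 2) (Fin 2) w.integer).det := by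
        rw [RingHom.map_det]; rfl
      rw [h1]
      have h2 : IsUnit ((h : Matrix (Fin 2) (Fin 2) w.integer).det) :=
        (Matrix.isUnit_iff_isUnit_det _).mp h.isUnit
      exact (Valuation.Integers.isUnit_iff_valuation_eq_one (Valuation.integer.integers w)).mp h2
  · rintro ⟨h1, h2⟩
    let M : Matrix (Fin 2) (Fin 2) w.integer := fun i j => ⟨g i j, h1 i j⟩
    have hM : (M.det : F) = (g : Matrix (Fin 2) (Fin 2) F).det := by
      have := RingHom.map_det w.integer.subtype M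
      exact this
    have hu : IsUnit M.det := by
      rw [Valuation.Integers.isUnit_iff_valuation_eq_one (Valuation.integer.integers w)]
      change w (M.det : F) = 1
      rw [hM, h2]
    refine ⟨Matrix.GeneralLinearGroup.mk'' M hu, ?_⟩
    apply Units.ext
    ext i j
    rfl

/-! ### special elements -/

/-- upper unipotent -/
def nn (x : F) : GL (Fin 2) F := mk2 1 x 0 1 (by simp)
/-- lower unipotent -/
def nl (x : F) : GL (Fin 2) F := mk2 1 0 x 1 (by simp)
/-- diagonal -/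
def dd (a b : F) (ha : a ≠ 0) (hb : b ≠ 0) : GL (Fin 2) F := mk2 a 0 0 b (by simp [ha, hb])
/-- Weyl element -/
def ss : GL (Fin 2) F := mk2 0 1 1 0 (by simp)
/-- Atkin-Lehner element -/
def wA (ϖ : F) (h : ϖ ≠ 0) : GL (Fin 2) F := mk2 0 1 ϖ 0 (by simp [h])
/-- coset representatives -/
def kap (b : F) : GL (Fin 2) F := mk2 b 1 1 0 (by simp)
/-- scalars -/
def scal (z : F) (h : z ≠ 0) : GL (Fin 2) F := dd z z h h

lemma scal_comm (z : F) (h : z ≠ 0) (g : GL (Fin 2) F) : scal z h * g = g * scal z h := by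
  apply GL_ext <;> simp [mul_apply', scal, dd] <;> ring

/-- the standard Iwahori subgroup -/
def Iw : Subgroup (GL (Fin 2) F) where
  carrier := {g | g ∈ GLint w ∧ w (g 1 0) < 1}
  one_mem' := ⟨one_mem _, by simp⟩
  mul_mem' := by
    rintro a b ⟨ha, ha'⟩ ⟨hb, hb'⟩
    refine ⟨mul_mem ha hb, ?_⟩
    rw [mem_GLint] at ha hb
    rw [mul_apply']
    refine lt_of_le_of_lt (w.map_add _ _) (max_lt ?_ ?_)
    · rw [map_mul]
      exact mul_lt_one_of_lt_of_le ha' (hb.1 0 0)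
    · rw [map_mul, mul_comm]
      exact mul_lt_one_of_lt_of_le hb' (ha.1 1 1)
  inv_mem' := by
    rintro a ⟨ha, ha'⟩
    refine ⟨inv_mem ha, ?_⟩
    rw [mem_GLint] at ha
    rw [inv_10, Valuation.map_neg, map_mul, map_inv₀, ha.2]
    simpa using ha'

lemma Iw_le : Iw w ≤ GLint w := fun _ h => h.1

lemma mem_Iw (g : GL (Fin 2) F) :
    g ∈ Iw w ↔ g ∈ GLint w ∧ w (g 1 0) < 1 := Iff.rfl

lemma mem_Iw' (g : GL (Fin 2) F) :
    g ∈ Iw w ↔ w (g 0 0) ≤ 1 ∧ w (g 0 1) ≤ 1 ∧ w (g 1 0) < 1 ∧ w (g 1 1) ≤ 1 ∧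
      w (g : Matrix (Fin 2) (Fin 2) F).det = 1 := by
  rw [mem_Iw, mem_GLint]
  constructor
  · rintro ⟨⟨h1, h2⟩, h3⟩
    exact ⟨h1 _ _, h1 _ _, h3, h1 _ _, h2⟩
  · rintro ⟨h1, h2, h3, h4, h5⟩
    refine ⟨⟨?_, h5⟩, h3⟩
    intro i j
    fin_cases i <;> fin_cases j
    · exact h1
    · exact h2
    · exact h3.le
    · exact h4

lemma nn_mem_Iw {x : F} (h : w x ≤ 1) : nn x ∈ Iw w := by
  rw [mem_Iw']; simp [nn, h]

lemma nl_mem_Iw {x : F} (h : w x < 1) : nl x ∈ Iw w := by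
  rw [mem_Iw']; simp [nl, h]

lemma nn_mem {x : F} (h : w x ≤ 1) : nn x ∈ GLint w := Iw_le w (nn_mem_Iw w h)

lemma nl_mem {x : F} (h : w x ≤ 1) : nl x ∈ GLint w := by
  rw [mem_GLint]
  refine ⟨?_, by simp [nl]⟩
  intro i j
  fin_cases i <;> fin_cases j <;> simp [nl, h]

lemma dd_mem_Iw {a b : F} (ha hb) (h : w a = 1) (h' : w b = 1) : dd a b ha hb ∈ Iw w := by
  rw [mem_Iw']; simp [dd, h, h']

lemma ss_mem : (ss : GL (Fin 2) F) ∈ GLint w := by
  rw [mem_GLint]
  refine ⟨?_, by simp [ss]⟩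
  intro i j
  fin_cases i <;> fin_cases j <;> simp [ss]

lemma kap_mem {b : F} (h : w b ≤ 1) : kap b ∈ GLint w := by
  rw [mem_GLint]
  refine ⟨?_, by simp [kap]⟩
  intro i j
  fin_cases i <;> fin_cases j <;> simp [kap, h]

/-! ### discreteness -/

lemma lt_one_iff (x : ℤᵐ⁰) : x < 1 ↔ x ≤ exp (-1 : ℤ) := by
  rcases eq_or_ne x 0 with rfl | hx
  · simp
  · obtain ⟨n, rfl⟩ : ∃ n : ℤ, x = exp n := ⟨log x, (exp_log hx).symm⟩
    rw [show (1 : ℤᵐ⁰) = exp 0 from rfl, exp_lt_exp, exp_le_exp]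
    omega

lemma lt_iff_le_mul {x y : ℤᵐ⁰} (hy : y ≠ 0) : x < y ↔ x ≤ exp (-1 : ℤ) * y := by
  have : x < y ↔ x * y⁻¹ < 1 := by
    rw [← div_eq_mul_inv, div_lt_one₀ (zero_lt_iff.mpr hy)]
  rw [this, lt_one_iff, ← div_eq_mul_inv, div_le_iff₀ (zero_lt_iff.mpr hy)]

lemma exists_exp {x : F} (hx : x ≠ 0) : ∃ n : ℤ, w x = exp n :=
  ⟨log (w x), (exp_log ((Valuation.ne_zero_iff w).mpr hx)).symm⟩

/-! ### digits and cosets of the Iwahori subgroup -/

/-- `D` is a set of representatives of the residue field. -/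
structure IsDigits (D : Finset F) : Prop where
  le : ∀ b ∈ D, w b ≤ 1
  ex : ∀ x, w x ≤ 1 → ∃ b ∈ D, w (x - b) < 1
  uniq : ∀ b ∈ D, ∀ c ∈ D, w (b - c) < 1 → b = c

variable {w}

/-- representatives of `GL₂(O)/Iw` -/
def rep (D : Finset F) : Option D → GL (Fin 2) F
  | none => 1
  | some b => kap b

lemma rep_mem {D : Finset F} (hD : IsDigits w D) (t : Option D) : rep D t ∈ GLint w := by
  cases t with
  | none => exact one_mem _
  | some b => exact kap_mem w (hD.le b b.2)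

lemma exists_rep {D : Finset F} (hD : IsDigits w D) {k : GL (Fin 2) F} (hk : k ∈ GLint w) :
    ∃ t, (rep D t)⁻¹ * k ∈ Iw w := by
  by_cases h : w (k 1 0) < 1
  · exact ⟨none, by simpa [rep] using ⟨hk, h⟩⟩
  · have h1 : w (k 1 0) = 1 := le_antisymm (((mem_GLint w k).mp hk).1 1 0) (not_lt.mp h)
    have h0 : k 1 0 ≠ 0 := by
      intro h0; rw [h0] at h1; simp at h1
    have h2 : w (k 0 0 / k 1 0) ≤ 1 := by
      rw [map_div₀, h1, div_one]; exact ((mem_GLint w k).mp hk).1 0 0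
    obtain ⟨b, hb, hb'⟩ := hD.ex _ h2
    refine ⟨some ⟨b, hb⟩, ?_⟩
    refine ⟨mul_mem (inv_mem (rep_mem hD _)) hk, ?_⟩
    have : ((rep D (some ⟨b, hb⟩))⁻¹ * k) 1 0 = (k 0 0 / k 1 0 - b) * k 1 0 := by
      rw [mul_apply', inv_10, inv_11]
      simp [rep, kap]
      field_simp
      ring
    rw [this, map_mul, h1, mul_one]
    exact hb'

lemma rep_inj {D : Finset F} (hD : IsDigits w D) {t u : Option D}
    (h : (rep D t)⁻¹ * rep D u ∈ Iw w) : t = u := by
  have h2 := h.2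
  rw [mul_apply', inv_10, inv_11] at h2
  cases t with
  | none =>
    cases u with
    | none => rfl
    | some c => simp [rep, kap] at h2
  | some b =>
    cases u with
    | none => simp [rep, kap] at h2
    | some c =>
      simp [rep, kap] at h2
      have : (b : F) = c := by
        refine hD.uniq b b.2 c c.2 ?_
        rw [← Valuation.map_neg]
        convert h2 using 2
        ring
      rw [Subtype.ext this]

/-- permutation of the cosets of the Iwahori subgroup. -/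
theorem sum_rep_mul {M : Type*} [AddCommMonoid M] {D : Finset F} (hD : IsDigits w D)
    (f : GL (Fin 2) F → M) (hf : ∀ g, ∀ i ∈ Iw w, f (g * i) = f g) {k : GL (Fin 2) F}
    (hk : k ∈ GLint w) : ∑ t : Option D, f (k * rep D t) = ∑ t : Option D, f (rep D t) := by
  choose! τ hτ using fun t : Option D => exists_rep hD (mul_mem hk (rep_mem hD t))
  have hinj : Function.Injective τ := by
    intro t u htu
    apply rep_inj hD
    have h1 := hτ t
    have h2 := hτ u
    rw [← htu] at h2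
    have h3 := mul_mem (inv_mem h1) h2
    convert h3 using 1
    group
  have hbij : Function.Bijective τ := Finite.injective_iff_bijective.mp hinj
  rw [← Function.Bijective.sum_comp hbij (fun t => f (rep D t))]
  refine Finset.sum_congr rfl fun t _ => ?_
  have : k * rep D t = rep D (τ t) * ((rep D (τ t))⁻¹ * (k * rep D t)) := by group
  rw [this, hf _ _ (hτ t)]

lemma sum_option {M : Type*} [AddCommMonoid M] {D : Finset F} (f : GL (Fin 2) F → M) :
    ∑ t : Option D, f (rep D t) = f 1 + ∑ b ∈ D, f (kap b) := by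
  rw [Fintype.sum_option]
  congr 1
  exact Finset.sum_coe_sort D (fun b => f (kap b))

end

end Pool.Agent.H330R2
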