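import Mathlib
import Pool.Agent.H330R2.Local

/-!
# Local theory: Steinberg vectors and spherical vectors (helper file)
-/

namespace Pool.Agent.H330R2

open WithZero Matrix

noncomputable section

variable {F : Type} [Field F] {w : Valuation F ℤᵐ⁰}

/-- `x` satisfies the relations of the Iwahori-fixed vector of the Steinberg representation. -/
structure StVec (w : Valuation F ℤᵐ⁰) (ϖ : F) (hϖ : ϖ ≠ 0) (D : Finset F) {V : Type} [AddCommGroup V]
    [Module ℂ V] (ρ : Representation ℂ (GL (Fin 2) F) V) (x : V) : Prop where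
  iw : ∀ k ∈ Iw w, ρ k x = x
  center : ∀ (z : F) (hz : z ≠ 0), ρ (scal z hz) x = x
  atkin : ρ (wA ϖ hϖ) x = -x
  harm : ∑ t : Option D, ρ (rep D t) x = 0

variable {ϖ : F} {hϖ : ϖ ≠ 0} {D : Finset F}

/-- the property that `g` acts on Steinberg vectors by a universal constant modulo `coinvKer`. -/
def PC (w : Valuation F ℤᵐ⁰) (ϖ : F) (hϖ : ϖ ≠ 0) (D : Finset F) (g : GL (Fin 2) F) : Prop :=
  ∃ c : ℂ, ∀ (V : Type) [AddCommGroup V] [Module ℂ V] (ρ : Representation ℂ (GL (Fin 2) F) V) (x : V),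
    StVec w ϖ hϖ D ρ x → ρ g x - c • x ∈ coinvKer ρ (Iw w)

lemma PC_left {g k : GL (Fin 2) F} (hk : k ∈ Iw w) (h : PC w ϖ hϖ D g) : PC w ϖ hϖ D (k * g) := by
  obtain ⟨c, hc⟩ := h
  refine ⟨c, fun V _ _ ρ x hx => ?_⟩
  have : ρ (k * g) x - c • x = (ρ k (ρ g x) - ρ g x) + (ρ g x - c • x) := by
    rw [map_mul, Module.End.mul_apply]; abel
  rw [this]
  exact Submodule.add_mem _ (sub_mem_coinvKer ρ hk _) (hc V ρ x hx)

lemma PC_right {g k : GL (Fin 2) F} (hk : k ∈ Iw w) (h : PC w ϖ hϖ D g) : PC w ϖ hϖ D (g * k) := by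
  obtain ⟨c, hc⟩ := h
  refine ⟨c, fun V _ _ ρ x hx => ?_⟩
  rw [map_mul, Module.End.mul_apply, hx.iw k hk]
  exact hc V ρ x hx

lemma PC_center {g : GL (Fin 2) F} (z : F) (hz : z ≠ 0) (h : PC w ϖ hϖ D g) :
    PC w ϖ hϖ D (g * scal z hz) := by
  obtain ⟨c, hc⟩ := h
  refine ⟨c, fun V _ _ ρ x hx => ?_⟩
  rw [map_mul, Module.End.mul_apply, hx.center]
  exact hc V ρ x hx

lemma PC_right_w {g : GL (Fin 2) F} (h : PC w ϖ hϖ D g) : PC w ϖ hϖ D (g * wA ϖ hϖ) := by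
  obtain ⟨c, hc⟩ := h
  refine ⟨-c, fun V _ _ ρ x hx => ?_⟩
  rw [map_mul, Module.End.mul_apply, hx.atkin, map_neg, neg_smul, ← neg_sub']
  exact Submodule.neg_mem _ (hc V ρ x hx)

lemma wA_normalizes (hw : w ϖ = exp (-1 : ℤ)) {u : GL (Fin 2) F} (hu : u ∈ Iw w) :
    wA ϖ hϖ * u * (wA ϖ hϖ)⁻¹ ∈ Iw w := by
  rw [mem_Iw'] at hu ⊢
  obtain ⟨h1, h2, h3, h4, h5⟩ := hu
  have hd : ((wA ϖ hϖ : GL (Fin 2) F) : Matrix (Fin 2) (Fin 2) F).det = -ϖ := by simp [wA]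
  have e00 : (wA ϖ hϖ * u * (wA ϖ hϖ)⁻¹) 0 0 = u 1 1 := by
    rw [mul_apply', mul_apply', mul_apply', inv_00, inv_10, hd]
    simp [wA]; field_simp
  have e01 : (wA ϖ hϖ * u * (wA ϖ hϖ)⁻¹) 0 1 = u 1 0 / ϖ := by
    rw [mul_apply', mul_apply', mul_apply', inv_01, inv_11, hd]
    simp [wA]; field_simp
  have e10 : (wA ϖ hϖ * u * (wA ϖ hϖ)⁻¹) 1 0 = ϖ * u 0 1 := by
    rw [mul_apply', mul_apply', mul_apply', inv_00, inv_10, hd]
    simp [wA]; field_simp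
  have e11 : (wA ϖ hϖ * u * (wA ϖ hϖ)⁻¹) 1 1 = u 0 0 := by
    rw [mul_apply', mul_apply', mul_apply', inv_01, inv_11, hd]
    simp [wA]; field_simp
  rw [e00, e01, e10, e11]
  refine ⟨h4, ?_, ?_, h1, ?_⟩
  · rw [map_div₀, hw]
    rw [lt_one_iff] at h3
    rwa [div_le_one₀ (by simp)]
  · rw [map_mul, hw, lt_one_iff]
    calc exp (-1 : ℤ) * w (u 0 1) ≤ exp (-1 : ℤ) * 1 := by gcongr
      _ = _ := by simp
  · rw [det_mul', det_mul', det_inv', map_mul, map_mul, map_inv₀, h5, mul_one, mul_inv_cancel₀]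
    rw [Valuation.ne_zero_iff]
    exact det_ne' _

lemma PC_left_w (hw : w ϖ = exp (-1 : ℤ)) {g : GL (Fin 2) F} (h : PC w ϖ hϖ D g) :
    PC w ϖ hϖ D (wA ϖ hϖ * g) := by
  obtain ⟨c, hc⟩ := h
  refine ⟨-c, fun V _ _ ρ x hx => ?_⟩
  have h1 := map_mem_coinvKer ρ (h := wA ϖ hϖ) (fun u hu => wA_normalizes hw hu) (hc V ρ x hx)
  rw [map_sub, map_smul, hx.atkin, smul_neg] at h1
  rw [map_mul, Module.End.mul_apply]
  convert h1 using 1
  simp

lemma wA_sq : wA ϖ hϖ * wA ϖ hϖ = scal ϖ hϖ := by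
  apply GL_ext <;> simp [mul_apply', wA, scal, dd]

lemma PC_of_center {g : GL (Fin 2) F} (z : F) (hz : z ≠ 0) (h : PC w ϖ hϖ D (g * scal z hz)) :
    PC w ϖ hϖ D g := by
  have := PC_center z⁻¹ (inv_ne_zero hz) h
  convert this using 1
  rw [mul_assoc]
  conv_lhs => rw [← mul_one g]
  congr 1
  apply GL_ext <;> simp [mul_apply', scal, dd, hz]

lemma PC_of_right_w {g : GL (Fin 2) F} (h : PC w ϖ hϖ D (g * wA ϖ hϖ)) : PC w ϖ hϖ D g := by
  have := PC_right_w h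
  rw [mul_assoc, wA_sq] at this
  exact PC_of_center _ _ this

lemma PC_of_left_w (hw : w ϖ = exp (-1 : ℤ)) {g : GL (Fin 2) F} (h : PC w ϖ hϖ D (wA ϖ hϖ * g)) :
    PC w ϖ hϖ D g := by
  have := PC_left_w hw h
  rw [← mul_assoc, wA_sq, scal_comm] at this
  exact PC_of_center _ _ this

/-- `ss = (1/ϖ) · diag(ϖ,1) · w`. -/
lemma kap_eq (b : F) : kap b = scal ϖ⁻¹ (inv_ne_zero hϖ) * (nn b * dd ϖ 1 hϖ one_ne_zero * wA ϖ hϖ) := by
  apply GL_ext <;> simp [mul_apply', wA, scal, dd, kap, nn] <;> field_simp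

lemma StVec.kap {V : Type} [AddCommGroup V] [Module ℂ V] {ρ : Representation ℂ (GL (Fin 2) F) V} {x : V}
    (hx : StVec w ϖ hϖ D ρ x) (b : F) :
    ρ (kap b) x = - ρ (nn b * dd ϖ 1 hϖ one_ne_zero) x := by
  rw [kap_eq (hϖ := hϖ) b, scal_comm, map_mul, Module.End.mul_apply, hx.center, map_mul,
    Module.End.mul_apply, hx.atkin, map_neg]

lemma StVec.eq_sum {V : Type} [AddCommGroup V] [Module ℂ V] {ρ : Representation ℂ (GL (Fin 2) F) V} {x : V}
    (hx : StVec w ϖ hϖ D ρ x) :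
    x = ∑ b ∈ D, ρ (nn b * dd ϖ 1 hϖ one_ne_zero) x := by
  have h := hx.harm
  rw [sum_option (D := D) (fun g => ρ g x)] at h
  simp only [map_one, Module.End.one_apply] at h
  simp_rw [hx.kap] at h
  rw [Finset.sum_neg_distrib, add_neg_eq_zero] at h
  exact h

/-- `diag(ϖⁿ, 1)` -/
def an (ϖ : F) (hϖ : ϖ ≠ 0) (n : ℕ) : GL (Fin 2) F := dd (ϖ ^ n) 1 (pow_ne_zero n hϖ) one_ne_zero

lemma an_mul (n : ℕ) (b : F) :
    an ϖ hϖ n * (nn b * dd ϖ 1 hϖ one_ne_zero) = nn (ϖ ^ n * b) * an ϖ hϖ (n + 1) := by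
  apply GL_ext <;> simp [mul_apply', dd, nn, an] <;> ring

lemma StVec.an_eq {V : Type} [AddCommGroup V] [Module ℂ V] {ρ : Representation ℂ (GL (Fin 2) F) V} {x : V}
    (hx : StVec w ϖ hϖ D ρ x) (n : ℕ) :
    ρ (an ϖ hϖ n) x = ∑ b ∈ D, ρ (nn (ϖ ^ n * b)) (ρ (an ϖ hϖ (n + 1)) x) := by
  conv_lhs => rw [hx.eq_sum]
  rw [map_sum]
  refine Finset.sum_congr rfl fun b _ => ?_
  rw [← Module.End.mul_apply, ← map_mul, an_mul, map_mul, Module.End.mul_apply]

lemma card_pos (hD : IsDigits w D) : (D.card : ℂ) ≠ 0 := by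
  obtain ⟨b, hb, _⟩ := hD.ex 0 (by simp)
  have : D.card ≠ 0 := Finset.card_ne_zero_of_mem hb
  exact_mod_cast this

lemma w_pow_mul_le (hw : w ϖ = exp (-1 : ℤ)) (hD : IsDigits w D) (n : ℕ) {b : F} (hb : b ∈ D) :
    w (ϖ ^ n * b) ≤ 1 := by
  rw [map_mul, map_pow, hw]
  refine mul_le_one' (pow_le_one₀ (by simp) ?_) (hD.le b hb)
  rw [show (1 : ℤᵐ⁰) = exp 0 from rfl, exp_le_exp]; norm_num

lemma PC_an (hw : w ϖ = exp (-1 : ℤ)) (hD : IsDigits w D) (n : ℕ) : PC w ϖ hϖ D (an ϖ hϖ n) := by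
  induction n with
  | zero =>
    refine ⟨1, fun V _ _ ρ x hx => ?_⟩
    have : an ϖ hϖ 0 = 1 := by apply GL_ext <;> simp [an, dd]
    rw [this]; simp
  | succ n ih =>
    obtain ⟨c, hc⟩ := ih
    refine ⟨c / D.card, fun V _ _ ρ x hx => ?_⟩
    have h1 := hc V ρ x hx
    rw [hx.an_eq n] at h1
    have h2 : (D.card : ℂ) • (ρ (an ϖ hϖ (n + 1)) x - (c / D.card) • x) =
        ((∑ b ∈ D, ρ (nn (ϖ ^ n * b)) (ρ (an ϖ hϖ (n + 1)) x)) - c • x) -
        ∑ b ∈ D, (ρ (nn (ϖ ^ n * b)) (ρ (an ϖ hϖ (n + 1)) x) - ρ (an ϖ hϖ (n + 1)) x) := by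
      rw [Finset.sum_sub_distrib, Finset.sum_const, smul_sub, smul_smul,
        mul_div_cancel₀ _ (card_pos hD), Nat.cast_smul_eq_nsmul]
      abel
    have h3 : (D.card : ℂ) • (ρ (an ϖ hϖ (n + 1)) x - (c / D.card) • x) ∈ coinvKer ρ (Iw w) := by
      rw [h2]
      refine Submodule.sub_mem _ h1 (Submodule.sum_mem _ fun b hb => ?_)
      exact sub_mem_coinvKer ρ (nn_mem_Iw w (w_pow_mul_le hw hD n hb)) _
    have h4 := Submodule.smul_mem _ ((D.card : ℂ)⁻¹) h3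
    rwa [smul_smul, inv_mul_cancel₀ (card_pos hD), one_smul] at h4

lemma dn_mul (n : ℕ) : dd 1 (ϖ ^ n) one_ne_zero (pow_ne_zero n hϖ) * wA ϖ hϖ =
    wA ϖ hϖ * an ϖ hϖ n := by
  apply GL_ext <;> simp [mul_apply', dd, wA, an] <;> ring

lemma PC_dn (hw : w ϖ = exp (-1 : ℤ)) (hD : IsDigits w D) (n : ℕ) :
    PC w ϖ hϖ D (dd 1 (ϖ ^ n) one_ne_zero (pow_ne_zero n hϖ)) := by
  apply PC_of_right_w
  rw [dn_mul]
  exact PC_left_w hw (PC_an hw hD n)

lemma exists_pow_unit (hw : w ϖ = exp (-1 : ℤ)) {x : F} (hx : x ≠ 0) (h1 : w x ≤ 1) :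
    ∃ n : ℕ, ∃ u : F, w u = 1 ∧ u ≠ 0 ∧ x = ϖ ^ n * u := by
  have hϖ : ϖ ≠ 0 := by
    rintro rfl
    rw [map_zero] at hw
    exact exp_ne_zero hw.symm
  obtain ⟨m, hm⟩ := exists_exp w hx
  rw [hm, show (1 : ℤᵐ⁰) = exp 0 from rfl, exp_le_exp] at h1
  obtain ⟨n, rfl⟩ : ∃ n : ℕ, m = -n := ⟨(-m).toNat, by omega⟩
  refine ⟨n, x / ϖ ^ n, ?_, div_ne_zero hx (pow_ne_zero n hϖ), ?_⟩
  · rw [map_div₀, map_pow, hw, hm, ← WithZero.exp_nsmul]
    simp
  · field_simp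

lemma ϖ_lt_one (hw : w ϖ = exp (-1 : ℤ)) : w ϖ < 1 := by
  rw [hw, show (1 : ℤᵐ⁰) = exp 0 from rfl, exp_lt_exp]; norm_num

lemma PC_of_min (hw : w ϖ = exp (-1 : ℤ)) (hD : IsDigits w D) {g : GL (Fin 2) F}
    (hb : w (g 0 1) ≤ w (g 0 0)) (hc : w (g 1 0) < w (g 0 0)) (hd : w (g 1 1) ≤ w (g 0 0)) :
    PC w ϖ hϖ D g := by
  have ha : g 0 0 ≠ 0 := by
    intro h; rw [h, map_zero] at hc; exact not_lt_zero hc
  have hwa : 0 < w (g 0 0) := zero_lt_iff.mpr ((Valuation.ne_zero_iff w).mpr ha)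
  set e : F := g 1 1 / g 0 0 - g 0 1 * g 1 0 / (g 0 0 * g 0 0) with he
  have he0 : e ≠ 0 := by
    intro h
    apply det_ne g
    rw [he] at h
    field_simp at h
    linear_combination h
  have hwe : w e ≤ 1 := by
    rw [he]
    refine (w.map_sub _ _).trans (max_le ?_ ?_)
    · rw [map_div₀]; exact (div_le_one₀ hwa).mpr hd
    · rw [map_div₀, map_mul, map_mul]
      exact (div_le_one₀ (mul_pos hwa hwa)).mpr (mul_le_mul' hb hc.le)
  obtain ⟨n, u, hu, hu0, hen⟩ := exists_pow_unit hw he0 hwe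
  have key : g = nl (g 1 0 / g 0 0) * (((dd 1 (ϖ ^ n) one_ne_zero (pow_ne_zero n hϖ) * scal (g 0 0) ha)
      * dd 1 u one_ne_zero hu0) * nn (g 0 1 / g 0 0)) := by
    have h11 : g 1 1 = g 1 0 * g 0 1 / g 0 0 + (ϖ ^ n * u) * g 0 0 := by
      rw [← hen, he]; field_simp; ring
    apply GL_ext
    · simp [mul_apply', dd, nn, nl, scal]
    · simp [mul_apply', dd, nn, nl, scal]; field_simp
    · simp [mul_apply', dd, nn, nl, scal]; field_simp
    · rw [h11]; simp [mul_apply', dd, nn, nl, scal]; field_simp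
  rw [key]
  apply PC_left (nl_mem_Iw w _)
  · apply PC_right (nn_mem_Iw w _)
    · apply PC_right (dd_mem_Iw w _ _ (map_one _) hu)
      exact PC_center _ _ (PC_dn hw hD n)
    · rw [map_div₀]; exact (div_le_one₀ hwa).mpr hb
  · rw [map_div₀]; exact (div_lt_one₀ hwa).mpr hc

/-- universal constants for all group elements -/
theorem PC_all (hw : w ϖ = exp (-1 : ℤ)) (hD : IsDigits w D) (g : GL (Fin 2) F) :
    PC w ϖ hϖ D g := by
  have caseB : ∀ g : GL (Fin 2) F, w (g 0 0) < w (g 0 1) → w (g 1 1) < w (g 0 1) →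
      w (g 1 0) < w (g 0 1) → PC w ϖ hϖ D g := by
    intro g h1 h2 h3
    have hb : w (g 0 1) ≠ 0 := by
      intro h; rw [h] at h1; exact not_lt_zero h1
    apply PC_of_right_w (hϖ := hϖ)
    apply PC_of_min hw hD
    · have e1 : (g * wA ϖ hϖ) 0 1 = g 0 0 := by simp [mul_apply', wA]
      have e2 : (g * wA ϖ hϖ) 0 0 = g 0 1 * ϖ := by simp [mul_apply', wA]
      rw [e1, e2, map_mul, hw, mul_comm]
      exact (lt_iff_le_mul hb).mp h1
    · have e1 : (g * wA ϖ hϖ) 1 0 = g 1 1 * ϖ := by simp [mul_apply', wA]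
      have e2 : (g * wA ϖ hϖ) 0 0 = g 0 1 * ϖ := by simp [mul_apply', wA]
      rw [e1, e2, map_mul, map_mul, hw]
      exact mul_lt_mul_of_pos_right h2 (by simp)
    · have e1 : (g * wA ϖ hϖ) 1 1 = g 1 0 := by simp [mul_apply', wA]
      have e2 : (g * wA ϖ hϖ) 0 0 = g 0 1 * ϖ := by simp [mul_apply', wA]
      rw [e1, e2, map_mul, hw, mul_comm]
      exact (lt_iff_le_mul hb).mp h3
  have caseC : ∀ g : GL (Fin 2) F, w (g 0 0) ≤ w (g 1 0) → w (g 1 1) ≤ w (g 1 0) →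
      w (g 0 1) ≤ w (g 1 0) → PC w ϖ hϖ D g := by
    intro g h1 h2 h3
    have hc : w (g 1 0) ≠ 0 := by
      intro h; rw [h, le_zero_iff] at h1 h3
      rw [Valuation.zero_iff] at h1 h3
      apply det_ne g; rw [h1, h3]; ring
    apply PC_of_left_w (hϖ := hϖ) hw
    have hlt : ∀ x : F, w x ≤ w (g 1 0) → w (ϖ * x) < w (g 1 0) := by
      intro x hx
      rw [map_mul]
      rw [lt_iff_le_mul hc, hw]
      gcongr
    apply PC_of_min hw hD
    · have e1 : (wA ϖ hϖ * g) 0 1 = g 1 1 := by simp [mul_apply', wA]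
      have e2 : (wA ϖ hϖ * g) 0 0 = g 1 0 := by simp [mul_apply', wA]
      rw [e1, e2]; exact h2
    · have e1 : (wA ϖ hϖ * g) 1 0 = ϖ * g 0 0 := by simp [mul_apply', wA]
      have e2 : (wA ϖ hϖ * g) 0 0 = g 1 0 := by simp [mul_apply', wA]
      rw [e1, e2]; exact hlt _ h1
    · have e1 : (wA ϖ hϖ * g) 1 1 = ϖ * g 0 1 := by simp [mul_apply', wA]
      have e2 : (wA ϖ hϖ * g) 0 0 = g 1 0 := by simp [mul_apply', wA]
      rw [e1, e2]; exact (hlt _ h3).le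
  have caseD : ∀ g : GL (Fin 2) F, w (g 0 0) ≤ w (g 1 1) → w (g 0 1) ≤ w (g 1 1) →
      w (g 1 0) < w (g 1 1) → PC w ϖ hϖ D g := by
    intro g h1 h2 h3
    have hd : w (g 1 1) ≠ 0 := by
      intro h; rw [h] at h3; exact not_lt_zero h3
    apply PC_of_right_w (hϖ := hϖ)
    apply PC_of_left_w (hϖ := hϖ) hw
    have e00 : (wA ϖ hϖ * (g * wA ϖ hϖ)) 0 0 = g 1 1 * ϖ := by simp [mul_apply', wA]
    have e01 : (wA ϖ hϖ * (g * wA ϖ hϖ)) 0 1 = g 1 0 := by simp [mul_apply', wA]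
    have e10 : (wA ϖ hϖ * (g * wA ϖ hϖ)) 1 0 = ϖ * (g 0 1 * ϖ) := by simp [mul_apply', wA]
    have e11 : (wA ϖ hϖ * (g * wA ϖ hϖ)) 1 1 = ϖ * g 0 0 := by simp [mul_apply', wA]
    apply PC_of_min hw hD
    · rw [e01, e00, map_mul, hw, mul_comm]
      exact (lt_iff_le_mul hd).mp h3
    · rw [e10, e00, map_mul, map_mul, map_mul, mul_comm]
      have : w (g 0 1) * w ϖ < w (g 1 1) := by
        rw [lt_iff_le_mul hd, mul_comm, hw]; gcongr
      exact mul_lt_mul_of_pos_right this (by rw [hw]; simp)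
    · rw [e11, e00, mul_comm, map_mul, map_mul]
      gcongr
  -- choose the minimal entry
  rcases le_total (w (g 0 0)) (w (g 1 1)) with hX | hX
  · rcases lt_or_ge (w (g 1 0)) (w (g 0 1)) with hY | hY
    · rcases lt_or_ge (w (g 1 1)) (w (g 0 1)) with hZ | hZ
      · exact caseB g (lt_of_le_of_lt hX hZ) hZ hY
      · exact caseD g hX hZ (lt_of_lt_of_le hY hZ)
    · rcases le_or_gt (w (g 1 1)) (w (g 1 0)) with hZ | hZ
      · exact caseC g (hX.trans hZ) hZ hY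
      · exact caseD g hX (hY.trans hZ.le) hZ
  · rcases lt_or_ge (w (g 1 0)) (w (g 0 1)) with hY | hY
    · rcases lt_or_ge (w (g 0 0)) (w (g 0 1)) with hZ | hZ
      · exact caseB g hZ (lt_of_le_of_lt hX hZ) hY
      · exact PC_of_min hw hD hZ (lt_of_lt_of_le hY hZ) hX
    · rcases le_or_gt (w (g 0 0)) (w (g 1 0)) with hZ | hZ
      · exact caseC g hZ (hX.trans hZ) hY
      · exact PC_of_min hw hD (hY.trans hZ.le) hZ hX

/-! ### spherical vectors -/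

section Spherical

variable {V : Type} [AddCommGroup V] [Module ℂ V]

/-- Cartan decomposition. -/
theorem cartan (hw : w ϖ = exp (-1 : ℤ)) (g : GL (Fin 2) F) :
    ∃ k ∈ GLint w, ∃ k' ∈ GLint w, ∃ n : ℕ, ∃ z : F, ∃ hz : z ≠ 0,
      g = k * (an ϖ hϖ n * scal z hz) * k' := by
  have main : ∀ g : GL (Fin 2) F, w (g 0 1) ≤ w (g 1 1) → w (g 1 0) ≤ w (g 1 1) →
      w (g 0 0) ≤ w (g 1 1) → ∃ k ∈ GLint w, ∃ k' ∈ GLint w, ∃ n : ℕ, ∃ z : F, ∃ hz : z ≠ 0,
      g = k * (an ϖ hϖ n * scal z hz) * k' := by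
    intro g hb hc ha
    have hd : g 1 1 ≠ 0 := by
      intro h; rw [h, map_zero, le_zero_iff, Valuation.zero_iff] at hb ha
      apply det_ne g; rw [hb, ha]; ring
    have hwd : 0 < w (g 1 1) := zero_lt_iff.mpr ((Valuation.ne_zero_iff w).mpr hd)
    set e : F := g 0 0 / g 1 1 - g 0 1 * g 1 0 / (g 1 1 * g 1 1) with he
    have he0 : e ≠ 0 := by
      intro h
      apply det_ne g
      rw [he] at h
      field_simp at h
      linear_combination h
    have hwe : w e ≤ 1 := by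
      rw [he]
      refine (w.map_sub _ _).trans (max_le ?_ ?_)
      · rw [map_div₀]; exact (div_le_one₀ hwd).mpr ha
      · rw [map_div₀, map_mul, map_mul]
        exact (div_le_one₀ (mul_pos hwd hwd)).mpr (mul_le_mul' hb hc)
    obtain ⟨n, u, hu, hu0, hen⟩ := exists_pow_unit hw he0 hwe
    refine ⟨nn (g 0 1 / g 1 1), nn_mem w ?_, dd u 1 hu0 one_ne_zero * nl (g 1 0 / g 1 1),
      mul_mem (Iw_le w (dd_mem_Iw w _ _ hu (map_one _))) (nl_mem w ?_), n, g 1 1, hd, ?_⟩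
    · rw [map_div₀]; exact (div_le_one₀ hwd).mpr hb
    · rw [map_div₀]; exact (div_le_one₀ hwd).mpr hc
    · have h00 : g 0 0 = g 0 1 * g 1 0 / g 1 1 + (ϖ ^ n * u) * g 1 1 := by
        rw [← hen, he]; field_simp; ring
      apply GL_ext
      · rw [h00]; simp [mul_apply', dd, nn, nl, scal, an]; field_simp; ring
      · simp [mul_apply', dd, nn, nl, scal, an]; field_simp
      · simp [mul_apply', dd, nn, nl, scal, an]; field_simp
      · simp [mul_apply', dd, nn, nl, scal, an]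
  -- move the largest entry to the position `1 1`
  have hs : ∀ (g : GL (Fin 2) F), (∃ k ∈ GLint w, ∃ k' ∈ GLint w, ∃ n : ℕ, ∃ z : F, ∃ hz : z ≠ 0,
      g * ss = k * (an ϖ hϖ n * scal z hz) * k') → ∃ k ∈ GLint w, ∃ k' ∈ GLint w, ∃ n : ℕ, ∃ z : F,
      ∃ hz : z ≠ 0, g = k * (an ϖ hϖ n * scal z hz) * k' := by
    rintro g ⟨k, hk, k', hk', n, z, hz, h⟩
    refine ⟨k, hk, k' * ss⁻¹, mul_mem hk' (inv_mem (ss_mem w)), n, z, hz, ?_⟩
    rw [← mul_assoc, ← h]; group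
  have hs' : ∀ (g : GL (Fin 2) F), (∃ k ∈ GLint w, ∃ k' ∈ GLint w, ∃ n : ℕ, ∃ z : F, ∃ hz : z ≠ 0,
      ss * g = k * (an ϖ hϖ n * scal z hz) * k') → ∃ k ∈ GLint w, ∃ k' ∈ GLint w, ∃ n : ℕ, ∃ z : F,
      ∃ hz : z ≠ 0, g = k * (an ϖ hϖ n * scal z hz) * k' := by
    rintro g ⟨k, hk, k', hk', n, z, hz, h⟩
    refine ⟨ss⁻¹ * k, mul_mem (inv_mem (ss_mem w)) hk, k', hk', n, z, hz, ?_⟩
    rw [mul_assoc, mul_assoc, ← mul_assoc k, ← h]; group
  rcases le_total (w (g 0 0)) (w (g 1 1)) with hX | hX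
  · rcases le_total (w (g 1 0)) (w (g 0 1)) with hY | hY
    · rcases le_total (w (g 1 1)) (w (g 0 1)) with hZ | hZ
      · -- g 0 1 largest: ss * g
        apply hs'
        apply main <;> simp [mul_apply', ss] <;> first | assumption | exact hX.trans hZ
      · exact main g hZ (hY.trans hZ) hX
    · rcases le_total (w (g 1 1)) (w (g 1 0)) with hZ | hZ
      · apply hs
        apply main <;> simp [mul_apply', ss] <;> first | assumption | exact hX.trans hZ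
      · exact main g (hY.trans hZ) hZ hX
  · rcases le_total (w (g 1 0)) (w (g 0 1)) with hY | hY
    · rcases le_total (w (g 0 0)) (w (g 0 1)) with hZ | hZ
      · apply hs'
        apply main <;> simp [mul_apply', ss] <;> first | assumption | exact hX.trans hZ
      · apply hs
        apply hs'
        apply main <;> simp [mul_apply', ss] <;> first | assumption | exact hY.trans hZ
    · rcases le_total (w (g 0 0)) (w (g 1 0)) with hZ | hZ
      · apply hs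
        apply main <;> simp [mul_apply', ss] <;> first | assumption | exact hX.trans hZ
      · apply hs
        apply hs'
        apply main <;> simp [mul_apply', ss] <;> first | assumption | exact hY.trans hZ

/-- a spherical vector with trivial central character and Hecke eigenvalue `q + 1` -/
structure SphVec (w : Valuation F ℤᵐ⁰) (ϖ : F) (hϖ : ϖ ≠ 0) (D : Finset F) {V : Type} [AddCommGroup V]
    [Module ℂ V] (ρ : Representation ℂ (GL (Fin 2) F) V) (x : V) : Prop where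
  sph : ∀ k ∈ GLint w, ρ k x = x
  center : ∀ (z : F) (hz : z ≠ 0), ρ (scal z hz) x = x
  hecke : ∑ t : Option D, ρ (rep D t * dd 1 ϖ one_ne_zero hϖ) x = (D.card + 1 : ℂ) • x

lemma an_conj : ss * an ϖ hϖ 1 * ss = dd 1 ϖ one_ne_zero hϖ := by
  apply GL_ext <;> simp [mul_apply', ss, an, dd]

lemma kap_dd (b : F) : kap b * dd 1 ϖ one_ne_zero hϖ = nn b * dd ϖ 1 hϖ one_ne_zero * ss := by
  apply GL_ext <;> simp [mul_apply', ss, kap, nn, dd]

theorem SphVec.main (hw : w ϖ = exp (-1 : ℤ)) (hD : IsDigits w D)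
    {ρ : Representation ℂ (GL (Fin 2) F) V} {x : V} (hx : SphVec w ϖ hϖ D ρ x) (g : GL (Fin 2) F) :
    ρ g x - x ∈ coinvKer ρ (GLint w) := by
  have h0 : ∀ n : ℕ, ρ (an ϖ hϖ n) x - x ∈ coinvKer ρ (GLint w) := by
    -- rewrite the Hecke relation
    have hh : ρ (dd 1 ϖ one_ne_zero hϖ) x + ∑ b ∈ D, ρ (nn b * dd ϖ 1 hϖ one_ne_zero) x =
        (D.card + 1 : ℂ) • x := by
      have h := hx.hecke
      rw [sum_option (D := D) (fun g => ρ (g * dd 1 ϖ one_ne_zero hϖ) x)] at h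
      simp only [one_mul] at h
      rw [← h]
      congr 1
      refine Finset.sum_congr rfl fun b _ => ?_
      rw [kap_dd, map_mul ρ _ ss, Module.End.mul_apply, hx.sph _ (ss_mem w)]
    have hcard : (D.card + 1 : ℂ) ≠ 0 := Nat.cast_add_one_ne_zero _
    have hcard' : (D.card : ℂ) ≠ 0 := card_pos hD
    -- base case
    have h1 : ρ (an ϖ hϖ 1) x - x ∈ coinvKer ρ (GLint w) := by
      have a1 : ρ (dd 1 ϖ one_ne_zero hϖ) x = ρ ss (ρ (an ϖ hϖ 1) x) := by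
        rw [← an_conj, map_mul, map_mul, Module.End.mul_apply, Module.End.mul_apply,
          hx.sph _ (ss_mem w)]
      have a2 : an ϖ hϖ 1 = dd ϖ 1 hϖ one_ne_zero := by
        apply GL_ext <;> simp [an, dd]
      have a3 : (D.card + 1 : ℂ) • (ρ (an ϖ hϖ 1) x - x) =
          -((ρ ss (ρ (an ϖ hϖ 1) x) - ρ (an ϖ hϖ 1) x) +
          ∑ b ∈ D, (ρ (nn b) (ρ (an ϖ hϖ 1) x) - ρ (an ϖ hϖ 1) x)) := by
        rw [smul_sub, ← hh, Finset.sum_sub_distrib, Finset.sum_const, a1, a2]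
        simp_rw [map_mul, Module.End.mul_apply]
        rw [add_smul, one_smul, Nat.cast_smul_eq_nsmul]
        abel
      have a4 : (D.card + 1 : ℂ) • (ρ (an ϖ hϖ 1) x - x) ∈ coinvKer ρ (GLint w) := by
        rw [a3]
        refine Submodule.neg_mem _ (Submodule.add_mem _ (sub_mem_coinvKer ρ (ss_mem w) _)
          (Submodule.sum_mem _ fun b hb => sub_mem_coinvKer ρ (nn_mem w (hD.le b hb)) _))
      have a5 := Submodule.smul_mem _ ((D.card + 1 : ℂ)⁻¹) a4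
      rwa [smul_smul, inv_mul_cancel₀ hcard, one_smul] at a5
    -- recursion
    have hrec : ∀ n : ℕ, ρ (an ϖ hϖ n) x + ∑ b ∈ D, ρ (nn (ϖ ^ (n + 1) * b)) (ρ (an ϖ hϖ (n + 2)) x) =
        (D.card + 1 : ℂ) • ρ (an ϖ hϖ (n + 1)) x := by
      intro n
      rw [← map_smul, ← hh, map_add, map_sum]
      congr 1
      · rw [← Module.End.mul_apply, ← map_mul]
        have : an ϖ hϖ (n + 1) * dd 1 ϖ one_ne_zero hϖ = an ϖ hϖ n * scal ϖ hϖ := by
          apply GL_ext <;> simp [mul_apply', an, dd, scal]; ring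
        rw [this, map_mul, Module.End.mul_apply, hx.center]
      · refine Finset.sum_congr rfl fun b _ => ?_
        rw [← Module.End.mul_apply, ← map_mul, ← an_mul, ← Module.End.mul_apply, ← map_mul]
    have step : ∀ n : ℕ, (ρ (an ϖ hϖ n) x - x ∈ coinvKer ρ (GLint w)) ∧
        (ρ (an ϖ hϖ (n + 1)) x - x ∈ coinvKer ρ (GLint w)) := by
      intro n
      induction n with
      | zero =>
        refine ⟨?_, h1⟩
        have : an ϖ hϖ 0 = 1 := by apply GL_ext <;> simp [an, dd]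
        rw [this]; simp
      | succ n ih =>
        refine ⟨ih.2, ?_⟩
        have b1 := hrec n
        have b2 : (D.card : ℂ) • (ρ (an ϖ hϖ (n + 2)) x - x) =
            (D.card + 1 : ℂ) • (ρ (an ϖ hϖ (n + 1)) x - x) - (ρ (an ϖ hϖ n) x - x) -
            ∑ b ∈ D, (ρ (nn (ϖ ^ (n + 1) * b)) (ρ (an ϖ hϖ (n + 2)) x) - ρ (an ϖ hϖ (n + 2)) x) := by
          rw [Finset.sum_sub_distrib, Finset.sum_const, smul_sub, smul_sub, ← b1, add_smul, one_smul,
            Nat.cast_smul_eq_nsmul, Nat.cast_smul_eq_nsmul]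
          abel
        have b3 : (D.card : ℂ) • (ρ (an ϖ hϖ (n + 2)) x - x) ∈ coinvKer ρ (GLint w) := by
          rw [b2]
          refine Submodule.sub_mem _ (Submodule.sub_mem _ (Submodule.smul_mem _ _ ih.2) ih.1)
            (Submodule.sum_mem _ fun b hb => sub_mem_coinvKer ρ (nn_mem w (w_pow_mul_le hw hD _ hb)) _)
        have b4 := Submodule.smul_mem _ ((D.card : ℂ)⁻¹) b3
        rwa [smul_smul, inv_mul_cancel₀ hcard', one_smul] at b4
    exact fun n => (step n).1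
  obtain ⟨k, hk, k', hk', n, z, hz, rfl⟩ := cartan (hϖ := hϖ) hw g
  have e : ρ (k * (an ϖ hϖ n * scal z hz) * k') x - x =
      (ρ k (ρ (an ϖ hϖ n) x) - ρ (an ϖ hϖ n) x) + (ρ (an ϖ hϖ n) x - x) := by
    rw [map_mul, map_mul, map_mul, Module.End.mul_apply, Module.End.mul_apply, Module.End.mul_apply,
      hx.sph _ hk', hx.center]
    abel
  rw [e]
  exact Submodule.add_mem _ (sub_mem_coinvKer ρ hk _) (h0 n)

end Spherical

end

end Pool.Agent.H330R2
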