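import Mathlib
import Pool.Agent.H330R2.Local2

/-!
# Local components at a Steinberg place / a spherical place (helper file, abstract form)
-/

namespace Pool.Agent.H330R2

open WithZero Matrix

noncomputable section

/-- `H` is a factor of `G` with commuting complement. -/
structure Factor {G H : Type} [Group G] [Group H] (ι : H →* G) (C : Subgroup G) : Prop where
  comm : ∀ h : H, ∀ c ∈ C, ι h * c = c * ι h
  surj : ∀ g : G, ∃ h : H, ∃ c ∈ C, g = ι h * c

section General

variable {G H : Type} [Group G] [Group H] {ι : H →* G} {C : Subgroup G} (hF : Factor ι C)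
  {V : Type} [AddCommGroup V] [Module ℂ V] (π : Representation ℂ G V)

/-- restriction to the factor -/
abbrev res (π : Representation ℂ G V) (ι : H →* G) : Representation ℂ H V := π.comp ι

lemma res_apply (h : H) (x : V) : res π ι h x = π (ι h) x := rfl

include hF in
lemma coinv_C_stable {U : Subgroup H} {c : G} (hc : c ∈ C) {x : V}
    (hx : x ∈ coinvKer (res π ι) U) : π c x ∈ coinvKer (res π ι) U := by
  unfold coinvKer at hx
  induction hx using Submodule.span_induction with
  | mem y hy =>
    obtain ⟨u, hu, z, rfl⟩ := hy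
    have : π c (res π ι u z - z) = res π ι u (π c z) - π c z := by
      rw [map_sub, res_apply, res_apply, ← Module.End.mul_apply, ← Module.End.mul_apply,
        ← map_mul, ← map_mul, hF.comm u c hc]
    rw [this]
    exact sub_mem_coinvKer _ hu _
  | zero => simp
  | add a b _ _ ha hb => rw [map_add]; exact Submodule.add_mem _ ha hb
  | smul r a _ ha => rw [map_smul]; exact Submodule.smul_mem _ r ha

/-- invariant submodules -/
def IsInv (π : Representation ℂ G V) (W : Submodule ℂ V) : Prop := ∀ g, ∀ x ∈ W, π g x ∈ W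

/-- the span of the translates -/
def cyc (π : Representation ℂ G V) (x : V) : Submodule ℂ V :=
  Submodule.span ℂ (Set.range fun g => π g x)

lemma mem_cyc (π : Representation ℂ G V) (x : V) (g : G) : π g x ∈ cyc π x :=
  Submodule.subset_span ⟨g, rfl⟩

lemma self_mem_cyc (π : Representation ℂ G V) (x : V) : x ∈ cyc π x := by
  have := mem_cyc π x 1
  simpa using this

lemma cyc_inv (π : Representation ℂ G V) (x : V) : IsInv π (cyc π x) := by
  intro g y hy
  unfold cyc at hy
  induction hy using Submodule.span_induction with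
  | mem y hy =>
    obtain ⟨h, rfl⟩ := hy
    simp only
    rw [← Module.End.mul_apply, ← map_mul]
    exact mem_cyc π x _
  | zero => simp
  | add a b _ _ ha hb => rw [map_add]; exact Submodule.add_mem _ ha hb
  | smul r a _ ha => rw [map_smul]; exact Submodule.smul_mem _ r ha

lemma cyc_le (π : Representation ℂ G V) {x : V} {W : Submodule ℂ V} (hW : IsInv π W) (hx : x ∈ W) :
    cyc π x ≤ W := by
  apply Submodule.span_le.mpr
  rintro _ ⟨g, rfl⟩
  exact hW g x hx

/-- irreducibility -/
def Irred (π : Representation ℂ G V) : Prop := ∀ W : Submodule ℂ V, IsInv π W → W = ⊥ ∨ W = ⊤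

include hF in
lemma X0_inv (U : Subgroup H) :
    IsInv π { carrier := {y | ∀ h : H, res π ι h y ∈ coinvKer (res π ι) U}
              add_mem' := fun {a b} ha hb h => by rw [map_add]; exact Submodule.add_mem _ (ha h) (hb h)
              zero_mem' := fun h => by simp
              smul_mem' := fun r a ha h => by rw [map_smul]; exact Submodule.smul_mem _ r (ha h) } := by
  intro g x hx h
  obtain ⟨h', c, hc, rfl⟩ := hF.surj g
  have : res π ι h (π (ι h' * c) x) = π c (res π ι (h * h') x) := by
    rw [res_apply, res_apply, ← Module.End.mul_apply, ← Module.End.mul_apply, ← map_mul, ← map_mul,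
      ← mul_assoc, ← map_mul, hF.comm _ c hc]
  rw [this]
  exact coinv_C_stable hF π hc (hx _)

include hF in
/-- a nonzero vector has a translate (under the factor) outside `coinvKer`. -/
lemma exists_not_mem (hirr : Irred π) {U : Subgroup H} {x : V} (hx : x ∉ coinvKer (res π ι) U)
    {y : V} (hy : y ≠ 0) : ∃ h : H, res π ι h y ∉ coinvKer (res π ι) U := by
  by_contra hcon
  push Not at hcon
  rcases hirr _ (X0_inv hF π U) with h | h
  · have : y ∈ (⊥ : Submodule ℂ V) := by rw [← h]; exact hcon
    exact hy (by simpa using this)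
  · have : x ∈ (⊤ : Submodule ℂ V) := Submodule.mem_top
    rw [← h] at this
    have := this 1
    rw [map_one] at this
    exact hx (by simpa using this)

end General

section Steinberg

variable {F : Type} [Field F] {w : Valuation F ℤᵐ⁰} {ϖ : F} {hϖ : ϖ ≠ 0} {D : Finset F}
variable {G : Type} [Group G] {ι : GL (Fin 2) F →* G} {C : Subgroup G}
  {V : Type} [AddCommGroup V] [Module ℂ V] {π : Representation ℂ G V}

lemma StVec.of_comm (hF : Factor ι C) {x : V} (hx : StVec w ϖ hϖ D (res π ι) x) {c : G} (hc : c ∈ C) :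
    StVec w ϖ hϖ D (res π ι) (π c x) := by
  have key : ∀ h, res π ι h (π c x) = π c (res π ι h x) := by
    intro h
    rw [res_apply, res_apply, ← Module.End.mul_apply, ← Module.End.mul_apply, ← map_mul, ← map_mul,
      hF.comm h c hc]
  refine ⟨fun k hk => ?_, fun z hz => ?_, ?_, ?_⟩
  · rw [key, hx.iw k hk]
  · rw [key, hx.center z hz]
  · rw [key, hx.atkin, map_neg]
  · simp_rw [key]
    rw [← map_sum, hx.harm, map_zero]

/-- the universal constant -/
def stc (hw : w ϖ = exp (-1 : ℤ)) (hD : IsDigits w D) (g : GL (Fin 2) F) : ℂ :=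
  (PC_all (hϖ := hϖ) hw hD g).choose

lemma stc_spec (hw : w ϖ = exp (-1 : ℤ)) (hD : IsDigits w D) (g : GL (Fin 2) F)
    {ρ : Representation ℂ (GL (Fin 2) F) V} {x : V} (hx : StVec w ϖ hϖ D ρ x) :
    ρ g x - stc (hϖ := hϖ) hw hD g • x ∈ coinvKer ρ (Iw w) :=
  (PC_all (hϖ := hϖ) hw hD g).choose_spec V ρ x hx

/-- Elements of `V` are, modulo `coinvKer`, in the span of the `C`-translates of `x`. -/
lemma exists_Y (hw : w ϖ = exp (-1 : ℤ)) (hD : IsDigits w D) (hF : Factor ι C) {x : V}
    (hx : StVec w ϖ hϖ D (res π ι) x) {y : V} (hy : y ∈ cyc π x) :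
    ∃ y' ∈ Submodule.span ℂ {z | ∃ c ∈ C, z = π c x}, y - y' ∈ coinvKer (res π ι) (Iw w) := by
  unfold cyc at hy
  induction hy using Submodule.span_induction with
  | mem y hy =>
    obtain ⟨g, rfl⟩ := hy
    obtain ⟨h, c, hc, rfl⟩ := hF.surj g
    have h1 := stc_spec hw hD h (hx.of_comm hF hc)
    refine ⟨stc (hϖ := hϖ) hw hD h • π c x, Submodule.smul_mem _ _ (Submodule.subset_span ⟨c, hc, rfl⟩), ?_⟩
    simp only
    rw [map_mul, Module.End.mul_apply]
    exact h1
  | zero => exact ⟨0, Submodule.zero_mem _, by simp⟩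
  | add a b _ _ ha hb =>
    obtain ⟨a', ha', ha''⟩ := ha
    obtain ⟨b', hb', hb''⟩ := hb
    refine ⟨a' + b', Submodule.add_mem _ ha' hb', ?_⟩
    rw [add_sub_add_comm]
    exact Submodule.add_mem _ ha'' hb''
  | smul r a _ ha =>
    obtain ⟨a', ha', ha''⟩ := ha
    refine ⟨r • a', Submodule.smul_mem _ r ha', ?_⟩
    rw [← smul_sub]
    exact Submodule.smul_mem _ r ha''

lemma Y_props (hF : Factor ι C) {x : V} (hx : StVec w ϖ hϖ D (res π ι) x) {y : V}
    (hy : y ∈ Submodule.span ℂ {z | ∃ c ∈ C, z = π c x}) : StVec w ϖ hϖ D (res π ι) y := by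
  induction hy using Submodule.span_induction with
  | mem y hy =>
    obtain ⟨c, hc, rfl⟩ := hy
    exact hx.of_comm hF hc
  | zero => exact ⟨fun _ _ => by simp, fun _ _ => by simp, by simp, by simp⟩
  | add a b _ _ ha hb =>
    refine ⟨fun k hk => ?_, fun z hz => ?_, ?_, ?_⟩
    · rw [map_add, ha.iw k hk, hb.iw k hk]
    · rw [map_add, ha.center z hz, hb.center z hz]
    · rw [map_add, ha.atkin, hb.atkin]; abel
    · simp_rw [map_add]
      rw [Finset.sum_add_distrib, ha.harm, hb.harm, add_zero]
  | smul r a _ ha =>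
    refine ⟨fun k hk => ?_, fun z hz => ?_, ?_, ?_⟩
    · rw [map_smul, ha.iw k hk]
    · rw [map_smul, ha.center z hz]
    · rw [map_smul, ha.atkin, smul_neg]
    · simp_rw [map_smul]
      rw [← Finset.smul_sum, ha.harm, smul_zero]

/-- Iwahori-fixed vectors are Steinberg vectors. -/
lemma fixed_mem_Y (hw : w ϖ = exp (-1 : ℤ)) (hD : IsDigits w D) (hF : Factor ι C)
    (hfin : LocFin (res π ι) (Iw w)) {x : V}
    (hx : StVec w ϖ hϖ D (res π ι) x) {y : V} (hy : y ∈ cyc π x) (hfix : ∀ k ∈ Iw w, res π ι k y = y) :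
    y ∈ Submodule.span ℂ {z | ∃ c ∈ C, z = π c x} := by
  obtain ⟨y', hy', h⟩ := exists_Y hw hD hF hx hy
  have h2 : y - y' = 0 := by
    refine eq_zero_of_fixed_of_mem _ hfin h ?_
    intro k hk
    rw [map_sub, hfix k hk, (Y_props hF hx hy').iw k hk]
  rw [sub_eq_zero.mp h2]
  exact hy'

/-- There is no vector fixed by `GL₂(O)`. -/
theorem no_spherical (hw : w ϖ = exp (-1 : ℤ)) (hD : IsDigits w D) (hF : Factor ι C)
    (hfin : LocFin (res π ι) (Iw w)) {x : V}
    (hx : StVec w ϖ hϖ D (res π ι) x) {y : V} (hy : y ∈ cyc π x)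
    (hfix : ∀ k ∈ GLint w, res π ι k y = y) : y = 0 := by
  have h1 := fixed_mem_Y hw hD hF hfin hx hy (fun k hk => hfix k (Iw_le w hk))
  have h2 := (Y_props hF hx h1).harm
  have h3 : ∀ t : Option D, res π ι (rep D t) y = y := fun t => hfix _ (rep_mem hD t)
  simp_rw [h3] at h2
  rw [Finset.sum_const, Finset.card_univ, ← Nat.cast_smul_eq_nsmul ℂ] at h2
  rcases smul_eq_zero.mp h2 with h | h
  · exfalso
    rw [Fintype.card_option] at h
    push_cast at h
    exact Nat.cast_add_one_ne_zero _ h
  · exact h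

/-- A nonzero Steinberg vector is not in `coinvKer`. -/
lemma StVec.not_mem {ρ : Representation ℂ (GL (Fin 2) F) V} (hfin : LocFin ρ (Iw w)) {x : V}
    (hx : StVec w ϖ hϖ D ρ x) (hx0 : x ≠ 0) : x ∉ coinvKer ρ (Iw w) :=
  fun h => hx0 (eq_zero_of_fixed_of_mem _ hfin h hx.iw)

/-- linear combination of translates -/
def lin (ρ : Representation ℂ (GL (Fin 2) F) V) (x : V) : (GL (Fin 2) F →₀ ℂ) →ₗ[ℂ] V :=
  Finsupp.linearCombination ℂ (fun g => ρ g x)

lemma lin_apply (ρ : Representation ℂ (GL (Fin 2) F) V) (x : V) (a : GL (Fin 2) F →₀ ℂ) :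
    lin ρ x a = a.sum fun g c => c • ρ g x := by
  rw [lin, Finsupp.linearCombination_apply]

/-- the value of the universal functional -/
lemma rho_lin (hw : w ϖ = exp (-1 : ℤ)) (hD : IsDigits w D)
    {ρ : Representation ℂ (GL (Fin 2) F) V} {x : V} (hx : StVec w ϖ hϖ D ρ x)
    (h : GL (Fin 2) F) (a : GL (Fin 2) F →₀ ℂ) :
    ρ h (lin ρ x a) - (a.sum fun g c => c * stc (hϖ := hϖ) hw hD (h * g)) • x ∈ coinvKer ρ (Iw w) := by
  have : ρ h (lin ρ x a) - (a.sum fun g c => c * stc (hϖ := hϖ) hw hD (h * g)) • x =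
      a.sum fun g c => c • (ρ (h * g) x - stc (hϖ := hϖ) hw hD (h * g) • x) := by
    rw [lin_apply]
    simp only [Finsupp.sum, map_sum, map_smul, Finset.sum_smul, smul_sub, Finset.sum_sub_distrib,
      smul_smul, map_mul, Module.End.mul_apply]
  rw [this]
  exact Submodule.sum_mem _ fun g _ => Submodule.smul_mem _ _ (stc_spec hw hD _ hx)

/-- **Main comparison**: the relations between translates of a Steinberg vector in an irreducible
representation are universal. -/
theorem lin_eq_zero_iff (hw : w ϖ = exp (-1 : ℤ)) (hD : IsDigits w D) (hF : Factor ι C)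
    (hirr : Irred π) (hfin : LocFin (res π ι) (Iw w)) {x : V}
    (hx : StVec w ϖ hϖ D (res π ι) x) (hx0 : x ≠ 0) (a : GL (Fin 2) F →₀ ℂ) :
    lin (res π ι) x a = 0 ↔ ∀ h, (a.sum fun g c => c * stc (hϖ := hϖ) hw hD (h * g)) = 0 := by
  have hnot := hx.not_mem hfin hx0
  constructor
  · intro h0 h
    have h1 := rho_lin hw hD hx h a
    rw [h0, map_zero, zero_sub, ← neg_smul] at h1
    by_contra hne
    apply hnot
    have h2 := Submodule.smul_mem _ (-(a.sum fun g c => c * stc (hϖ := hϖ) hw hD (h * g)))⁻¹ h1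
    rwa [smul_smul, inv_mul_cancel₀ (neg_ne_zero.mpr hne), one_smul] at h2
  · intro h
    by_contra hne
    obtain ⟨h', hh'⟩ := exists_not_mem hF π hirr hnot hne
    apply hh'
    have h1 := rho_lin hw hD hx h' a
    rwa [h h', zero_smul, sub_zero] at h1

/-- irreducibility of the local component -/
theorem local_irred (hw : w ϖ = exp (-1 : ℤ)) (hD : IsDigits w D) (hF : Factor ι C)
    (hirr : Irred π) (hfin : LocFin (res π ι) (Iw w)) {x : V}
    (hx : StVec w ϖ hϖ D (res π ι) x) (hx0 : x ≠ 0) {N : Submodule ℂ V}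
    (hN : IsInv (res π ι) N) (hle : N ≤ cyc (res π ι) x) (hne : N ≠ ⊥) : x ∈ N := by
  obtain ⟨y, hy, hy0⟩ := Submodule.exists_mem_ne_zero_of_ne_bot hne
  have hnot := hx.not_mem hfin hx0
  obtain ⟨h, hh⟩ := exists_not_mem hF π hirr hnot hy0
  obtain ⟨e, he1, he2, he3⟩ := exists_average (res π ι) hfin (res π ι h y)
  have heN : e ∈ N := he3 N (fun u _ x hx => hN u x hx) (hN h y hy)
  have he0 : e ≠ 0 := by
    rintro rfl
    rw [sub_zero] at he2
    exact hh he2
  -- e is a multiple of x
  have hF' : Factor (MonoidHom.id (GL (Fin 2) F)) (⊥ : Subgroup (GL (Fin 2) F)) :=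
    ⟨fun h c hc => by rw [Subgroup.mem_bot.mp hc]; simp, fun g => ⟨g, 1, one_mem _, by simp⟩⟩
  have h1 : e ∈ Submodule.span ℂ {z | ∃ c ∈ (⊥ : Subgroup (GL (Fin 2) F)), z = res π ι c x} := by
    refine fixed_mem_Y (π := res π ι) (ι := MonoidHom.id _) hw hD hF' hfin hx (hle heN) he1
  have h2 : {z | ∃ c ∈ (⊥ : Subgroup (GL (Fin 2) F)), z = res π ι c x} = {x} := by
    ext z
    simp only [Subgroup.mem_bot, exists_eq_left, map_one, Module.End.one_apply,
      Set.mem_singleton_iff]
    rfl
  rw [h2, Submodule.mem_span_singleton] at h1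
  obtain ⟨c, rfl⟩ := h1
  have hc : c ≠ 0 := by
    rintro rfl; simp at he0
  have := Submodule.smul_mem _ c⁻¹ heN
  rwa [smul_smul, inv_mul_cancel₀ hc, one_smul] at this

/-- **Spherical places**: the local group acts trivially. -/
theorem spherical_trivial (hw : w ϖ = exp (-1 : ℤ)) (hD : IsDigits w D) (hF : Factor ι C)
    (hirr : Irred π) (hfin : LocFin (res π ι) (GLint w)) {x : V}
    (hx : SphVec w ϖ hϖ D (res π ι) x) (hx0 : x ≠ 0) (h : GL (Fin 2) F) (y : V) :
    π (ι h) y = y := by
  -- the submodule spanned by the `ρ(g) y - y`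
  set N : Submodule ℂ V := coinvKer (res π ι) ⊤ with hN
  have hNinv : IsInv π N := by
    intro g z hz
    obtain ⟨h, c, hc, rfl⟩ := hF.surj g
    rw [map_mul, Module.End.mul_apply]
    exact map_mem_coinvKer (res π ι) (fun u _ => Subgroup.mem_top _) (coinv_C_stable hF π hc hz)
  have hcyc : cyc π x = ⊤ := by
    rcases hirr _ (cyc_inv π x) with h | h
    · exfalso
      have := self_mem_cyc π x
      rw [h] at this
      exact hx0 (by simpa using this)
    · exact h
  have hle : N ≤ coinvKer (res π ι) (GLint w) := by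
    apply Submodule.span_le.mpr
    rintro _ ⟨g, -, z, rfl⟩
    have hz : z ∈ cyc π x := by rw [hcyc]; trivial
    unfold cyc at hz
    induction hz using Submodule.span_induction with
    | mem y hy =>
      obtain ⟨g', rfl⟩ := hy
      obtain ⟨h', c, hc, rfl⟩ := hF.surj g'
      have e : res π ι g (π (ι h' * c) x) - π (ι h' * c) x =
          π c ((res π ι (g * h') x - x) - (res π ι h' x - x)) := by
        rw [sub_sub_sub_cancel_right, map_sub, res_apply, res_apply, res_apply]
        simp only [← Module.End.mul_apply, ← map_mul]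
        rw [← hF.comm _ c hc, ← hF.comm _ c hc, map_mul ι, mul_assoc]
      simp only [SetLike.mem_coe]
      rw [e]
      exact coinv_C_stable hF π hc (Submodule.sub_mem _ (hx.main hw hD _) (hx.main hw hD _))
    | zero => simp
    | add a b _ _ ha hb =>
      simp only [SetLike.mem_coe] at *
      rw [map_add, add_sub_add_comm]
      exact Submodule.add_mem _ ha hb
    | smul r a _ ha =>
      simp only [SetLike.mem_coe] at *
      rw [map_smul, ← smul_sub]
      exact Submodule.smul_mem _ r ha
  rcases hirr _ hNinv with hb | ht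
  · have h1 : π (ι h) y - y ∈ N := sub_mem_coinvKer (res π ι) (Subgroup.mem_top h) y
    rw [hb] at h1
    exact sub_eq_zero.mp (by simpa using h1)
  · exfalso
    have h1 : x ∈ N := by rw [ht]; trivial
    exact hx0 (eq_zero_of_fixed_of_mem _ hfin (hle h1) hx.sph)

end Steinberg

end

end Pool.Agent.H330R2
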