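import Mathlib
import Pool.Agent.H330R2.Local

/-!
# Topology of `GL₂` of a discretely valued field (helper file)
-/

namespace Pool.Agent.H330R2

open WithZero Topology Uniformity

noncomputable section

section Field

variable {F : Type} [Field F] [Valued F ℤᵐ⁰] {ϖ : F}

lemma exists_ball {s : Set F} (hs : s ∈ 𝓝 (0 : F)) :
    ∃ n : ℕ, ∀ x : F, Valued.v x ≤ exp (-(n : ℤ)) → x ∈ s := by
  obtain ⟨γ, hγ⟩ := Valued.mem_nhds_zero.mp hs
  set e : ℤᵐ⁰ := MonoidWithZeroHom.ValueGroup₀.embedding γ.1 with he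
  have he0 : e ≠ 0 := by
    rw [he]
    simp
  obtain ⟨m, hm⟩ : ∃ m : ℤ, e = exp m := ⟨log e, (exp_log he0).symm⟩
  refine ⟨(-m).toNat + 1, fun x hx => hγ ?_⟩
  simp only [Set.mem_ofPred_eq]
  rw [Valuation.restrict_lt_iff_lt_embedding]
  refine lt_of_le_of_lt hx ?_
  change _ < e
  rw [hm, exp_lt_exp]
  push_cast
  omega

lemma exists_ball' {s : Set F} {a : F} (hs : s ∈ 𝓝 a) :
    ∃ n : ℕ, ∀ x : F, Valued.v (x - a) ≤ exp (-(n : ℤ)) → x ∈ s := by
  have h : (fun x => x + a) ⁻¹' s ∈ 𝓝 (0 : F) := by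
    apply (continuous_add_const a).continuousAt
    simpa using hs
  obtain ⟨n, hn⟩ := exists_ball h
  refine ⟨n, fun x hx => ?_⟩
  have := hn (x - a) hx
  simpa using this

lemma ball_mem_nhds (hϖ : Valued.v ϖ = exp (-1 : ℤ)) (n : ℕ) :
    {x : F | Valued.v x ≤ exp (-(n : ℤ))} ∈ 𝓝 (0 : F) := by
  rw [Valued.mem_nhds_zero]
  have h0 : Valued.v.restrict (ϖ ^ n) ≠ 0 := by
    rw [Valuation.ne_zero_iff]
    apply pow_ne_zero
    rintro rfl
    rw [map_zero] at hϖ
    exact exp_ne_zero hϖ.symm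
  refine ⟨Units.mk0 _ h0, fun x hx => ?_⟩
  simp only [Units.val_mk0, Set.mem_ofPred_eq] at hx ⊢
  rw [Valuation.restrict_lt_iff] at hx
  refine hx.le.trans ?_
  rw [map_pow, hϖ, ← exp_nsmul]
  simp

/-- finite approximation of the ring of integers -/
lemma exists_finite_approx (hϖ : Valued.v ϖ = exp (-1 : ℤ)) {D : Finset F}
    (hD : IsDigits (Valued.v (R := F)) D) (n : ℕ) :
    ∃ t : Set F, t.Finite ∧ ∀ x : F, Valued.v x ≤ 1 → ∃ y ∈ t, Valued.v (x - y) ≤ exp (-(n : ℤ)) := by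
  have hϖ0 : ϖ ≠ 0 := by
    rintro rfl
    rw [map_zero] at hϖ
    exact exp_ne_zero hϖ.symm
  induction n with
  | zero => exact ⟨{0}, Set.finite_singleton 0, fun x hx => ⟨0, rfl, by simpa using hx⟩⟩
  | succ n ih =>
    obtain ⟨t, ht, h⟩ := ih
    refine ⟨Set.image2 (fun b y => b + ϖ * y) D t, Set.Finite.image2 _ D.finite_toSet ht, ?_⟩
    intro x hx
    obtain ⟨b, hb, hb'⟩ := hD.ex x hx
    have h1 : Valued.v ((x - b) / ϖ) ≤ 1 := by
      rw [map_div₀, hϖ]
      rw [lt_one_iff] at hb'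
      rwa [div_le_one₀ (by simp)]
    obtain ⟨y, hy, hy'⟩ := h _ h1
    refine ⟨_, ⟨b, hb, y, hy, rfl⟩, ?_⟩
    have h2 : x - (b + ϖ * y) = ϖ * ((x - b) / ϖ - y) := by field_simp; ring
    simp only
    rw [h2, map_mul, hϖ]
    calc exp (-1 : ℤ) * Valued.v ((x - b) / ϖ - y) ≤ exp (-1 : ℤ) * exp (-(n : ℤ)) := by gcongr
      _ = exp (-((n + 1 : ℕ) : ℤ)) := by
        rw [← exp_add]; congr 1; push_cast; ring

theorem isCompact_integer [CompleteSpace F] (hϖ : Valued.v ϖ = exp (-1 : ℤ)) {D : Finset F}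
    (hD : IsDigits (Valued.v (R := F)) D) :
    IsCompact ((Valued.v (R := F)).integer : Set F) := by
  rw [isCompact_iff_totallyBounded_isComplete]
  refine ⟨?_, (Valued.isClosed_integer F).isComplete⟩
  intro d hd
  obtain ⟨γ, -, hγ⟩ := (Valued.hasBasis_uniformity F ℤᵐ⁰).mem_iff.mp hd
  have h0 : {x : F | Valued.v.restrict x < γ.1} ∈ 𝓝 (0 : F) :=
    Valued.mem_nhds_zero.mpr ⟨γ, le_rfl⟩
  obtain ⟨n, hn⟩ := exists_ball h0
  obtain ⟨t, ht, h⟩ := exists_finite_approx hϖ hD n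
  refine ⟨t, ht, fun x hx => ?_⟩
  obtain ⟨y, hy, hy'⟩ := h x hx
  simp only [Set.mem_iUnion]
  refine ⟨y, hy, ?_⟩
  apply hγ
  simp only [Set.mem_ofPred_eq]
  apply hn
  rwa [← Valuation.map_sub_swap]

lemma continuous_entry (i j : Fin 2) : Continuous fun g : GL (Fin 2) F => g i j := by
  have : Continuous fun g : GL (Fin 2) F => (g : Matrix (Fin 2) (Fin 2) F) := Units.continuous_val
  exact this.matrix_elem i j

lemma continuous_det : Continuous fun g : GL (Fin 2) F => (g : Matrix (Fin 2) (Fin 2) F).det := by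
  have : Continuous fun g : GL (Fin 2) F => (g : Matrix (Fin 2) (Fin 2) F) := Units.continuous_val
  exact this.matrix_det

theorem isOpen_GLint : IsOpen (GLint (Valued.v (R := F)) : Set (GL (Fin 2) F)) := by
  have h1 : ∀ i j : Fin 2, IsOpen {g : GL (Fin 2) F | Valued.v (g i j) ≤ 1} := fun i j =>
    (Valued.isOpen_integer F).preimage (continuous_entry i j)
  have h2 : IsOpen {g : GL (Fin 2) F | Valued.v ((g : Matrix (Fin 2) (Fin 2) F).det) ≤ 1} :=
    (Valued.isOpen_integer F).preimage continuous_det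
  have h3 : IsOpen {g : GL (Fin 2) F | Valued.v ((g⁻¹ : GL (Fin 2) F) : Matrix (Fin 2) (Fin 2) F).det ≤ 1} :=
    (Valued.isOpen_integer F).preimage (continuous_det.comp continuous_inv)
  have : (GLint (Valued.v (R := F)) : Set (GL (Fin 2) F)) =
      (⋂ i, ⋂ j, {g : GL (Fin 2) F | Valued.v (g i j) ≤ 1}) ∩
      ({g : GL (Fin 2) F | Valued.v ((g : Matrix (Fin 2) (Fin 2) F).det) ≤ 1} ∩
      {g : GL (Fin 2) F | Valued.v ((g⁻¹ : GL (Fin 2) F) : Matrix (Fin 2) (Fin 2) F).det ≤ 1}) := by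
    ext g
    simp only [SetLike.mem_coe, mem_GLint, Set.mem_inter_iff, Set.mem_iInter, Set.mem_ofPred_eq]
    rw [det_inv', map_inv₀]
    constructor
    · rintro ⟨h1, h2⟩
      refine ⟨h1, h2.le, ?_⟩
      rw [h2]; simp
    · rintro ⟨h1, h2, h3⟩
      refine ⟨h1, le_antisymm h2 ?_⟩
      exact (inv_le_one₀ (zero_lt_iff.mpr ((Valuation.ne_zero_iff _).mpr (det_ne' g)))).mp h3
  rw [this]
  exact (isOpen_iInter_of_finite fun i => isOpen_iInter_of_finite fun j => h1 i j).inter (h2.inter h3)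

theorem isCompact_GLint [CompleteSpace F] (hϖ : Valued.v ϖ = exp (-1 : ℤ)) {D : Finset F}
    (hD : IsDigits (Valued.v (R := F)) D) :
    IsCompact (GLint (Valued.v (R := F)) : Set (GL (Fin 2) F)) := by
  have : CompactSpace (Valued.v (R := F)).integer :=
    isCompact_iff_compactSpace.mp (isCompact_integer hϖ hD)
  have : CompactSpace (Matrix (Fin 2) (Fin 2) (Valued.v (R := F)).integer) :=
    inferInstanceAs (CompactSpace (Fin 2 → Fin 2 → (Valued.v (R := F)).integer))
  have : CompactSpace (GL (Fin 2) (Valued.v (R := F)).integer) :=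
    inferInstanceAs (CompactSpace (Matrix (Fin 2) (Fin 2) (Valued.v (R := F)).integer)ˣ)
  have hc : Continuous (Matrix.GeneralLinearGroup.map (n := Fin 2)
      (Valued.v (R := F)).integer.subtype) := by
    apply Continuous.units_map
    exact continuous_id.matrix_map continuous_subtype_val
  have : (GLint (Valued.v (R := F)) : Set (GL (Fin 2) F)) =
      Set.range (Matrix.GeneralLinearGroup.map (n := Fin 2) (Valued.v (R := F)).integer.subtype) := rfl
  rw [this]
  exact isCompact_range hc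

omit [Valued F ℤᵐ⁰] in
lemma nn_inv (x : F) : ((nn x)⁻¹ : GL (Fin 2) F) = nn (-x) := by
  rw [inv_eq_iff_mul_eq_one]
  apply GL_ext <;> simp [mul_apply', nn]

lemma continuous_nn : Continuous (nn : F → GL (Fin 2) F) := by
  have h1 : Continuous fun x : F => (nn x : Matrix (Fin 2) (Fin 2) F) := by
    apply continuous_pi
    intro i
    apply continuous_pi
    intro j
    fin_cases i <;> fin_cases j
    · exact continuous_const
    · exact continuous_id
    · exact continuous_const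
    · exact continuous_const
  rw [Units.continuous_iff]
  refine ⟨h1, ?_⟩
  have h2 : (fun x : F => (((nn x)⁻¹ : GL (Fin 2) F) : Matrix (Fin 2) (Fin 2) F)) =
      fun x : F => (nn (-x) : Matrix (Fin 2) (Fin 2) F) := by
    funext x
    rw [nn_inv]
  exact h2 ▸ (h1.comp continuous_neg)

end Field

end

end Pool.Agent.H330R2
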