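import Mathlib
import Pool.Agent.H330R2.Comp
import Pool.Agent.H330R2.Top

/-!
# Admissibility: local part and abstract part (helper file)
-/

namespace Pool.Agent.H330R2

open WithZero Matrix

noncomputable section

section Local

variable {F : Type} [Field F] {w : Valuation F ℤᵐ⁰} {ϖ : F} {hϖ : ϖ ≠ 0} {D : Finset F}

/-- every group element acts on Steinberg vectors like `ε k a_n` -/
lemma act_form (hw : w ϖ = exp (-1 : ℤ)) (hD : IsDigits w D) (g : GL (Fin 2) F) :
    ∃ k ∈ GLint w, ∃ n : ℕ, ∃ ε : ℂ, ∀ (V : Type) [AddCommGroup V] [Module ℂ V]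
      (ρ : Representation ℂ (GL (Fin 2) F) V) (x : V), StVec w ϖ hϖ D ρ x →
      ρ g x = ε • ρ (k * an ϖ hϖ n) x := by
  obtain ⟨k, hk, k', hk', n, z, hz, rfl⟩ := cartan (hϖ := hϖ) hw g
  obtain ⟨t, ht⟩ := exists_rep hD hk'
  have key : k * (an ϖ hϖ n * scal z hz) * k' =
      k * an ϖ hϖ n * rep D t * ((rep D t)⁻¹ * k') * scal z hz := by
    rw [mul_assoc, mul_assoc, mul_assoc (k * an ϖ hϖ n), mul_inv_cancel_left, mul_assoc,
      mul_assoc, scal_comm]
  have key2 : ∀ (V : Type) [AddCommGroup V] [Module ℂ V]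
      (ρ : Representation ℂ (GL (Fin 2) F) V) (x : V), StVec w ϖ hϖ D ρ x →
      ρ (k * (an ϖ hϖ n * scal z hz) * k') x = ρ (k * an ϖ hϖ n) (ρ (rep D t) x) := by
    intro V _ _ ρ x hx
    rw [key, map_mul ρ _ (scal z hz), Module.End.mul_apply, hx.center, map_mul ρ _ ((rep D t)⁻¹ * k'),
      Module.End.mul_apply, hx.iw _ ht, map_mul ρ _ (rep D t), Module.End.mul_apply]
  cases t with
  | none =>
    refine ⟨k, hk, n, 1, fun V _ _ ρ x hx => ?_⟩
    rw [key2 V ρ x hx]
    simp [rep]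
  | some b =>
    refine ⟨k * nn (ϖ ^ n * b), mul_mem hk (nn_mem w (w_pow_mul_le hw hD n b.2)), n + 1, -1,
      fun V _ _ ρ x hx => ?_⟩
    rw [key2 V ρ x hx]
    simp only [rep]
    rw [hx.kap, map_neg, neg_smul, one_smul, neg_inj, ← Module.End.mul_apply, ← map_mul, mul_assoc,
      an_mul, mul_assoc]

/-- **Local admissibility.** -/
theorem alpha (hw : w ϖ = exp (-1 : ℤ)) (hD : IsDigits w D) (N : Subgroup (GL (Fin 2) F))
    (hN1 : ∀ k ∈ GLint w, ∀ u ∈ N, k * u * k⁻¹ ∈ N) (hN2 : N.relIndex (GLint w) ≠ 0)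
    (hN3 : ∃ m : ℕ, ∀ n, m ≤ n → ∀ b ∈ D, nn (ϖ ^ n * b) ∈ N) :
    ∃ S : Finset (GL (Fin 2) F), ∀ g, ∃ c : ℂ, ∃ s ∈ S, ∀ (V : Type) [AddCommGroup V] [Module ℂ V]
      (ρ : Representation ℂ (GL (Fin 2) F) V) (x : V), StVec w ϖ hϖ D ρ x →
      ρ g x - c • ρ s x ∈ coinvKer ρ N := by
  classical
  obtain ⟨m, hm⟩ := hN3
  have hfi : (N.subgroupOf (GLint w)).FiniteIndex := ⟨hN2⟩
  have : Fintype (GLint w ⧸ N.subgroupOf (GLint w)) := Subgroup.fintypeQuotientOfFiniteIndex
  let r : GLint w ⧸ N.subgroupOf (GLint w) → GL (Fin 2) F := fun q => (q.out : GL (Fin 2) F)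
  refine ⟨(Finset.univ ×ˢ Finset.range (m + 1)).image fun p => r p.1 * an ϖ hϖ p.2, fun g => ?_⟩
  obtain ⟨k, hk, n, ε, hg⟩ := act_form (hϖ := hϖ) hw hD g
  -- reduce `n`
  have hred : ∀ n : ℕ, ∃ c : ℂ, ∃ n' ≤ m, ∀ (V : Type) [AddCommGroup V] [Module ℂ V]
      (ρ : Representation ℂ (GL (Fin 2) F) V) (x : V), StVec w ϖ hϖ D ρ x →
      ρ (an ϖ hϖ n) x - c • ρ (an ϖ hϖ n') x ∈ coinvKer ρ N := by
    intro n
    induction n with
    | zero => exact ⟨1, 0, by omega, fun V _ _ ρ x hx => by simp⟩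
    | succ n ih =>
      by_cases hn : n + 1 ≤ m
      · exact ⟨1, n + 1, hn, fun V _ _ ρ x hx => by simp⟩
      · obtain ⟨c, n', hn', hc⟩ := ih
        refine ⟨c / D.card, n', hn', fun V _ _ ρ x hx => ?_⟩
        have h1 := hc V ρ x hx
        rw [hx.an_eq n] at h1
        have h2 : (D.card : ℂ) • (ρ (an ϖ hϖ (n + 1)) x - (c / D.card) • ρ (an ϖ hϖ n') x) =
            ((∑ b ∈ D, ρ (nn (ϖ ^ n * b)) (ρ (an ϖ hϖ (n + 1)) x)) - c • ρ (an ϖ hϖ n') x) -
            ∑ b ∈ D, (ρ (nn (ϖ ^ n * b)) (ρ (an ϖ hϖ (n + 1)) x) - ρ (an ϖ hϖ (n + 1)) x) := by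
          rw [Finset.sum_sub_distrib, Finset.sum_const, smul_sub, smul_smul,
            mul_div_cancel₀ _ (card_pos hD), Nat.cast_smul_eq_nsmul]
          abel
        have h3 : (D.card : ℂ) • (ρ (an ϖ hϖ (n + 1)) x - (c / D.card) • ρ (an ϖ hϖ n') x) ∈
            coinvKer ρ N := by
          rw [h2]
          refine Submodule.sub_mem _ h1 (Submodule.sum_mem _ fun b hb => ?_)
          exact sub_mem_coinvKer ρ (hm n (by omega) b hb) _
        have h4 := Submodule.smul_mem _ ((D.card : ℂ)⁻¹) h3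
        rwa [smul_smul, inv_mul_cancel₀ (card_pos hD), one_smul] at h4
  obtain ⟨c, n', hn', hc⟩ := hred n
  let q : GLint w ⧸ N.subgroupOf (GLint w) := QuotientGroup.mk ⟨k, hk⟩
  refine ⟨ε * c, r q * an ϖ hϖ n', ?_, fun V _ _ ρ x hx => ?_⟩
  · apply Finset.mem_image.mpr
    refine ⟨(q, n'), ?_, rfl⟩
    rw [Finset.mem_product]
    exact ⟨Finset.mem_univ _, Finset.mem_range.mpr (by omega)⟩
  · have hu : ((r q)⁻¹ * k) ∈ N := by
      have h1 : (q.out)⁻¹ * (⟨k, hk⟩ : GLint w) ∈ N.subgroupOf (GLint w) := by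
        rw [← QuotientGroup.eq, QuotientGroup.out_eq']
      exact h1
    have hrq : r q ∈ GLint w := (q.out).2
    rw [hg V ρ x hx, mul_smul, ← smul_sub]
    apply Submodule.smul_mem
    have e1 : ρ (k * an ϖ hϖ n) x - c • ρ (r q * an ϖ hϖ n') x =
        ρ (r q) (ρ ((r q)⁻¹ * k) (ρ (an ϖ hϖ n) x) - ρ (an ϖ hϖ n) x) +
        ρ (r q) (ρ (an ϖ hϖ n) x - c • ρ (an ϖ hϖ n') x) := by
      rw [← map_add, sub_add_sub_cancel, map_sub, map_smul]
      have e2 : k * an ϖ hϖ n = r q * ((r q)⁻¹ * k * an ϖ hϖ n) := by group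
      rw [e2]
      simp only [map_mul, Module.End.mul_apply]
    rw [e1]
    exact Submodule.add_mem _
      (map_mem_coinvKer ρ (hN1 _ hrq) (sub_mem_coinvKer ρ hu _))
      (map_mem_coinvKer ρ (hN1 _ hrq) (hc V ρ x hx))

end Local

section Abstract

/-- a criterion for finite dimensionality -/
lemma finite_of_le_sup {V : Type} [AddCommGroup V] [Module ℂ V] {M A N : Submodule ℂ V}
    (h1 : M ≤ A ⊔ N) (h2 : ∀ x ∈ M, x ∈ N → x = 0) (hA : Module.Finite ℂ A) : Module.Finite ℂ M := by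
  -- the map `M → V ⧸ N` is injective with image in the image of `A`
  let f : M →ₗ[ℂ] (A.map N.mkQ) :=
    LinearMap.codRestrict _ (N.mkQ.comp M.subtype) (by
      intro x
      obtain ⟨a, ha, n, hn, hx⟩ := Submodule.mem_sup.mp (h1 x.2)
      refine ⟨a, ha, ?_⟩
      simp only [LinearMap.comp_apply, Submodule.subtype_apply]
      rw [← hx, map_add]
      have : N.mkQ n = 0 := by simpa using hn
      rw [this, add_zero])
  have hf : Function.Injective f := by
    rw [← LinearMap.ker_eq_bot, LinearMap.ker_eq_bot']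
    intro x hx
    have h3 : N.mkQ (x : V) = 0 := by
      have := congrArg Subtype.val hx
      simpa [f] using this
    have h4 : (x : V) ∈ N := by simpa using h3
    exact Subtype.ext (h2 x x.2 h4)
  exact Module.Finite.of_injective f hf

variable {F : Type} [Field F] {w : Valuation F ℤᵐ⁰} {ϖ : F} {hϖ : ϖ ≠ 0} {D : Finset F}
  {G V : Type} [Group G] [AddCommGroup V] [Module ℂ V] {ι : GL (Fin 2) F →* G} {C : Subgroup G}
  {π : Representation ℂ G V}

/-- **Abstract admissibility.** `N` is a subgroup at the Steinberg place, `Uc` a subgroup of the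
complementary factor. -/
theorem adm_abstract (hw : w ϖ = exp (-1 : ℤ)) (hD : IsDigits w D) (hF : Factor ι C) {x : V}
    (hx : StVec w ϖ hϖ D (res π ι) x) (hgen : ∀ y : V, y ∈ cyc π x)
    (N : Subgroup (GL (Fin 2) F))
    (hN1 : ∀ k ∈ GLint w, ∀ u ∈ N, k * u * k⁻¹ ∈ N) (hN2 : N.relIndex (GLint w) ≠ 0)
    (hN3 : ∃ m : ℕ, ∀ n, m ≤ n → ∀ b ∈ D, nn (ϖ ^ n * b) ∈ N)
    (Uc : Subgroup G) (hUc : Uc ≤ C) (U' : Subgroup G) (hNU : ∀ u ∈ N, ι u ∈ U') (hUU : Uc ≤ U')
    (hlf : LocFin π U')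
    (hE : ∃ E : Submodule ℂ V, Module.Finite ℂ E ∧ ∀ y ∈ Submodule.span ℂ {z | ∃ c ∈ C, z = π c x},
      ∃ e ∈ E, y - e ∈ coinvKer π Uc)
    {M : Submodule ℂ V} (hM : ∀ y ∈ M, ∀ u ∈ U', π u y = y) : Module.Finite ℂ M := by
  classical
  obtain ⟨S, hS⟩ := alpha (hϖ := hϖ) hw hD N hN1 hN2 hN3
  obtain ⟨E, hEf, hE⟩ := hE
  let A : Submodule ℂ V := ⨆ s ∈ S, E.map (π (ι s))
  have hAf : Module.Finite ℂ A := by
    have h1 : A = Submodule.span ℂ (⋃ s ∈ S, (E.map (π (ι s)) : Set V)) := by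
      simp only [A, Submodule.span_iUnion, Submodule.span_eq]
    have h2 : ∀ s : GL (Fin 2) F, (E.map (π (ι s))).FG := by
      intro s
      exact Submodule.FG.map _ (Module.Finite.iff_fg.mp hEf)
    have h3 : A.FG := Submodule.fg_biSup S _ (fun s _ => h2 s)
    exact Module.Finite.iff_fg.mpr h3
  have hNc : ∀ z ∈ coinvKer (res π ι) N, z ∈ coinvKer π U' := by
    intro z hz
    unfold coinvKer at hz
    induction hz using Submodule.span_induction with
    | mem y hy =>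
      obtain ⟨u, hu, y, rfl⟩ := hy
      exact sub_mem_coinvKer π (hNU u hu) y
    | zero => exact Submodule.zero_mem _
    | add a b _ _ ha hb => exact Submodule.add_mem _ ha hb
    | smul r a _ ha => exact Submodule.smul_mem _ r ha
  -- translates by the factor preserve `coinvKer π Uc`
  have hcomm : ∀ (h : GL (Fin 2) F) (z : V), z ∈ coinvKer π Uc → π (ι h) z ∈ coinvKer π Uc := by
    intro h z hz
    refine map_mem_coinvKer π (fun u hu => ?_) hz
    have : ι h * u * (ι h)⁻¹ = u := by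
      rw [hF.comm h u (hUc hu)]; group
    rw [this]
    exact hu
  have hmain : ∀ y : V, y ∈ A ⊔ coinvKer π U' := by
    intro y
    have hy := hgen y
    unfold cyc at hy
    induction hy using Submodule.span_induction with
    | mem y hy =>
      obtain ⟨g, rfl⟩ := hy
      simp only
      obtain ⟨h, c, hc, rfl⟩ := hF.surj g
      obtain ⟨a, s, hs, hS⟩ := hS h
      have h1 := hS V (res π ι) (π c x) (hx.of_comm hF hc)
      obtain ⟨e, he, he'⟩ := hE (π c x) (Submodule.subset_span ⟨c, hc, rfl⟩)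
      have h2 : π (ι h * c) x = a • π (ι s) e + ((res π ι h (π c x) - a • res π ι s (π c x)) +
          a • π (ι s) (π c x - e)) := by
        rw [map_mul, Module.End.mul_apply, map_sub, smul_sub, res_apply, res_apply]
        abel
      rw [h2]
      apply Submodule.add_mem_sup
      · apply Submodule.smul_mem
        have : E.map (π (ι s)) ≤ A := le_iSup₂_of_le s hs le_rfl
        exact this ⟨e, he, rfl⟩
      · refine Submodule.add_mem _ (hNc _ h1) (Submodule.smul_mem _ _ ?_)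
        exact coinvKer_mono π hUU (hcomm s _ he')
    | zero => exact Submodule.zero_mem _
    | add a b _ _ ha hb => exact Submodule.add_mem _ ha hb
    | smul r a _ ha => exact Submodule.smul_mem _ r ha
  refine finite_of_le_sup (A := A) (N := coinvKer π U') (fun y _ => hmain y) ?_ hAf
  intro y hy hy'
  exact eq_zero_of_fixed_of_mem π hlf hy' (hM y hy)

end Abstract

end

end Pool.Agent.H330R2
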