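import Mathlib

/-!
# Smooth irreducible representations; the places of `F_q(T)`
-/

namespace Pool.Agent.H330R2

open IsDedekindDomain Polynomial WithZero

noncomputable section

/-- A smooth irreducible complex representation of a topological group `G`. -/
structure IrrRep (G : Type) [Group G] [TopologicalSpace G] where
  /-- the underlying space -/
  V : Type
  [acg : AddCommGroup V]
  [mod : Module ℂ V]
  /-- the action -/
  ρ : Representation ℂ G V
  smooth : ∀ x : V, IsOpen {g : G | ρ g x = x}
  nontriv : ∃ x : V, x ≠ 0
  irred : ∀ W : Submodule ℂ V, (∀ g, ∀ x ∈ W, ρ g x ∈ W) → W = ⊥ ∨ W = ⊤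

attribute [instance] IrrRep.acg IrrRep.mod

/-- Isomorphism of representations. -/
def IrrRep.Iso {G : Type} [Group G] [TopologicalSpace G] (σ τ : IrrRep G) : Prop :=
  ∃ e : σ.V ≃ₗ[ℂ] τ.V, ∀ g x, e (σ.ρ g x) = τ.ρ g (e x)

variable (G : Type) [Group G] [TopologicalSpace G]

instance IrrRep.setoid : Setoid (IrrRep G) where
  r := IrrRep.Iso
  iseqv :=
    { refl := fun σ => ⟨LinearEquiv.refl ℂ _, fun _ _ => rfl⟩
      symm := by
        rintro σ τ ⟨e, he⟩
        refine ⟨e.symm, fun g x => ?_⟩
        apply e.injective
        rw [he]; simp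
      trans := by
        rintro σ τ υ ⟨e, he⟩ ⟨e', he'⟩
        exact ⟨e.trans e', fun g x => by simp [he, he']⟩ }

/-- `Irr G`: isomorphism classes of smooth irreducible representations of `G`. -/
def Irr : Type 1 := Quotient (IrrRep.setoid G)

variable {G}

/-- The class of a smooth irreducible representation. -/
def Irr.mk (σ : IrrRep G) : Irr G := Quotient.mk (IrrRep.setoid G) σ

lemma Irr.mk_eq_iff (σ τ : IrrRep G) : Irr.mk σ = Irr.mk τ ↔ IrrRep.Iso σ τ :=
  ⟨fun h => Quotient.exact h, fun h => Quotient.sound h⟩

/-! ## The places of `K = F_q(T)` -/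

section Places

variable (Fq : Type) [Field Fq]

/-- The places of `K = F_q(T)`: `none` is the place at infinity, `some v` the place given by a
maximal ideal `v` of `F_q[T]`. -/
abbrev Place : Type := Option (HeightOneSpectrum Fq[X])

open Classical in
/-- The normalised valuation of a place (values in `ℤ ∪ {-∞}`, written multiplicatively). -/
def placeVal : Place Fq → Valuation (RatFunc Fq) ℤᵐ⁰
  | none => RatFunc.inftyValuation Fq
  | some v => v.valuation (RatFunc Fq)

variable {Fq}

/-- The number of elements of the residue field of a place. -/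
def qv : Place Fq → ℕ
  | none => Nat.card Fq
  | some v => Nat.card (Fq[X] ⧸ v.asIdeal)

end Places

end

end Pool.Agent.H330R2
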