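import Mathlib
import Pool.Agent.H330R2.Comp
import Pool.Agent.H330R2.Rp

/-!
# Automorphic representations of `GL₂` over the rational function field `K = F_q(T)`

Working definitions (those used in the statement of the final theorem are in `St.lean`).
-/

namespace Pool.Agent.H330R2

open IsDedekindDomain Polynomial WithZero RestrictedProduct

noncomputable section

section Irr

variable {G : Type} [Group G] [TopologicalSpace G]

/-- `σ` (a representation of the group `H`) occurs in the restriction of `π` along `ι : H → G`. -/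
def Occurs {H : Type} [Group H] [TopologicalSpace H] (ι : H →* G) (π : IrrRep G) (σ : IrrRep H) :
    Prop :=
  ∃ T : σ.V →ₗ[ℂ] π.V, (∃ x, T x ≠ 0) ∧ ∀ h x, T (σ.ρ h x) = π.ρ (ι h) (T x)

end Irr

/-! ## The field `K = F_q(T)`, its places, completions and adeles -/

variable (Fq : Type) [Field Fq]

/-- The completion `K_v`. -/
abbrev Kv (v : Place Fq) : Type := (placeVal Fq v).Completion

/-- The embedding `K → K_v`. -/
def toKv (v : Place Fq) : RatFunc Fq →+* Kv Fq v :=
  UniformSpace.Completion.coeRingHom.comp (WithVal.equiv (placeVal Fq v)).symm.toRingHom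

/-- The ring of integers `O_v` of `K_v`. -/
abbrev Ov (v : Place Fq) : Subring (Kv Fq v) := (Valued.v (R := Kv Fq v)).integer

/-- The local group `GL₂(K_v)`. -/
abbrev Gv (v : Place Fq) : Type := GL (Fin 2) (Kv Fq v)

/-- The maximal compact subgroup `GL₂(O_v)` of `GL₂(K_v)`. -/
abbrev GLO (v : Place Fq) : Subgroup (Gv Fq v) := GLint (Valued.v (R := Kv Fq v))

/-- The adele ring `A_K` (restricted product of the `K_v` with respect to the `O_v`). -/
abbrev AK : Type := Πʳ v : Place Fq, [Kv Fq v, Ov Fq v]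

/-- The adelic group `GL₂(A_K)` (restricted product of the `GL₂(K_v)` with respect to the
`GL₂(O_v)`). -/
abbrev GA : Type := Πʳ v : Place Fq, [Gv Fq v, GLO Fq v]

variable {Fq}

lemma valued_toKv (v : Place Fq) (x : RatFunc Fq) :
    Valued.v (toKv Fq v x) = placeVal Fq v x := by
  change Valued.v ((WithVal.toVal (placeVal Fq v) x : WithVal (placeVal Fq v)) :
    UniformSpace.Completion (WithVal (placeVal Fq v))) = _
  rw [Valued.valuedCompletion_apply]
  rfl

lemma finite_not_integral (x : RatFunc Fq) : {v : Place Fq | ¬ placeVal Fq v x ≤ 1}.Finite := by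
  have h := HeightOneSpectrum.Support.finite Fq[X] x
  have h2 : {v : Place Fq | ¬ placeVal Fq v x ≤ 1} ⊆
      insert none (some '' (HeightOneSpectrum.Support Fq[X] x)) := by
    rintro (_ | v) hv
    · exact Set.mem_insert _ _
    · refine Set.mem_insert_of_mem _ ⟨v, ?_, rfl⟩
      simpa [placeVal, HeightOneSpectrum.Support] using hv
  exact ((h.image _).insert _).subset h2

lemma eventually_integral (x : RatFunc Fq) :
    ∀ᶠ v : Place Fq in Filter.cofinite, Valued.v (toKv Fq v x) ≤ 1 := by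
  rw [Filter.eventually_cofinite]
  simp_rw [valued_toKv]
  exact finite_not_integral x

variable (Fq)

/-- The map `GL₂(K) → GL₂(K_v)`. -/
abbrev toGv (v : Place Fq) : GL (Fin 2) (RatFunc Fq) →* Gv Fq v :=
  Matrix.GeneralLinearGroup.map (toKv Fq v)

variable {Fq}

lemma toGv_apply (v : Place Fq) (γ : GL (Fin 2) (RatFunc Fq)) (i j : Fin 2) :
    (toGv Fq v γ) i j = toKv Fq v (γ i j) := rfl

lemma toGv_det (v : Place Fq) (γ : GL (Fin 2) (RatFunc Fq)) :
    ((toGv Fq v γ : Gv Fq v) : Matrix (Fin 2) (Fin 2) (Kv Fq v)).det =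
      toKv Fq v (γ : Matrix (Fin 2) (Fin 2) (RatFunc Fq)).det := by
  rw [det_eq, det_eq, map_sub, map_mul, map_mul]
  rfl

lemma toGv_mem_iff (v : Place Fq) (γ : GL (Fin 2) (RatFunc Fq)) :
    toGv Fq v γ ∈ GLO Fq v ↔ (∀ i j, placeVal Fq v (γ i j) ≤ 1) ∧
      placeVal Fq v (γ : Matrix (Fin 2) (Fin 2) (RatFunc Fq)).det = 1 := by
  rw [mem_GLint, toGv_det, valued_toKv]
  simp_rw [toGv_apply, valued_toKv]

lemma eventually_toGv (γ : GL (Fin 2) (RatFunc Fq)) :
    ∀ᶠ v : Place Fq in Filter.cofinite, toGv Fq v γ ∈ GLO Fq v := by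
  have hd : (γ : Matrix (Fin 2) (Fin 2) (RatFunc Fq)).det ≠ 0 := det_ne' γ
  filter_upwards [eventually_integral (γ 0 0), eventually_integral (γ 0 1),
    eventually_integral (γ 1 0), eventually_integral (γ 1 1),
    eventually_integral (γ : Matrix (Fin 2) (Fin 2) (RatFunc Fq)).det,
    eventually_integral ((γ : Matrix (Fin 2) (Fin 2) (RatFunc Fq)).det)⁻¹] with v h1 h2 h3 h4 h5 h6
  rw [toGv_mem_iff]
  simp_rw [valued_toKv] at h1 h2 h3 h4 h5 h6
  refine ⟨?_, ?_⟩
  · intro i j
    fin_cases i <;> fin_cases j <;> assumption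
  · apply le_antisymm h5
    rw [map_inv₀] at h6
    exact (inv_le_one₀ (zero_lt_iff.mpr ((Valuation.ne_zero_iff _).mpr hd))).mp h6

variable (Fq)

/-- The diagonal embedding `GL₂(K) → GL₂(A_K)`. -/
def diagG : GL (Fin 2) (RatFunc Fq) →* GA Fq where
  toFun γ := ⟨fun v => toGv Fq v γ, eventually_toGv γ⟩
  map_one' := RestrictedProduct.ext _ _ fun v => map_one (toGv Fq v)
  map_mul' a b := RestrictedProduct.ext _ _ fun v => map_mul (toGv Fq v) a b

/-- The diagonal embedding `K → A_K`. -/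
def diagA : RatFunc Fq →+* AK Fq where
  toFun x := ⟨fun v => toKv Fq v x, eventually_integral x⟩
  map_one' := by ext v; exact map_one (toKv Fq v)
  map_zero' := by ext v; exact map_zero (toKv Fq v)
  map_mul' a b := by ext v; exact map_mul (toKv Fq v) a b
  map_add' a b := by ext v; exact map_add (toKv Fq v) a b

/-- The unipotent elements `[[1, x], [0, 1]]` of `GL₂(A_K)`, for an adele `x`. -/
def uniA (x : AK Fq) : GA Fq :=
  ⟨fun v => nn (x v), by
    filter_upwards [x.2] with v hv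
    exact nn_mem _ hv⟩

open Classical in
/-- The embedding of the local group `GL₂(K_v)` into `GL₂(A_K)`. -/
def single (v : Place Fq) : Gv Fq v →* GA Fq where
  toFun g := RestrictedProduct.mulSingle (GLO Fq) v g
  map_one' := RestrictedProduct.mulSingle_one _ _
  map_mul' a b := RestrictedProduct.mulSingle_mul _ _ a b

/-! ## Automorphic forms and automorphic representations -/

/-- The action of `GL₂(A_K)` on the functions on `GL₂(A_K)` by right translations. -/
def rtr : Representation ℂ (GA Fq) (GA Fq → ℂ) where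
  toFun g :=
    { toFun := fun f x => f (x * g)
      map_add' := fun _ _ => rfl
      map_smul' := fun _ _ => rfl }
  map_one' := by ext f x; simp
  map_mul' a b := by ext f x; simp [mul_assoc]

variable {Fq}

/-- The vectors fixed by a subgroup. -/
def fixedBy {G V : Type} [Group G] [AddCommGroup V] [Module ℂ V] (ρ : Representation ℂ G V)
    (U : Subgroup G) : Submodule ℂ V where
  carrier := {x | ∀ u ∈ U, ρ u x = x}
  add_mem' := fun {a b} ha hb u hu => by rw [map_add, ha u hu, hb u hu]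
  zero_mem' := fun u _ => map_zero _
  smul_mem' := fun c x hx u hu => by rw [map_smul, hx u hu]

/-- Automorphic forms on `GL₂(A_K)`: functions which are left invariant under `GL₂(K)`, right
invariant under an open subgroup, and which generate an admissible representation (in the span of
all right translates, the vectors fixed by any open subgroup form a finite dimensional space). -/
structure IsAutomorphicForm (f : GA Fq → ℂ) : Prop where
  left_inv : ∀ (γ : GL (Fin 2) (RatFunc Fq)) (g : GA Fq), f (diagG Fq γ * g) = f g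
  smooth : ∃ U : Subgroup (GA Fq), IsOpen (U : Set (GA Fq)) ∧ ∀ g, ∀ u ∈ U, f (g * u) = f g
  admissible : ∀ U : Subgroup (GA Fq), IsOpen (U : Set (GA Fq)) →
    Module.Finite ℂ ↥(Submodule.span ℂ (Set.range fun g => rtr Fq g f) ⊓ fixedBy (rtr Fq) U)

/-- Cuspidal functions: for every `g`, the integral of `x ↦ f([[1, x], [0, 1]] g)` over the compact
group `A_K / K` vanishes. If `𝔲` is an open subgroup of `A_K` under which this function is
invariant, the integral is (up to a positive constant) the sum over the finite group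
`A_K / (K + 𝔲)`. -/
def IsCuspidal (f : GA Fq → ℂ) : Prop :=
  ∀ g : GA Fq, ∀ 𝔲 : AddSubgroup (AK Fq), IsOpen (𝔲 : Set (AK Fq)) →
    (∀ x, ∀ u ∈ 𝔲, f (uniA Fq (x + u) * g) = f (uniA Fq x * g)) →
    ∑ᶠ c : AK Fq ⧸ ((diagA Fq).toAddMonoidHom.range ⊔ 𝔲), f (uniA Fq c.out * g) = 0

/-- `π` is an irreducible quotient of an invariant space `W` of functions on `GL₂(A_K)`. -/
def IsQuotientOf (W : Submodule ℂ (GA Fq → ℂ)) (hW : ∀ g, ∀ f ∈ W, rtr Fq g f ∈ W)
    (π : IrrRep (GA Fq)) : Prop :=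
  ∃ T : W →ₗ[ℂ] π.V, Function.Surjective T ∧
    ∀ (g : GA Fq) (f : W), T ⟨rtr Fq g f, hW g f f.2⟩ = π.ρ g (T f)

/-- Automorphic representations: irreducible subquotients of the space of automorphic forms. -/
def IsAutomorphic (π : IrrRep (GA Fq)) : Prop :=
  ∃ (W : Submodule ℂ (GA Fq → ℂ)) (hW : ∀ g, ∀ f ∈ W, rtr Fq g f ∈ W),
    (∀ f ∈ W, IsAutomorphicForm f) ∧ IsQuotientOf W hW π

/-- Cuspidal automorphic representations: irreducible subquotients of the space of cusp forms. -/
def IsCuspidalRep (π : IrrRep (GA Fq)) : Prop :=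
  ∃ (W : Submodule ℂ (GA Fq → ℂ)) (hW : ∀ g, ∀ f ∈ W, rtr Fq g f ∈ W),
    (∀ f ∈ W, IsAutomorphicForm f ∧ IsCuspidal f) ∧ IsQuotientOf W hW π

/-- `σ` is the local component `π_v` of `π = ⊗ π_v`: the restriction of `π` to `GL₂(K_v)` is a
multiple of `π_v`, so this says that `σ` occurs in it. -/
def IsLocalComponent (π : IrrRep (GA Fq)) (v : Place Fq) (σ : IrrRep (Gv Fq v)) : Prop :=
  Occurs (single Fq v) π σ

/-- Unramified representations of `GL₂(K_v)`: there is a nonzero `GL₂(O_v)`-fixed vector. -/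
def IsUnramified {v : Place Fq} (σ : IrrRep (Gv Fq v)) : Prop :=
  ∃ x : σ.V, x ≠ 0 ∧ ∀ k ∈ GLO Fq v, σ.ρ k x = x

/-! ## Isobaric automorphic representations of `GL₂(A_K)` -/

/-- The normalised absolute value of a nonzero element of `K_v`. -/
def absv (v : Place Fq) (x : (Kv Fq v)ˣ) : ℝ := (qv v : ℝ) ^ (log (Valued.v (x : Kv Fq v)))

variable (Fq) in
/-- A Hecke character `χ = ⊗ χ_v` of `K`: a family of characters of the groups `K_v^×` with open
kernels, almost all unramified, with `∏_v χ_v(x) = 1` for `x` in `K^×`. -/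
structure HeckeChar where
  /-- the local components -/
  χ : ∀ v : Place Fq, (Kv Fq v)ˣ →* ℂˣ
  smooth : ∀ v, IsOpen ((χ v).ker : Set (Kv Fq v)ˣ)
  unram : ∀ᶠ v in Filter.cofinite, ∀ x : (Kv Fq v)ˣ, Valued.v (x : Kv Fq v) = 1 → χ v x = 1
  trivial : ∀ x : (RatFunc Fq)ˣ, ∏ᶠ v, χ v (Units.map (toKv Fq v).toMonoidHom x) = 1

/-- The space of the (normalised) induced representation `Ind(μ₁, μ₂)` of `GL₂(K_v)`: smooth
functions `h` with `h([[a, x], [0, d]] g) = μ₁(a) μ₂(d) |a/d|^{1/2} h(g)`. -/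
def indSpace (v : Place Fq) (μ₁ μ₂ : (Kv Fq v)ˣ →* ℂˣ) : Set (Gv Fq v → ℂ) :=
  {h | (∀ (a d : (Kv Fq v)ˣ) (x : Kv Fq v) (g : Gv Fq v),
      h (mk2 (a : Kv Fq v) x 0 (d : Kv Fq v) (by simp) * g) =
        (μ₁ a : ℂ) * (μ₂ d : ℂ) * ((Real.sqrt (absv v (a / d)) : ℝ) : ℂ) * h g) ∧
    ∃ U : Subgroup (Gv Fq v), IsOpen (U : Set (Gv Fq v)) ∧ ∀ g, ∀ u ∈ U, h (g * u) = h g}

/-- `σ` is isomorphic to a subrepresentation of the induced representation `Ind(μ₁, μ₂)`. -/
def EmbedsInInd {v : Place Fq} (σ : IrrRep (Gv Fq v)) (μ₁ μ₂ : (Kv Fq v)ˣ →* ℂˣ) : Prop :=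
  ∃ T : σ.V →ₗ[ℂ] (Gv Fq v → ℂ), Function.Injective T ∧ (∀ x, T x ∈ indSpace v μ₁ μ₂) ∧
    ∀ g x, T (σ.ρ g x) = fun y => T x (y * g)

/-- The isobaric sum of two Hecke characters `χ₁ ⊞ χ₂`: we may number the two characters such that
`|χ₁| = |·|^{s₁}`, `|χ₂| = |·|^{s₂}` with `s₁ ≥ s₂`, i.e. such that `|χ₁(x)| ≤ |χ₂(x)|` for
integral `x`; then the component of `χ₁ ⊞ χ₂` at `v` is the Langlands quotient of
`Ind(χ₁_v, χ₂_v)`, which is the unique irreducible subrepresentation of `Ind(χ₂_v, χ₁_v)`. -/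
def IsIsobaricSum (π : IrrRep (GA Fq)) (χ₁ χ₂ : HeckeChar Fq) : Prop :=
  (∀ (v : Place Fq) (x : (Kv Fq v)ˣ), Valued.v (x : Kv Fq v) ≤ 1 →
    ‖(χ₁.χ v x : ℂ)‖ ≤ ‖(χ₂.χ v x : ℂ)‖) ∧
  ∀ (v : Place Fq) (σ : IrrRep (Gv Fq v)), IsLocalComponent π v σ →
    EmbedsInInd σ (χ₂.χ v) (χ₁.χ v)

/-- Isobaric automorphic representations of `GL₂(A_K)`: the cuspidal ones, and the isobaric sums
of two Hecke characters. -/
def IsIsobaric (π : IrrRep (GA Fq)) : Prop :=
  IsAutomorphic π ∧ (IsCuspidalRep π ∨ ∃ χ₁ χ₂ : HeckeChar Fq, IsIsobaricSum π χ₁ χ₂)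

/-- `Π` is a global lifting of `π` for the standard representation `ρ = id` of
`GL₂(ℂ) = GL₂^∨`: `Π` is an isobaric automorphic representation of `GL₂(A_K)` with `Π_v = π_v` at
every place `v` at which `π_v` is unramified. -/
def IsGlobalLifting (π Pi : IrrRep (GA Fq)) : Prop :=
  IsIsobaric Pi ∧ ∀ (v : Place Fq) (σ : IrrRep (Gv Fq v)),
    IsLocalComponent π v σ → IsUnramified σ → IsLocalComponent Pi v σ

end

end Pool.Agent.H330R2
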