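import Mathlib
import Pool.Agent.H330R2.Defs
import Pool.Agent.H330R2.Top

/-!
# Places of `F_q(T)`: uniformisers, digits, density, compactness (helper file)
-/

namespace Pool.Agent.H330R2

open IsDedekindDomain Polynomial WithZero RestrictedProduct Topology

noncomputable section

variable {Fq : Type} [Field Fq]

/-! ### valuations of polynomials and of `T` -/

lemma placeVal_none (x : RatFunc Fq) : placeVal Fq none x =
    open Classical in RatFunc.inftyValuation Fq x := rfl

lemma placeVal_some (v : HeightOneSpectrum Fq[X]) (x : RatFunc Fq) :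
    placeVal Fq (some v) x = v.valuation (RatFunc Fq) x := rfl

lemma placeVal_none_poly {p : Fq[X]} (hp : p ≠ 0) :
    placeVal Fq none (algebraMap Fq[X] (RatFunc Fq) p) = exp (p.natDegree : ℤ) := by
  classical
  rw [placeVal_none, RatFunc.inftyValuation_apply]
  exact RatFunc.inftyValuation.polynomial Fq hp

lemma placeVal_some_poly (v : HeightOneSpectrum Fq[X]) (p : Fq[X]) :
    placeVal Fq (some v) (algebraMap Fq[X] (RatFunc Fq) p) ≤ 1 := by
  rw [placeVal_some]
  exact v.valuation_le_one p

lemma placeVal_none_X : placeVal Fq none RatFunc.X = exp (1 : ℤ) := by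
  classical
  rw [placeVal_none]
  exact RatFunc.inftyValuation.X Fq

lemma placeVal_C (v : Place Fq) {c : Fq} (hc : c ≠ 0) : placeVal Fq v (RatFunc.C c) = 1 := by
  classical
  cases v with
  | none => rw [placeVal_none]; exact RatFunc.inftyValuation.C Fq hc
  | some v =>
    have h1 : ∀ c : Fq, placeVal Fq (some v) (RatFunc.C c) ≤ 1 := by
      intro c
      have := placeVal_some_poly v (Polynomial.C c)
      rwa [RatFunc.algebraMap_C] at this
    apply le_antisymm (h1 c)
    have h2 := h1 c⁻¹
    rw [map_inv₀, map_inv₀] at h2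
    have h0 : RatFunc.C c ≠ 0 := by
      simpa using hc
    exact (inv_le_one₀ (zero_lt_iff.mpr ((Valuation.ne_zero_iff _).mpr h0))).mp h2

lemma placeVal_C_le (v : Place Fq) (c : Fq) : placeVal Fq v (RatFunc.C c) ≤ 1 := by
  rcases eq_or_ne c 0 with rfl | hc
  · simp
  · exact (placeVal_C v hc).le

/-- `K = F_q[T] + ϖ O_∞` -/
lemma exists_poly_approx (a : RatFunc Fq) :
    ∃ Q : Fq[X], placeVal Fq none (a - algebraMap Fq[X] (RatFunc Fq) Q) < 1 := by
  classical
  induction a using RatFunc.induction_on with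
  | f p d hd =>
    refine ⟨p / d, ?_⟩
    have hd0 : (algebraMap Fq[X] (RatFunc Fq) d) ≠ 0 := by simpa using hd
    have h1 : algebraMap Fq[X] (RatFunc Fq) p / algebraMap Fq[X] (RatFunc Fq) d -
        algebraMap Fq[X] (RatFunc Fq) (p / d) = algebraMap Fq[X] (RatFunc Fq) (p % d) /
        algebraMap Fq[X] (RatFunc Fq) d := by
      rw [div_sub' hd0]
      congr 1
      rw [← map_mul, ← map_sub]
      congr 1
      have := EuclideanDomain.div_add_mod p d
      linear_combination -this
    rw [h1, map_div₀]
    rcases eq_or_ne (p % d) 0 with h0 | h0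
    · rw [h0]; simp
    · rw [placeVal_none_poly h0, placeVal_none_poly hd, div_lt_one₀ (by simp), exp_lt_exp]
      have := Polynomial.natDegree_mod_lt p (q := d) (by
        intro h
        apply h0
        apply EuclideanDomain.mod_eq_zero.mpr
        rw [Polynomial.eq_C_of_natDegree_eq_zero h]
        exact (Polynomial.isUnit_C.mpr (isUnit_iff_ne_zero.mpr (by
          intro h2
          apply hd
          rw [Polynomial.eq_C_of_natDegree_eq_zero h, h2, Polynomial.C_0]))).dvd)
      exact_mod_cast this

/-! ### uniformisers and density -/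

lemma exists_unif (v : Place Fq) : ∃ π : RatFunc Fq, placeVal Fq v π = exp (-1 : ℤ) := by
  cases v with
  | none =>
    refine ⟨RatFunc.X⁻¹, ?_⟩
    rw [map_inv₀, placeVal_none_X, ← exp_neg]
  | some v => exact v.valuation_exists_uniformizer (RatFunc Fq)

lemma toKv_injective (v : Place Fq) : Function.Injective (toKv Fq v) := (toKv Fq v).injective

lemma exists_approx (v : Place Fq) (x : Kv Fq v) (n : ℤ) :
    ∃ a : RatFunc Fq, Valued.v (x - toKv Fq v a) ≤ exp n := by
  obtain ⟨π, hπ⟩ := exists_unif v
  have hπ' : Valued.v (toKv Fq v π) = exp (-1 : ℤ) := by rw [valued_toKv, hπ]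
  have h1 : {y : Kv Fq v | Valued.v (x - y) ≤ exp n} ∈ 𝓝 x := by
    have h2 := ball_mem_nhds hπ' (-n).toNat
    have h3 : (fun y => x - y) ⁻¹' {y : Kv Fq v | Valued.v y ≤ exp (-((-n).toNat : ℤ))} ∈ 𝓝 x := by
      apply (continuous_sub_left x).continuousAt
      simpa using h2
    refine Filter.mem_of_superset h3 fun y hy => ?_
    refine (Set.mem_ofPred_eq ▸ hy : Valued.v (x - y) ≤ _).trans ?_
    rw [exp_le_exp]; omega
  obtain ⟨y, hy⟩ := (UniformSpace.Completion.denseRange_coe (α := WithVal (placeVal Fq v))).exists_mem_open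
    isOpen_interior ⟨x, mem_interior_iff_mem_nhds.mpr h1⟩
  refine ⟨y.ofVal, ?_⟩
  have h4 : (y : UniformSpace.Completion (WithVal (placeVal Fq v))) ∈
      {y : Kv Fq v | Valued.v (x - y) ≤ exp n} := interior_subset hy
  exact h4

lemma exists_approx_lt (v : Place Fq) (x : Kv Fq v) :
    ∃ a : RatFunc Fq, Valued.v (x - toKv Fq v a) < 1 := by
  obtain ⟨a, ha⟩ := exists_approx v x (-1)
  exact ⟨a, (lt_one_iff _).mpr ha⟩

/-! ### digits -/

section Digits

variable [Fintype Fq]

/-- the constants in `K_∞` -/
def cst (c : Fq) : Kv Fq none := toKv Fq none (RatFunc.C c)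

open Classical in
/-- the digits at infinity -/
def Dinf (Fq : Type) [Field Fq] [Fintype Fq] : Finset (Kv Fq none) := Finset.univ.image (cst (Fq := Fq))

omit [Fintype Fq] in
lemma cst_injective : Function.Injective (cst (Fq := Fq)) :=
  (toKv_injective none).comp RatFunc.C_injective

open Classical in
lemma card_Dinf : (Dinf Fq).card = Fintype.card Fq := by
  rw [Dinf, Finset.card_image_of_injective _ cst_injective, Finset.card_univ]

open Classical in
lemma sum_Dinf {M : Type*} [AddCommMonoid M] (f : Kv Fq none → M) :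
    ∑ b ∈ Dinf Fq, f b = ∑ c : Fq, f (cst c) := by
  rw [Dinf, Finset.sum_image (fun _ _ _ _ h => cst_injective h)]

open Classical in
lemma isDigits_inf : IsDigits (Valued.v (R := Kv Fq none)) (Dinf Fq) where
  le b hb := by
    obtain ⟨c, -, rfl⟩ := Finset.mem_image.mp hb
    rw [cst, valued_toKv]
    exact placeVal_C_le _ _
  ex x hx := by
    obtain ⟨a, ha⟩ := exists_approx_lt none x
    obtain ⟨Q, hQ⟩ := exists_poly_approx a
    have h1 : Valued.v (x - toKv Fq none (algebraMap Fq[X] (RatFunc Fq) Q)) < 1 := by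
      have : x - toKv Fq none (algebraMap Fq[X] (RatFunc Fq) Q) = (x - toKv Fq none a) +
          toKv Fq none (a - algebraMap Fq[X] (RatFunc Fq) Q) := by
        rw [map_sub]; ring
      rw [this]
      refine lt_of_le_of_lt (Valuation.map_add _ _ _) (max_lt ha ?_)
      rwa [valued_toKv]
    have h2 : Valued.v (toKv Fq none (algebraMap Fq[X] (RatFunc Fq) Q)) ≤ 1 := by
      have : toKv Fq none (algebraMap Fq[X] (RatFunc Fq) Q) = x -
        (x - toKv Fq none (algebraMap Fq[X] (RatFunc Fq) Q)) := by ring
      rw [this]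
      exact (Valuation.map_sub _ _ _).trans (max_le hx h1.le)
    rw [valued_toKv] at h2
    have h3 : Q.natDegree = 0 := by
      rcases eq_or_ne Q 0 with rfl | h0
      · simp
      · rw [placeVal_none_poly h0, show (1 : ℤᵐ⁰) = exp 0 from rfl, exp_le_exp] at h2
        exact_mod_cast le_antisymm h2 (by positivity)
    obtain ⟨c, hc⟩ : ∃ c, Q = Polynomial.C c := ⟨_, Polynomial.eq_C_of_natDegree_eq_zero h3⟩
    refine ⟨cst c, Finset.mem_image_of_mem _ (Finset.mem_univ c), ?_⟩
    rw [hc, RatFunc.algebraMap_C] at h1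
    exact h1
  uniq b hb b' hb' h := by
    obtain ⟨c, -, rfl⟩ := Finset.mem_image.mp hb
    obtain ⟨c', -, rfl⟩ := Finset.mem_image.mp hb'
    by_contra hne
    have hc : c - c' ≠ 0 := fun h0 => hne (by rw [sub_eq_zero.mp h0])
    rw [cst, cst, ← map_sub, ← map_sub, valued_toKv, placeVal_C _ hc] at h
    exact lt_irrefl _ h

lemma finite_quot (v : HeightOneSpectrum Fq[X]) : Finite (Fq[X] ⧸ v.asIdeal) := by
  obtain ⟨p, hp⟩ := (IsPrincipalIdealRing.principal v.asIdeal).principal
  have hp0 : p ≠ 0 := by
    rintro rfl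
    apply v.ne_bot
    rw [hp]; simp
  rw [hp]
  change Finite (AdjoinRoot p)
  have := (AdjoinRoot.powerBasis hp0).finite
  exact Module.finite_of_finite Fq

lemma exists_digits (v : Place Fq) : ∃ D : Finset (Kv Fq v), IsDigits (Valued.v (R := Kv Fq v)) D := by
  classical
  cases v with
  | none => exact ⟨_, isDigits_inf⟩
  | some v =>
    have := finite_quot v
    have := Fintype.ofFinite (Fq[X] ⧸ v.asIdeal)
    let r : Fq[X] ⧸ v.asIdeal → Kv Fq (some v) := fun c =>
      toKv Fq (some v) (algebraMap Fq[X] (RatFunc Fq) (Quotient.out c))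
    refine ⟨Finset.univ.image r, ?_, ?_, ?_⟩
    · intro b hb
      obtain ⟨c, -, rfl⟩ := Finset.mem_image.mp hb
      rw [valued_toKv]
      exact placeVal_some_poly _ _
    · intro x hx
      obtain ⟨a, ha⟩ := exists_approx_lt (some v) x
      have h2 : Valued.v (toKv Fq (some v) a) ≤ 1 := by
        have : toKv Fq (some v) a = x - (x - toKv Fq (some v) a) := by ring
        rw [this]
        exact (Valuation.map_sub _ _ _).trans (max_le hx ha.le)
      rw [valued_toKv, placeVal_some] at h2
      obtain ⟨p, hp⟩ := v.exists_valuation_sub_lt_of_integer h2 1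
      refine ⟨r (Ideal.Quotient.mk _ p), Finset.mem_image_of_mem _ (Finset.mem_univ _), ?_⟩
      have h3 : placeVal Fq (some v) (algebraMap Fq[X] (RatFunc Fq) p - algebraMap Fq[X] (RatFunc Fq)
          (Quotient.out (Ideal.Quotient.mk v.asIdeal p))) < 1 := by
        rw [← map_sub, placeVal_some, v.valuation_lt_one_iff_mem, ← Ideal.Quotient.eq]
        exact (Ideal.Quotient.mk_out _).symm
      have h4 : x - r (Ideal.Quotient.mk _ p) = (x - toKv Fq (some v) a) +
          (toKv Fq (some v) (a - algebraMap Fq[X] (RatFunc Fq) p) +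
          toKv Fq (some v) (algebraMap Fq[X] (RatFunc Fq) p - algebraMap Fq[X] (RatFunc Fq)
          (Quotient.out (Ideal.Quotient.mk v.asIdeal p)))) := by
        simp only [r, map_sub]; ring
      rw [h4]
      refine lt_of_le_of_lt (Valuation.map_add _ _ _) (max_lt ha
        (lt_of_le_of_lt (Valuation.map_add _ _ _) (max_lt ?_ ?_)))
      · rw [valued_toKv, placeVal_some, Valuation.map_sub_swap]
        exact hp
      · rw [valued_toKv]; exact h3
    · intro b hb b' hb' h
      obtain ⟨c, -, rfl⟩ := Finset.mem_image.mp hb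
      obtain ⟨c', -, rfl⟩ := Finset.mem_image.mp hb'
      simp only [r] at h ⊢
      rw [← map_sub, ← map_sub, valued_toKv, placeVal_some, v.valuation_lt_one_iff_mem,
        ← Ideal.Quotient.eq] at h
      have h5 : c = c' := by
        rw [Ideal.Quotient.mk_out, Ideal.Quotient.mk_out] at h
        exact h
      rw [h5]

/-! ### compactness -/

lemma isCompact_GLO (v : Place Fq) : IsCompact (GLO Fq v : Set (Gv Fq v)) := by
  obtain ⟨π, hπ⟩ := exists_unif v
  obtain ⟨D, hD⟩ := exists_digits v
  have hπ' : Valued.v (toKv Fq v π) = exp (-1 : ℤ) := by rw [valued_toKv, hπ]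
  exact isCompact_GLint hπ' hD

end Digits

lemma isOpen_GLO (v : Place Fq) : IsOpen (GLO Fq v : Set (Gv Fq v)) := isOpen_GLint

/-- The maximal compact subgroup of `GL₂(A_K)`. -/
def KA (Fq : Type) [Field Fq] : Subgroup (GA Fq) where
  carrier := {g | ∀ v, g v ∈ GLO Fq v}
  one_mem' := fun _ => one_mem _
  mul_mem' := fun ha hb v => mul_mem (ha v) (hb v)
  inv_mem' := fun ha v => inv_mem (ha v)

lemma mem_KA (g : GA Fq) : g ∈ KA Fq ↔ ∀ v, g v ∈ GLO Fq v := Iff.rfl

lemma isOpen_KA : IsOpen (KA Fq : Set (GA Fq)) :=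
  RestrictedProduct.isOpen_forall_mem (fun v => isOpen_GLO v)

lemma isCompact_KA [Fintype Fq] : IsCompact (KA Fq : Set (GA Fq)) := by
  have : ∀ v : Place Fq, CompactSpace (GLO Fq v) := fun v =>
    isCompact_iff_compactSpace.mp (isCompact_GLO v)
  have h1 : (KA Fq : Set (GA Fq)) = Set.range (structureMap (fun v => Gv Fq v)
      (fun v => (GLO Fq v : Set (Gv Fq v))) Filter.cofinite) := by
    rw [range_structureMap]
    rfl
  rw [h1]
  apply isCompact_range
  exact isEmbedding_structureMap.continuous

instance factOpen : Fact (∀ v : Place Fq, IsOpen (GLO Fq v : Set (Gv Fq v))) := ⟨isOpen_GLO⟩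

/-- Open subgroups have finite relative index in compact subgroups. -/
lemma relIndex_ne_zero_of_isOpen {G : Type} [Group G] [TopologicalSpace G] [IsTopologicalGroup G]
    {K U : Subgroup G} (hK : IsCompact (K : Set G)) (hU : IsOpen (U : Set G)) :
    U.relIndex K ≠ 0 := by
  have : CompactSpace K := isCompact_iff_compactSpace.mp hK
  have h1 : IsOpen ((U.subgroupOf K : Subgroup K) : Set K) := hU.preimage continuous_subtype_val
  have h2 : Finite (K ⧸ U.subgroupOf K) := Subgroup.quotient_finite_of_isOpen _ h1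
  exact Subgroup.index_ne_zero_of_finite

/-- Smooth representations are locally finite under compact subgroups. -/
lemma locFin_of_smooth {G V : Type} [Group G] [TopologicalSpace G] [IsTopologicalGroup G]
    [AddCommGroup V] [Module ℂ V] {ρ : Representation ℂ G V} (hρ : ∀ x : V, IsOpen {g : G | ρ g x = x})
    {K : Subgroup G} (hK : IsCompact (K : Set G)) : LocFin ρ K :=
  fun x => relIndex_ne_zero_of_isOpen hK (hρ x)

end

end Pool.Agent.H330R2
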