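import Mathlib
import Pool.Agent.H330R2.Places

/-!
# Decomposition of `GL₂(A_K)` (helper file)
-/

namespace Pool.Agent.H330R2

open IsDedekindDomain Polynomial WithZero RestrictedProduct Topology

noncomputable section

variable {Fq : Type} [Field Fq]

/-! ### global elements integral at the finite places -/

lemma eq_poly_of_integral (x : RatFunc Fq) (h : ∀ P, placeVal Fq (some P) x ≤ 1) :
    ∃ p : Fq[X], x = algebraMap Fq[X] (RatFunc Fq) p := by
  obtain ⟨p, hp⟩ := HeightOneSpectrum.mem_integers_of_valuation_le_one (RatFunc Fq) x h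
  exact ⟨p, hp.symm⟩

lemma eq_zero_of_integral (x : RatFunc Fq) (h : ∀ P, placeVal Fq (some P) x ≤ 1)
    (h' : placeVal Fq none x < 1) : x = 0 := by
  obtain ⟨p, rfl⟩ := eq_poly_of_integral x h
  by_contra hne
  have hp : p ≠ 0 := fun h0 => hne (by rw [h0, map_zero])
  rw [placeVal_none_poly hp, show (1 : ℤᵐ⁰) = exp 0 from rfl, exp_lt_exp] at h'
  omega

lemma eq_const_of_integral (x : RatFunc Fq) (h : ∀ P, placeVal Fq (some P) x ≤ 1)
    (h' : placeVal Fq none x ≤ 1) : ∃ c : Fq, x = RatFunc.C c := by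
  obtain ⟨p, rfl⟩ := eq_poly_of_integral x h
  have h3 : p.natDegree = 0 := by
    rcases eq_or_ne p 0 with rfl | h0
    · simp
    · rw [placeVal_none_poly h0, show (1 : ℤᵐ⁰) = exp 0 from rfl, exp_le_exp] at h'
      exact_mod_cast le_antisymm h' (by positivity)
  refine ⟨p.coeff 0, ?_⟩
  conv_lhs => rw [Polynomial.eq_C_of_natDegree_eq_zero h3]
  rw [RatFunc.algebraMap_C]

/-- `γ` is integral (and invertible) at all finite places. -/
def FinInt (γ : GL (Fin 2) (RatFunc Fq)) : Prop := ∀ P, toGv Fq (some P) γ ∈ GLO Fq (some P)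

lemma FinInt.mul {a b : GL (Fin 2) (RatFunc Fq)} (ha : FinInt a) (hb : FinInt b) : FinInt (a * b) :=
  fun P => by rw [map_mul]; exact mul_mem (ha P) (hb P)

lemma FinInt.inv {a : GL (Fin 2) (RatFunc Fq)} (ha : FinInt a) : FinInt a⁻¹ :=
  fun P => by rw [map_inv]; exact inv_mem (ha P)

lemma FinInt.entry {a : GL (Fin 2) (RatFunc Fq)} (ha : FinInt a) (P) (i j : Fin 2) :
    placeVal Fq (some P) (a i j) ≤ 1 := ((toGv_mem_iff _ _).mp (ha P)).1 i j

lemma FinInt.det_inf {a : GL (Fin 2) (RatFunc Fq)} (ha : FinInt a) :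
    placeVal Fq none (a : Matrix (Fin 2) (Fin 2) (RatFunc Fq)).det = 1 := by
  have h1 : ∀ a : GL (Fin 2) (RatFunc Fq), FinInt a →
      1 ≤ placeVal Fq none (a : Matrix (Fin 2) (Fin 2) (RatFunc Fq)).det := by
    intro a ha
    by_contra hcon
    push Not at hcon
    apply det_ne' a
    exact eq_zero_of_integral _ (fun P => ((toGv_mem_iff _ _).mp (ha P)).2.le) hcon
  apply le_antisymm _ (h1 a ha)
  have h2 := h1 _ ha.inv
  rw [det_inv', map_inv₀] at h2
  have h3 : placeVal Fq none (a : Matrix (Fin 2) (Fin 2) (RatFunc Fq)).det ≠ 0 :=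
    (Valuation.ne_zero_iff _).mpr (det_ne' a)
  exact (one_le_inv₀ (zero_lt_iff.mpr h3)).mp h2

lemma toGv_nn (v : Place Fq) (x : RatFunc Fq) : toGv Fq v (nn x) = nn (toKv Fq v x) := by
  apply GL_ext <;> simp [nn]

lemma toGv_ss (v : Place Fq) : toGv Fq v ss = ss := by
  apply GL_ext <;> simp [ss]

lemma finInt_nn (p : Fq[X]) : FinInt (nn (algebraMap Fq[X] (RatFunc Fq) p)) := by
  intro P
  rw [toGv_nn]
  apply nn_mem
  rw [valued_toKv]
  exact placeVal_some_poly P p

lemma finInt_ss : FinInt (ss : GL (Fin 2) (RatFunc Fq)) := by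
  intro P
  rw [toGv_ss]
  exact ss_mem _

/-! ### Iwasawa decomposition -/

section Local

variable {F : Type} [Field F] {w : Valuation F ℤᵐ⁰} {ϖ : F}

lemma exists_tri (h : GL (Fin 2) F) : ∃ k ∈ GLint w, (h * k) 1 0 = 0 := by
  rcases le_or_gt (w (h 1 0)) (w (h 1 1)) with hle | hlt
  · have h11 : h 1 1 ≠ 0 := by
      intro h0
      rw [h0, map_zero, le_zero_iff, Valuation.zero_iff] at hle
      apply det_ne h; rw [hle, h0]; ring
    refine ⟨nl (-(h 1 0 / h 1 1)), nl_mem w ?_, ?_⟩
    · rw [Valuation.map_neg, map_div₀]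
      exact (div_le_one₀ (zero_lt_iff.mpr ((Valuation.ne_zero_iff w).mpr h11))).mpr hle
    · simp [mul_apply', nl]; field_simp; ring
  · have h10 : h 1 0 ≠ 0 := by
      intro h0
      rw [h0, map_zero] at hlt
      exact not_lt_zero hlt
    refine ⟨ss * nl (-(h 1 1 / h 1 0)), mul_mem (ss_mem w) (nl_mem w ?_), ?_⟩
    · rw [Valuation.map_neg, map_div₀]
      exact (div_le_one₀ (zero_lt_iff.mpr ((Valuation.ne_zero_iff w).mpr h10))).mpr hlt.le
    · simp [mul_apply', nl, ss]; field_simp; ring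

lemma tri_ne {M : GL (Fin 2) F} (h : M 1 0 = 0) : M 0 0 ≠ 0 ∧ M 1 1 ≠ 0 := by
  have := det_ne M
  rw [h] at this
  constructor
  · intro h0; apply this; rw [h0]; ring
  · intro h0; apply this; rw [h0]; ring

end Local

/-! ### strong approximation -/

lemma exists_gen (P : HeightOneSpectrum Fq[X]) :
    ∃ p : Fq[X], placeVal Fq (some P) (algebraMap Fq[X] (RatFunc Fq) p) = exp (-1 : ℤ) ∧
      ∀ Q, Q ≠ P → placeVal Fq (some Q) (algebraMap Fq[X] (RatFunc Fq) p) = 1 := by
  obtain ⟨p, hp⟩ := (IsPrincipalIdealRing.principal P.asIdeal).principal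
  have hp' : P.asIdeal = Ideal.span {p} := hp
  have hp0 : p ≠ 0 := by
    rintro rfl
    apply P.ne_bot
    rw [hp]; simp
  refine ⟨p, ?_, ?_⟩
  · rw [placeVal_some, HeightOneSpectrum.valuation_of_algebraMap]
    exact P.intValuation_singleton hp0 hp'
  · intro Q hQ
    rw [placeVal_some, HeightOneSpectrum.valuation_eq_one_iff_notMem]
    intro hmem
    apply hQ
    have h1 : P.asIdeal ≤ Q.asIdeal := by
      rw [hp', Ideal.span_le]
      simpa using hmem
    have h2 := P.isMaximal.eq_of_le Q.isPrime.ne_top h1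
    exact HeightOneSpectrum.ext h2.symm

lemma exists_approx_fin (P : HeightOneSpectrum Fq[X]) (x : Kv Fq (some P)) (m : ℤ) :
    ∃ a : RatFunc Fq, Valued.v (x - toKv Fq (some P) a) ≤ exp (-m) ∧
      ∀ Q, Q ≠ P → placeVal Fq (some Q) a ≤ 1 := by
  obtain ⟨p, hp1, hp2⟩ := exists_gen P
  set π := algebraMap Fq[X] (RatFunc Fq) p with hπ
  have hπ0 : π ≠ 0 := by
    intro h0
    rw [h0, map_zero] at hp1
    exact exp_ne_zero hp1.symm
  have hvπ : Valued.v (toKv Fq (some P) π) = exp (-1 : ℤ) := by rw [valued_toKv, hp1]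
  have hπ0' : toKv Fq (some P) π ≠ 0 := (_root_.map_ne_zero _).mpr hπ0
  obtain ⟨j, hj⟩ : ∃ j : ℕ, Valued.v (toKv Fq (some P) π ^ j * x) ≤ 1 := by
    rcases eq_or_ne x 0 with rfl | hx
    · exact ⟨0, by simp⟩
    · obtain ⟨n, hn⟩ := exists_exp (Valued.v) hx
      refine ⟨n.toNat, ?_⟩
      rw [map_mul, map_pow, hvπ, hn, ← exp_nsmul, ← exp_add, show (1 : ℤᵐ⁰) = exp 0 from rfl,
        exp_le_exp]
      simp only [nsmul_eq_mul]
      omega
  set N : ℕ := (m + j).toNat with hN
  obtain ⟨a, ha⟩ := exists_approx (some P) (toKv Fq (some P) π ^ j * x) (-(N : ℤ))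
  have hle1 : exp (-(N : ℤ)) ≤ (1 : ℤᵐ⁰) := by
    rw [show (1 : ℤᵐ⁰) = exp 0 from rfl, exp_le_exp]; omega
  have ha1 : placeVal Fq (some P) a ≤ 1 := by
    rw [← valued_toKv]
    have : toKv Fq (some P) a = toKv Fq (some P) π ^ j * x -
      (toKv Fq (some P) π ^ j * x - toKv Fq (some P) a) := by ring
    rw [this]
    exact (Valuation.map_sub _ _ _).trans (max_le hj (ha.trans hle1))
  obtain ⟨r, hr⟩ := P.exists_valuation_sub_lt_of_integer ha1 (Units.mk0 (exp (-(N : ℤ))) exp_ne_zero)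
  refine ⟨algebraMap Fq[X] (RatFunc Fq) r / π ^ j, ?_, ?_⟩
  · have h1 : Valued.v (toKv Fq (some P) π ^ j * x -
        toKv Fq (some P) (algebraMap Fq[X] (RatFunc Fq) r)) ≤ exp (-(N : ℤ)) := by
      have : toKv Fq (some P) π ^ j * x - toKv Fq (some P) (algebraMap Fq[X] (RatFunc Fq) r) =
          (toKv Fq (some P) π ^ j * x - toKv Fq (some P) a) +
          toKv Fq (some P) (a - algebraMap Fq[X] (RatFunc Fq) r) := by
        rw [map_sub]; ring
      rw [this]
      refine (Valuation.map_add _ _ _).trans (max_le ha ?_)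
      rw [valued_toKv, placeVal_some, Valuation.map_sub_swap]
      exact hr.le
    have h2 : x - toKv Fq (some P) (algebraMap Fq[X] (RatFunc Fq) r / π ^ j) =
        (toKv Fq (some P) π ^ j)⁻¹ * (toKv Fq (some P) π ^ j * x -
        toKv Fq (some P) (algebraMap Fq[X] (RatFunc Fq) r)) := by
      rw [map_div₀, map_pow]
      field_simp
    rw [h2, map_mul, map_inv₀, map_pow, hvπ]
    calc (exp (-1 : ℤ) ^ j)⁻¹ * Valued.v (toKv Fq (some P) π ^ j * x -
        toKv Fq (some P) (algebraMap Fq[X] (RatFunc Fq) r)) ≤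
        (exp (-1 : ℤ) ^ j)⁻¹ * exp (-(N : ℤ)) := by gcongr
      _ ≤ exp (-m) := by
        rw [← exp_nsmul, ← exp_neg, ← exp_add, exp_le_exp]
        simp only [nsmul_eq_mul]
        omega
  · intro Q hQ
    rw [map_div₀, map_pow, hp2 Q hQ, one_pow, div_one]
    exact placeVal_some_poly Q r

lemma exists_local_fix (P : HeightOneSpectrum Fq[X]) (h : Gv Fq (some P)) :
    ∃ γ : GL (Fin 2) (RatFunc Fq), (∀ Q, Q ≠ P → toGv Fq (some Q) γ ∈ GLO Fq (some Q)) ∧
      toGv Fq (some P) γ * h ∈ GLO Fq (some P) := by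
  obtain ⟨p, hp1, hp2⟩ := exists_gen P
  set π := algebraMap Fq[X] (RatFunc Fq) p with hπ
  have hπ0 : π ≠ 0 := by
    intro h0
    rw [h0, map_zero] at hp1
    exact exp_ne_zero hp1.symm
  have hvπ : Valued.v (toKv Fq (some P) π) = exp (-1 : ℤ) := by rw [valued_toKv, hp1]
  have hπ0' : toKv Fq (some P) π ≠ 0 := (_root_.map_ne_zero _).mpr hπ0
  obtain ⟨k, hk, hk0⟩ := exists_tri (w := Valued.v) h
  set M := h * k with hM
  obtain ⟨hM0, hM1⟩ := tri_ne hk0
  obtain ⟨m, hm⟩ := exists_exp (Valued.v) hM0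
  obtain ⟨n, hn⟩ := exists_exp (Valued.v) hM1
  -- approximate `x = M01 / M11 * π^(-n)`
  set x : Kv Fq (some P) := M 0 1 / M 1 1 * toKv Fq (some P) π ^ (-n) with hx
  obtain ⟨a, ha, ha'⟩ := exists_approx_fin P x (-m)
  set γ : GL (Fin 2) (RatFunc Fq) := mk2 (π ^ (-m)) a 0 (π ^ (-n))
    (by simp; exact ⟨zpow_ne_zero _ hπ0, zpow_ne_zero _ hπ0⟩) with hγ
  have hvz : ∀ z : ℤ, Valued.v (toKv Fq (some P) π ^ z) = exp (-z) := by
    intro z
    rw [map_zpow₀, hvπ, ← exp_zsmul]
    congr 1
    simp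
  refine ⟨γ⁻¹, ?_, ?_⟩
  · intro Q hQ
    rw [map_inv]
    apply inv_mem
    rw [toGv_mem_iff]
    have h1 : ∀ z : ℤ, placeVal Fq (some Q) (π ^ z) = 1 := by
      intro z; rw [map_zpow₀, hp2 Q hQ, one_zpow]
    refine ⟨?_, ?_⟩
    · intro i j
      fin_cases i <;> fin_cases j
      · simp [hγ, -map_zpow₀, h1]
      · simpa [hγ] using ha' Q hQ
      · simp [hγ]
      · simp [hγ, -map_zpow₀, h1]
    · rw [hγ, mk2_det]
      simp [-map_zpow₀, h1]
  · -- `h = γ * (unit)`
    have hkey : (toGv Fq (some P) γ)⁻¹ * M ∈ GLO Fq (some P) := by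
      have hd : ((toGv Fq (some P) γ : Gv Fq (some P)) : Matrix (Fin 2) (Fin 2) _).det =
          toKv Fq (some P) π ^ (-m) * toKv Fq (some P) π ^ (-n) := by
        rw [toGv_det, hγ, mk2_det]
        simp
      have e1 : ∀ i j, toGv Fq (some P) γ i j = toKv Fq (some P) (γ i j) := fun i j => rfl
      have hT : ∀ z : ℤ, toKv Fq (some P) π ^ z ≠ 0 := fun z => zpow_ne_zero _ hπ0'
      rw [mem_GLint]
      constructor
      · intro i j
        fin_cases i <;> fin_cases j
        · simp only [Fin.zero_eta]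
          rw [mul_apply', inv_00, inv_01, hd, e1, e1, hk0]
          simp only [hγ, mk2_11, mk2_01, map_zpow₀, mul_zero, add_zero]
          have : (toKv Fq (some P) π ^ (-m) * toKv Fq (some P) π ^ (-n))⁻¹ *
              toKv Fq (some P) π ^ (-n) * M 0 0 = toKv Fq (some P) π ^ m * M 0 0 := by
            have h1 := hT m
            have h2 := hT n
            rw [zpow_neg, zpow_neg]
            field_simp
          rw [this, map_mul, hvz, hm, ← exp_add]
          simp
        · simp only [Fin.zero_eta, Fin.mk_one]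
          rw [mul_apply', inv_00, inv_01, hd, e1, e1]
          simp only [hγ, mk2_11, mk2_01, map_zpow₀]
          have : (toKv Fq (some P) π ^ (-m) * toKv Fq (some P) π ^ (-n))⁻¹ *
              toKv Fq (some P) π ^ (-n) * M 0 1 + -((toKv Fq (some P) π ^ (-m) *
              toKv Fq (some P) π ^ (-n))⁻¹ * toKv Fq (some P) a) * M 1 1 =
              toKv Fq (some P) π ^ m * (toKv Fq (some P) π ^ n * M 1 1) *
              (x - toKv Fq (some P) a) := by
            have h1 := hT m
            have h2 := hT n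
            rw [hx, zpow_neg, zpow_neg]
            field_simp
            ring
          rw [this, map_mul, map_mul, map_mul, hvz, hvz, hn]
          calc exp (-m) * (exp (-n) * exp n) * Valued.v (x - toKv Fq (some P) a)
              ≤ exp (-m) * (exp (-n) * exp n) * exp (-(-m)) := by gcongr
            _ = 1 := by rw [← exp_add, ← exp_add, ← exp_add]; simp
        · simp only [Fin.zero_eta, Fin.mk_one]
          rw [mul_apply', inv_10, inv_11, e1, e1, hk0]
          simp [hγ]
        · simp only [Fin.mk_one]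
          rw [mul_apply', inv_10, inv_11, hd, e1, e1]
          simp only [hγ, mk2_00, mk2_10, map_zpow₀, map_zero, mul_zero, neg_zero, zero_mul, zero_add]
          have : (toKv Fq (some P) π ^ (-m) * toKv Fq (some P) π ^ (-n))⁻¹ *
              toKv Fq (some P) π ^ (-m) * M 1 1 = toKv Fq (some P) π ^ n * M 1 1 := by
            have h1 := hT m
            have h2 := hT n
            rw [zpow_neg, zpow_neg]
            field_simp
          rw [this, map_mul, hvz, hn, ← exp_add]
          simp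
      · rw [det_mul', det_inv', hd, det_eq M, hk0, mul_zero, sub_zero, map_mul, map_inv₀, map_mul,
          map_mul, hvz, hvz, hm, hn, ← exp_add, ← exp_add, ← exp_neg, ← exp_add]
        simp
    have : toGv Fq (some P) γ⁻¹ * h = (toGv Fq (some P) γ)⁻¹ * M * k⁻¹ := by
      rw [map_inv, hM]; group
    rw [this]
    exact mul_mem hkey (inv_mem hk)

lemma diagG_apply (γ : GL (Fin 2) (RatFunc Fq)) (v : Place Fq) : diagG Fq γ v = toGv Fq v γ := rfl

lemma mul_app (g h : GA Fq) (v : Place Fq) : (g * h) v = g v * h v := rfl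
lemma inv_app (g : GA Fq) (v : Place Fq) : (g⁻¹) v = (g v)⁻¹ := rfl
lemma one_app (v : Place Fq) : (1 : GA Fq) v = 1 := rfl

theorem strong_approx (g : GA Fq) :
    ∃ γ : GL (Fin 2) (RatFunc Fq), ∀ P, (diagG Fq γ * g) (some P) ∈ GLO Fq (some P) := by
  have key : ∀ S : Finset (HeightOneSpectrum Fq[X]), ∀ g : GA Fq,
      (∀ P, P ∉ S → g (some P) ∈ GLO Fq (some P)) →
      ∃ γ : GL (Fin 2) (RatFunc Fq), ∀ P, (diagG Fq γ * g) (some P) ∈ GLO Fq (some P) := by
    classical
    intro S
    induction S using Finset.induction_on with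
    | empty =>
      intro g hg
      exact ⟨1, fun P => by rw [map_one, one_mul]; exact hg P (by simp)⟩
    | insert P S hP ih =>
      intro g hg
      obtain ⟨γ, h1, h2⟩ := exists_local_fix P (g (some P))
      obtain ⟨γ', h'⟩ := ih (diagG Fq γ * g) (by
        intro Q hQ
        rw [mul_app, diagG_apply]
        by_cases hQP : Q = P
        · subst hQP; exact h2
        · exact mul_mem (h1 Q hQP) (hg Q (by simp [hQP, hQ])))
      refine ⟨γ' * γ, fun Q => ?_⟩
      rw [map_mul, mul_assoc]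
      exact h' Q
  have hfin : {v : Place Fq | ¬ g v ∈ GLO Fq v}.Finite := g.2
  have hfin2 : {P : HeightOneSpectrum Fq[X] | ¬ g (some P) ∈ GLO Fq (some P)}.Finite := by
    refine (hfin.preimage (f := some) ((Option.some_injective _).injOn)).subset ?_
    intro P hP
    exact hP
  refine key hfin2.toFinset g fun P hP => ?_
  by_contra hcon
  exact hP (by simpa using hcon)

end

end Pool.Agent.H330R2
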