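import Mathlib
import Pool.Agent.H330R2.Decomp

/-!
# Birkhoff decomposition at infinity (helper file)
-/

namespace Pool.Agent.H330R2

open IsDedekindDomain Polynomial WithZero RestrictedProduct Topology

noncomputable section

variable {Fq : Type} [Field Fq]

variable (Fq) in
/-- `T` in `K_∞` -/
def Tk : Kv Fq none := toKv Fq none RatFunc.X

lemma valued_Tk : Valued.v (Tk Fq) = exp (1 : ℤ) := by rw [Tk, valued_toKv, placeVal_none_X]

lemma Tk_ne : Tk Fq ≠ 0 := by
  intro h
  have := valued_Tk (Fq := Fq)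
  rw [h, map_zero] at this
  exact exp_ne_zero this.symm

lemma valued_Tk_zpow (n : ℤ) : Valued.v (Tk Fq ^ n) = exp n := by
  rw [map_zpow₀, valued_Tk, ← exp_zsmul]
  simp

lemma Tk_zpow_ne (n : ℤ) : Tk Fq ^ n ≠ 0 := zpow_ne_zero _ Tk_ne

/-- `diag(T^a, T^b)` -/
def dT (a b : ℤ) : Gv Fq none := dd (Tk Fq ^ a) (Tk Fq ^ b) (Tk_zpow_ne a) (Tk_zpow_ne b)

theorem gap_reduction (N : ℕ) : ∀ (M : Gv Fq none) (a b : ℤ), M 1 0 = 0 → Valued.v (M 0 0) = exp a →
    Valued.v (M 1 1) = exp b → (b - a).natAbs ≤ N →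
    ∃ γ : GL (Fin 2) (RatFunc Fq), FinInt γ ∧ ∃ a' b' : ℤ, ∃ k ∈ GLO Fq none,
      toGv Fq none γ * M = dT a' b' * k := by
  induction N using Nat.strong_induction_on with
  | _ N ih =>
  intro M a b h10 h00 h11 hN
  obtain ⟨n0, n1⟩ := tri_ne h10
  -- reduce the upper right entry
  obtain ⟨y, hy⟩ := exists_approx_lt none (M 0 1 / M 1 1)
  obtain ⟨Q, hQ⟩ := exists_poly_approx y
  set q' : Kv Fq none := toKv Fq none (algebraMap Fq[X] (RatFunc Fq) Q) with hq'
  have h1 : Valued.v (M 0 1 / M 1 1 - q') < 1 := by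
    have : M 0 1 / M 1 1 - q' = (M 0 1 / M 1 1 - toKv Fq none y) +
        toKv Fq none (y - algebraMap Fq[X] (RatFunc Fq) Q) := by
      rw [map_sub]; ring
    rw [this]
    refine lt_of_le_of_lt (Valuation.map_add _ _ _) (max_lt hy ?_)
    rwa [valued_toKv]
  set x' : Kv Fq none := M 0 1 - q' * M 1 1 with hx'
  have h2 : Valued.v x' ≤ exp (b - 1) := by
    have : x' = M 1 1 * (M 0 1 / M 1 1 - q') := by
      rw [hx']; field_simp
    rw [this, map_mul, h11]
    rw [lt_one_iff] at h1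
    calc exp b * Valued.v (M 0 1 / M 1 1 - q') ≤ exp b * exp (-1 : ℤ) := by gcongr
      _ = exp (b - 1) := by rw [← exp_add]; rfl
  set γ₀ : GL (Fin 2) (RatFunc Fq) := nn (algebraMap Fq[X] (RatFunc Fq) (-Q)) with hγ₀
  have hγ₀f : FinInt γ₀ := finInt_nn _
  set M₁ := toGv Fq none γ₀ * M with hM₁
  have e00 : M₁ 0 0 = M 0 0 := by
    rw [hM₁, hγ₀, toGv_nn, mul_apply', h10]; simp [nn]
  have e01 : M₁ 0 1 = x' := by
    rw [hM₁, hγ₀, toGv_nn, mul_apply', hx', hq']; simp [nn]; ring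
  have e10 : M₁ 1 0 = 0 := by
    rw [hM₁, hγ₀, toGv_nn, mul_apply', h10]; simp [nn]
  have e11 : M₁ 1 1 = M 1 1 := by
    rw [hM₁, hγ₀, toGv_nn, mul_apply']; simp [nn]
  by_cases hc : Valued.v x' ≤ exp a
  · -- done
    refine ⟨γ₀, hγ₀f, a, b, (dT a b)⁻¹ * M₁, ?_, by rw [mul_inv_cancel_left]⟩
    have hd : ((dT a b : Gv Fq none) : Matrix (Fin 2) (Fin 2) _).det = Tk Fq ^ a * Tk Fq ^ b := by
      rw [det_eq]; simp [dT, dd]
    rw [mem_GLint]
    constructor
    · intro i j
      have ha := Tk_zpow_ne (Fq := Fq) a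
      have hb := Tk_zpow_ne (Fq := Fq) b
      fin_cases i <;> fin_cases j
      · simp only [Fin.zero_eta]
        rw [mul_apply', inv_00, inv_01, hd, e10, e00]
        have : (Tk Fq ^ a * Tk Fq ^ b)⁻¹ * (dT a b) 1 1 * M 0 0 +
            -((Tk Fq ^ a * Tk Fq ^ b)⁻¹ * (dT a b) 0 1) * 0 = M 0 0 / Tk Fq ^ a := by
          simp [dT, dd]; field_simp
        rw [this, map_div₀, h00, valued_Tk_zpow]; simp
      · simp only [Fin.zero_eta, Fin.mk_one]
        rw [mul_apply', inv_00, inv_01, hd, e01, e11]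
        have : (Tk Fq ^ a * Tk Fq ^ b)⁻¹ * (dT a b) 1 1 * x' +
            -((Tk Fq ^ a * Tk Fq ^ b)⁻¹ * (dT a b) 0 1) * M 1 1 = x' / Tk Fq ^ a := by
          simp [dT, dd]; field_simp
        rw [this, map_div₀, valued_Tk_zpow]
        rwa [div_le_one₀ (by simp)]
      · simp only [Fin.zero_eta, Fin.mk_one]
        rw [mul_apply', inv_10, inv_11, hd, e10]
        simp [dT, dd]
      · simp only [Fin.mk_one]
        rw [mul_apply', inv_10, inv_11, hd, e01, e11]
        have : -((Tk Fq ^ a * Tk Fq ^ b)⁻¹ * (dT a b) 1 0) * x' +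
            (Tk Fq ^ a * Tk Fq ^ b)⁻¹ * (dT a b) 0 0 * M 1 1 = M 1 1 / Tk Fq ^ b := by
          simp [dT, dd]; field_simp
        rw [this, map_div₀, h11, valued_Tk_zpow]; simp
    · rw [det_mul', det_inv', hd, det_eq M₁, e00, e11, e10, mul_zero, sub_zero, map_mul, map_inv₀,
        map_mul, map_mul, valued_Tk_zpow, valued_Tk_zpow, h00, h11, ← exp_add, ← exp_neg, ← exp_add]
      simp
  · -- reduce the gap
    push Not at hc
    have hx0 : x' ≠ 0 := by
      intro h0
      rw [h0, map_zero] at hc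
      exact not_lt_zero hc
    obtain ⟨c, hxc⟩ := exists_exp (Valued.v) hx0
    rw [hxc, exp_lt_exp] at hc
    rw [hxc, exp_le_exp] at h2
    -- the new matrix
    set k₁ : Gv Fq none := ss * nn (-(M 0 0 / x')) * ss with hk₁
    have hk₁m : k₁ ∈ GLO Fq none := by
      refine mul_mem (mul_mem (ss_mem _) (nn_mem _ ?_)) (ss_mem _)
      rw [Valuation.map_neg, map_div₀, h00, hxc, div_le_one₀ (by simp), exp_le_exp]
      exact hc.le
    set M₂ := toGv Fq none ss * (M₁ * k₁) with hM₂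
    have f00 : M₂ 0 0 = -(M 1 1 * M 0 0 / x') := by
      rw [hM₂, hk₁, toGv_ss]
      simp only [mul_apply', e00, e01, e10, e11]
      simp [ss, nn]; ring
    have f10 : M₂ 1 0 = 0 := by
      rw [hM₂, hk₁, toGv_ss]
      simp only [mul_apply', e00, e01, e10, e11]
      simp [ss, nn]; field_simp; ring
    have f11 : M₂ 1 1 = x' := by
      rw [hM₂, hk₁, toGv_ss]
      simp only [mul_apply', e00, e01, e10, e11]
      simp [ss, nn]
    obtain ⟨γ, hγ, a', b', k, hk, he⟩ := ih (c - (a + b - c)).natAbs (by omega) M₂ (a + b - c) c f10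
      (by rw [f00, Valuation.map_neg, map_div₀, map_mul, h11, h00, hxc, ← exp_add, ← exp_sub]
          congr 1; ring)
      (by rw [f11, hxc]) le_rfl
    refine ⟨γ * ss * γ₀, (hγ.mul finInt_ss).mul hγ₀f, a', b', k * k₁⁻¹, mul_mem hk (inv_mem hk₁m), ?_⟩
    rw [← mul_assoc, ← he, hM₂, hM₁, map_mul, map_mul]
    group

theorem birkhoff_local (h : Gv Fq none) : ∃ γ : GL (Fin 2) (RatFunc Fq), FinInt γ ∧
    ∃ a b : ℤ, b ≤ a ∧ ∃ k ∈ GLO Fq none, toGv Fq none γ * h = dT a b * k := by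
  obtain ⟨k₀, hk₀, h10⟩ := exists_tri (w := Valued.v) h
  obtain ⟨n0, n1⟩ := tri_ne h10
  obtain ⟨a, ha⟩ := exists_exp (Valued.v) n0
  obtain ⟨b, hb⟩ := exists_exp (Valued.v) n1
  obtain ⟨γ, hγ, a', b', k, hk, he⟩ := gap_reduction _ (h * k₀) a b h10 ha hb le_rfl
  have he' : toGv Fq none γ * h = dT a' b' * (k * k₀⁻¹) := by
    rw [← mul_assoc, ← he]; group
  rcases le_total b' a' with hle | hle
  · exact ⟨γ, hγ, a', b', hle, _, mul_mem hk (inv_mem hk₀), he'⟩
  · refine ⟨ss * γ, finInt_ss.mul hγ, b', a', hle, ss * (k * k₀⁻¹),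
      mul_mem (ss_mem _) (mul_mem hk (inv_mem hk₀)), ?_⟩
    have key : (ss * dT a' b' : Gv Fq none) = dT b' a' * ss := by
      apply GL_ext <;> simp [mul_apply', ss, dT, dd]
    rw [map_mul, mul_assoc, he', toGv_ss, ← mul_assoc, key, mul_assoc]

/-! ### elements supported at one place -/

lemma single_same (v : Place Fq) (g : Gv Fq v) : (single Fq v g) v = g := by
  classical
  exact Pi.mulSingle_eq_same v g

lemma single_ne {v w : Place Fq} (h : w ≠ v) (g : Gv Fq v) : (single Fq v g) w = 1 := by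
  classical
  exact Pi.mulSingle_eq_of_ne h g

/-- elements with trivial component at `v` -/
def Cv (v : Place Fq) : Subgroup (GA Fq) where
  carrier := {g | g v = 1}
  one_mem' := rfl
  mul_mem' := by
    intro a b (ha : a v = 1) (hb : b v = 1)
    change (a * b) v = 1
    rw [mul_app, ha, hb, one_mul]
  inv_mem' := by
    intro a (ha : a v = 1)
    change (a⁻¹) v = 1
    rw [inv_app, ha, inv_one]

lemma mem_Cv (v : Place Fq) (g : GA Fq) : g ∈ Cv v ↔ g v = 1 := Iff.rfl

lemma GA_ext {g h : GA Fq} (H : ∀ v, g v = h v) : g = h := RestrictedProduct.ext _ _ H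

lemma single_comm {v : Place Fq} (h : Gv Fq v) {c : GA Fq} (hc : c v = 1) :
    single Fq v h * c = c * single Fq v h := by
  apply GA_ext
  intro w
  rw [mul_app, mul_app]
  by_cases hw : w = v
  · subst hw
    rw [hc, mul_one, one_mul]
  · rw [single_ne hw, mul_one, one_mul]

lemma factor_single (v : Place Fq) : Factor (single Fq v) (Cv v) where
  comm h _ hc := single_comm h hc
  surj g := by
    refine ⟨g v, (single Fq v (g v))⁻¹ * g, ?_, by group⟩
    rw [mem_Cv, mul_app, inv_app, single_same, inv_mul_cancel]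

/-! ### the global decomposition -/

/-- `g ∈ GL₂(K) · diag(T^n, 1)_∞ · Z_∞ · K_A` -/
def HasGap (g : GA Fq) (n : ℕ) : Prop :=
  ∃ γ : GL (Fin 2) (RatFunc Fq), ∃ z : Kv Fq none, ∃ hz : z ≠ 0, ∃ k ∈ KA Fq,
    g = diagG Fq γ * single Fq none (dT n 0 * scal z hz) * k

theorem exists_gap (g : GA Fq) : ∃ n, HasGap g n := by
  obtain ⟨γ₁, h₁⟩ := strong_approx g
  obtain ⟨γ₂, h₂, a, b, hab, k, hk, he⟩ := birkhoff_local ((diagG Fq γ₁ * g) none)
  refine ⟨(a - b).toNat, (γ₂ * γ₁)⁻¹, Tk Fq ^ b, Tk_zpow_ne b,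
    (single Fq none (dT a b))⁻¹ * (diagG Fq (γ₂ * γ₁) * g), ?_, ?_⟩
  · intro v
    cases v with
    | none =>
      rw [mul_app, inv_app, single_same, map_mul, mul_assoc, mul_app, diagG_apply, he,
        inv_mul_cancel_left]
      exact hk
    | some P =>
      rw [mul_app, inv_app, single_ne (by simp), inv_one, one_mul, map_mul, mul_assoc, mul_app,
        diagG_apply]
      exact mul_mem (h₂ P) (h₁ P)
  · have : (dT ((a - b).toNat : ℤ) 0 * scal (Tk Fq ^ b) (Tk_zpow_ne b) : Gv Fq none) = dT a b := by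
      have h1 : Tk Fq ^ ((a - b).toNat : ℤ) * Tk Fq ^ b = Tk Fq ^ a := by
        rw [← zpow_add₀ Tk_ne]
        congr 1
        omega
      apply GL_ext
      · simp only [dT, dd, scal, mul_apply', mk2_00, mk2_01, mk2_10, h1]; simp
      · simp only [dT, dd, scal, mul_apply', mk2_00, mk2_01, mk2_11]; simp
      · simp only [dT, dd, scal, mul_apply', mk2_00, mk2_10, mk2_11]; simp
      · simp only [dT, dd, scal, mul_apply', mk2_01, mk2_10, mk2_11]; simp
    rw [this, map_inv]
    group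

/-- symmetric part of the uniqueness of the gap -/
lemma gap_unique_aux {g : GA Fq} {n m : ℕ} (hn : HasGap g n) (hm : HasGap g m) : n ≤ m := by
  obtain ⟨γ, z, hz, k, hk, rfl⟩ := hn
  obtain ⟨γ', z', hz', k', hk', he⟩ := hm
  by_contra hcon
  push Not at hcon
  set η := γ'⁻¹ * γ with hη
  have h1 : diagG Fq η * single Fq none (dT n 0 * scal z hz) =
      single Fq none (dT m 0 * scal z' hz') * (k' * k⁻¹) := by
    rw [hη, map_mul, map_inv]
    have := he
    rw [← mul_inv_eq_iff_eq_mul] at this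
    rw [← mul_assoc, ← this] at *
    have h2 : (diagG Fq γ')⁻¹ * (diagG Fq γ * single Fq none (dT n 0 * scal z hz) * k) =
        single Fq none (dT m 0 * scal z' hz') * k' := by
      rw [he]; group
    rw [mul_assoc (diagG Fq γ')⁻¹, ← mul_inv_eq_iff_eq_mul.mpr h2.symm] at *
    group
  have hfin : FinInt η := by
    intro P
    have := congrArg (fun g : GA Fq => g (some P)) h1
    rw [mul_app, single_ne (by simp), mul_one, mul_app, single_ne (by simp), one_mul] at this
    rw [diagG_apply] at this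
    rw [this]
    exact mul_mem (hk' _) (inv_mem (hk _))
  set κ : Gv Fq none := k' none * (k none)⁻¹ with hκ
  have hκm : κ ∈ GLO Fq none := mul_mem (hk' _) (inv_mem (hk _))
  have hinf : toGv Fq none η * (dT n 0 * scal z hz) = (dT m 0 * scal z' hz') * κ := by
    have := congrArg (fun g : GA Fq => g none) h1
    rw [mul_app, single_same, mul_app, single_same, diagG_apply] at this
    exact this
  rw [mem_GLint] at hκm
  obtain ⟨hκ1, hκ2⟩ := hκm
  obtain ⟨ez, hez⟩ := exists_exp (Valued.v) hz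
  obtain ⟨ez', hez'⟩ := exists_exp (Valued.v) hz'
  have hdet := hfin.det_inf
  have hdet2 := congrArg (fun g : Gv Fq none =>
    Valued.v ((g : Matrix (Fin 2) (Fin 2) (Kv Fq none)).det)) hinf
  rw [det_mul' (toGv Fq none η), det_mul' _ κ, toGv_det, map_mul, map_mul, hκ2, valued_toKv, hdet,
    mul_one, one_mul] at hdet2
  have hd1 : ∀ (n : ℤ) (z : Kv Fq none) (hz : z ≠ 0) (e : ℤ), Valued.v z = exp e →
      Valued.v (((dT n 0 * scal z hz : Gv Fq none) : Matrix (Fin 2) (Fin 2) (Kv Fq none)).det) =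
      exp (n + 2 * e) := by
    intro n z hz e he
    have : ((dT n 0 * scal z hz : Gv Fq none) : Matrix (Fin 2) (Fin 2) (Kv Fq none)).det =
        Tk Fq ^ n * z * z := by
      rw [det_mul', det_eq, det_eq]; simp [dT, dd, scal]; ring
    rw [this, map_mul, map_mul, valued_Tk_zpow, he, ← exp_add, ← exp_add]
    congr 1; ring
  rw [hd1 n z hz ez hez, hd1 m z' hz' ez' hez', exp_inj] at hdet2
  -- entries
  have c00 := congrArg (fun g : Gv Fq none => g 0 0) hinf
  have c10 := congrArg (fun g : Gv Fq none => g 1 0) hinf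
  simp only [mul_apply', dT, dd, scal, mk2_00, mk2_01, mk2_10, mk2_11, toGv_apply] at c00 c10
  simp only [mul_zero, zero_mul, add_zero, zero_add, zpow_zero, one_mul, mul_one] at c00 c10
  have z00 : η 0 0 = 0 := by
    apply eq_zero_of_integral _ (fun P => hfin.entry P 0 0)
    rw [← valued_toKv]
    have h3 := congrArg Valued.v c00
    rw [map_mul, map_mul, map_mul, map_mul, valued_Tk_zpow, valued_Tk_zpow, hez, hez', ← exp_add,
      ← exp_add] at h3
    have h4 : Valued.v (toKv Fq none (η 0 0)) ≤ exp ((m + ez') - (n + ez)) := by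
      rw [exp_sub, le_div_iff₀ (by simp), h3]
      exact mul_le_of_le_one_right' (hκ1 0 0)
    refine lt_of_le_of_lt h4 ?_
    rw [show (1 : ℤᵐ⁰) = exp 0 from rfl, exp_lt_exp]
    omega
  have z10 : η 1 0 = 0 := by
    apply eq_zero_of_integral _ (fun P => hfin.entry P 1 0)
    rw [← valued_toKv]
    have h3 := congrArg Valued.v c10
    rw [map_mul, map_mul, map_mul, valued_Tk_zpow, hez, hez', ← exp_add] at h3
    have h4 : Valued.v (toKv Fq none (η 1 0)) ≤ exp (ez' - (n + ez)) := by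
      rw [exp_sub, le_div_iff₀ (by simp), h3]
      exact mul_le_of_le_one_right' (hκ1 1 0)
    refine lt_of_le_of_lt h4 ?_
    rw [show (1 : ℤᵐ⁰) = exp 0 from rfl, exp_lt_exp]
    omega
  apply det_ne η
  rw [z00, z10]; ring

theorem gap_unique {g : GA Fq} {n m : ℕ} (hn : HasGap g n) (hm : HasGap g m) : n = m :=
  le_antisymm (gap_unique_aux hn hm) (gap_unique_aux hm hn)

/-- the gap -/
def gap (g : GA Fq) : ℕ := (exists_gap g).choose

lemma gap_spec (g : GA Fq) : HasGap g (gap g) := (exists_gap g).choose_spec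

lemma gap_eq {g : GA Fq} {n : ℕ} (h : HasGap g n) : gap g = n := gap_unique (gap_spec g) h

end

end Pool.Agent.H330R2
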