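import Mathlib
import Pool.Agent.H330R2.Birk

/-!
# Harmonic functions on `GL₂(K)\GL₂(A_K)` (helper file)
-/

namespace Pool.Agent.H330R2

open IsDedekindDomain Polynomial WithZero RestrictedProduct Topology

noncomputable section

variable {Fq : Type} [Field Fq]

variable (Fq) in
/-- the uniformiser `1/T` at infinity -/
def pk : Kv Fq none := (Tk Fq)⁻¹

lemma pk_ne : pk Fq ≠ 0 := inv_ne_zero Tk_ne

lemma valued_pk : Valued.v (pk Fq) = exp (-1 : ℤ) := by
  rw [pk, map_inv₀, valued_Tk, ← exp_neg]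

/-- the finite part of a global element -/
def finPart (γ : GL (Fin 2) (RatFunc Fq)) : GA Fq :=
  (single Fq none (toGv Fq none γ))⁻¹ * diagG Fq γ

lemma finPart_none (γ : GL (Fin 2) (RatFunc Fq)) : finPart γ none = 1 := by
  rw [finPart, mul_app, inv_app, single_same, diagG_apply, inv_mul_cancel]

lemma finPart_some (γ : GL (Fin 2) (RatFunc Fq)) (P) : finPart γ (some P) = toGv Fq (some P) γ := by
  rw [finPart, mul_app, inv_app, single_ne (by simp), diagG_apply, inv_one, one_mul]

variable (Fq) in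
/-- the maximal compact subgroup away from infinity -/
def Kc : Subgroup (GA Fq) := KA Fq ⊓ Cv none

lemma finPart_mem {γ : GL (Fin 2) (RatFunc Fq)} (h : FinInt γ) : finPart γ ∈ Kc Fq := by
  refine ⟨fun v => ?_, finPart_none γ⟩
  cases v with
  | none => rw [finPart_none]; exact one_mem _
  | some P => rw [finPart_some]; exact h P

lemma left_move {f : GA Fq → ℂ} (hf : ∀ γ g, f (diagG Fq γ * g) = f g)
    (γ : GL (Fin 2) (RatFunc Fq)) (h : Gv Fq none) (k : GA Fq) :
    f (single Fq none (toGv Fq none γ * h) * k) = f (single Fq none h * ((finPart γ)⁻¹ * k)) := by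
  have h1 : single Fq none (toGv Fq none γ * h) * k =
      diagG Fq γ * (single Fq none h * ((finPart γ)⁻¹ * k)) := by
    have h2 : single Fq none h * (finPart γ)⁻¹ = (finPart γ)⁻¹ * single Fq none h :=
      single_comm h (by rw [inv_app, finPart_none, inv_one])
    rw [← mul_assoc (single Fq none h), h2, finPart, map_mul]
    group
  rw [h1, hf]

lemma toGv_nn_T (c : Fq) (n : ℕ) :
    toGv Fq none (nn (algebraMap Fq[X] (RatFunc Fq) (C c * X ^ n))) = nn (cst c * Tk Fq ^ (n : ℤ)) := by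
  rw [toGv_nn]
  congr 1
  rw [map_mul, map_pow, RatFunc.algebraMap_C, RatFunc.algebraMap_X, map_mul, map_pow, zpow_natCast]
  rfl

lemma dT_nn (c : Fq) (n : ℕ) :
    dT n 0 * (nn (cst c) * dd (pk Fq) 1 pk_ne one_ne_zero) =
      toGv Fq none (nn (algebraMap Fq[X] (RatFunc Fq) (C c * X ^ n))) * dT (n - 1 : ℤ) 0 := by
  rw [toGv_nn_T]
  have h1 : Tk Fq ^ ((n : ℤ) - 1) = Tk Fq ^ (n : ℤ) * pk Fq := by
    rw [pk, ← div_eq_mul_inv, zpow_sub_one₀ Tk_ne]; rfl
  apply GL_ext
  · simp only [mul_apply', dT, dd, nn, mk2_00, mk2_01, mk2_10, mk2_11, h1]; ring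
  · simp only [mul_apply', dT, dd, nn, mk2_00, mk2_01, mk2_10, mk2_11, h1, zpow_zero]; ring
  · simp only [mul_apply', dT, dd, nn, mk2_00, mk2_01, mk2_10, mk2_11, h1]; ring
  · simp only [mul_apply', dT, dd, nn, mk2_00, mk2_01, mk2_10, mk2_11, h1]; ring

lemma dT_zero : (dT 0 0 : Gv Fq none) = 1 := by
  apply GL_ext <;> simp [dT, dd]

/-- shift lemma -/
lemma shift {f : GA Fq → ℂ} (hf : ∀ γ g, f (diagG Fq γ * g) = f g) (c : Fq) (n : ℕ) {k : GA Fq}
    (hk : k none = 1) (h : Gv Fq none) :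
    f (single Fq none (dT n 0) * k * single Fq none ((nn (cst c) * dd (pk Fq) 1 pk_ne one_ne_zero) * h)) =
      f (single Fq none (dT (n - 1 : ℤ) 0 * h) *
        ((finPart (nn (algebraMap Fq[X] (RatFunc Fq) (C c * X ^ n))))⁻¹ * k)) := by
  rw [← left_move hf]
  rw [← mul_assoc, ← dT_nn, mul_assoc, ← single_comm _ hk, ← mul_assoc, ← map_mul, mul_assoc (dT (n : ℤ) 0)]

lemma scal_central (a : GA Fq) (z : Kv Fq none) (hz : z ≠ 0) :
    a * single Fq none (scal z hz) = single Fq none (scal z hz) * a := by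
  apply GA_ext
  intro v
  rw [mul_app, mul_app]
  cases v with
  | none => rw [single_same, scal_comm]
  | some P => rw [single_ne (by simp), one_mul, mul_one]

lemma KA_split {k : GA Fq} (hk : k ∈ KA Fq) : ∃ k' ∈ Kc Fq, k = k' * single Fq none (k none) := by
  refine ⟨(single Fq none (k none))⁻¹ * k, ⟨fun v => ?_, ?_⟩, ?_⟩
  · cases v with
    | none => rw [mul_app, inv_app, single_same, inv_mul_cancel]; exact one_mem _
    | some P => rw [mul_app, inv_app, single_ne (by simp), inv_one, one_mul]; exact hk _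
  · change ((single Fq none (k none))⁻¹ * k) none = 1
    rw [mul_app, inv_app, single_same, inv_mul_cancel]
  · rw [← single_comm, mul_inv_cancel_left]
    rw [mul_app, inv_app, single_same, inv_mul_cancel]

section

variable [Fintype Fq]

/-- Harmonic functions (up to a constant `c`). -/
structure HFun (y : GA Fq → ℂ) (c : ℂ) : Prop where
  left : ∀ γ g, y (diagG Fq γ * g) = y g
  iw : ∀ g, ∀ u ∈ Iw (Valued.v (R := Kv Fq none)), y (g * single Fq none u) = y g
  center : ∀ g (z : Kv Fq none) (hz : z ≠ 0), y (g * single Fq none (scal z hz)) = y g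
  atkin : ∀ g, y (g * single Fq none (wA (pk Fq) pk_ne)) = - y g
  harm : ∀ g, ∑ t : Option (Dinf Fq), y (g * single Fq none (rep (Dinf Fq) t)) = c

lemma HFun.kapp {y : GA Fq → ℂ} {c : ℂ} (h : HFun y c) (g : GA Fq) (b : Kv Fq none) :
    y (g * single Fq none (kap b)) =
      - y (g * single Fq none (nn b * dd (pk Fq) 1 pk_ne one_ne_zero)) := by
  rw [kap_eq (hϖ := pk_ne) b, scal_comm, map_mul, ← mul_assoc, h.center, map_mul, ← mul_assoc,
    h.atkin]

lemma HFun.summ {y : GA Fq → ℂ} {c : ℂ} (h : HFun y c) (g : GA Fq) :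
    y g = c + ∑ b : Fq, y (g * single Fq none (nn (cst b) * dd (pk Fq) 1 pk_ne one_ne_zero)) := by
  have h1 := h.harm g
  rw [sum_option (D := Dinf Fq) (fun t => y (g * single Fq none t))] at h1
  simp only [map_one, mul_one] at h1
  simp_rw [h.kapp] at h1
  rw [Finset.sum_neg_distrib, sum_Dinf] at h1
  rw [← h1]; ring

lemma HFun.add {y y' : GA Fq → ℂ} {c c' : ℂ} (h : HFun y c) (h' : HFun y' c') :
    HFun (y + y') (c + c') where
  left γ g := by simp [h.left, h'.left]
  iw g u hu := by simp [h.iw g u hu, h'.iw g u hu]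
  center g z hz := by simp [h.center, h'.center]
  atkin g := by simp [h.atkin, h'.atkin]; ring
  harm g := by simp [Finset.sum_add_distrib, h.harm, h'.harm]

lemma HFun.smul {y : GA Fq → ℂ} {c : ℂ} (h : HFun y c) (a : ℂ) : HFun (a • y) (a * c) where
  left γ g := by simp [h.left]
  iw g u hu := by simp [h.iw g u hu]
  center g z hz := by simp [h.center]
  atkin g := by simp [h.atkin]
  harm g := by simp [← Finset.mul_sum, h.harm]

lemma HFun.zero : HFun (0 : GA Fq → ℂ) 0 where
  left γ g := by simp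
  iw g u hu := by simp
  center g z hz := by simp
  atkin g := by simp
  harm g := by simp

/-- translates by elements trivial at infinity -/
lemma HFun.rtrans {y : GA Fq → ℂ} {c : ℂ} (h : HFun y c) {d : GA Fq} (hd : d none = 1) :
    HFun (rtr Fq d y) c := by
  have hc : ∀ u : Gv Fq none, ∀ g : GA Fq, g * single Fq none u * d = g * d * single Fq none u := by
    intro u g
    rw [mul_assoc, single_comm u hd, ← mul_assoc]
  refine ⟨?_, ?_, ?_, ?_, ?_⟩
  · intro γ g
    change y (diagG Fq γ * g * d) = y (g * d)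
    rw [mul_assoc, h.left]
  · intro g u hu
    change y (g * single Fq none u * d) = y (g * d)
    rw [hc, h.iw _ _ hu]
  · intro g z hz
    change y (g * single Fq none _ * d) = y (g * d)
    rw [hc, h.center]
  · intro g
    change y (g * single Fq none _ * d) = - y (g * d)
    rw [hc, h.atkin]
  · intro g
    change ∑ t : Option (Dinf Fq), y (g * single Fq none (rep (Dinf Fq) t) * d) = c
    simp_rw [hc]
    exact h.harm _

/-- **Key vanishing lemma.** -/
theorem HFun.eq_zero {y : GA Fq → ℂ} (h : HFun y 0) (h0 : ∀ k ∈ Kc Fq, y k = 0) : y = 0 := by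
  -- values on `diag(T^n, 1) k`
  have h1 : ∀ n : ℕ, ∀ k ∈ Kc Fq, y (single Fq none (dT n 0) * k) = 0 := by
    intro n
    induction n with
    | zero =>
      intro k hk
      rw [Nat.cast_zero, dT_zero, map_one, one_mul]
      exact h0 k hk
    | succ n ih =>
      intro k hk
      rw [h.summ]
      rw [zero_add]
      refine Finset.sum_eq_zero fun b _ => ?_
      have h2 := shift h.left b (n + 1) hk.2 1
      rw [mul_one, mul_one] at h2
      rw [h2]
      have h3 : ((n + 1 : ℕ) : ℤ) - 1 = n := by push_cast; ring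
      rw [h3]
      exact ih _ (mul_mem (inv_mem (finPart_mem (finInt_nn _))) hk)
  -- values on `diag(T^n, 1) rep k`
  have h2 : ∀ n : ℕ, ∀ t : Option (Dinf Fq), ∀ k ∈ Kc Fq,
      y (single Fq none (dT n 0) * k * single Fq none (rep (Dinf Fq) t)) = 0 := by
    intro n t k hk
    cases t with
    | none => simpa [rep] using h1 n k hk
    | some b =>
      obtain ⟨b, hb⟩ := b
      classical
      obtain ⟨c, -, rfl⟩ := Finset.mem_image.mp hb
      simp only [rep]
      cases n with
      | succ n =>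
        rw [h.kapp]
        have h2 := shift h.left c (n + 1) hk.2 1
        rw [mul_one, mul_one] at h2
        rw [h2]
        have h3 : ((n + 1 : ℕ) : ℤ) - 1 = n := by push_cast; ring
        rw [h3, h1 n _ (mul_mem (inv_mem (finPart_mem (finInt_nn _))) hk), neg_zero]
      | zero =>
        rw [Nat.cast_zero, dT_zero, map_one, one_mul, ← single_comm _ hk.2]
        have h4 : (kap (cst c) : Gv Fq none) = toGv Fq none (nn (algebraMap Fq[X] (RatFunc Fq) (C c)) * ss) := by
          rw [map_mul, toGv_nn, toGv_ss, RatFunc.algebraMap_C]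
          apply GL_ext <;> simp [mul_apply', kap, nn, ss, cst]
        rw [h4, ← mul_one (toGv Fq none _), left_move h.left, map_one, one_mul]
        exact h0 _ (mul_mem (inv_mem (finPart_mem ((finInt_nn _).mul finInt_ss))) hk)
  funext g
  obtain ⟨n, γ, z, hz, k, hk, rfl⟩ := exists_gap g
  obtain ⟨t, ht⟩ := exists_rep isDigits_inf (hk none)
  obtain ⟨k', hk'm, hk'⟩ := KA_split hk
  set u := (rep (Dinf Fq) t)⁻¹ * k none with hu
  have e1 : k = k' * single Fq none (rep (Dinf Fq) t) * single Fq none u := by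
    rw [mul_assoc, ← map_mul, hu, mul_inv_cancel_left, ← hk']
  have e3 : diagG Fq γ * single Fq none (dT n 0 * scal z hz) * k =
      diagG Fq γ * (single Fq none (dT n 0) * k' * single Fq none (rep (Dinf Fq) t) *
        single Fq none u * single Fq none (scal z hz)) := by
    rw [scal_central, map_mul, e1]
    rw [scal_central]
    simp only [mul_assoc]
  rw [e3, h.left, h.center, h.iw _ _ ht, h2 n t k' hk'm]
  rfl

/-- the space of harmonic functions (up to constants) invariant under `U` -/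
def HSpace (U : Subgroup (GA Fq)) : Submodule ℂ (GA Fq → ℂ) where
  carrier := {y | (∃ c, HFun y c) ∧ ∀ u ∈ U, ∀ g, y (g * u) = y g}
  add_mem' := by
    rintro a b ⟨⟨c, hc⟩, ha⟩ ⟨⟨d, hd⟩, hb⟩
    exact ⟨⟨c + d, hc.add hd⟩, fun u hu g => by simp [ha u hu g, hb u hu g]⟩
  zero_mem' := ⟨⟨0, HFun.zero⟩, fun _ _ _ => rfl⟩
  smul_mem' := by
    rintro r a ⟨⟨c, hc⟩, ha⟩
    exact ⟨⟨r * c, hc.smul r⟩, fun u hu g => by simp [ha u hu g]⟩

/-- **Finite dimensionality of the space of harmonic functions of given level.** -/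
theorem finite_HSpace {U : Subgroup (GA Fq)} (hU : U.relIndex (Kc Fq) ≠ 0) :
    Module.Finite ℂ (HSpace (U ⊓ Kc Fq)) := by
  have hfi : (U.subgroupOf (Kc Fq)).FiniteIndex := ⟨hU⟩
  have : Fintype (Kc Fq ⧸ U.subgroupOf (Kc Fq)) := Subgroup.fintypeQuotientOfFiniteIndex
  let L : HSpace (U ⊓ Kc Fq) →ₗ[ℂ]
      (((Kc Fq ⧸ U.subgroupOf (Kc Fq)) → ℂ) × (Option (Dinf Fq) → ℂ)) :=
    { toFun := fun y => (fun q => (y : GA Fq → ℂ) ((q.out : Kc Fq) : GA Fq),
        fun t => (y : GA Fq → ℂ) (single Fq none (rep (Dinf Fq) t)))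
      map_add' := fun _ _ => rfl
      map_smul' := fun _ _ => rfl }
  have hL : Function.Injective L := by
    rw [← LinearMap.ker_eq_bot, LinearMap.ker_eq_bot']
    rintro ⟨y, ⟨c, hc⟩, hy⟩ h
    have h1 : ∀ q : Kc Fq ⧸ U.subgroupOf (Kc Fq), y ((q.out : Kc Fq) : GA Fq) = 0 := fun q =>
      congrFun (congrArg Prod.fst h) q
    have h2 : ∀ t, y (single Fq none (rep (Dinf Fq) t)) = 0 := fun t =>
      congrFun (congrArg Prod.snd h) t
    have hc0 : c = 0 := by
      rw [← hc.harm 1]
      simp [h2]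
    subst hc0
    apply Subtype.ext
    apply hc.eq_zero
    intro k hk
    let q : Kc Fq ⧸ U.subgroupOf (Kc Fq) := QuotientGroup.mk ⟨k, hk⟩
    have h3 : (q.out)⁻¹ * (⟨k, hk⟩ : Kc Fq) ∈ U.subgroupOf (Kc Fq) := by
      rw [← QuotientGroup.eq, QuotientGroup.out_eq']
    have h4 : k = ((q.out : Kc Fq) : GA Fq) * (((q.out)⁻¹ * (⟨k, hk⟩ : Kc Fq) : Kc Fq) : GA Fq) := by
      simp
    have h5 : (((q.out)⁻¹ * (⟨k, hk⟩ : Kc Fq) : Kc Fq) : GA Fq) ∈ U ⊓ Kc Fq :=
      ⟨h3, ((q.out)⁻¹ * (⟨k, hk⟩ : Kc Fq)).2⟩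
    rw [h4, hy _ h5, h1]
  exact Module.Finite.of_injective L hL

end

end

end Pool.Agent.H330R2
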