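import Mathlib
import Pool.Agent.H330R2.Harm
import Pool.Agent.H330R2.Adm

/-!
# Continuity of the local embeddings; small normal subgroups at infinity (helper file)
-/

namespace Pool.Agent.H330R2

open IsDedekindDomain Polynomial WithZero RestrictedProduct Topology

noncomputable section

/-- small normal open subgroups of a compact open subgroup -/
lemma exists_normal_open {G : Type} [Group G] [TopologicalSpace G] [IsTopologicalGroup G]
    {K U : Subgroup G} (hKc : IsCompact (K : Set G)) (hKo : IsOpen (K : Set G))
    (hU : IsOpen (U : Set G)) :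
    ∃ N : Subgroup G, N ≤ U ∧ N ≤ K ∧ (∀ k ∈ K, ∀ u ∈ N, k * u * k⁻¹ ∈ N) ∧ N.relIndex K ≠ 0 ∧
      IsOpen (N : Set G) := by
  have hcomp : CompactSpace K := isCompact_iff_compactSpace.mp hKc
  have hHo : IsOpen ((U.subgroupOf K : Subgroup K) : Set K) := hU.preimage continuous_subtype_val
  have hHfin : Finite (K ⧸ U.subgroupOf K) := Subgroup.quotient_finite_of_isOpen _ hHo
  have hHfi : (U.subgroupOf K).FiniteIndex := Subgroup.finiteIndex_of_finite_quotient
  have hcore : (U.subgroupOf K).normalCore.FiniteIndex := inferInstance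
  have hcl : IsClosed ((U.subgroupOf K).normalCore : Set K) :=
    Subgroup.normalCore_isClosed _ (Subgroup.isClosed_of_isOpen _ hHo)
  have hco : IsOpen ((U.subgroupOf K).normalCore : Set K) :=
    Subgroup.isOpen_of_isClosed_of_finiteIndex _ hcl
  have hnorm : (U.subgroupOf K).normalCore.Normal := inferInstance
  refine ⟨(U.subgroupOf K).normalCore.map K.subtype, ?_, ?_, ?_, ?_, ?_⟩
  · rintro _ ⟨u, hu, rfl⟩
    have h : u ∈ U.subgroupOf K := Subgroup.normalCore_le _ hu
    exact h
  · rintro _ ⟨u, hu, rfl⟩
    exact u.2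
  · rintro k hk _ ⟨u, hu, rfl⟩
    exact ⟨(⟨k, hk⟩ : K) * u * (⟨k, hk⟩ : K)⁻¹, hnorm.conj_mem u hu ⟨k, hk⟩, rfl⟩
  · have hsub : ((U.subgroupOf K).normalCore.map K.subtype).subgroupOf K =
        (U.subgroupOf K).normalCore :=
      Subgroup.comap_map_eq_self_of_injective K.subtype_injective _
    rw [Subgroup.relIndex, hsub]
    exact hcore.index_ne_zero
  · rw [Subgroup.coe_map]
    exact hKo.isOpenMap_subtype_val _ hco

variable {Fq : Type} [Field Fq]

lemma continuous_single (v : Place Fq) : Continuous (single Fq v) := by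
  classical
  -- on the open subgroup `GL₂(O_v)` the map factors through the product of the `GL₂(O_w)`
  have h1 : Continuous fun k : GLO Fq v => single Fq v (k : Gv Fq v) := by
    have h2 : (fun k : GLO Fq v => single Fq v (k : Gv Fq v)) =
        (structureMap (fun v => Gv Fq v) (fun v => (GLO Fq v : Set (Gv Fq v))) Filter.cofinite) ∘
        (fun k : GLO Fq v => (Pi.mulSingle v k : ∀ w, GLO Fq w)) := by
      funext k
      apply GA_ext
      intro w
      change single Fq v (k : Gv Fq v) w = ((Pi.mulSingle v k : ∀ w, GLO Fq w) w : Gv Fq w)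
      by_cases h : w = v
      · subst h; rw [single_same, Pi.mulSingle_eq_same]
      · rw [single_ne h, Pi.mulSingle_eq_of_ne h]; rfl
    have h3 : Continuous (fun k : GLO Fq v => (Pi.mulSingle v k : ∀ w, GLO Fq w)) :=
      continuous_mulSingle (A := fun w => (GLO Fq w)) v
    have h4 : Continuous (structureMap (fun v => Gv Fq v) (fun v => (GLO Fq v : Set (Gv Fq v)))
      Filter.cofinite) := isEmbedding_structureMap.continuous
    rw [h2]
    exact h4.comp h3
  apply continuous_of_continuousAt_one
  have h3 : ContinuousOn (single Fq v) (GLO Fq v : Set (Gv Fq v)) := by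
    rw [continuousOn_iff_continuous_domRestrict]
    exact h1
  exact h3.continuousAt ((isOpen_GLO v).mem_nhds (one_mem _))

end

end Pool.Agent.H330R2
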