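import Mathlib
import Pool.Agent.H330R2.Defs

/-!
# Irreducible quotients (helper file)
-/

namespace Pool.Agent.H330R2

noncomputable section

variable {G V : Type} [Group G] [AddCommGroup V] [Module ℂ V]

/-- the representation on an invariant subspace -/
def subRep (ρ : Representation ℂ G V) (W : Submodule ℂ V) (hW : IsInv ρ W) :
    Representation ℂ G W where
  toFun g := (ρ g).restrict (hW g)
  map_one' := by ext x; simp
  map_mul' a b := by ext x; simp [map_mul]

@[simp] lemma subRep_apply (ρ : Representation ℂ G V) (W : Submodule ℂ V) (hW : IsInv ρ W) (g : G)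
    (x : W) : ((subRep ρ W hW g x : W) : V) = ρ g x := rfl

/-- the quotient representation -/
def quotRep (ρ : Representation ℂ G V) (M : Submodule ℂ V) (hM : IsInv ρ M) :
    Representation ℂ G (V ⧸ M) where
  toFun g := M.mapQ M (ρ g) (fun x hx => hM g x hx)
  map_one' := by ext x; simp
  map_mul' a b := by ext x; simp [map_mul]

@[simp] lemma quotRep_apply (ρ : Representation ℂ G V) (M : Submodule ℂ V) (hM : IsInv ρ M) (g : G)
    (x : V) : quotRep ρ M hM g (M.mkQ x) = M.mkQ (ρ g x) := rfl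

/-- smooth vectors -/
def SmoothVec [TopologicalSpace G] (ρ : Representation ℂ G V) (x : V) : Prop :=
  ∃ U : Subgroup G, IsOpen (U : Set G) ∧ ∀ u ∈ U, ρ u x = x

section Smooth

variable [TopologicalSpace G]

lemma smoothVec_add {ρ : Representation ℂ G V} {x y : V} (hx : SmoothVec ρ x) (hy : SmoothVec ρ y) :
    SmoothVec ρ (x + y) := by
  obtain ⟨U, hU, h⟩ := hx
  obtain ⟨U', hU', h'⟩ := hy
  refine ⟨U ⊓ U', hU.inter hU', fun u hu => ?_⟩
  rw [map_add, h u hu.1, h' u hu.2]

lemma smoothVec_smul {ρ : Representation ℂ G V} {x : V} (c : ℂ) (hx : SmoothVec ρ x) :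
    SmoothVec ρ (c • x) := by
  obtain ⟨U, hU, h⟩ := hx
  exact ⟨U, hU, fun u hu => by rw [map_smul, h u hu]⟩

lemma smoothVec_zero {ρ : Representation ℂ G V} : SmoothVec ρ (0 : V) :=
  ⟨⊤, isOpen_univ, fun u _ => map_zero _⟩

variable [IsTopologicalGroup G]

lemma smoothVec_rho {ρ : Representation ℂ G V} {x : V} (hx : SmoothVec ρ x) (g : G) :
    SmoothVec ρ (ρ g x) := by
  obtain ⟨U, hU, h⟩ := hx
  refine ⟨U.comap (MulAut.conj g⁻¹).toMonoidHom, ?_, ?_⟩
  · have hc : Continuous fun y : G => g⁻¹ * y * g := by fun_prop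
    have : ((U.comap (MulAut.conj g⁻¹).toMonoidHom : Subgroup G) : Set G) =
        (fun y : G => g⁻¹ * y * g) ⁻¹' U := by
      ext y; simp
    rw [this]
    exact hU.preimage hc
  · intro u hu
    have hu' : g⁻¹ * u * g ∈ U := by simpa using hu
    have := h _ hu'
    calc ρ u (ρ g x) = ρ g (ρ (g⁻¹ * u * g) x) := by
          rw [← Module.End.mul_apply, ← Module.End.mul_apply, ← map_mul, ← map_mul]
          congr 2; group
      _ = ρ g x := by rw [this]

lemma isOpen_fix_of_smoothVec {ρ : Representation ℂ G V} {x : V} (hx : SmoothVec ρ x) :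
    IsOpen {g : G | ρ g x = x} := by
  obtain ⟨U, hU, h⟩ := hx
  have : IsOpen ((stab ρ x : Subgroup G) : Set G) := Subgroup.isOpen_mono (H₁ := U) h hU
  exact this

lemma smoothVec_cyc {ρ : Representation ℂ G V} {x : V} (hx : SmoothVec ρ x) {y : V}
    (hy : y ∈ cyc ρ x) : SmoothVec ρ y := by
  unfold cyc at hy
  induction hy using Submodule.span_induction with
  | mem y hy => obtain ⟨g, rfl⟩ := hy; exact smoothVec_rho hx g
  | zero => exact smoothVec_zero
  | add a b _ _ ha hb => exact smoothVec_add ha hb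
  | smul r a _ ha => exact smoothVec_smul r ha

end Smooth

/-- **Existence of a maximal invariant subspace.** -/
theorem exists_maximal (ρ : Representation ℂ G V) {W₀ : Submodule ℂ V} (hW₀ : IsInv ρ W₀) {x : V}
    (hx : x ∉ W₀) (hgen : ∀ y : V, y ∈ cyc ρ x ⊔ W₀) :
    ∃ M : Submodule ℂ V, ∃ hM : IsInv ρ M, W₀ ≤ M ∧ x ∉ M ∧ Irred (quotRep ρ M hM) := by
  obtain ⟨M, hle, hmax⟩ := zorn_le_nonempty₀ {M : Submodule ℂ V | IsInv ρ M ∧ W₀ ≤ M ∧ x ∉ M} (by
    intro c hc hchain M₀ hM₀
    have hdir : DirectedOn (· ≤ ·) c := hchain.directedOn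
    have hne : c.Nonempty := ⟨M₀, hM₀⟩
    refine ⟨sSup c, ⟨?_, ?_, ?_⟩, fun z hz => le_sSup hz⟩
    · intro g y hy
      rw [Submodule.mem_sSup_of_directed hne hdir] at hy ⊢
      obtain ⟨N, hN, hyN⟩ := hy
      exact ⟨N, hN, (hc hN).1 g y hyN⟩
    · exact ((hc hM₀).2.1).trans (le_sSup hM₀)
    · intro hxs
      rw [Submodule.mem_sSup_of_directed hne hdir] at hxs
      obtain ⟨N, hN, hxN⟩ := hxs
      exact (hc hN).2.2 hxN) W₀ ⟨hW₀, le_rfl, hx⟩
  have hM := hmax.prop
  refine ⟨M, hM.1, hM.2.1, hM.2.2, ?_⟩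
  intro N hN
  by_cases hxN : M.mkQ x ∈ N
  · right
    rw [eq_top_iff]
    intro z _
    obtain ⟨y, rfl⟩ := M.mkQ_surjective z
    obtain ⟨a, ha, b, hb, rfl⟩ := Submodule.mem_sup.mp (hgen y)
    rw [map_add]
    refine N.add_mem ?_ ?_
    · have h1 : cyc ρ x ≤ N.comap M.mkQ := by
        apply cyc_le
        · intro g y hy
          have := hN g (M.mkQ y) hy
          rwa [quotRep_apply] at this
        · exact hxN
      exact h1 ha
    · have : M.mkQ b = 0 := by simpa using hM.2.1 hb
      rw [this]; exact N.zero_mem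
  · left
    have h2 : N.comap M.mkQ ∈ {M : Submodule ℂ V | IsInv ρ M ∧ W₀ ≤ M ∧ x ∉ M} := by
      refine ⟨?_, ?_, hxN⟩
      · intro g y hy
        have := hN g (M.mkQ y) hy
        rwa [quotRep_apply] at this
      · intro b hb
        have : M.mkQ b = 0 := by simpa using hM.2.1 hb
        simp only [Submodule.mem_comap]
        rw [this]; exact N.zero_mem
    have h3 : M ≤ N.comap M.mkQ := by
      intro b hb
      have : M.mkQ b = 0 := by simpa using hb
      simp only [Submodule.mem_comap]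
      rw [this]; exact N.zero_mem
    have h4 := hmax.le_of_ge h2 h3
    rw [eq_bot_iff]
    intro z hz
    obtain ⟨y, rfl⟩ := M.mkQ_surjective z
    have : y ∈ M := h4 hz
    simpa using this

end

end Pool.Agent.H330R2
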