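import Mathlib
import Pool.Agent.H330R2.Cont
import Pool.Agent.H330R2.Quot

/-!
# Global admissibility (helper file)
-/

namespace Pool.Agent.H330R2

open IsDedekindDomain Polynomial WithZero RestrictedProduct Topology

noncomputable section

lemma coinvKer_map {G V V' : Type} [Group G] [AddCommGroup V] [Module ℂ V] [AddCommGroup V']
    [Module ℂ V'] {ρ : Representation ℂ G V} {ρ' : Representation ℂ G V'} (f : V →ₗ[ℂ] V')
    (hf : ∀ g x, f (ρ g x) = ρ' g (f x)) {U : Subgroup G} {x : V} (hx : x ∈ coinvKer ρ U) :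
    f x ∈ coinvKer ρ' U := by
  unfold coinvKer at hx
  induction hx using Submodule.span_induction with
  | mem y hy =>
    obtain ⟨u, hu, z, rfl⟩ := hy
    rw [map_sub, hf]
    exact sub_mem_coinvKer ρ' hu _
  | zero => rw [map_zero]; exact Submodule.zero_mem _
  | add a b _ _ ha hb => rw [map_add]; exact Submodule.add_mem _ ha hb
  | smul r a _ ha => rw [map_smul]; exact Submodule.smul_mem _ r ha

variable {Fq : Type} [Field Fq] [Fintype Fq]

omit [Fintype Fq] in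
lemma valued_pk_pow_mul_le {m n : ℕ} (hn : m ≤ n) {b : Kv Fq none} (hb : Valued.v b ≤ 1) :
    Valued.v (pk Fq ^ n * b) ≤ exp (-(m : ℤ)) := by
  have h1 : Valued.v (pk Fq ^ n) ≤ exp (-(m : ℤ)) := by
    rw [map_pow, valued_pk, ← exp_nsmul, exp_le_exp]
    simp only [nsmul_eq_mul]
    omega
  rw [map_mul]
  exact (mul_le_mul' h1 hb).trans (by rw [mul_one])

lemma nn_mem_of_isOpen (N : Subgroup (Gv Fq none)) (hNo : IsOpen (N : Set (Gv Fq none))) :
    ∃ m : ℕ, ∀ n, m ≤ n → ∀ b ∈ Dinf Fq, nn (pk Fq ^ n * b) ∈ N := by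
  have h1 : {x : Kv Fq none | nn x ∈ N} ∈ 𝓝 (0 : Kv Fq none) := by
    apply (hNo.preimage continuous_nn).mem_nhds
    change nn 0 ∈ N
    have : (nn 0 : Gv Fq none) = 1 := by apply GL_ext <;> simp [nn]
    rw [this]; exact one_mem _
  obtain ⟨m, hm⟩ := exists_ball h1
  exact ⟨m, fun n hn b hb => hm _ (valued_pk_pow_mul_le hn (isDigits_inf.le b hb))⟩

/-- The data used to construct an automorphic representation which is Steinberg at infinity. -/
structure Dat (φ : GA Fq → ℂ) (c : ℂ) (W₀ : Submodule ℂ (GA Fq → ℂ)) : Prop where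
  hfun : HFun φ c
  smooth : SmoothVec (rtr Fq) φ
  fixed : ∀ f ∈ W₀, ∀ g, rtr Fq g f = f
  left : ∀ f ∈ W₀, ∀ γ g, f (diagG Fq γ * g) = f g
  fin : Module.Finite ℂ W₀
  mem : (fun _ => c) ∈ W₀
  notMem : φ ∉ W₀

variable {φ : GA Fq → ℂ} {c : ℂ} {W₀ : Submodule ℂ (GA Fq → ℂ)} (hd : Dat φ c W₀)

variable (φ W₀) in
/-- the space generated by `φ` and `W₀` -/
def WW : Submodule ℂ (GA Fq → ℂ) := cyc (rtr Fq) φ ⊔ W₀

include hd

lemma Dat.inv0 : IsInv (rtr Fq) W₀ := fun g f hf => by rw [hd.fixed f hf g]; exact hf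

lemma Dat.invW : IsInv (rtr Fq) (WW φ W₀) := by
  intro g f hf
  obtain ⟨a, ha, b, hb, rfl⟩ := Submodule.mem_sup.mp hf
  rw [map_add]
  exact Submodule.add_mem_sup (cyc_inv _ _ g a ha) (hd.inv0 g b hb)

omit hd [Fintype Fq] in
lemma phi_mem_WW : φ ∈ WW φ W₀ := Submodule.mem_sup_left (self_mem_cyc _ _)

lemma Dat.smoothW {f : GA Fq → ℂ} (hf : f ∈ WW φ W₀) : SmoothVec (rtr Fq) f := by
  obtain ⟨a, ha, b, hb, rfl⟩ := Submodule.mem_sup.mp hf
  exact smoothVec_add (smoothVec_cyc hd.smooth ha) ⟨⊤, isOpen_univ, fun u _ => hd.fixed b hb u⟩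

lemma Dat.leftW {f : GA Fq → ℂ} (hf : f ∈ WW φ W₀) (γ : GL (Fin 2) (RatFunc Fq)) (g : GA Fq) :
    f (diagG Fq γ * g) = f g := by
  obtain ⟨a, ha, b, hb, rfl⟩ := Submodule.mem_sup.mp hf
  have h1 : a (diagG Fq γ * g) = a g := by
    clear hf
    unfold cyc at ha
    induction ha using Submodule.span_induction with
    | mem y hy =>
      obtain ⟨h, rfl⟩ := hy
      change φ (diagG Fq γ * g * h) = φ (g * h)
      rw [mul_assoc, hd.hfun.left]
    | zero => rfl
    | add a b _ _ ha hb => simp only [Pi.add_apply, ha, hb]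
    | smul r a _ ha => simp only [Pi.smul_apply, ha]
  simp only [Pi.add_apply, h1, hd.left b hb]

/-- the representation on `WW` -/
abbrev Dat.rp : Representation ℂ (GA Fq) (WW φ W₀) := subRep (rtr Fq) (WW φ W₀) hd.invW

lemma Dat.smooth_rp (x : WW φ W₀) : SmoothVec hd.rp x := by
  obtain ⟨U, hU, h⟩ := hd.smoothW x.2
  exact ⟨U, hU, fun u hu => Subtype.ext (h u hu)⟩

omit hd in
/-- the generator -/
def gen (φ : GA Fq → ℂ) (W₀ : Submodule ℂ (GA Fq → ℂ)) : WW φ W₀ := ⟨φ, phi_mem_WW⟩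

omit hd in
/-- `W₀` inside `WW` -/
def W0' (φ : GA Fq → ℂ) (W₀ : Submodule ℂ (GA Fq → ℂ)) : Submodule ℂ (WW φ W₀) :=
  W₀.comap (WW φ W₀).subtype

lemma Dat.inv0' : IsInv hd.rp (W0' φ W₀) := fun g _ hf => hd.inv0 g _ hf

lemma Dat.smooth_quot (M : Submodule ℂ (WW φ W₀)) (hM : IsInv hd.rp M) (x : WW φ W₀ ⧸ M) :
    SmoothVec (quotRep hd.rp M hM) x := by
  obtain ⟨y, rfl⟩ := M.mkQ_surjective x
  obtain ⟨U, hU, h⟩ := hd.smooth_rp y
  exact ⟨U, hU, fun u hu => by rw [quotRep_apply, h u hu]⟩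

/-- the Steinberg vector -/
lemma Dat.stVec (M : Submodule ℂ (WW φ W₀)) (hM : IsInv hd.rp M) (h0 : W0' φ W₀ ≤ M) :
    StVec (Valued.v (R := Kv Fq none)) (pk Fq) pk_ne (Dinf Fq)
      (res (quotRep hd.rp M hM) (single Fq none)) (M.mkQ (gen φ W₀)) where
  iw k hk := by
    rw [res_apply, quotRep_apply]
    congr 1
    apply Subtype.ext
    funext g
    exact hd.hfun.iw g k hk
  center z hz := by
    rw [res_apply, quotRep_apply]
    congr 1
    apply Subtype.ext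
    funext g
    exact hd.hfun.center g z hz
  atkin := by
    rw [res_apply, quotRep_apply, ← map_neg]
    congr 1
    apply Subtype.ext
    funext g
    exact hd.hfun.atkin g
  harm := by
    simp_rw [res_apply, quotRep_apply]
    rw [← map_sum]
    have h1 : (∑ t : Option (Dinf Fq), hd.rp (single Fq none (rep (Dinf Fq) t)) (gen φ W₀)) ∈ M := by
      apply h0
      change (WW φ W₀).subtype _ ∈ W₀
      rw [map_sum]
      have h2 : (∑ t : Option (Dinf Fq), (WW φ W₀).subtype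
          (hd.rp (single Fq none (rep (Dinf Fq) t)) (gen φ W₀))) = fun _ => c := by
        funext g
        rw [Finset.sum_apply]
        exact hd.hfun.harm g
      rw [h2]
      exact hd.mem
    exact (Submodule.Quotient.mk_eq_zero M).mpr h1

lemma Dat.gen_quot (M : Submodule ℂ (WW φ W₀)) (hM : IsInv hd.rp M) (h0 : W0' φ W₀ ≤ M)
    (y : WW φ W₀ ⧸ M) : y ∈ cyc (quotRep hd.rp M hM) (M.mkQ (gen φ W₀)) := by
  obtain ⟨w, rfl⟩ := M.mkQ_surjective y
  obtain ⟨w, hw⟩ := w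
  obtain ⟨a, ha, b, hb, hab⟩ := Submodule.mem_sup.mp hw
  have key : ∀ a (ha : a ∈ cyc (rtr Fq) φ), ∀ h : a ∈ WW φ W₀, M.mkQ ⟨a, h⟩ ∈
      cyc (quotRep hd.rp M hM) (M.mkQ (gen φ W₀)) := by
    intro a ha
    unfold cyc at ha
    induction ha using Submodule.span_induction with
    | mem y hy =>
      obtain ⟨g, rfl⟩ := hy
      intro h
      exact mem_cyc (quotRep hd.rp M hM) (M.mkQ (gen φ W₀)) g
    | zero =>
      intro h
      have : (⟨0, h⟩ : WW φ W₀) = 0 := rfl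
      rw [this, map_zero]; exact Submodule.zero_mem _
    | add a b ha' hb' ha hb =>
      intro h
      have h1 : a ∈ WW φ W₀ := Submodule.mem_sup_left ha'
      have h2 : b ∈ WW φ W₀ := Submodule.mem_sup_left hb'
      have : (⟨a + b, h⟩ : WW φ W₀) = ⟨a, h1⟩ + ⟨b, h2⟩ := rfl
      rw [this, map_add]
      exact Submodule.add_mem _ (ha h1) (hb h2)
    | smul r a ha' ha =>
      intro h
      have h1 : a ∈ WW φ W₀ := Submodule.mem_sup_left ha'
      have : (⟨r • a, h⟩ : WW φ W₀) = r • ⟨a, h1⟩ := rfl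
      rw [this, map_smul]
      exact Submodule.smul_mem _ r (ha h1)
  have h1 : a ∈ WW φ W₀ := Submodule.mem_sup_left ha
  have h2 : b ∈ WW φ W₀ := Submodule.mem_sup_right hb
  have h3 : (⟨w, hw⟩ : WW φ W₀) = ⟨a, h1⟩ + ⟨b, h2⟩ := Subtype.ext hab.symm
  have h4 : M.mkQ ⟨b, h2⟩ = 0 := by
    have : (⟨b, h2⟩ : WW φ W₀) ∈ M := h0 hb
    simpa using this
  rw [h3, map_add, h4, add_zero]
  exact key a ha h1

omit hd in
/-- translates by elements trivial at infinity -/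
def Yt (φ : GA Fq → ℂ) : Submodule ℂ (GA Fq → ℂ) :=
  Submodule.span ℂ {z | ∃ c ∈ Cv (Fq := Fq) none, z = rtr Fq c φ}

lemma Dat.hfun_Yt {f : GA Fq → ℂ} (hf : f ∈ Yt φ) : ∃ c', HFun f c' := by
  unfold Yt at hf
  induction hf using Submodule.span_induction with
  | mem y hy => obtain ⟨d, hdc, rfl⟩ := hy; exact ⟨c, hd.hfun.rtrans hdc⟩
  | zero => exact ⟨0, HFun.zero⟩
  | add a b _ _ ha hb =>
    obtain ⟨ca, ha⟩ := ha
    obtain ⟨cb, hb⟩ := hb
    exact ⟨_, ha.add hb⟩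
  | smul r a _ ha => obtain ⟨ca, ha⟩ := ha; exact ⟨_, ha.smul r⟩

omit hd [Fintype Fq] in
lemma Yt_le : Yt φ ≤ WW φ W₀ := by
  apply Submodule.span_le.mpr
  rintro _ ⟨c, hc, rfl⟩
  exact Submodule.mem_sup_left (mem_cyc _ _ _)

omit hd [Fintype Fq] in
lemma Yt_inv {u : GA Fq} (hu : u ∈ Cv (Fq := Fq) none) {f : GA Fq → ℂ} (hf : f ∈ Yt φ) :
    rtr Fq u f ∈ Yt φ := by
  unfold Yt at hf ⊢
  induction hf using Submodule.span_induction with
  | mem y hy =>
    obtain ⟨d, hdc, rfl⟩ := hy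
    rw [← Module.End.mul_apply, ← map_mul]
    exact Submodule.subset_span ⟨u * d, mul_mem hu hdc, rfl⟩
  | zero => rw [map_zero]; exact Submodule.zero_mem _
  | add a b _ _ ha hb => rw [map_add]; exact Submodule.add_mem _ ha hb
  | smul r a _ ha => rw [map_smul]; exact Submodule.smul_mem _ r ha

end

end Pool.Agent.H330R2
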