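import Mathlib
import Pool.Agent.H330R2.Glob

/-!
# Global admissibility, continued (helper file)
-/

namespace Pool.Agent.H330R2

open IsDedekindDomain Polynomial WithZero RestrictedProduct Topology

noncomputable section

variable {Fq : Type} [Field Fq] [Fintype Fq]
variable {φ : GA Fq → ℂ} {c : ℂ} {W₀ : Submodule ℂ (GA Fq → ℂ)} (hd : Dat φ c W₀)

include hd

lemma Dat.locFinW : LocFin hd.rp (KA Fq) :=
  locFin_of_smooth (fun x => isOpen_fix_of_smoothVec (hd.smooth_rp x)) isCompact_KA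

lemma Dat.locFinV (M : Submodule ℂ (WW φ W₀)) (hM : IsInv hd.rp M) :
    LocFin (quotRep hd.rp M hM) (KA Fq) :=
  locFin_of_smooth (fun x => isOpen_fix_of_smoothVec (hd.smooth_quot _ hM x)) isCompact_KA

omit hd [Fintype Fq] in
lemma finite_comap (A : Submodule ℂ (GA Fq → ℂ)) (hA : Module.Finite ℂ A) :
    Module.Finite ℂ (A.comap (WW φ W₀).subtype) := by
  let f : (A.comap (WW φ W₀).subtype) →ₗ[ℂ] A :=
    LinearMap.codRestrict _ ((WW φ W₀).subtype.comp (Submodule.subtype _)) (fun x => x.2)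
  refine Module.Finite.of_injective f ?_
  intro a b hab
  have := congrArg Subtype.val hab
  exact Subtype.ext (Subtype.ext this)

/-- the finite dimensional space `E` -/
lemma Dat.exists_E (U : Subgroup (GA Fq)) (hU : IsOpen (U : Set (GA Fq))) :
    ∃ E : Submodule ℂ (WW φ W₀ ⧸ W0' φ W₀), Module.Finite ℂ E ∧
      ∀ y ∈ Submodule.span ℂ {z | ∃ c ∈ Cv (Fq := Fq) none,
        z = quotRep hd.rp (W0' φ W₀) hd.inv0' c ((W0' φ W₀).mkQ (gen φ W₀))},
      ∃ e ∈ E, y - e ∈ coinvKer (quotRep hd.rp (W0' φ W₀) hd.inv0') (U ⊓ Kc Fq) := by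
  have hrel : U.relIndex (Kc Fq) ≠ 0 := by
    intro h0
    exact relIndex_ne_zero_of_isOpen isCompact_KA hU
      (Subgroup.relIndex_eq_zero_of_le_right inf_le_left h0)
  have h1 : Module.Finite ℂ ((HSpace (U ⊓ Kc Fq)).comap (WW φ W₀).subtype) :=
    finite_comap _ (finite_HSpace hrel)
  refine ⟨((HSpace (U ⊓ Kc Fq)).comap (WW φ W₀).subtype).map (W0' φ W₀).mkQ,
    Module.Finite.iff_fg.mpr (Submodule.FG.map _ (Module.Finite.iff_fg.mp h1)), ?_⟩
  intro y hy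
  -- lift `y`
  obtain ⟨w, hwY, rfl⟩ : ∃ w : WW φ W₀, (w : GA Fq → ℂ) ∈ Yt φ ∧ (W0' φ W₀).mkQ w = y := by
    induction hy using Submodule.span_induction with
    | mem y hy =>
      obtain ⟨d, hdc, rfl⟩ := hy
      exact ⟨hd.rp d (gen φ W₀), Submodule.subset_span ⟨d, hdc, rfl⟩, rfl⟩
    | zero => exact ⟨0, Submodule.zero_mem _, map_zero _⟩
    | add a b _ _ ha hb =>
      obtain ⟨wa, ha, rfl⟩ := ha
      obtain ⟨wb, hb, rfl⟩ := hb
      exact ⟨wa + wb, Submodule.add_mem _ ha hb, map_add _ _ _⟩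
    | smul r a _ ha =>
      obtain ⟨wa, ha, rfl⟩ := ha
      exact ⟨r • wa, Submodule.smul_mem _ _ ha, map_smul _ _ _⟩
  obtain ⟨e, he1, he2, he3⟩ := exists_average hd.rp
    (hd.locFinW.mono (U' := U ⊓ Kc Fq) (fun u hu => hu.2.1)) w
  have heY : (e : GA Fq → ℂ) ∈ Yt φ := by
    refine he3 ((Yt φ).comap (WW φ W₀).subtype) ?_ hwY
    intro u hu x hx
    exact Yt_inv hu.2.2 hx
  refine ⟨(W0' φ W₀).mkQ e, ⟨e, ⟨hd.hfun_Yt heY, ?_⟩, rfl⟩, ?_⟩
  · intro u hu g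
    exact congrFun (congrArg Subtype.val (he1 u hu)) g
  · rw [← map_sub]
    exact coinvKer_map (W0' φ W₀).mkQ (fun g x => rfl) he2

omit hd in
lemma exists_N (U : Subgroup (GA Fq)) (hU : IsOpen (U : Set (GA Fq))) :
    ∃ N : Subgroup (Gv Fq none), N.map (single Fq none) ≤ U ⊓ KA Fq ∧
      (∀ k ∈ GLO Fq none, ∀ u ∈ N, k * u * k⁻¹ ∈ N) ∧ N.relIndex (GLO Fq none) ≠ 0 ∧
      (∃ m : ℕ, ∀ n, m ≤ n → ∀ b ∈ Dinf Fq, nn (pk Fq ^ n * b) ∈ N) := by
  have h0 : IsOpen ((U.comap (single Fq none) : Subgroup (Gv Fq none)) : Set (Gv Fq none)) :=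
    hU.preimage (continuous_single none)
  obtain ⟨N, hNU, hNK, hN1, hN2, hNo⟩ := exists_normal_open (isCompact_GLO (Fq := Fq) none)
    (isOpen_GLO none) h0
  refine ⟨N, ?_, hN1, hN2, nn_mem_of_isOpen N hNo⟩
  rintro _ ⟨u, hu, rfl⟩
  refine ⟨hNU hu, ?_⟩
  intro v
  by_cases h : v = none
  · subst h; rw [single_same]; exact hNK hu
  · rw [single_ne h]; exact one_mem _

theorem Dat.finite_fixV (U : Subgroup (GA Fq)) (hU : IsOpen (U : Set (GA Fq))) :
    Module.Finite ℂ (fixedBy (quotRep hd.rp (W0' φ W₀) hd.inv0') U) := by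
  obtain ⟨N, hNmap, hN1, hN2, hN3⟩ := exists_N U hU
  have hUcle : U ⊓ Kc Fq ≤ U ⊓ KA Fq := fun u hu => ⟨hu.1, hu.2.1⟩
  have hU'le : N.map (single Fq none) ⊔ (U ⊓ Kc Fq) ≤ U ⊓ KA Fq := sup_le hNmap hUcle
  have h1 : ∀ u ∈ N, single Fq none u ∈ N.map (single Fq none) ⊔ (U ⊓ Kc Fq) := fun u hu =>
    Subgroup.mem_sup_left (Subgroup.mem_map_of_mem _ hu)
  have h2 : U ⊓ Kc Fq ≤ Cv none := fun u hu => hu.2.2
  have h3 : LocFin (quotRep hd.rp (W0' φ W₀) hd.inv0') (N.map (single Fq none) ⊔ (U ⊓ Kc Fq)) :=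
    (hd.locFinV _ _).mono (hU'le.trans inf_le_right)
  have h4 : ∀ y ∈ fixedBy (quotRep hd.rp (W0' φ W₀) hd.inv0') U,
      ∀ u ∈ N.map (single Fq none) ⊔ (U ⊓ Kc Fq),
      quotRep hd.rp (W0' φ W₀) hd.inv0' u y = y := fun y hy u hu => hy u (hU'le hu).1
  exact adm_abstract (hϖ := pk_ne) valued_pk isDigits_inf (factor_single none)
      (hd.stVec (W0' φ W₀) hd.inv0' le_rfl) (hd.gen_quot (W0' φ W₀) hd.inv0' le_rfl) N hN1 hN2 hN3
      (U ⊓ Kc Fq) h2 _ h1 le_sup_right h3 (hd.exists_E U hU) h4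

lemma Dat.fg_fix (U : Subgroup (GA Fq)) (hU : IsOpen (U : Set (GA Fq))) :
    (fixedBy hd.rp U).FG := by
  refine Submodule.fg_of_fg_map_of_fg_inf_ker (W0' φ W₀).mkQ ?_ ?_
  · have h1 : (fixedBy hd.rp U).map (W0' φ W₀).mkQ ≤
        fixedBy (quotRep hd.rp (W0' φ W₀) hd.inv0') U := by
      rintro _ ⟨x, hx, rfl⟩ u hu
      have : hd.rp u x = x := hx u hu
      rw [quotRep_apply, this]
    have h0 := hd.finite_fixV U hU
    have h2 : Module.Finite ℂ ((fixedBy hd.rp U).map (W0' φ W₀).mkQ) :=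
      Submodule.finiteDimensional_of_le h1
    exact Module.Finite.iff_fg.mp h2
  · have h3 : Module.Finite ℂ (W0' φ W₀) := finite_comap _ hd.fin
    have h4 : fixedBy hd.rp U ⊓ LinearMap.ker (W0' φ W₀).mkQ ≤ W0' φ W₀ := by
      rw [Submodule.ker_mkQ]
      exact inf_le_right
    have h5 : Module.Finite ℂ ↥(fixedBy hd.rp U ⊓ LinearMap.ker (W0' φ W₀).mkQ) :=
      Submodule.finiteDimensional_of_le h4
    exact Module.Finite.iff_fg.mp h5

/-- **Global admissibility.** -/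
theorem Dat.admissible (U : Subgroup (GA Fq)) (hU : IsOpen (U : Set (GA Fq))) :
    Module.Finite ℂ ↥(WW φ W₀ ⊓ fixedBy (rtr Fq) U) := by
  have h6 : WW φ W₀ ⊓ fixedBy (rtr Fq) U ≤ (fixedBy hd.rp U).map (WW φ W₀).subtype := by
    rintro x ⟨hx1, hx2⟩
    exact ⟨⟨x, hx1⟩, fun u hu => Subtype.ext (hx2 u hu), rfl⟩
  have h7 : Module.Finite ℂ ((fixedBy hd.rp U).map (WW φ W₀).subtype) :=
    Module.Finite.iff_fg.mpr ((hd.fg_fix U hU).map _)
  exact Submodule.finiteDimensional_of_le h6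

/-- all elements are automorphic forms -/
theorem Dat.automorphic {f : GA Fq → ℂ} (hf : f ∈ WW φ W₀) : IsAutomorphicForm f where
  left_inv := hd.leftW hf
  smooth := by
    obtain ⟨U, hU, h⟩ := hd.smoothW hf
    exact ⟨U, hU, fun g u hu => congrFun (h u hu) g⟩
  admissible U hU := by
    have h1 := hd.admissible U hU
    have h2 : Submodule.span ℂ (Set.range fun g => rtr Fq g f) ⊓ fixedBy (rtr Fq) U ≤
        WW φ W₀ ⊓ fixedBy (rtr Fq) U :=
      inf_le_inf_right _ (cyc_le (rtr Fq) hd.invW hf)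
    exact Submodule.finiteDimensional_of_le h2

end

end Pool.Agent.H330R2
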