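import Mathlib
import Pool.Agent.H330R2.Glob2

/-!
# The automorphic representation attached to `φ` and its component at infinity (helper file)
-/

namespace Pool.Agent.H330R2

open IsDedekindDomain Polynomial WithZero RestrictedProduct Topology

noncomputable section

section Lin

variable {F : Type} [Field F] {V V' : Type} [AddCommGroup V] [Module ℂ V] [AddCommGroup V']
  [Module ℂ V'] {ρ : Representation ℂ (GL (Fin 2) F) V} {ρ' : Representation ℂ (GL (Fin 2) F) V'}
  {x : V} {x' : V'}

lemma range_lin : LinearMap.range (lin ρ x) = cyc ρ x := Finsupp.range_linearCombination ℂ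

lemma lin_mem (a : GL (Fin 2) F →₀ ℂ) : lin ρ x a ∈ cyc ρ x := by
  rw [← range_lin]; exact LinearMap.mem_range_self _ a

lemma rho_lin' (h : GL (Fin 2) F) (a : GL (Fin 2) F →₀ ℂ) :
    ρ h (lin ρ x a) = lin ρ x (a.mapDomain (fun g => h * g)) := by
  rw [lin_apply, lin, Finsupp.linearCombination_mapDomain, Finsupp.linearCombination_apply]
  simp only [Finsupp.sum, map_sum, map_smul, Function.comp, map_mul, Module.End.mul_apply]

/-- representations generated by vectors with the same relations are isomorphic -/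
theorem exists_equiv (h : ∀ a, lin ρ x a = 0 ↔ lin ρ' x' a = 0) :
    ∃ e : cyc ρ x ≃ₗ[ℂ] cyc ρ' x', ∀ a, e ⟨lin ρ x a, lin_mem a⟩ = ⟨lin ρ' x' a, lin_mem a⟩ := by
  have hker : LinearMap.ker (lin ρ x) = LinearMap.ker (lin ρ' x') := by
    ext a; exact h a
  let e : cyc ρ x ≃ₗ[ℂ] cyc ρ' x' :=
    (LinearEquiv.ofEq _ _ (range_lin (ρ := ρ) (x := x))).symm ≪≫ₗ
    (lin ρ x).quotKerEquivRange.symm ≪≫ₗ (Submodule.quotEquivOfEq _ _ hker) ≪≫ₗ
    (lin ρ' x').quotKerEquivRange ≪≫ₗ (LinearEquiv.ofEq _ _ (range_lin (ρ := ρ') (x := x')))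
  refine ⟨e, fun a => ?_⟩
  have h1 : (lin ρ x).quotKerEquivRange.symm ⟨lin ρ x a, LinearMap.mem_range_self _ a⟩ =
      (LinearMap.ker (lin ρ x)).mkQ a := by
    rw [LinearEquiv.symm_apply_eq]
    rfl
  have h2 : e ⟨lin ρ x a, lin_mem a⟩ = (LinearEquiv.ofEq _ _ (range_lin (ρ := ρ') (x := x')))
      ((lin ρ' x').quotKerEquivRange ((Submodule.quotEquivOfEq _ _ hker)
      ((lin ρ x).quotKerEquivRange.symm ⟨lin ρ x a, LinearMap.mem_range_self _ a⟩))) := rfl
  rw [h2, h1]
  rfl

end Lin

variable {Fq : Type} [Field Fq] [Fintype Fq]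
variable {φ : GA Fq → ℂ} {c : ℂ} {W₀ : Submodule ℂ (GA Fq → ℂ)}

/-- **Existence of the irreducible quotient.** -/
theorem Dat.exists_irr (hd : Dat φ c W₀) : ∃ (π : IrrRep (GA Fq)) (T : WW φ W₀ →ₗ[ℂ] π.V),
    Function.Surjective T ∧ (∀ g f, T (hd.rp g f) = π.ρ g (T f)) ∧ T (gen φ W₀) ≠ 0 ∧
    (∀ f ∈ W0' φ W₀, T f = 0) := by
  have hgen : ∀ y : WW φ W₀, y ∈ cyc hd.rp (gen φ W₀) ⊔ W0' φ W₀ := by
    intro y
    have h1 := hd.gen_quot (W0' φ W₀) hd.inv0' le_rfl ((W0' φ W₀).mkQ y)
    have h2 : ∀ z ∈ cyc (quotRep hd.rp (W0' φ W₀) hd.inv0') ((W0' φ W₀).mkQ (gen φ W₀)),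
        ∃ a ∈ cyc hd.rp (gen φ W₀), (W0' φ W₀).mkQ a = z := by
      intro z hz
      unfold cyc at hz
      induction hz using Submodule.span_induction with
      | mem y hy =>
        obtain ⟨g, rfl⟩ := hy
        exact ⟨hd.rp g (gen φ W₀), mem_cyc _ _ _, rfl⟩
      | zero => exact ⟨0, Submodule.zero_mem _, map_zero _⟩
      | add a b _ _ ha hb =>
        obtain ⟨wa, ha, rfl⟩ := ha
        obtain ⟨wb, hb, rfl⟩ := hb
        exact ⟨wa + wb, Submodule.add_mem _ ha hb, map_add _ _ _⟩
      | smul r a _ ha =>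
        obtain ⟨wa, ha, rfl⟩ := ha
        exact ⟨r • wa, Submodule.smul_mem _ _ ha, map_smul _ _ _⟩
    obtain ⟨a, ha, hay⟩ := h2 _ h1
    have h3 : y - a ∈ W0' φ W₀ := by
      rw [← Submodule.Quotient.mk_eq_zero]
      change (W0' φ W₀).mkQ (y - a) = 0
      rw [map_sub, hay, sub_self]
    rw [show y = a + (y - a) by abel]
    exact Submodule.add_mem_sup ha h3
  have hnot : gen φ W₀ ∉ W0' φ W₀ := fun h => hd.notMem h
  obtain ⟨M, hM, hle, hxM, hirr⟩ := exists_maximal hd.rp hd.inv0' hnot hgen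
  refine ⟨{ V := WW φ W₀ ⧸ M
            ρ := quotRep hd.rp M hM
            smooth := fun x => isOpen_fix_of_smoothVec (hd.smooth_quot M hM x)
            nontriv := ⟨M.mkQ (gen φ W₀), fun h => hxM ((Submodule.Quotient.mk_eq_zero M).mp h)⟩
            irred := hirr }, M.mkQ, M.mkQ_surjective, fun g f => rfl,
    fun h => hxM ((Submodule.Quotient.mk_eq_zero M).mp h), fun f hf =>
    (Submodule.Quotient.mk_eq_zero M).mpr (hle hf)⟩

/-- A pair `(π, x)`: an irreducible representation with a vector which is Steinberg at infinity and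
generates. -/
structure StRep (π : IrrRep (GA Fq)) (x : π.V) : Prop where
  st : StVec (Valued.v (R := Kv Fq none)) (pk Fq) pk_ne (Dinf Fq) (res π.ρ (single Fq none)) x
  ne : x ≠ 0

lemma Dat.stRep (hd : Dat φ c W₀) {π : IrrRep (GA Fq)} {T : WW φ W₀ →ₗ[ℂ] π.V}
    (hT : ∀ g f, T (hd.rp g f) = π.ρ g (T f)) (hne : T (gen φ W₀) ≠ 0)
    (h0 : ∀ f ∈ W0' φ W₀, T f = 0) : StRep π (T (gen φ W₀)) where
  ne := hne
  st :=
    { iw := fun k hk => by
        rw [res_apply, ← hT]
        congr 1
        apply Subtype.ext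
        funext g
        exact hd.hfun.iw g k hk
      center := fun z hz => by
        rw [res_apply, ← hT]
        congr 1
        apply Subtype.ext
        funext g
        exact hd.hfun.center g z hz
      atkin := by
        rw [res_apply, ← hT, ← map_neg]
        congr 1
        apply Subtype.ext
        funext g
        exact hd.hfun.atkin g
      harm := by
        simp_rw [res_apply, ← hT]
        rw [← map_sum]
        apply h0
        change (WW φ W₀).subtype _ ∈ W₀
        rw [map_sum]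
        have h2 : (∑ t : Option (Dinf Fq), (WW φ W₀).subtype
            (hd.rp (single Fq none (rep (Dinf Fq) t)) (gen φ W₀))) = fun _ => c := by
          funext g
          rw [Finset.sum_apply]
          exact hd.hfun.harm g
        rw [h2]
        exact hd.mem }

section StRep

variable {π : IrrRep (GA Fq)} {x : π.V} (hx : StRep π x)

include hx

omit hx in
lemma irred_cyc_top {π : IrrRep (GA Fq)} {x : π.V} (hx0 : x ≠ 0) (y : π.V) : y ∈ cyc π.ρ x := by
  rcases π.irred (cyc π.ρ x) (cyc_inv π.ρ x) with h | h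
  · exfalso
    have := self_mem_cyc π.ρ x
    rw [h] at this
    exact hx0 (by simpa using this)
  · rw [h]; trivial

omit hx in
lemma locFin_GLO (π : IrrRep (GA Fq)) (v : Place Fq) :
    LocFin (res π.ρ (single Fq v)) (GLO Fq v) := by
  apply locFin_of_smooth _ (isCompact_GLO v)
  intro x
  exact (π.smooth x).preimage (continuous_single v)

omit hx in
lemma StRep.locFin (_hx : StRep π x) : LocFin (res π.ρ (single Fq none)) (Iw (Valued.v (R := Kv Fq none))) :=
  (locFin_GLO π none).mono (Iw_le _)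

/-- the component at infinity -/
def StRep.comp : IrrRep (Gv Fq none) where
  V := cyc (res π.ρ (single Fq none)) x
  ρ := subRep (res π.ρ (single Fq none)) _ (cyc_inv _ _)
  smooth y := by
    have h1 : {g : Gv Fq none | subRep (res π.ρ (single Fq none)) _ (cyc_inv _ x) g y = y} =
        (single Fq none) ⁻¹' {g | π.ρ g (y : π.V) = y} := by
      ext g
      simp only [Set.mem_ofPred_eq, Set.mem_preimage]
      rw [Subtype.ext_iff]
      rfl
    rw [h1]
    exact (π.smooth _).preimage (continuous_single none)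
  nontriv := ⟨⟨x, self_mem_cyc _ _⟩, fun h => hx.ne (congrArg Subtype.val h)⟩
  irred := by
    intro W hW
    by_cases hW0 : W = ⊥
    · exact Or.inl hW0
    right
    set N : Submodule ℂ π.V := W.map (Submodule.subtype _) with hN
    have hNinv : IsInv (res π.ρ (single Fq none)) N := by
      rintro g _ ⟨y, hy, rfl⟩
      exact ⟨_, hW g y hy, rfl⟩
    have hNle : N ≤ cyc (res π.ρ (single Fq none)) x := by
      rintro _ ⟨y, hy, rfl⟩
      exact y.2
    have hNne : N ≠ ⊥ := by
      intro h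
      apply hW0
      rw [eq_bot_iff]
      intro y hy
      have : (y : π.V) ∈ N := ⟨y, hy, rfl⟩
      rw [h] at this
      exact Subtype.ext (by simpa using this)
    have h1 := local_irred valued_pk isDigits_inf (factor_single none) π.irred hx.locFin hx.st hx.ne
      hNinv hNle hNne
    have h2 := cyc_le _ hNinv h1
    rw [eq_top_iff]
    rintro ⟨y, hy⟩ _
    obtain ⟨z, hz, hzy⟩ := h2 hy
    have : z = ⟨y, hy⟩ := Subtype.ext hzy
    rw [← this]; exact hz

lemma StRep.comp_isLocal : IsLocalComponent π none hx.comp :=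
  ⟨Submodule.subtype _, ⟨⟨x, self_mem_cyc _ _⟩, hx.ne⟩, fun _ _ => rfl⟩

lemma StRep.no_fixed {y : π.V} (hy : ∀ k ∈ GLO Fq none, π.ρ (single Fq none k) y = y) : y = 0 :=
  no_spherical valued_pk isDigits_inf (factor_single none) hx.locFin hx.st
    (irred_cyc_top hx.ne y) hy

end StRep

/-- a nonzero homomorphism from an irreducible representation is injective -/
lemma inj_of_irr {G : Type} [Group G] [TopologicalSpace G] {σ : IrrRep G} {V : Type}
    [AddCommGroup V] [Module ℂ V] {ρ : Representation ℂ G V} (T : σ.V →ₗ[ℂ] V)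
    (hT : ∀ g x, T (σ.ρ g x) = ρ g (T x)) (hne : ∃ x, T x ≠ 0) : Function.Injective T := by
  rw [← LinearMap.ker_eq_bot]
  rcases σ.irred (LinearMap.ker T) (fun g x hx => by
    rw [LinearMap.mem_ker] at hx ⊢
    rw [hT, hx, map_zero]) with h | h
  · exact h
  · exfalso
    obtain ⟨x, hx⟩ := hne
    apply hx
    have : x ∈ LinearMap.ker T := by rw [h]; trivial
    exact this

/-- The component at infinity is ramified. -/
lemma StRep.ramified {π : IrrRep (GA Fq)} {x : π.V} (hx : StRep π x) {σ : IrrRep (Gv Fq none)}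
    (hσ : IsLocalComponent π none σ) : ¬ IsUnramified σ := by
  rintro ⟨y, hy, hfix⟩
  obtain ⟨T, hne, hT⟩ := hσ
  have hinj := inj_of_irr (ρ := π.ρ.comp (single Fq none)) T hT hne
  apply hy
  apply hinj
  rw [map_zero]
  apply hx.no_fixed
  intro k hk
  rw [← hT, hfix k hk]

/-- Any two such components are isomorphic. -/
theorem StRep.iso {π π' : IrrRep (GA Fq)} {x : π.V} {x' : π'.V} (hx : StRep π x) (hx' : StRep π' x') :
    IrrRep.Iso hx.comp hx'.comp := by
  obtain ⟨e, he⟩ := exists_equiv (ρ := res π.ρ (single Fq none)) (ρ' := res π'.ρ (single Fq none))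
    (x := x) (x' := x') (fun a => by
      rw [lin_eq_zero_iff valued_pk isDigits_inf (factor_single none) π.irred hx.locFin hx.st hx.ne,
        lin_eq_zero_iff valued_pk isDigits_inf (factor_single none) π'.irred hx'.locFin hx'.st hx'.ne])
  refine ⟨e, ?_⟩
  rintro h ⟨y, hy⟩
  obtain ⟨a, rfl⟩ : ∃ a, lin (res π.ρ (single Fq none)) x a = y := by
    rw [← range_lin] at hy; exact hy
  have h1 : hx.comp.ρ h ⟨lin (res π.ρ (single Fq none)) x a, hy⟩ =
      ⟨lin (res π.ρ (single Fq none)) x (a.mapDomain (fun g => h * g)), lin_mem _⟩ :=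
    Subtype.ext (rho_lin' h a)
  have h2 : hx'.comp.ρ h ⟨lin (res π'.ρ (single Fq none)) x' a, lin_mem a⟩ =
      ⟨lin (res π'.ρ (single Fq none)) x' (a.mapDomain (fun g => h * g)), lin_mem _⟩ :=
    Subtype.ext (rho_lin' h a)
  rw [h1]
  change e _ = _
  rw [he, ← h2]
  congr 1
  exact (he a).symm

end

end Pool.Agent.H330R2
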