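import Mathlib
import Pool.Agent.H330R2.Harm

/-!
# The function `φ₁` (helper file)
-/

namespace Pool.Agent.H330R2

open IsDedekindDomain Polynomial WithZero RestrictedProduct Topology

noncomputable section

variable {Fq : Type} [Field Fq]

lemma mem_KA_single {v : Place Fq} {k : Gv Fq v} (hk : k ∈ GLO Fq v) : single Fq v k ∈ KA Fq := by
  intro w
  by_cases h : w = v
  · subst h; rw [single_same]; exact hk
  · rw [single_ne h]; exact one_mem _

lemma KA_split' {k : GA Fq} (hk : k ∈ KA Fq) (v : Place Fq) :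
    ∃ k' ∈ KA Fq, k' v = 1 ∧ k = k' * single Fq v (k v) := by
  have h1 : ((single Fq v (k v))⁻¹ * k) v = 1 := by
    rw [mul_app, inv_app, single_same, inv_mul_cancel]
  refine ⟨(single Fq v (k v))⁻¹ * k, mul_mem (inv_mem (mem_KA_single (hk v))) hk, h1, ?_⟩
  rw [← single_comm _ h1, mul_inv_cancel_left]

lemma single_comm_single {v w : Place Fq} (h : v ≠ w) (a : Gv Fq v) (b : Gv Fq w) :
    single Fq v a * single Fq w b = single Fq w b * single Fq v a :=
  single_comm a (single_ne h b)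

/-- spherical functions: functions on `GL₂(K)\GL₂(A_K)/K_A Z_∞` -/
structure SFun (f : GA Fq → ℂ) : Prop where
  left : ∀ γ g, f (diagG Fq γ * g) = f g
  ka : ∀ g, ∀ k ∈ KA Fq, f (g * k) = f g
  center : ∀ g (z : Kv Fq none) (hz : z ≠ 0), f (g * single Fq none (scal z hz)) = f g

/-- the Hecke operator -/
def Hk (v : Place Fq) (D : Finset (Kv Fq v)) (π : Kv Fq v) (hπ : π ≠ 0) (f : GA Fq → ℂ) (g : GA Fq) : ℂ :=
  ∑ t : Option D, f (g * single Fq v (rep D t * dd 1 π one_ne_zero hπ))

lemma conj_mem {F : Type} [Field F] {w : Valuation F ℤᵐ⁰} {π : F} (hπ : π ≠ 0)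
    (hw : w π = exp (-1 : ℤ)) {i : GL (Fin 2) F} (hi : i ∈ Iw w) :
    (dd 1 π one_ne_zero hπ)⁻¹ * i * dd 1 π one_ne_zero hπ ∈ GLint w := by
  rw [mem_Iw'] at hi
  obtain ⟨h1, h2, h3, h4, h5⟩ := hi
  have hd : ((dd 1 π one_ne_zero hπ : GL (Fin 2) F) : Matrix (Fin 2) (Fin 2) F).det = π := by
    rw [det_eq]; simp [dd]
  have hinv : ((dd 1 π one_ne_zero hπ)⁻¹ : GL (Fin 2) F) = dd 1 π⁻¹ one_ne_zero (inv_ne_zero hπ) := by
    rw [inv_eq_iff_mul_eq_one]
    apply GL_ext <;> simp [mul_apply', dd, hπ]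
  rw [mem_GLint]
  constructor
  · intro a b
    rw [hinv]
    fin_cases a <;> fin_cases b
    · simpa [mul_apply', dd] using h1
    · have : (dd 1 π⁻¹ one_ne_zero (inv_ne_zero hπ) * i * dd 1 π one_ne_zero hπ) 0 1 = i 0 1 * π := by
        simp [mul_apply', dd]
      simp only [Fin.zero_eta, Fin.mk_one]
      rw [this, map_mul]
      exact mul_le_one' h2 (ϖ_lt_one hw).le
    · have : (dd 1 π⁻¹ one_ne_zero (inv_ne_zero hπ) * i * dd 1 π one_ne_zero hπ) 1 0 = π⁻¹ * i 1 0 := by
        simp [mul_apply', dd]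
      simp only [Fin.zero_eta, Fin.mk_one]
      rw [this, map_mul, map_inv₀, hw]
      rw [lt_one_iff] at h3
      rwa [inv_mul_le_one₀ (by simp)]
    · have : (dd 1 π⁻¹ one_ne_zero (inv_ne_zero hπ) * i * dd 1 π one_ne_zero hπ) 1 1 = i 1 1 := by
        simp [mul_apply', dd]; field_simp
      simp only [Fin.mk_one]
      rw [this]; exact h4
  · rw [det_mul', det_mul', det_inv', hd, mul_right_comm, inv_mul_cancel₀ hπ, one_mul]
    exact h5

lemma SFun.hk {f : GA Fq → ℂ} (hf : SFun f) {v : Place Fq} {D : Finset (Kv Fq v)} {π : Kv Fq v}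
    {hπ : π ≠ 0} (hw : Valued.v π = exp (-1 : ℤ)) (hD : IsDigits (Valued.v (R := Kv Fq v)) D) :
    SFun (Hk v D π hπ f) where
  left γ g := by
    unfold Hk
    refine Finset.sum_congr rfl fun t _ => ?_
    rw [mul_assoc, hf.left]
  ka g k hk := by
    obtain ⟨k', hk', h1, h2⟩ := KA_split' hk v
    have key : ∀ t : Option D, f (g * k * single Fq v (rep D t * dd 1 π one_ne_zero hπ)) =
        f (g * single Fq v (k v * rep D t * dd 1 π one_ne_zero hπ)) := by
      intro t
      have : g * k * single Fq v (rep D t * dd 1 π one_ne_zero hπ) =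
          g * single Fq v (k v * rep D t * dd 1 π one_ne_zero hπ) * k' := by
        conv_lhs => rw [h2]
        rw [mul_assoc g (single Fq v _), single_comm _ h1, ← mul_assoc, ← mul_assoc, mul_assoc (k v),
          map_mul (single Fq v) (k v), ← mul_assoc]
      rw [this, hf.ka _ _ hk']
    unfold Hk
    simp_rw [key]
    exact sum_rep_mul hD (fun h => f (g * single Fq v (h * dd 1 π one_ne_zero hπ))) (by
      intro h i hi
      have : g * single Fq v (h * i * dd 1 π one_ne_zero hπ) =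
          g * single Fq v (h * dd 1 π one_ne_zero hπ) *
          single Fq v ((dd 1 π one_ne_zero hπ)⁻¹ * i * dd 1 π one_ne_zero hπ) := by
        rw [mul_assoc g, ← map_mul]
        congr 2
        group
      rw [this, hf.ka _ _ (mem_KA_single (conj_mem hπ hw hi))]) (hk v)
  center g z hz := by
    unfold Hk
    refine Finset.sum_congr rfl fun t _ => ?_
    rw [mul_assoc, ← scal_central, ← mul_assoc, hf.center]

lemma Hk_comm {v w : Place Fq} (h : v ≠ w) (D : Finset (Kv Fq v)) (π : Kv Fq v) (hπ : π ≠ 0)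
    (D' : Finset (Kv Fq w)) (π' : Kv Fq w) (hπ' : π' ≠ 0) (f : GA Fq → ℂ) :
    Hk v D π hπ (Hk w D' π' hπ' f) = Hk w D' π' hπ' (Hk v D π hπ f) := by
  funext g
  unfold Hk
  rw [Finset.sum_comm]
  refine Finset.sum_congr rfl fun s _ => Finset.sum_congr rfl fun t _ => ?_
  rw [mul_assoc, mul_assoc, single_comm_single h]

lemma Hk_sub (v : Place Fq) (D : Finset (Kv Fq v)) (π : Kv Fq v) (hπ : π ≠ 0) (f f' : GA Fq → ℂ) (c : ℂ)
    (g : GA Fq) : Hk v D π hπ (fun x => f x - c * f' x) g = Hk v D π hπ f g - c * Hk v D π hπ f' g := by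
  unfold Hk
  rw [Finset.sum_sub_distrib, Finset.mul_sum]

lemma Hk_affine (v : Place Fq) (D : Finset (Kv Fq v)) (π : Kv Fq v) (hπ : π ≠ 0) (f : GA Fq → ℂ)
    (a b : ℂ) (g : GA Fq) : Hk v D π hπ (fun x => a * f x + b) g =
      a * Hk v D π hπ f g + (D.card + 1) * b := by
  unfold Hk
  rw [Finset.sum_add_distrib, ← Finset.mul_sum, Finset.sum_const, Finset.card_univ,
    Fintype.card_option, Fintype.card_coe]
  simp

lemma SFun.neg_gap {f : GA Fq → ℂ} (hf : SFun f) (m : ℤ) :
    f (single Fq none (dT m 0)) = f (single Fq none (dT (-m) 0)) := by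
  have h1 : (dT m 0 : Gv Fq none) = toGv Fq none ss *
      (dT (-m) 0 * scal (Tk Fq ^ m) (Tk_zpow_ne m) * ss) := by
    have h0 := Tk_zpow_ne (Fq := Fq) m
    rw [toGv_ss]
    apply GL_ext <;> simp [mul_apply', ss, dT, dd, scal]
    exact (inv_mul_cancel₀ h0).symm
  rw [h1, ← mul_one (single Fq none _), left_move hf.left, map_mul, mul_one, mul_assoc,
    hf.ka _ _ (mul_mem (mem_KA_single (ss_mem _)) (inv_mem (finPart_mem finInt_ss).1)), map_mul,
    hf.center]

lemma SFun.eq_gap {f : GA Fq → ℂ} (hf : SFun f) (g : GA Fq) :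
    f g = f (single Fq none (dT (gap g : ℤ) 0)) := by
  obtain ⟨n, hn⟩ := exists_gap g
  rw [gap_eq hn]
  obtain ⟨γ, z, hz, k, hk, rfl⟩ := hn
  rw [hf.ka _ _ hk, hf.left, map_mul, hf.center]

lemma gap_dT (n : ℕ) : gap (single Fq none (dT (n : ℤ) 0)) = n := by
  apply gap_eq
  refine ⟨1, 1, one_ne_zero, 1, one_mem _, ?_⟩
  rw [map_one, one_mul, mul_one]
  congr 1
  apply GL_ext <;> simp [mul_apply', dT, dd, scal]

lemma HasGap.mul_ka {g : GA Fq} {n : ℕ} (h : HasGap g n) {k : GA Fq} (hk : k ∈ KA Fq) :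
    HasGap (g * k) n := by
  obtain ⟨γ, z, hz, k', hk', rfl⟩ := h
  exact ⟨γ, z, hz, k' * k, mul_mem hk' hk, by rw [mul_assoc _ k' k]⟩

lemma HasGap.left {g : GA Fq} {n : ℕ} (h : HasGap g n) (η : GL (Fin 2) (RatFunc Fq)) :
    HasGap (diagG Fq η * g) n := by
  obtain ⟨γ, z, hz, k', hk', rfl⟩ := h
  exact ⟨η * γ, z, hz, k', hk', by rw [map_mul (diagG Fq)]; simp only [mul_assoc]⟩

lemma HasGap.center {g : GA Fq} {n : ℕ} (h : HasGap g n) (z' : Kv Fq none) (hz' : z' ≠ 0) :
    HasGap (g * single Fq none (scal z' hz')) n := by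
  obtain ⟨γ, z, hz, k', hk', rfl⟩ := h
  refine ⟨γ, z * z', mul_ne_zero hz hz', k', hk', ?_⟩
  have : (scal (z * z') (mul_ne_zero hz hz') : Gv Fq none) = scal z hz * scal z' hz' := by
    apply GL_ext <;> simp [mul_apply', dd, scal]
  rw [this, mul_assoc _ k', scal_central k', ← mul_assoc, mul_assoc (diagG Fq γ), ← map_mul,
    mul_assoc (dT (n : ℤ) 0)]

/-- functions of the gap -/
lemma sFun_gap (F : ℕ → ℂ) : SFun (fun g : GA Fq => F (gap g)) where
  left γ g := by rw [gap_eq ((gap_spec g).left γ)]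
  ka g k hk := by rw [gap_eq ((gap_spec g).mul_ka hk)]
  center g z hz := by rw [gap_eq ((gap_spec g).center z hz)]

/-- central invariance at all places -/
lemma SFun.center_all {f : GA Fq → ℂ} (hf : SFun f) (v : Place Fq) (z : Kv Fq v) (hz : z ≠ 0)
    (g : GA Fq) : f (g * single Fq v (scal z hz)) = f g := by
  cases v with
  | none => exact hf.center g z hz
  | some P =>
    obtain ⟨p, hp1, hp2⟩ := exists_gen P
    set s := algebraMap Fq[X] (RatFunc Fq) p with hs
    have hs0 : s ≠ 0 := by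
      intro h0
      rw [h0, map_zero] at hp1
      exact exp_ne_zero hp1.symm
    obtain ⟨n, hn⟩ := exists_exp (Valued.v) hz
    have hsn : s ^ (-n) ≠ 0 := zpow_ne_zero _ hs0
    set γ : GL (Fin 2) (RatFunc Fq) := scal (s ^ (-n)) hsn with hγ
    have hγv : ∀ v, toGv Fq v γ = scal (toKv Fq v (s ^ (-n))) ((_root_.map_ne_zero _).mpr hsn) := by
      intro v
      apply GL_ext <;> simp [hγ, scal, dd]
    have hval : ∀ v (x : Kv Fq v) (hx : x ≠ 0), Valued.v x = 1 → scal x hx ∈ GLO Fq v := by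
      intro v x hx h1
      exact Iw_le _ (dd_mem_Iw _ _ _ h1 h1)
    set k : GA Fq := (diagG Fq γ)⁻¹ * single Fq none (toGv Fq none γ) * single Fq (some P) (scal z hz)
      with hk
    have hkm : k ∈ KA Fq := by
      intro v
      rw [hk, mul_app, mul_app, inv_app, diagG_apply]
      cases v with
      | none =>
        rw [single_same, single_ne (by simp), inv_mul_cancel, one_mul]; exact one_mem _
      | some Q =>
        rw [single_ne (by simp), mul_one]
        by_cases hQ : Q = P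
        · subst hQ
          rw [single_same, hγv]
          have h3 : Valued.v ((toKv Fq (some Q) (s ^ (-n)))⁻¹ * z) = 1 := by
            rw [map_mul, map_inv₀, valued_toKv, map_zpow₀, hp1, hn, ← exp_zsmul, ← exp_neg, ← exp_add]
            simp
          have h4 : (scal (toKv Fq (some Q) (s ^ (-n))) ((_root_.map_ne_zero _).mpr hsn))⁻¹ *
              scal z hz = scal ((toKv Fq (some Q) (s ^ (-n)))⁻¹ * z)
                (mul_ne_zero (inv_ne_zero ((_root_.map_ne_zero _).mpr hsn)) hz) := by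
            rw [inv_mul_eq_iff_eq_mul]
            have h5 : toKv Fq (some Q) (s ^ (-n)) ≠ 0 := (_root_.map_ne_zero _).mpr hsn
            apply GL_ext <;> simp only [mul_apply', scal, dd, mk2_00, mk2_01, mk2_10, mk2_11] <;>
              field_simp <;> ring
          rw [h4]
          exact hval _ _ _ h3
        · rw [single_ne (by simpa using hQ), mul_one, hγv]
          apply inv_mem
          apply hval
          rw [valued_toKv, map_zpow₀, hp2 Q hQ, one_zpow]
    have hcen : ∀ g : GA Fq, g * diagG Fq γ = diagG Fq γ * g := by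
      intro g
      apply GA_ext
      intro v
      rw [mul_app, mul_app, diagG_apply, hγv, scal_comm]
    have h6 : g * single Fq (some P) (scal z hz) =
        diagG Fq γ * (g * single Fq none (toGv Fq none γ⁻¹)) * k := by
      rw [hk, ← mul_assoc (diagG Fq γ), ← hcen, map_inv, map_inv]
      group
      rw [mul_assoc g (diagG Fq γ), ← hcen (single Fq none _ ^ (-1 : ℤ))]
      group
    have h7 : toGv Fq none γ⁻¹ = scal (toKv Fq none (s ^ (-n)))⁻¹
        (inv_ne_zero ((_root_.map_ne_zero _).mpr hsn)) := by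
      rw [map_inv, hγv, inv_eq_iff_mul_eq_one]
      have h5 : toKv Fq none (s ^ (-n)) ≠ 0 := (_root_.map_ne_zero _).mpr hsn
      apply GL_ext <;> simp only [mul_apply', scal, dd, mk2_00, mk2_01, mk2_10, mk2_11] <;>
        field_simp <;> simp
    rw [h6, hf.ka _ _ hkm, hf.left, h7, hf.center]

end

end Pool.Agent.H330R2
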