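import Mathlib
import Pool.Agent.H330R2.Harm

/-!
# The group `I₁` at `T = 0` and its affine generic character (helper file)
-/

namespace Pool.Agent.H330R2

open IsDedekindDomain Polynomial WithZero RestrictedProduct Topology

noncomputable section

variable {Fq : Type} [Field Fq]

variable (Fq) in
/-- the place `T = 0` -/
abbrev P0 : HeightOneSpectrum Fq[X] := idealX Fq

variable (Fq) in
/-- `T` in `K_0` -/
def T0 : Kv Fq (some (P0 Fq)) := toKv Fq (some (P0 Fq)) RatFunc.X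

lemma placeVal_P0_X : placeVal Fq (some (P0 Fq)) RatFunc.X = exp (-1 : ℤ) := by
  rw [placeVal_some]
  exact Polynomial.valuation_X_eq_neg_one Fq

lemma valued_T0 : Valued.v (T0 Fq) = exp (-1 : ℤ) := by
  rw [T0, valued_toKv, placeVal_P0_X]

lemma T0_ne : T0 Fq ≠ 0 := by
  intro h
  have := valued_T0 (Fq := Fq)
  rw [h, map_zero] at this
  exact exp_ne_zero this.symm

/-- constants in `K_0` -/
def cst0 (c : Fq) : Kv Fq (some (P0 Fq)) := toKv Fq (some (P0 Fq)) (RatFunc.C c)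

lemma cst0_add (a b : Fq) : cst0 (a + b) = cst0 a + cst0 b := by
  simp [cst0]

lemma cst0_mul (a b : Fq) : cst0 (a * b) = cst0 a * cst0 b := by
  simp [cst0]

lemma cst0_one : cst0 (1 : Fq) = 1 := by simp [cst0]

lemma cst0_zero : cst0 (0 : Fq) = 0 := by simp [cst0]

lemma cst0_eq_zero {c : Fq} (h : Valued.v (cst0 c) < 1) : c = 0 := by
  by_contra hc
  rw [cst0, valued_toKv, placeVal_C _ hc] at h
  exact lt_irrefl _ h

lemma cst0_le (c : Fq) : Valued.v (cst0 c) ≤ 1 := by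
  rw [cst0, valued_toKv]; exact placeVal_C_le _ c

lemma exists_res0 (x : Kv Fq (some (P0 Fq))) (hx : Valued.v x ≤ 1) :
    ∃ c : Fq, Valued.v (x - cst0 c) < 1 := by
  obtain ⟨a, ha⟩ := exists_approx_lt (some (P0 Fq)) x
  have h2 : Valued.v (toKv Fq (some (P0 Fq)) a) ≤ 1 := by
    have : toKv Fq (some (P0 Fq)) a = x - (x - toKv Fq (some (P0 Fq)) a) := by ring
    rw [this]
    exact (Valuation.map_sub _ _ _).trans (max_le hx ha.le)
  rw [valued_toKv, placeVal_some] at h2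
  obtain ⟨p, hp⟩ := (P0 Fq).exists_valuation_sub_lt_of_integer h2 1
  refine ⟨p.coeff 0, ?_⟩
  have h3 : placeVal Fq (some (P0 Fq)) (algebraMap Fq[X] (RatFunc Fq) (p - C (p.coeff 0))) < 1 := by
    rw [placeVal_some, HeightOneSpectrum.valuation_lt_one_iff_mem, idealX_span,
      Ideal.mem_span_singleton, X_dvd_iff]
    simp
  have h4 : x - cst0 (p.coeff 0) = (x - toKv Fq (some (P0 Fq)) a) +
      (toKv Fq (some (P0 Fq)) (a - algebraMap Fq[X] (RatFunc Fq) p) +
      toKv Fq (some (P0 Fq)) (algebraMap Fq[X] (RatFunc Fq) (p - C (p.coeff 0)))) := by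
    rw [cst0, map_sub (algebraMap Fq[X] (RatFunc Fq)), RatFunc.algebraMap_C]
    simp only [map_sub]
    ring
  rw [h4]
  refine lt_of_le_of_lt (Valuation.map_add _ _ _) (max_lt ha
    (lt_of_le_of_lt (Valuation.map_add _ _ _) (max_lt ?_ ?_)))
  · rw [valued_toKv, placeVal_some, Valuation.map_sub_swap]
    exact hp
  · rw [valued_toKv]; exact h3

/-- the residue map `O_0 → F_q` -/
def res0 (x : Kv Fq (some (P0 Fq))) : Fq :=
  open Classical in if h : Valued.v x ≤ 1 then (exists_res0 x h).choose else 0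

lemma res0_spec {x : Kv Fq (some (P0 Fq))} (hx : Valued.v x ≤ 1) : Valued.v (x - cst0 (res0 x)) < 1 := by
  rw [res0, dif_pos hx]
  exact (exists_res0 x hx).choose_spec

lemma res0_eq {x : Kv Fq (some (P0 Fq))} (hx : Valued.v x ≤ 1) {c : Fq} (h : Valued.v (x - cst0 c) < 1) :
    res0 x = c := by
  have h1 := res0_spec hx
  have h2 : Valued.v (cst0 (c - res0 x)) < 1 := by
    have : cst0 (c - res0 x) = (x - cst0 (res0 x)) - (x - cst0 c) := by
      simp [cst0]
    rw [this]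
    exact lt_of_le_of_lt (Valuation.map_sub _ _ _) (max_lt h1 h)
  exact (sub_eq_zero.mp (cst0_eq_zero h2)).symm

lemma res0_congr {x y : Kv Fq (some (P0 Fq))} (hy : Valued.v y ≤ 1)
    (h : Valued.v (x - y) < 1) : res0 x = res0 y := by
  have hx : Valued.v x ≤ 1 := by
    have : x = (x - y) + y := by ring
    rw [this]
    exact (Valuation.map_add _ _ _).trans (max_le h.le hy)
  apply res0_eq hx
  have : x - cst0 (res0 y) = (x - y) + (y - cst0 (res0 y)) := by ring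
  rw [this]
  exact lt_of_le_of_lt (Valuation.map_add _ _ _) (max_lt h (res0_spec hy))

lemma res0_add {x y : Kv Fq (some (P0 Fq))} (hx : Valued.v x ≤ 1) (hy : Valued.v y ≤ 1) :
    res0 (x + y) = res0 x + res0 y := by
  apply res0_eq ((Valuation.map_add _ _ _).trans (max_le hx hy))
  have : x + y - cst0 (res0 x + res0 y) = (x - cst0 (res0 x)) + (y - cst0 (res0 y)) := by
    rw [cst0_add]; ring
  rw [this]
  exact lt_of_le_of_lt (Valuation.map_add _ _ _) (max_lt (res0_spec hx) (res0_spec hy))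

lemma res0_cst (c : Fq) : res0 (cst0 c) = c := by
  apply res0_eq (cst0_le c)
  simp

lemma res0_zero : res0 (0 : Kv Fq (some (P0 Fq))) = 0 := by
  rw [← cst0_zero, res0_cst]

lemma res0_of_lt {x : Kv Fq (some (P0 Fq))} (hx : Valued.v x < 1) : res0 x = 0 := by
  rw [← res0_zero]
  apply res0_congr (by simp)
  simpa using hx

lemma mllt {x y : ℤᵐ⁰} (hx : x ≤ 1) (hy : y < 1) : x * y < 1 := by
  rw [mul_comm]; exact mul_lt_one_of_lt_of_le hy hx

/-- multiplication by an element congruent to one -/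
lemma res0_mul_one {x y : Kv Fq (some (P0 Fq))} (hx : Valued.v x ≤ 1) (hy : Valued.v (y - 1) < 1) :
    res0 (x * y) = res0 x := by
  apply res0_congr hx
  have : x * y - x = x * (y - 1) := by ring
  rw [this, map_mul]
  exact mllt hx hy

lemma le_one_of_sub_one {F : Type} [Field F] {w : Valuation F ℤᵐ⁰} {x : F} (h : w (x - 1) < 1) :
    w x ≤ 1 := by
  have : x = (x - 1) + 1 := by ring
  rw [this]
  exact (w.map_add _ _).trans (max_le h.le (by simp))

lemma eq_one_of_sub_one {F : Type} [Field F] {w : Valuation F ℤᵐ⁰} {x : F} (h : w (x - 1) < 1) :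
    w x = 1 := by
  have := Valuation.map_sub_eq_of_lt_right w (x := 1 - x) (y := 1) (by
    rw [Valuation.map_sub_swap]; simpa using h)
  rw [show (1 - x) - 1 = -x by ring, Valuation.map_neg] at this
  rw [this]; simp

/-- the pro-unipotent radical of the (lower) Iwahori subgroup at `T = 0` -/
def I1 {F : Type} [Field F] (w : Valuation F ℤᵐ⁰) : Subgroup (GL (Fin 2) F) where
  carrier := {g | w (g 0 0 - 1) < 1 ∧ w (g 1 1 - 1) < 1 ∧ w (g 0 1) < 1 ∧ w (g 1 0) ≤ 1}
  one_mem' := by simp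
  mul_mem' := by
    rintro a b ⟨ha1, ha2, ha3, ha4⟩ ⟨hb1, hb2, hb3, hb4⟩
    have a0 := le_one_of_sub_one ha1
    have a1 := le_one_of_sub_one ha2
    have b0 := le_one_of_sub_one hb1
    have b1 := le_one_of_sub_one hb2
    refine ⟨?_, ?_, ?_, ?_⟩
    · have : (a * b) 0 0 - 1 = (a 0 0 - 1) * b 0 0 + ((b 0 0 - 1) + a 0 1 * b 1 0) := by
        rw [mul_apply']; ring
      rw [this]
      refine lt_of_le_of_lt (w.map_add _ _) (max_lt ?_ (lt_of_le_of_lt (w.map_add _ _) (max_lt hb1 ?_)))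
      · rw [map_mul]; exact mul_lt_one_of_lt_of_le ha1 b0
      · rw [map_mul]; exact mul_lt_one_of_lt_of_le ha3 hb4
    · have : (a * b) 1 1 - 1 = (a 1 1 - 1) * b 1 1 + ((b 1 1 - 1) + b 0 1 * a 1 0) := by
        rw [mul_apply']; ring
      rw [this]
      refine lt_of_le_of_lt (w.map_add _ _) (max_lt ?_ (lt_of_le_of_lt (w.map_add _ _) (max_lt hb2 ?_)))
      · rw [map_mul]; exact mul_lt_one_of_lt_of_le ha2 b1
      · rw [map_mul]; exact mul_lt_one_of_lt_of_le hb3 ha4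
    · rw [mul_apply']
      refine lt_of_le_of_lt (w.map_add _ _) (max_lt ?_ ?_)
      · rw [map_mul]; exact mllt a0 hb3
      · rw [map_mul]; exact mul_lt_one_of_lt_of_le ha3 b1
    · rw [mul_apply']
      refine (w.map_add _ _).trans (max_le ?_ ?_)
      · rw [map_mul]; exact mul_le_one' ha4 b0
      · rw [map_mul]; exact mul_le_one' a1 hb4
  inv_mem' := by
    rintro a ⟨ha1, ha2, ha3, ha4⟩
    have a0 := le_one_of_sub_one ha1
    have a1 := le_one_of_sub_one ha2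
    have hd : w ((a : Matrix (Fin 2) (Fin 2) F).det - 1) < 1 := by
      have : (a : Matrix (Fin 2) (Fin 2) F).det - 1 = (a 0 0 - 1) * a 1 1 + ((a 1 1 - 1) -
          a 0 1 * a 1 0) := by
        rw [det_eq]; ring
      rw [this]
      refine lt_of_le_of_lt (w.map_add _ _) (max_lt ?_ (lt_of_le_of_lt (w.map_sub _ _) (max_lt ha2 ?_)))
      · rw [map_mul]; exact mul_lt_one_of_lt_of_le ha1 a1
      · rw [map_mul]; exact mul_lt_one_of_lt_of_le ha3 ha4
    have hd1 := eq_one_of_sub_one hd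
    have hd0 := det_ne' a
    refine ⟨?_, ?_, ?_, ?_⟩
    · have : a⁻¹ 0 0 - 1 = (a : Matrix (Fin 2) (Fin 2) F).det⁻¹ * ((a 1 1 - 1) -
          ((a : Matrix (Fin 2) (Fin 2) F).det - 1)) := by
        rw [inv_00]; field_simp; ring
      rw [this, map_mul, map_inv₀, hd1, inv_one, one_mul]
      exact lt_of_le_of_lt (w.map_sub _ _) (max_lt ha2 hd)
    · have : a⁻¹ 1 1 - 1 = (a : Matrix (Fin 2) (Fin 2) F).det⁻¹ * ((a 0 0 - 1) -
          ((a : Matrix (Fin 2) (Fin 2) F).det - 1)) := by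
        rw [inv_11]; field_simp; ring
      rw [this, map_mul, map_inv₀, hd1, inv_one, one_mul]
      exact lt_of_le_of_lt (w.map_sub _ _) (max_lt ha1 hd)
    · rw [inv_01, Valuation.map_neg, map_mul, map_inv₀, hd1, inv_one, one_mul]; exact ha3
    · rw [inv_10, Valuation.map_neg, map_mul, map_inv₀, hd1, inv_one, one_mul]; exact ha4

lemma mem_I1 {F : Type} [Field F] (w : Valuation F ℤᵐ⁰) (g : GL (Fin 2) F) : g ∈ I1 w ↔
    w (g 0 0 - 1) < 1 ∧ w (g 1 1 - 1) < 1 ∧ w (g 0 1) < 1 ∧ w (g 1 0) ≤ 1 := Iff.rfl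

lemma I1_le {F : Type} [Field F] (w : Valuation F ℤᵐ⁰) : I1 w ≤ GLint w := by
  intro a ha
  have ha' := ha
  obtain ⟨ha1, ha2, ha3, ha4⟩ := ha
  have a0 := le_one_of_sub_one ha1
  have a1 := le_one_of_sub_one ha2
  rw [mem_GLint]
  constructor
  · intro i j
    fin_cases i <;> fin_cases j
    · exact a0
    · exact ha3.le
    · exact ha4
    · exact a1
  · apply eq_one_of_sub_one
    have : (a : Matrix (Fin 2) (Fin 2) F).det - 1 = (a 0 0 - 1) * a 1 1 + ((a 1 1 - 1) -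
        a 0 1 * a 1 0) := by
      rw [det_eq]; ring
    rw [this]
    refine lt_of_le_of_lt (w.map_add _ _) (max_lt ?_ (lt_of_le_of_lt (w.map_sub _ _) (max_lt ha2 ?_)))
    · rw [map_mul]; exact mul_lt_one_of_lt_of_le ha1 a1
    · rw [map_mul]; exact mul_lt_one_of_lt_of_le ha3 ha4

variable (Fq) in
/-- the Atkin–Lehner element at `T = 0` -/
def phi0 : Gv Fq (some (P0 Fq)) := mk2 0 (T0 Fq) 1 0 (by simp [T0_ne])

lemma phi0_inv : (phi0 Fq)⁻¹ = mk2 0 1 (T0 Fq)⁻¹ 0 (by simp [T0_ne]) := by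
  have h := T0_ne (Fq := Fq)
  rw [inv_eq_iff_mul_eq_one]
  apply GL_ext <;> simp [mul_apply', phi0, h]

/-- the linear form defining the character -/
def ell (k : Gv Fq (some (P0 Fq))) : Fq := res0 (k 1 0) + res0 (k 0 1 / T0 Fq)

lemma div_T0_le {x : Kv Fq (some (P0 Fq))} (hx : Valued.v x < 1) : Valued.v (x / T0 Fq) ≤ 1 := by
  rw [map_div₀, valued_T0]
  rw [lt_one_iff] at hx
  rwa [div_le_one₀ (by simp)]

lemma ell_mul {a b : Gv Fq (some (P0 Fq))} (ha : a ∈ I1 (Valued.v (R := Kv Fq (some (P0 Fq)))))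
    (hb : b ∈ I1 (Valued.v (R := Kv Fq (some (P0 Fq))))) : ell (a * b) = ell a + ell b := by
  obtain ⟨ha1, ha2, ha3, ha4⟩ := ha
  obtain ⟨hb1, hb2, hb3, hb4⟩ := hb
  have hT := T0_ne (Fq := Fq)
  have h1 : res0 ((a * b) 1 0) = res0 (a 1 0) + res0 (b 1 0) := by
    rw [mul_apply', res0_add, res0_mul_one ha4 hb1, mul_comm (a 1 1), res0_mul_one hb4 ha2]
    · rw [map_mul]; exact mul_le_one' ha4 (le_one_of_sub_one hb1)
    · rw [map_mul]; exact mul_le_one' (le_one_of_sub_one ha2) hb4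
  have h2 : res0 ((a * b) 0 1 / T0 Fq) = res0 (a 0 1 / T0 Fq) + res0 (b 0 1 / T0 Fq) := by
    have : (a * b) 0 1 / T0 Fq = (b 0 1 / T0 Fq) * a 0 0 + (a 0 1 / T0 Fq) * b 1 1 := by
      rw [mul_apply']; field_simp
    rw [this, res0_add, res0_mul_one (div_T0_le hb3) ha1, res0_mul_one (div_T0_le ha3) hb2, add_comm]
    · rw [map_mul]; exact mul_le_one' (div_T0_le hb3) (le_one_of_sub_one ha1)
    · rw [map_mul]; exact mul_le_one' (div_T0_le ha3) (le_one_of_sub_one hb2)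
  rw [ell, h1, h2, ell, ell]
  ring

lemma ell_one : ell (1 : Gv Fq (some (P0 Fq))) = 0 := by
  simp [ell, res0_zero]

/-- conjugation by the Atkin–Lehner element -/
lemma phi0_conj {k : Gv Fq (some (P0 Fq))} (hk : k ∈ I1 (Valued.v (R := Kv Fq (some (P0 Fq))))) :
    (phi0 Fq)⁻¹ * k * phi0 Fq ∈ I1 (Valued.v (R := Kv Fq (some (P0 Fq)))) ∧
      ell ((phi0 Fq)⁻¹ * k * phi0 Fq) = ell k := by
  obtain ⟨h1, h2, h3, h4⟩ := hk
  have hT := T0_ne (Fq := Fq)
  have e00 : ((phi0 Fq)⁻¹ * k * phi0 Fq) 0 0 = k 1 1 := by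
    rw [phi0_inv]; simp [mul_apply', phi0]
  have e01 : ((phi0 Fq)⁻¹ * k * phi0 Fq) 0 1 = k 1 0 * T0 Fq := by
    rw [phi0_inv]; simp [mul_apply', phi0]
  have e10 : ((phi0 Fq)⁻¹ * k * phi0 Fq) 1 0 = k 0 1 / T0 Fq := by
    rw [phi0_inv]; simp [mul_apply', phi0]; field_simp
  have e11 : ((phi0 Fq)⁻¹ * k * phi0 Fq) 1 1 = k 0 0 := by
    rw [phi0_inv]; simp [mul_apply', phi0]; field_simp
  constructor
  · rw [mem_I1, e00, e01, e10, e11]
    refine ⟨h2, h1, ?_, div_T0_le h3⟩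
    rw [map_mul]
    exact mllt h4 (ϖ_lt_one valued_T0)
  · rw [ell, e01, e10, ell, mul_div_assoc, div_self hT, mul_one, add_comm]

lemma phi0_conj' {k : Gv Fq (some (P0 Fq))} (hk : k ∈ I1 (Valued.v (R := Kv Fq (some (P0 Fq))))) :
    phi0 Fq * k * (phi0 Fq)⁻¹ ∈ I1 (Valued.v (R := Kv Fq (some (P0 Fq)))) := by
  obtain ⟨h1, h2, h3, h4⟩ := hk
  have hT := T0_ne (Fq := Fq)
  have e00 : (phi0 Fq * k * (phi0 Fq)⁻¹) 0 0 = k 1 1 := by
    rw [phi0_inv]; simp [mul_apply', phi0]; field_simp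
  have e01 : (phi0 Fq * k * (phi0 Fq)⁻¹) 0 1 = k 1 0 * T0 Fq := by
    rw [phi0_inv]; simp [mul_apply', phi0]; ring
  have e10 : (phi0 Fq * k * (phi0 Fq)⁻¹) 1 0 = k 0 1 / T0 Fq := by
    rw [phi0_inv]; simp [mul_apply', phi0]; field_simp
  have e11 : (phi0 Fq * k * (phi0 Fq)⁻¹) 1 1 = k 0 0 := by
    rw [phi0_inv]; simp [mul_apply', phi0]
  rw [mem_I1, e00, e01, e10, e11]
  refine ⟨h2, h1, ?_, div_T0_le h3⟩
  rw [map_mul]
  exact mllt h4 (ϖ_lt_one valued_T0)

/-- powers of the Atkin–Lehner element normalise `I₁` -/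
lemma phi0_zpow_conj (j : ℤ) {k : Gv Fq (some (P0 Fq))}
    (hk : k ∈ I1 (Valued.v (R := Kv Fq (some (P0 Fq))))) :
    (phi0 Fq) ^ j * k * ((phi0 Fq) ^ j)⁻¹ ∈ I1 (Valued.v (R := Kv Fq (some (P0 Fq)))) := by
  have h : phi0 Fq ∈ Subgroup.normalizer
      (I1 (Valued.v (R := Kv Fq (some (P0 Fq)))) : Set (Gv Fq (some (P0 Fq)))) := by
    rw [Subgroup.mem_normalizer_iff]
    intro x
    constructor
    · exact fun h => phi0_conj' h
    · intro h
      have := (phi0_conj h).1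
      convert this using 1
      group
  have h2 := Subgroup.zpow_mem _ h j
  rw [Subgroup.mem_normalizer_iff] at h2
  exact (h2 k).mp hk

lemma phi0_sq : phi0 Fq * phi0 Fq = scal (T0 Fq) T0_ne := by
  apply GL_ext <;> simp [mul_apply', phi0, scal, dd]

end

end Pool.Agent.H330R2
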