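import Mathlib
import Pool.Agent.H330R2.Kloo1
import Pool.Agent.H330R2.Eis

/-!
# The cusp form (helper file)
-/

namespace Pool.Agent.H330R2

open IsDedekindDomain Polynomial WithZero RestrictedProduct Topology

noncomputable section

variable {Fq : Type} [Field Fq]

lemma placeVal_X_of_ne {Q : HeightOneSpectrum Fq[X]} (h : Q ≠ P0 Fq) :
    placeVal Fq (some Q) RatFunc.X = 1 := by
  rw [← RatFunc.algebraMap_X, placeVal_some, HeightOneSpectrum.valuation_eq_one_iff_notMem]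
  intro hmem
  apply h
  have h1 : (P0 Fq).asIdeal ≤ Q.asIdeal := by
    rw [idealX_span, Ideal.span_le]
    simpa using hmem
  have h2 := (P0 Fq).isMaximal.eq_of_le Q.isPrime.ne_top h1
  exact HeightOneSpectrum.ext h2.symm

lemma val_inf_of_fin {x : RatFunc Fq} (hx : x ≠ 0) (h : ∀ P, placeVal Fq (some P) x = 1) :
    placeVal Fq none x = 1 := by
  have key : ∀ x : RatFunc Fq, x ≠ 0 → (∀ P, placeVal Fq (some P) x = 1) → 1 ≤ placeVal Fq none x := by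
    intro x hx h
    by_contra hcon
    push Not at hcon
    exact hx (eq_zero_of_integral x (fun P => (h P).le) hcon)
  apply le_antisymm _ (key x hx h)
  have h2 := key x⁻¹ (inv_ne_zero hx) (fun P => by rw [map_inv₀, h P, inv_one])
  rw [map_inv₀] at h2
  exact (one_le_inv₀ (zero_lt_iff.mpr ((Valuation.ne_zero_iff _).mpr hx))).mp h2

/-- the valuation of the determinant -/
def vdet (v : Place Fq) : Gv Fq v →* ℤᵐ⁰ where
  toFun g := Valued.v (g : Matrix (Fin 2) (Fin 2) (Kv Fq v)).det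
  map_one' := by simp
  map_mul' a b := by rw [det_mul', map_mul]

lemma vdet_inv (v : Place Fq) (g : Gv Fq v) : vdet v g⁻¹ = (vdet v g)⁻¹ := by
  change Valued.v _ = (Valued.v _)⁻¹
  rw [det_inv', map_inv₀]

lemma vdet_of_mem {v : Place Fq} {g : Gv Fq v} (h : g ∈ GLO Fq v) : vdet v g = 1 :=
  ((mem_GLint _ _).mp h).2

lemma vdet_toGv (v : Place Fq) (γ : GL (Fin 2) (RatFunc Fq)) :
    vdet v (toGv Fq v γ) = placeVal Fq v (γ : Matrix (Fin 2) (Fin 2) (RatFunc Fq)).det := by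
  change Valued.v _ = _
  rw [toGv_det, valued_toKv]

lemma vdet_phi0 (j : ℤ) : vdet (some (P0 Fq)) (phi0 Fq ^ j) = exp (-j) := by
  rw [map_zpow' (vdet (some (P0 Fq))) (vdet_inv _)]
  have : vdet (some (P0 Fq)) (phi0 Fq) = exp (-1 : ℤ) := by
    change Valued.v _ = _
    rw [det_eq]
    simp [phi0, valued_T0]
  rw [this, ← exp_zsmul]
  congr 1
  simp

variable (Fq) in
/-- the level group -/
def UK : Subgroup (GA Fq) where
  carrier := {u | u ∈ KA Fq ∧ u none ∈ Iw (Valued.v (R := Kv Fq none)) ∧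
    u (some (P0 Fq)) ∈ I1 (Valued.v (R := Kv Fq (some (P0 Fq))))}
  one_mem' := ⟨one_mem _, one_mem _, one_mem _⟩
  mul_mem' := fun ha hb => ⟨mul_mem ha.1 hb.1, mul_mem ha.2.1 hb.2.1, mul_mem ha.2.2 hb.2.2⟩
  inv_mem' := fun ha => ⟨inv_mem ha.1, inv_mem ha.2.1, inv_mem ha.2.2⟩

lemma mem_UK (u : GA Fq) : u ∈ UK Fq ↔ u ∈ KA Fq ∧ u none ∈ Iw (Valued.v (R := Kv Fq none)) ∧
    u (some (P0 Fq)) ∈ I1 (Valued.v (R := Kv Fq (some (P0 Fq)))) := Iff.rfl

variable (Fq) in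
/-- the Atkin–Lehner element as an adelic element -/
def phi : GA Fq := single Fq (some (P0 Fq)) (phi0 Fq)

/-- the character of the level group -/
def chi (ψ₀ : AddChar Fq ℂ) (u : GA Fq) : ℂ := ψ₀ (ell (u (some (P0 Fq))))

lemma chi_mul (ψ₀ : AddChar Fq ℂ) {u u' : GA Fq} (hu : u ∈ UK Fq) (hu' : u' ∈ UK Fq) :
    chi ψ₀ (u * u') = chi ψ₀ u * chi ψ₀ u' := by
  rw [chi, mul_app, ell_mul hu.2.2 hu'.2.2, AddChar.map_add_eq_mul, chi, chi]

lemma chi_ne_zero (ψ₀ : AddChar Fq ℂ) (u : GA Fq) : chi ψ₀ u ≠ 0 := (AddChar.val_isUnit ψ₀ _).ne_zero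

lemma chi_of_one (ψ₀ : AddChar Fq ℂ) {u : GA Fq} (h : u (some (P0 Fq)) = 1) : chi ψ₀ u = 1 := by
  rw [chi, h, ell_one, AddChar.map_zero_eq_one]

lemma phi_P0 : phi Fq (some (P0 Fq)) = phi0 Fq := single_same _ _

lemma phi_ne {v : Place Fq} (h : v ≠ some (P0 Fq)) : phi Fq v = 1 := single_ne h _

lemma phi_zpow_P0 (j : ℤ) : (phi Fq ^ j) (some (P0 Fq)) = phi0 Fq ^ j := by
  rw [phi, ← map_zpow, single_same]

lemma phi_zpow_ne (j : ℤ) {v : Place Fq} (h : v ≠ some (P0 Fq)) : (phi Fq ^ j) v = 1 := by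
  rw [phi, ← map_zpow, single_ne h]

/-- **Uniqueness.** -/
theorem kl_unique {γ γ' : GL (Fin 2) (RatFunc Fq)} {j j' : ℤ} {u u' : GA Fq} (hu : u ∈ UK Fq)
    (hu' : u' ∈ UK Fq) (h : diagG Fq γ * phi Fq ^ j * u = diagG Fq γ' * phi Fq ^ j' * u') :
    j = j' ∧ u = u' := by
  set η := γ'⁻¹ * γ with hη
  set κ := u' * u⁻¹ with hκ
  have hκm : κ ∈ UK Fq := mul_mem hu' (inv_mem hu)
  have h1 : diagG Fq η = phi Fq ^ j' * κ * (phi Fq ^ j)⁻¹ := by
    have h2 : diagG Fq γ = diagG Fq γ' * phi Fq ^ j' * u' * u⁻¹ * (phi Fq ^ j)⁻¹ := by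
      rw [← h]; group
    rw [hη, map_mul, map_inv, h2, hκ]
    group
  have hne : ∀ v, v ≠ some (P0 Fq) → toGv Fq v η = κ v := by
    intro v hv
    have := congrArg (fun g : GA Fq => g v) h1
    simpa only [mul_app, inv_app, phi_zpow_ne _ hv, one_mul, inv_one, mul_one, diagG_apply] using this
  have h0 : toGv Fq (some (P0 Fq)) η = phi0 Fq ^ j' * κ (some (P0 Fq)) * (phi0 Fq ^ j)⁻¹ := by
    have := congrArg (fun g : GA Fq => g (some (P0 Fq))) h1
    simpa only [mul_app, inv_app, phi_zpow_P0, diagG_apply] using this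
  -- determinants
  have hd0 : placeVal Fq (some (P0 Fq)) (η : Matrix (Fin 2) (Fin 2) (RatFunc Fq)).det =
      exp (j - j') := by
    rw [← vdet_toGv, h0, map_mul, map_mul, vdet_inv, vdet_phi0, vdet_phi0, vdet_of_mem (hκm.1 _),
      mul_one, ← exp_neg, ← exp_add]
    congr 1; ring
  have hdQ : ∀ Q, Q ≠ P0 Fq →
      placeVal Fq (some Q) (η : Matrix (Fin 2) (Fin 2) (RatFunc Fq)).det = 1 := by
    intro Q hQ
    rw [← vdet_toGv, hne _ (by simpa using hQ), vdet_of_mem (hκm.1 _)]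
  have hdi : placeVal Fq none (η : Matrix (Fin 2) (Fin 2) (RatFunc Fq)).det = 1 := by
    rw [← vdet_toGv, hne _ (by simp), vdet_of_mem (hκm.1 _)]
  have hjj : j = j' := by
    have hx0 : (η : Matrix (Fin 2) (Fin 2) (RatFunc Fq)).det * RatFunc.X ^ (j - j') ≠ 0 :=
      mul_ne_zero (det_ne' η) (zpow_ne_zero _ RatFunc.X_ne_zero)
    have := val_inf_of_fin hx0 (by
      intro P
      rw [map_mul, map_zpow₀]
      by_cases hP : P = P0 Fq
      · subst hP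
        rw [hd0, placeVal_P0_X, ← exp_zsmul, ← exp_add]
        simp
      · rw [hdQ P hP, placeVal_X_of_ne hP, one_zpow, one_mul])
    rw [map_mul, map_zpow₀, hdi, placeVal_none_X, one_mul, ← exp_zsmul,
      show (1 : ℤᵐ⁰) = exp 0 from rfl, exp_inj] at this
    simp only [smul_eq_mul, mul_one] at this
    omega
  subst hjj
  refine ⟨rfl, ?_⟩
  have hI : toGv Fq (some (P0 Fq)) η ∈ I1 (Valued.v (R := Kv Fq (some (P0 Fq)))) := by
    rw [h0]; exact phi0_zpow_conj _ hκm.2.2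
  have hfin : FinInt η := by
    intro P
    by_cases hP : P = P0 Fq
    · subst hP; exact I1_le _ hI
    · rw [hne _ (by simpa using hP)]; exact hκm.1 _
  have hinf : toGv Fq none η ∈ Iw (Valued.v (R := Kv Fq none)) := by
    rw [hne _ (by simp)]; exact hκm.2.1
  obtain ⟨i1, i2, i3, i4⟩ := hI
  rw [toGv_apply] at i1 i2 i3 i4
  rw [mem_Iw'] at hinf
  obtain ⟨w1, w2, w3, w4, -⟩ := hinf
  rw [toGv_apply, valued_toKv] at w1 w2 w3 w4
  rw [valued_toKv] at i3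
  rw [← map_one (toKv Fq (some (P0 Fq))), ← map_sub, valued_toKv] at i1 i2
  have hconst : ∀ x : RatFunc Fq, (∀ P, placeVal Fq (some P) x ≤ 1) → placeVal Fq none x ≤ 1 →
      placeVal Fq (some (P0 Fq)) x < 1 → x = 0 := by
    intro x hx1 hx2 hx3
    obtain ⟨c, rfl⟩ := eq_const_of_integral x hx1 hx2
    by_contra hne
    have hc : c ≠ 0 := by rintro rfl; simp at hne
    rw [placeVal_C _ hc] at hx3
    exact lt_irrefl _ hx3
  have z10 : η 1 0 = 0 := eq_zero_of_integral _ (fun P => hfin.entry P 1 0) w3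
  have z01 : η 0 1 = 0 := hconst _ (fun P => hfin.entry P 0 1) w2 i3
  have z00 : η 0 0 = 1 := by
    rw [← sub_eq_zero]
    apply hconst _ _ _ i1
    · intro P
      exact (Valuation.map_sub _ _ _).trans (max_le (hfin.entry P 0 0) (by simp))
    · exact (Valuation.map_sub _ _ _).trans (max_le w1 (by simp))
  have z11 : η 1 1 = 1 := by
    rw [← sub_eq_zero]
    apply hconst _ _ _ i2
    · intro P
      exact (Valuation.map_sub _ _ _).trans (max_le (hfin.entry P 1 1) (by simp))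
    · exact (Valuation.map_sub _ _ _).trans (max_le w4 (by simp))
  have hη1 : η = 1 := GL_ext z00 z01 z10 z11
  rw [hη1, map_one] at h1
  have h3 : κ = 1 := by
    have : κ = (phi Fq ^ j)⁻¹ * (phi Fq ^ j * κ * (phi Fq ^ j)⁻¹) * phi Fq ^ j := by group
    rw [this, ← h1]; group
  rw [hκ, mul_inv_eq_one] at h3
  exact h3.symm

/-- the value relation -/
def RK (ψ₀ : AddChar Fq ℂ) (g : GA Fq) (z : ℂ) : Prop :=
  ∃ γ : GL (Fin 2) (RatFunc Fq), ∃ j : ℤ, ∃ u ∈ UK Fq, g = diagG Fq γ * phi Fq ^ j * u ∧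
    z = (-1 : ℂ) ^ j * chi ψ₀ u

lemma RK_unique {ψ₀ : AddChar Fq ℂ} {g : GA Fq} {z z' : ℂ} (h : RK ψ₀ g z) (h' : RK ψ₀ g z') :
    z = z' := by
  obtain ⟨γ, j, u, hu, hg, rfl⟩ := h
  obtain ⟨γ', j', u', hu', hg', rfl⟩ := h'
  obtain ⟨rfl, rfl⟩ := kl_unique hu hu' (hg.symm.trans hg')
  rfl

lemma RK_ne_zero {ψ₀ : AddChar Fq ℂ} {g : GA Fq} {z : ℂ} (h : RK ψ₀ g z) : z ≠ 0 := by
  obtain ⟨γ, j, u, hu, hg, rfl⟩ := h
  exact mul_ne_zero (zpow_ne_zero _ (by norm_num)) (chi_ne_zero _ _)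

/-- the cusp form -/
def klf (ψ₀ : AddChar Fq ℂ) (g : GA Fq) : ℂ :=
  open Classical in if h : ∃ z, RK ψ₀ g z then h.choose else 0

lemma klf_eq {ψ₀ : AddChar Fq ℂ} {g : GA Fq} {z : ℂ} (h : RK ψ₀ g z) : klf ψ₀ g = z := by
  rw [klf, dif_pos ⟨z, h⟩]
  exact RK_unique (Exists.choose_spec (⟨z, h⟩ : ∃ z, RK ψ₀ g z)) h

lemma klf_zero {ψ₀ : AddChar Fq ℂ} {g : GA Fq} (h : ¬ ∃ z, RK ψ₀ g z) : klf ψ₀ g = 0 := by
  rw [klf, dif_neg h]

lemma klf_ne_zero {ψ₀ : AddChar Fq ℂ} {g : GA Fq} (h : klf ψ₀ g ≠ 0) : ∃ z, RK ψ₀ g z := by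
  by_contra hcon
  exact h (klf_zero hcon)

lemma klf_trans {ψ₀ : AddChar Fq ℂ} {a : GA Fq} {c : ℂ}
    (h1 : ∀ g z, RK ψ₀ g z → RK ψ₀ (g * a) (c * z))
    (h2 : ∀ g z, RK ψ₀ (g * a) z → ∃ z', RK ψ₀ g z') (g : GA Fq) :
    klf ψ₀ (g * a) = c * klf ψ₀ g := by
  by_cases h : ∃ z, RK ψ₀ g z
  · obtain ⟨z, hz⟩ := h
    rw [klf_eq hz, klf_eq (h1 g z hz)]
  · rw [klf_zero h, klf_zero, mul_zero]
    rintro ⟨z, hz⟩
    exact h (h2 g z hz)

lemma klf_left (ψ₀ : AddChar Fq ℂ) (γ : GL (Fin 2) (RatFunc Fq)) (g : GA Fq) :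
    klf ψ₀ (diagG Fq γ * g) = klf ψ₀ g := by
  have key : ∀ (γ : GL (Fin 2) (RatFunc Fq)) (g : GA Fq) (z : ℂ), RK ψ₀ g z →
      RK ψ₀ (diagG Fq γ * g) z := by
    rintro γ g z ⟨γ', j, u, hu, rfl, rfl⟩
    exact ⟨γ * γ', j, u, hu, by rw [map_mul]; group, rfl⟩
  by_cases h : ∃ z, RK ψ₀ g z
  · obtain ⟨z, hz⟩ := h
    rw [klf_eq hz, klf_eq (key γ g z hz)]
  · rw [klf_zero h, klf_zero]
    rintro ⟨z, hz⟩
    apply h
    refine ⟨z, ?_⟩
    have := key γ⁻¹ _ z hz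
    rwa [map_inv, inv_mul_cancel_left] at this

lemma klf_UK (ψ₀ : AddChar Fq ℂ) {u : GA Fq} (hu : u ∈ UK Fq) (g : GA Fq) :
    klf ψ₀ (g * u) = chi ψ₀ u * klf ψ₀ g := by
  have key : ∀ (u : GA Fq), u ∈ UK Fq → ∀ (g : GA Fq) (z : ℂ), RK ψ₀ g z →
      RK ψ₀ (g * u) (chi ψ₀ u * z) := by
    rintro u hu g z ⟨γ, j, u', hu', rfl, rfl⟩
    refine ⟨γ, j, u' * u, mul_mem hu' hu, by group, ?_⟩
    rw [chi_mul ψ₀ hu' hu]; ring
  apply klf_trans (key u hu)
  intro g z hz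
  have := key u⁻¹ (inv_mem hu) _ z hz
  rw [mul_inv_cancel_right] at this
  exact ⟨_, this⟩

lemma UK_conj_phi {u : GA Fq} (hu : u ∈ UK Fq) :
    (phi Fq)⁻¹ * u * phi Fq ∈ UK Fq ∧ phi Fq * u * (phi Fq)⁻¹ ∈ UK Fq := by
  have h1 : ∀ v, v ≠ some (P0 Fq) → ((phi Fq)⁻¹ * u * phi Fq) v = u v := by
    intro v hv
    rw [mul_app, mul_app, inv_app, phi_ne hv, inv_one, one_mul, mul_one]
  have h2 : ∀ v, v ≠ some (P0 Fq) → (phi Fq * u * (phi Fq)⁻¹) v = u v := by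
    intro v hv
    rw [mul_app, mul_app, inv_app, phi_ne hv, inv_one, one_mul, mul_one]
  have h3 : ((phi Fq)⁻¹ * u * phi Fq) (some (P0 Fq)) ∈ I1 (Valued.v (R := Kv Fq (some (P0 Fq)))) := by
    rw [mul_app, mul_app, inv_app, phi_P0]; exact (phi0_conj hu.2.2).1
  have h4 : (phi Fq * u * (phi Fq)⁻¹) (some (P0 Fq)) ∈ I1 (Valued.v (R := Kv Fq (some (P0 Fq)))) := by
    rw [mul_app, mul_app, inv_app, phi_P0]; exact phi0_conj' hu.2.2
  constructor
  · refine ⟨fun v => ?_, ?_, h3⟩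
    · by_cases hv : v = some (P0 Fq)
      · subst hv; exact I1_le _ h3
      · rw [h1 v hv]; exact hu.1 v
    · rw [h1 none (by simp)]; exact hu.2.1
  · refine ⟨fun v => ?_, ?_, h4⟩
    · by_cases hv : v = some (P0 Fq)
      · subst hv; exact I1_le _ h4
      · rw [h2 v hv]; exact hu.1 v
    · rw [h2 none (by simp)]; exact hu.2.1

lemma chi_conj_phi (ψ₀ : AddChar Fq ℂ) {u : GA Fq} (hu : u ∈ UK Fq) :
    chi ψ₀ ((phi Fq)⁻¹ * u * phi Fq) = chi ψ₀ u := by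
  rw [chi, mul_app, mul_app, inv_app, phi_P0, (phi0_conj hu.2.2).2, chi]

lemma klf_phi (ψ₀ : AddChar Fq ℂ) (g : GA Fq) : klf ψ₀ (g * phi Fq) = - klf ψ₀ g := by
  have h := klf_trans (ψ₀ := ψ₀) (a := phi Fq) (c := -1) ?_ ?_ g
  · rw [h]; ring
  · rintro g z ⟨γ, j, u, hu, rfl, rfl⟩
    refine ⟨γ, j + 1, (phi Fq)⁻¹ * u * phi Fq, (UK_conj_phi hu).1, ?_, ?_⟩
    · rw [zpow_add_one]; group
    · rw [chi_conj_phi ψ₀ hu, zpow_add_one₀ (by norm_num)]; ring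
  · rintro g z ⟨γ, j, u, hu, hg, rfl⟩
    refine ⟨_, γ, j - 1, phi Fq * u * (phi Fq)⁻¹, (UK_conj_phi hu).2, ?_, rfl⟩
    rw [← mul_inv_eq_iff_eq_mul] at hg
    rw [← mul_left_inj (phi Fq), zpow_sub_one]
    rw [mul_inv_eq_iff_eq_mul] at hg
    rw [hg]; group

lemma klf_phi_inv (ψ₀ : AddChar Fq ℂ) (g : GA Fq) : klf ψ₀ (g * (phi Fq)⁻¹) = - klf ψ₀ g := by
  have := klf_phi ψ₀ (g * (phi Fq)⁻¹)
  rw [inv_mul_cancel_right] at this
  rw [this]; ring

lemma klf_one (ψ₀ : AddChar Fq ℂ) : klf ψ₀ (1 : GA Fq) = 1 := by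
  apply klf_eq
  refine ⟨1, 0, 1, one_mem _, by simp, ?_⟩
  rw [chi_of_one _ rfl]; simp

/-- elements of the level group concentrated at infinity -/
lemma single_inf_mem_UK {k : Gv Fq none} (hk : k ∈ Iw (Valued.v (R := Kv Fq none))) :
    single Fq none k ∈ UK Fq := by
  refine ⟨mem_KA_single (Iw_le _ hk), ?_, ?_⟩
  · rw [single_same]; exact hk
  · rw [single_ne (by simp)]; exact one_mem _

lemma klf_iw (ψ₀ : AddChar Fq ℂ) (g : GA Fq) {k : Gv Fq none}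
    (hk : k ∈ Iw (Valued.v (R := Kv Fq none))) : klf ψ₀ (g * single Fq none k) = klf ψ₀ g := by
  rw [klf_UK ψ₀ (single_inf_mem_UK hk), chi_of_one _ (single_ne (by simp) _), one_mul]

lemma scal_T_mem : single Fq none (scal (Tk Fq) Tk_ne) ∈ {a : GA Fq | ∀ ψ₀ g, klf ψ₀ (g * a) = klf ψ₀ g} := by
  intro ψ₀ g
  set γ : GL (Fin 2) (RatFunc Fq) := scal RatFunc.X RatFunc.X_ne_zero with hγ
  have hγv : ∀ v, toGv Fq v γ = scal (toKv Fq v RatFunc.X)
      ((_root_.map_ne_zero _).mpr RatFunc.X_ne_zero) := by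
    intro v
    apply GL_ext <;> simp [hγ, scal, dd]
  set k : GA Fq := phi Fq * phi Fq * (diagG Fq γ)⁻¹ * single Fq none (scal (Tk Fq) Tk_ne) with hk
  have hk0 : k (some (P0 Fq)) = 1 := by
    rw [hk, mul_app, mul_app, mul_app, inv_app, phi_P0, single_ne (by simp), mul_one, diagG_apply,
      hγv, phi0_sq]
    exact mul_inv_cancel _
  have hkn : k none = 1 := by
    rw [hk, mul_app, mul_app, mul_app, inv_app, phi_ne (by simp), single_same, one_mul, one_mul,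
      diagG_apply, hγv]
    exact inv_mul_cancel _
  have hkm : k ∈ UK Fq := by
    refine ⟨fun v => ?_, by rw [hkn]; exact one_mem _, by rw [hk0]; exact one_mem _⟩
    rcases v with _ | Q
    · rw [hkn]; exact one_mem _
    · by_cases hQ : Q = P0 Fq
      · subst hQ; rw [hk0]; exact one_mem _
      · rw [hk, mul_app, mul_app, mul_app, inv_app, phi_ne (by simpa using hQ), single_ne (by simp),
          one_mul, one_mul, mul_one, diagG_apply, hγv]
        apply inv_mem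
        apply Iw_le
        apply dd_mem_Iw <;> rw [valued_toKv, placeVal_X_of_ne hQ]
  have hcen : ∀ g : GA Fq, g * diagG Fq γ = diagG Fq γ * g := by
    intro g
    apply GA_ext
    intro v
    rw [mul_app, mul_app, diagG_apply, hγv, scal_comm]
  have h6 : g * single Fq none (scal (Tk Fq) Tk_ne) =
      diagG Fq γ * (g * (phi Fq)⁻¹ * (phi Fq)⁻¹) * k := by
    rw [hk, ← hcen]
    have h7 : diagG Fq γ * (phi Fq * phi Fq * (diagG Fq γ)⁻¹ * single Fq none (scal (Tk Fq) Tk_ne)) =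
        phi Fq * phi Fq * single Fq none (scal (Tk Fq) Tk_ne) := by
      rw [← mul_assoc, ← mul_assoc, ← hcen]; group
    rw [mul_assoc _ (diagG Fq γ), h7]
    group
  rw [h6, klf_UK ψ₀ hkm, chi_of_one _ hk0, one_mul, klf_left, klf_phi_inv, klf_phi_inv, neg_neg]

lemma klf_center (ψ₀ : AddChar Fq ℂ) (g : GA Fq) (z : Kv Fq none) (hz : z ≠ 0) :
    klf ψ₀ (g * single Fq none (scal z hz)) = klf ψ₀ g := by
  obtain ⟨n, hn⟩ := exists_exp (Valued.v) hz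
  have h1 : ∀ n : ℤ, ∀ g, klf ψ₀ (g * single Fq none (scal (Tk Fq) Tk_ne) ^ n) = klf ψ₀ g := by
    intro n
    have h2 : single Fq none (scal (Tk Fq) Tk_ne) ∈ stab (rtr Fq) (klf ψ₀) := by
      rw [mem_stab]
      funext g
      exact scal_T_mem ψ₀ g
    have h3 := Subgroup.zpow_mem _ h2 n
    rw [mem_stab] at h3
    exact fun g => congrFun h3 g
  have hpow : ∀ n : ℤ, (scal (Tk Fq) Tk_ne : Gv Fq none) ^ n = scal (Tk Fq ^ n) (Tk_zpow_ne n) := by
    intro n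
    have hadd : ∀ a b : ℤ, (scal (Tk Fq ^ (a + b)) (Tk_zpow_ne (a + b)) : Gv Fq none) =
        scal (Tk Fq ^ a) (Tk_zpow_ne a) * scal (Tk Fq ^ b) (Tk_zpow_ne b) := by
      intro a b
      apply GL_ext <;> simp [mul_apply', scal, dd, zpow_add₀ (Tk_ne (Fq := Fq))]
    induction n using Int.induction_on with
    | zero => rw [zpow_zero]; apply GL_ext <;> simp [scal, dd]
    | succ n ih =>
      rw [zpow_add_one, ih, hadd]
      congr 1
      apply GL_ext <;> simp [scal, dd]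
    | pred n ih =>
      rw [zpow_sub_one, ih, mul_inv_eq_iff_eq_mul]
      have h4 := hadd (-(n : ℤ) - 1) 1
      have h5 : (scal (Tk Fq ^ (1 : ℤ)) (Tk_zpow_ne 1) : Gv Fq none) = scal (Tk Fq) Tk_ne := by
        apply GL_ext <;> simp [scal, dd]
      rw [h5] at h4
      rw [← h4]
      apply GL_ext <;> simp [scal, dd]
  have hu : z / Tk Fq ^ n ≠ 0 := div_ne_zero hz (Tk_zpow_ne n)
  have h2 : (scal z hz : Gv Fq none) = (scal (Tk Fq) Tk_ne) ^ n * scal (z / Tk Fq ^ n) hu := by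
    rw [hpow]
    have := Tk_zpow_ne (Fq := Fq) n
    apply GL_ext <;> simp [mul_apply', scal, dd] <;> field_simp
  have h3 : scal (z / Tk Fq ^ n) hu ∈ Iw (Valued.v (R := Kv Fq none)) := by
    have : Valued.v (z / Tk Fq ^ n) = 1 := by
      rw [map_div₀, hn, valued_Tk_zpow]; simp
    exact dd_mem_Iw _ _ _ this this
  rw [h2, map_mul, map_zpow, ← mul_assoc, klf_iw ψ₀ _ h3, h1]

end

end Pool.Agent.H330R2
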