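import Mathlib
import Pool.Agent.H330R2.Kloo2

/-!
# The cusp form: harmonicity, cuspidality, smoothness (helper file)
-/

namespace Pool.Agent.H330R2

open IsDedekindDomain Polynomial WithZero RestrictedProduct Topology

noncomputable section

variable {Fq : Type} [Field Fq]

lemma klf_atkin (ψ₀ : AddChar Fq ℂ) (g : GA Fq) :
    klf ψ₀ (g * single Fq none (wA (pk Fq) pk_ne)) = - klf ψ₀ g := by
  set w : GA Fq := single Fq none (wA (pk Fq) pk_ne) with hw
  have hXne := RatFunc.X_ne_zero (K := Fq)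
  set η : GL (Fin 2) (RatFunc Fq) := mk2 0 RatFunc.X 1 0 (by simpa using hXne) with hη
  have hηinf : (toGv Fq none η)⁻¹ = wA (pk Fq) pk_ne := by
    rw [inv_eq_iff_mul_eq_one]
    have h := Tk_ne (Fq := Fq)
    have e1 : toKv Fq none RatFunc.X * pk Fq = 1 := by
      rw [pk]; exact mul_inv_cancel₀ h
    have e2 : (1 : Kv Fq none) = toKv Fq none 1 := (map_one _).symm
    apply GL_ext <;> simp [mul_apply', wA, hη, e1]
  have hη0 : toGv Fq (some (P0 Fq)) η = phi0 Fq := by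
    apply GL_ext <;> simp [hη, phi0, T0]
  set k : GA Fq := (phi Fq)⁻¹ * diagG Fq η * w with hk
  have hk0 : k (some (P0 Fq)) = 1 := by
    rw [hk, mul_app, mul_app, inv_app, phi_P0, diagG_apply, hη0, hw, single_ne (by simp), mul_one,
      inv_mul_cancel]
  have hkn : k none = 1 := by
    rw [hk, mul_app, mul_app, inv_app, phi_ne (by simp), diagG_apply, hw, single_same, inv_one,
      one_mul, ← hηinf, mul_inv_cancel]
  have hkm : k ∈ UK Fq := by
    refine ⟨fun v => ?_, by rw [hkn]; exact one_mem _, by rw [hk0]; exact one_mem _⟩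
    rcases v with _ | Q
    · rw [hkn]; exact one_mem _
    · by_cases hQ : Q = P0 Fq
      · subst hQ; rw [hk0]; exact one_mem _
      · rw [hk, mul_app, mul_app, inv_app, phi_ne (by simpa using hQ), diagG_apply, hw,
          single_ne (by simp), inv_one, one_mul, mul_one, toGv_mem_iff]
        have hX := placeVal_X_of_ne hQ
        constructor
        · intro i j
          fin_cases i <;> fin_cases j <;> simp [hη, hX]
        · rw [hη, mk2_det]; simp [hX]
  have hwk : w = (diagG Fq η)⁻¹ * phi Fq * k := by rw [hk]; group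
  have hkphi : ∀ j : ℤ, k * phi Fq ^ j = phi Fq ^ j * k := by
    intro j
    rw [phi, ← map_zpow, single_comm _ hk0]
  have hwphi : ∀ j : ℤ, phi Fq ^ j * w = w * phi Fq ^ j := by
    intro j
    rw [phi, ← map_zpow, hw, single_comm_single (by simp)]
  have hconj : ∀ u ∈ UK Fq, w⁻¹ * u * w ∈ UK Fq ∧ chi ψ₀ (w⁻¹ * u * w) = chi ψ₀ u := by
    intro u hu
    have h1 : ∀ v, v ≠ none → (w⁻¹ * u * w) v = u v := by
      intro v hv
      rw [mul_app, mul_app, inv_app, hw, single_ne hv, inv_one, one_mul, mul_one]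
    have h2 : (w⁻¹ * u * w) none ∈ Iw (Valued.v (R := Kv Fq none)) := by
      rw [mul_app, mul_app, inv_app, hw, single_same]
      -- conjugation by the inverse: use `w² = scalar`
      have h3 := wA_normalizes (hϖ := pk_ne) valued_pk hu.2.1
      have h4 : (wA (pk Fq) pk_ne : Gv Fq none)⁻¹ * u none * wA (pk Fq) pk_ne =
          wA (pk Fq) pk_ne * u none * (wA (pk Fq) pk_ne)⁻¹ := by
        have h5 := wA_sq (ϖ := pk Fq) (hϖ := pk_ne)
        have h6 := scal_comm (pk Fq) pk_ne (u none)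
        rw [← h5] at h6
        calc (wA (pk Fq) pk_ne : Gv Fq none)⁻¹ * u none * wA (pk Fq) pk_ne =
            (wA (pk Fq) pk_ne : Gv Fq none)⁻¹ * (u none * (wA (pk Fq) pk_ne * wA (pk Fq) pk_ne)) *
            (wA (pk Fq) pk_ne)⁻¹ := by group
          _ = (wA (pk Fq) pk_ne : Gv Fq none)⁻¹ * (wA (pk Fq) pk_ne * wA (pk Fq) pk_ne * u none) *
            (wA (pk Fq) pk_ne)⁻¹ := by rw [h6]
          _ = wA (pk Fq) pk_ne * u none * (wA (pk Fq) pk_ne)⁻¹ := by group
      rw [h4]; exact h3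
    refine ⟨⟨fun v => ?_, h2, ?_⟩, ?_⟩
    · by_cases hv : v = none
      · subst hv; exact Iw_le _ h2
      · rw [h1 v hv]; exact hu.1 v
    · rw [h1 _ (by simp)]; exact hu.2.2
    · rw [chi, h1 _ (by simp), chi]
  have hfwd : ∀ g z, RK ψ₀ g z → RK ψ₀ (g * w) (-1 * z) := by
    rintro g z ⟨γ, j, u, hu, rfl, rfl⟩
    refine ⟨γ * η⁻¹, j + 1, k * (w⁻¹ * u * w), mul_mem hkm (hconj u hu).1, ?_, ?_⟩
    · have e1 : diagG Fq γ * phi Fq ^ j * u * w = diagG Fq γ * (phi Fq ^ j * w) * (w⁻¹ * u * w) := by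
        group
      rw [e1, hwphi j, map_mul, map_inv]
      have e2 : diagG Fq γ * ((diagG Fq η)⁻¹ * phi Fq * k * phi Fq ^ j) =
          diagG Fq γ * (diagG Fq η)⁻¹ * phi Fq ^ (j + 1) * k := by
        rw [mul_assoc _ k, hkphi, zpow_add_one]
        have : phi Fq ^ j * phi Fq = phi Fq * phi Fq ^ j := by group
        rw [this]
        simp only [mul_assoc]
      have e3 : w * phi Fq ^ j = (diagG Fq η)⁻¹ * phi Fq * k * phi Fq ^ j :=
        congrArg (fun x => x * phi Fq ^ j) hwk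
      rw [e3, e2]
      simp only [mul_assoc]
    · rw [chi_mul ψ₀ hkm (hconj u hu).1, chi_of_one _ hk0, (hconj u hu).2,
        zpow_add_one₀ (by norm_num)]
      ring
  have := klf_trans (ψ₀ := ψ₀) (a := w) (c := -1) hfwd (by
    intro g z hz
    have h1 := hfwd _ z hz
    have h2 := klf_eq h1
    have h3 : g * w * w = g * single Fq none (scal (pk Fq) pk_ne) := by
      rw [mul_assoc, hw, ← map_mul, wA_sq]
    rw [h3, klf_center] at h2
    apply klf_ne_zero
    rw [h2]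
    exact RK_ne_zero h1) g
  rw [this]; ring

section

variable [Fintype Fq]

theorem klf_harm {ψ₀ : AddChar Fq ℂ} (hψ : ψ₀ 1 ≠ 1) (g : GA Fq) :
    ∑ t : Option (Dinf Fq), klf ψ₀ (g * single Fq none (rep (Dinf Fq) t)) = 0 := by
  set Φ : GA Fq → ℂ := fun g => ∑ t : Option (Dinf Fq), klf ψ₀ (g * single Fq none (rep (Dinf Fq) t))
    with hΦ
  have hK : ∀ g, ∀ k ∈ GLO Fq none, Φ (g * single Fq none k) = Φ g := by
    intro g k hk
    simp only [hΦ]
    have : ∀ t : Option (Dinf Fq), g * single Fq none k * single Fq none (rep (Dinf Fq) t) =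
        g * single Fq none (k * rep (Dinf Fq) t) := by
      intro t; rw [mul_assoc, ← map_mul]
    simp_rw [this]
    exact sum_rep_mul isDigits_inf (fun h => klf ψ₀ (g * single Fq none h)) (by
      intro h i hi
      rw [map_mul, ← mul_assoc, klf_iw ψ₀ _ hi]) hk
  have hcom : ∀ (g a : GA Fq), a none = 1 → ∀ t : Option (Dinf Fq),
      g * a * single Fq none (rep (Dinf Fq) t) = g * single Fq none (rep (Dinf Fq) t) * a := by
    intro g a ha t
    rw [mul_assoc, ← single_comm _ ha, mul_assoc]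
  have hU : ∀ g, ∀ u ∈ UK Fq, u none = 1 → Φ (g * u) = chi ψ₀ u * Φ g := by
    intro g u hu hu1
    simp only [hΦ]
    simp_rw [hcom g u hu1, klf_UK ψ₀ hu]
    rw [Finset.mul_sum]
  have hphi : ∀ g, Φ (g * phi Fq) = - Φ g := by
    intro g
    simp only [hΦ]
    simp_rw [hcom g (phi Fq) (phi_ne (by simp)), klf_phi]
    rw [Finset.sum_neg_distrib]
  have hleft : ∀ γ g, Φ (diagG Fq γ * g) = Φ g := by
    intro γ g
    simp only [hΦ]
    simp_rw [mul_assoc, klf_left]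
  -- the value at one
  have h1 : Φ 1 = 0 := by
    set ν : GL (Fin 2) (RatFunc Fq) := nl 1 with hν
    have hνv : ∀ v, toGv Fq v ν = nl 1 := by
      intro v
      apply GL_ext <;> simp [hν, nl]
    have hfin : FinInt ν := by
      intro P
      rw [hνv]
      exact nl_mem _ (by simp)
    have hfp : finPart ν ∈ UK Fq := by
      refine ⟨(finPart_mem hfin).1, by rw [finPart_none]; exact one_mem _, ?_⟩
      rw [finPart_some, hνv]
      simp [mem_I1, nl]
    have hchi : chi ψ₀ (finPart ν) = ψ₀ 1 := by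
      rw [chi, finPart_some, hνv, ell]
      have e1 : (nl 1 : Gv Fq (some (P0 Fq))) 1 0 = cst0 1 := by rw [cst0_one]; rfl
      have e2 : (nl 1 : Gv Fq (some (P0 Fq))) 0 1 = 0 := rfl
      rw [e1, e2, zero_div, res0_cst, res0_zero, add_zero]
    have e : diagG Fq ν = 1 * finPart ν * single Fq none (toGv Fq none ν) := by
      rw [one_mul, ← single_comm _ (finPart_none ν), finPart, mul_inv_cancel_left]
    have h2 : Φ (diagG Fq ν * 1) = Φ 1 := hleft ν 1
    rw [mul_one, e, hK _ _ (by rw [hνv]; exact nl_mem _ (by simp)), hU _ _ hfp (finPart_none ν),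
      hchi] at h2
    have h3 : (ψ₀ 1 - 1) * Φ 1 = 0 := by linear_combination h2
    rcases mul_eq_zero.mp h3 with h4 | h4
    · exact absurd (sub_eq_zero.mp h4) hψ
    · exact h4
  have hz : ∀ j : ℤ, Φ (phi Fq ^ j) = 0 := by
    intro j
    induction j using Int.induction_on with
    | zero => rw [zpow_zero]; exact h1
    | succ n ih => rw [zpow_add_one, hphi, ih, neg_zero]
    | pred n ih =>
      have h5 := hphi (phi Fq ^ (-(n : ℤ) - 1))
      rw [← zpow_add_one, sub_add_cancel, ih] at h5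
      exact neg_eq_zero.mp h5.symm
  change Φ g = 0
  by_contra hne
  obtain ⟨t, -, ht⟩ := Finset.exists_ne_zero_of_sum_ne_zero hne
  obtain ⟨z, γ, j, u, hu, hg, -⟩ := klf_ne_zero ht
  -- split `u`
  obtain ⟨u', hu'm, hu'⟩ := KA_split hu.1
  have hu'K : u' ∈ UK Fq := by
    refine ⟨hu'm.1, ?_, ?_⟩
    · have : u' none = 1 := hu'm.2
      rw [this]; exact one_mem _
    · have : u' (some (P0 Fq)) = u (some (P0 Fq)) := by
        conv_rhs => rw [hu']
        rw [mul_app, single_ne (by simp), mul_one]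
      rw [this]; exact hu.2.2
  apply hne
  have h6 : Φ (g * single Fq none (rep (Dinf Fq) t)) = Φ g := hK _ _ (rep_mem isDigits_inf t)
  change Φ g = 0
  rw [← h6, hg, hu', ← mul_assoc, hK _ _ (Iw_le _ hu.2.1), hU _ _ hu'K hu'm.2, hleft, hz, mul_zero]

theorem hFun_klf {ψ₀ : AddChar Fq ℂ} (hψ : ψ₀ 1 ≠ 1) : HFun (klf ψ₀) 0 where
  left := klf_left ψ₀
  iw g _ hu := klf_iw ψ₀ g hu
  center g z hz := klf_center ψ₀ g z hz
  atkin g := klf_atkin ψ₀ g
  harm g := klf_harm hψ g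

end

/-! ### smoothness -/

lemma isOpen_lt_one {F : Type} [Field F] [Valued F ℤᵐ⁰] : IsOpen {x : F | Valued.v x < 1} := by
  have := Valued.isOpen_ball F (1 : MonoidWithZeroHom.ValueGroup₀ (.ofClass (Valued.v (R := F))))
  simpa using this

lemma isOpen_le_one {F : Type} [Field F] [Valued F ℤᵐ⁰] : IsOpen {x : F | Valued.v x ≤ 1} :=
  Valued.isOpen_integer F

lemma isOpen_Iw {F : Type} [Field F] [Valued F ℤᵐ⁰] :
    IsOpen (Iw (Valued.v (R := F)) : Set (GL (Fin 2) F)) := by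
  have : (Iw (Valued.v (R := F)) : Set (GL (Fin 2) F)) =
      (GLint (Valued.v (R := F)) : Set (GL (Fin 2) F)) ∩ {g | Valued.v (g 1 0) < 1} := rfl
  rw [this]
  exact isOpen_GLint.inter (isOpen_lt_one.preimage (continuous_entry 1 0))

lemma isOpen_I1 {F : Type} [Field F] [Valued F ℤᵐ⁰] :
    IsOpen (I1 (Valued.v (R := F)) : Set (GL (Fin 2) F)) := by
  have : (I1 (Valued.v (R := F)) : Set (GL (Fin 2) F)) =
      {g | Valued.v (g 0 0 - 1) < 1} ∩ ({g | Valued.v (g 1 1 - 1) < 1} ∩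
      ({g | Valued.v (g 0 1) < 1} ∩ {g | Valued.v (g 1 0) ≤ 1})) := rfl
  rw [this]
  refine (isOpen_lt_one.preimage ((continuous_entry 0 0).sub continuous_const)).inter
    ((isOpen_lt_one.preimage ((continuous_entry 1 1).sub continuous_const)).inter
    ((isOpen_lt_one.preimage (continuous_entry 0 1)).inter
    (isOpen_le_one.preimage (continuous_entry 1 0))))

lemma continuous_eval' (v : Place Fq) : Continuous fun g : GA Fq => g v :=
  RestrictedProduct.continuous_eval v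

lemma isOpen_UK : IsOpen (UK Fq : Set (GA Fq)) := by
  have : (UK Fq : Set (GA Fq)) = (KA Fq : Set (GA Fq)) ∩
      ({g | g none ∈ Iw (Valued.v (R := Kv Fq none))} ∩
      {g | g (some (P0 Fq)) ∈ I1 (Valued.v (R := Kv Fq (some (P0 Fq))))}) := rfl
  rw [this]
  exact isOpen_KA.inter ((isOpen_Iw.preimage (continuous_eval' none)).inter
    (isOpen_I1.preimage (continuous_eval' _)))

lemma smoothVec_klf (ψ₀ : AddChar Fq ℂ) :
    ∃ U : Subgroup (GA Fq), IsOpen (U : Set (GA Fq)) ∧ ∀ u ∈ U, rtr Fq u (klf ψ₀) = klf ψ₀ := by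
  refine ⟨stab (rtr Fq) (klf ψ₀), ?_, fun u hu => hu⟩
  apply Subgroup.isOpen_of_mem_nhds (g := 1)
  have h1 : (UK Fq : Set (GA Fq)) ∩ ({g | Valued.v (g (some (P0 Fq)) 1 0) < 1} ∩
      {g | Valued.v (g (some (P0 Fq)) 0 1 / T0 Fq) < 1}) ∈ 𝓝 (1 : GA Fq) := by
    have hc1 : Continuous fun g : GA Fq => g (some (P0 Fq)) 1 0 :=
      (continuous_entry 1 0).comp (continuous_eval' _)
    have hc2 : Continuous fun g : GA Fq => g (some (P0 Fq)) 0 1 / T0 Fq :=
      ((continuous_entry 0 1).comp (continuous_eval' _)).div_const _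
    apply (isOpen_UK.inter ((isOpen_lt_one.preimage hc1).inter (isOpen_lt_one.preimage hc2))).mem_nhds
    refine ⟨one_mem _, ?_, ?_⟩
    · change Valued.v ((1 : GA Fq) (some (P0 Fq)) 1 0) < 1
      rw [one_app]; simp
    · change Valued.v ((1 : GA Fq) (some (P0 Fq)) 0 1 / T0 Fq) < 1
      rw [one_app]; simp
  refine Filter.mem_of_superset h1 ?_
  rintro u ⟨hu, h2, h3⟩
  change rtr Fq u (klf ψ₀) = klf ψ₀
  funext g
  change klf ψ₀ (g * u) = klf ψ₀ g
  rw [klf_UK ψ₀ hu, chi, ell, res0_of_lt h2, res0_of_lt h3, add_zero, AddChar.map_zero_eq_one, one_mul]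

/-! ### cuspidality -/

/-- the adele `x` at `v`, zero elsewhere -/
def singleA (v : Place Fq) (x : Kv Fq v) : AK Fq :=
  open Classical in RestrictedProduct.single (Ov Fq) v x

lemma singleA_same (v : Place Fq) (x : Kv Fq v) : (singleA v x) v = x := by
  classical
  exact Pi.single_eq_same v x

lemma singleA_ne {v w : Place Fq} (h : w ≠ v) (x : Kv Fq v) : (singleA v x) w = 0 := by
  classical
  exact Pi.single_eq_of_ne h x

lemma uniA_add (x y : AK Fq) : uniA Fq (x + y) = uniA Fq x * uniA Fq y := by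
  apply GA_ext
  intro v
  rw [mul_app]
  change nn ((x + y) v) = nn (x v) * nn (y v)
  have : (x + y) v = x v + y v := rfl
  rw [this]
  apply GL_ext <;> simp [mul_apply', nn, add_comm]

lemma uniA_single (v : Place Fq) (x : Kv Fq v) : uniA Fq (singleA v x) = single Fq v (nn x) := by
  apply GA_ext
  intro w
  change nn ((singleA v x) w) = _
  by_cases h : w = v
  · subst h
    rw [singleA_same, single_same]
  · rw [singleA_ne h, single_ne h]
    apply GL_ext <;> simp [nn]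

lemma single_P0_mem_UK {k : Gv Fq (some (P0 Fq))}
    (hk : k ∈ I1 (Valued.v (R := Kv Fq (some (P0 Fq))))) : single Fq (some (P0 Fq)) k ∈ UK Fq := by
  refine ⟨mem_KA_single (I1_le _ hk), ?_, ?_⟩
  · rw [single_ne (by simp)]; exact one_mem _
  · rw [single_same]; exact hk

/-- **The twisted invariance which implies cuspidality.** -/
theorem exists_twist {ψ₀ : AddChar Fq ℂ} (hψ : ψ₀ 1 ≠ 1) (g : GA Fq) :
    ∃ x₀ : AK Fq, ∃ c : ℂ, c ≠ 1 ∧ ∀ x : AK Fq,
      klf ψ₀ (uniA Fq (x + x₀) * g) = c * klf ψ₀ (uniA Fq x * g) := by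
  set g₀ := g (some (P0 Fq)) with hg₀
  have hT := T0_ne (Fq := Fq)
  have hdet : (g₀ : Matrix (Fin 2) (Fin 2) (Kv Fq (some (P0 Fq)))).det ≠ 0 := det_ne' g₀
  -- it suffices to find `y`
  have suff : ∀ y : Kv Fq (some (P0 Fq)), Valued.v (y * (g₀ 1 0 * g₀ 1 1)) < 1 →
      Valued.v (y * g₀ 1 1 ^ 2) < 1 → Valued.v (y * g₀ 1 0 ^ 2) ≤ 1 →
      ψ₀ (res0 (-(y * g₀ 1 0 ^ 2)) + res0 (y * g₀ 1 1 ^ 2 / T0 Fq)) ≠ 1 →
      ∃ x₀ : AK Fq, ∃ c : ℂ, c ≠ 1 ∧ ∀ x : AK Fq,
      klf ψ₀ (uniA Fq (x + x₀) * g) = c * klf ψ₀ (uniA Fq x * g) := by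
    intro y h1 h2 h3 h4
    set u₀ : Gv Fq (some (P0 Fq)) := g₀⁻¹ *
      nn (y * (g₀ : Matrix (Fin 2) (Fin 2) (Kv Fq (some (P0 Fq)))).det) * g₀ with hu₀
    have e00 : u₀ 0 0 = 1 + y * (g₀ 1 0 * g₀ 1 1) := by
      rw [hu₀, mul_apply', mul_apply', mul_apply', inv_00, inv_01]
      simp only [nn, mk2_00, mk2_01, mk2_10, mk2_11]
      rw [det_eq] at hdet ⊢
      field_simp
      ring
    have e01 : u₀ 0 1 = y * g₀ 1 1 ^ 2 := by
      rw [hu₀, mul_apply', mul_apply', mul_apply', inv_00, inv_01]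
      simp only [nn, mk2_00, mk2_01, mk2_10, mk2_11]
      rw [det_eq] at hdet ⊢
      field_simp
      ring
    have e10 : u₀ 1 0 = -(y * g₀ 1 0 ^ 2) := by
      rw [hu₀, mul_apply', mul_apply', mul_apply', inv_10, inv_11]
      simp only [nn, mk2_00, mk2_01, mk2_10, mk2_11]
      rw [det_eq] at hdet ⊢
      field_simp
      ring
    have e11 : u₀ 1 1 = 1 - y * (g₀ 1 0 * g₀ 1 1) := by
      rw [hu₀, mul_apply', mul_apply', mul_apply', inv_10, inv_11]
      simp only [nn, mk2_00, mk2_01, mk2_10, mk2_11]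
      rw [det_eq] at hdet ⊢
      field_simp
      ring
    have hu₀m : u₀ ∈ I1 (Valued.v (R := Kv Fq (some (P0 Fq)))) := by
      rw [mem_I1, e00, e01, e10, e11]
      refine ⟨by simpa using h1, ?_, h2, ?_⟩
      · have : (1 - y * (g₀ 1 0 * g₀ 1 1)) - 1 = -(y * (g₀ 1 0 * g₀ 1 1)) := by ring
        rw [this, Valuation.map_neg]; exact h1
      · rw [Valuation.map_neg]; exact h3
    refine ⟨singleA _ (y * (g₀ : Matrix (Fin 2) (Fin 2) (Kv Fq (some (P0 Fq)))).det),
      chi ψ₀ (single Fq (some (P0 Fq)) u₀), ?_, fun x => ?_⟩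
    · rw [chi, single_same, ell, e10, e01]; exact h4
    · rw [← klf_UK ψ₀ (single_P0_mem_UK hu₀m), uniA_add, uniA_single]
      congr 1
      rw [mul_assoc, mul_assoc]
      congr 1
      apply GA_ext
      intro v
      rw [mul_app, mul_app]
      by_cases hv : v = some (P0 Fq)
      · subst hv
        rw [single_same, single_same, hu₀, ← hg₀]
        group
      · rw [single_ne hv, single_ne hv, one_mul, mul_one]
  have hψ' : ψ₀ (-1) ≠ 1 := by
    intro h
    apply hψ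
    have := AddChar.map_neg_eq_inv ψ₀ 1
    rw [h] at this
    have h2 : ψ₀ 1 = (1 : ℂ)⁻¹ := by rw [this, inv_inv]
    rw [h2, inv_one]
  rcases lt_or_ge (Valued.v (g₀ 1 1)) (Valued.v (g₀ 1 0)) with hlt | hge
  · -- `v(c) < v(d)` additively: take `y = 1 / c²`
    have hc0 : g₀ 1 0 ≠ 0 := by
      intro h0; rw [h0, map_zero] at hlt; exact not_lt_zero hlt
    have hv0 : Valued.v (g₀ 1 0) ≠ 0 := (Valuation.ne_zero_iff _).mpr hc0
    have hr : Valued.v (g₀ 1 1 / g₀ 1 0) < 1 := by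
      rw [map_div₀]; exact (div_lt_one₀ (zero_lt_iff.mpr hv0)).mpr hlt
    have hr2 : Valued.v ((g₀ 1 1 / g₀ 1 0) ^ 2 / T0 Fq) < 1 := by
      have : (g₀ 1 1 / g₀ 1 0) ^ 2 / T0 Fq = (g₀ 1 1 / g₀ 1 0) * ((g₀ 1 1 / g₀ 1 0) / T0 Fq) := by
        ring
      rw [this, map_mul]
      exact mul_lt_one_of_lt_of_le hr (div_T0_le hr)
    apply suff (1 / g₀ 1 0 ^ 2)
    · have : 1 / g₀ 1 0 ^ 2 * (g₀ 1 0 * g₀ 1 1) = g₀ 1 1 / g₀ 1 0 := by field_simp
      rw [this]; exact hr
    · have : 1 / g₀ 1 0 ^ 2 * g₀ 1 1 ^ 2 = (g₀ 1 1 / g₀ 1 0) * (g₀ 1 1 / g₀ 1 0) := by field_simp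
      rw [this, map_mul]
      exact mul_lt_one_of_lt_of_le hr hr.le
    · have : 1 / g₀ 1 0 ^ 2 * g₀ 1 0 ^ 2 = 1 := by field_simp
      rw [this]; simp
    · have e1 : 1 / g₀ 1 0 ^ 2 * g₀ 1 0 ^ 2 = 1 := by field_simp
      have e2 : 1 / g₀ 1 0 ^ 2 * g₀ 1 1 ^ 2 / T0 Fq = (g₀ 1 1 / g₀ 1 0) ^ 2 / T0 Fq := by
        field_simp
      have e3 : (-1 : Kv Fq (some (P0 Fq))) = cst0 (-1) := by simp [cst0]
      rw [e1, e2, e3, res0_cst, res0_of_lt hr2, add_zero]
      exact hψ'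
  · -- `v(d) ≤ v(c)`: take `y = T / d²`
    have hd0 : g₀ 1 1 ≠ 0 := by
      intro h0
      rw [h0, map_zero, le_zero_iff, Valuation.zero_iff] at hge
      apply det_ne g₀
      rw [h0, hge]; ring
    have hv0 : Valued.v (g₀ 1 1) ≠ 0 := (Valuation.ne_zero_iff _).mpr hd0
    have hr : Valued.v (g₀ 1 0 / g₀ 1 1) ≤ 1 := by
      rw [map_div₀]; exact (div_le_one₀ (zero_lt_iff.mpr hv0)).mpr hge
    have hT1 : Valued.v (T0 Fq) < 1 := ϖ_lt_one valued_T0
    apply suff (T0 Fq / g₀ 1 1 ^ 2)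
    · have : T0 Fq / g₀ 1 1 ^ 2 * (g₀ 1 0 * g₀ 1 1) = T0 Fq * (g₀ 1 0 / g₀ 1 1) := by field_simp
      rw [this, map_mul]; exact mul_lt_one_of_lt_of_le hT1 hr
    · have : T0 Fq / g₀ 1 1 ^ 2 * g₀ 1 1 ^ 2 = T0 Fq := by field_simp
      rw [this]; exact hT1
    · have : T0 Fq / g₀ 1 1 ^ 2 * g₀ 1 0 ^ 2 = T0 Fq * ((g₀ 1 0 / g₀ 1 1) * (g₀ 1 0 / g₀ 1 1)) := by
        field_simp
      rw [this, map_mul, map_mul]
      exact (mul_lt_one_of_lt_of_le hT1 (mul_le_one' hr hr)).le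
    · have e1 : -(T0 Fq / g₀ 1 1 ^ 2 * g₀ 1 0 ^ 2) =
          -(T0 Fq * ((g₀ 1 0 / g₀ 1 1) * (g₀ 1 0 / g₀ 1 1))) := by
        field_simp
      have e2 : T0 Fq / g₀ 1 1 ^ 2 * g₀ 1 1 ^ 2 / T0 Fq = cst0 1 := by
        rw [cst0_one]; field_simp
      have e3 : res0 (-(T0 Fq * ((g₀ 1 0 / g₀ 1 1) * (g₀ 1 0 / g₀ 1 1)))) = 0 := by
        apply res0_of_lt
        rw [Valuation.map_neg, map_mul, map_mul]
        exact mul_lt_one_of_lt_of_le hT1 (mul_le_one' hr hr)
      rw [e1, e2, e3, res0_cst, zero_add]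
      exact hψ

end

end Pool.Agent.H330R2
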