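import Mathlib
import Pool.Agent.H330R2.Kloo3

/-!
# Cuspidality (helper file)
-/

namespace Pool.Agent.H330R2

open IsDedekindDomain Polynomial WithZero RestrictedProduct Topology

noncomputable section

variable {Fq : Type} [Field Fq]

lemma addA_app (x y : AK Fq) (v : Place Fq) : (x + y) v = x v + y v := rfl
lemma subA_app (x y : AK Fq) (v : Place Fq) : (x - y) v = x v - y v := rfl
lemma negA_app (x : AK Fq) (v : Place Fq) : (-x) v = -(x v) := rfl
lemma diagA_apply (a : RatFunc Fq) (v : Place Fq) : diagA Fq a v = toKv Fq v a := rfl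

lemma AK_ext {x y : AK Fq} (H : ∀ v, x v = y v) : x = y := RestrictedProduct.ext _ _ H

variable (Fq) in
/-- integral adeles -/
def OA : AddSubgroup (AK Fq) where
  carrier := {x | ∀ v, x v ∈ Ov Fq v}
  zero_mem' := fun v => (Ov Fq v).zero_mem
  add_mem' := fun ha hb v => (Ov Fq v).add_mem (ha v) (hb v)
  neg_mem' := fun ha v => (Ov Fq v).neg_mem (ha v)

lemma isOpen_OA : IsOpen (OA Fq : Set (AK Fq)) :=
  RestrictedProduct.isOpen_forall_mem (fun _ => Valued.isOpen_integer _)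

lemma isCompact_OA [Fintype Fq] : IsCompact (OA Fq : Set (AK Fq)) := by
  have : ∀ v : Place Fq, CompactSpace (Ov Fq v) := fun v => by
    obtain ⟨π, hπ⟩ := exists_unif v
    obtain ⟨D, hD⟩ := exists_digits v
    have hπ' : Valued.v (toKv Fq v π) = exp (-1 : ℤ) := by rw [valued_toKv, hπ]
    exact isCompact_iff_compactSpace.mp (isCompact_integer hπ' hD)
  have h1 : (OA Fq : Set (AK Fq)) = Set.range (structureMap (fun v => Kv Fq v)
      (fun v => (Ov Fq v : Set (Kv Fq v))) Filter.cofinite) := by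
    rw [range_structureMap]
    rfl
  rw [h1]
  apply isCompact_range
  exact isEmbedding_structureMap.continuous

/-- `A_K = K + O_A` -/
theorem exists_int (x : AK Fq) : ∃ a : RatFunc Fq, x - diagA Fq a ∈ OA Fq := by
  -- the finite places
  have key : ∀ S : Finset (HeightOneSpectrum Fq[X]), ∀ x : AK Fq,
      (∀ P, P ∉ S → Valued.v (x (some P)) ≤ 1) →
      ∃ a : RatFunc Fq, ∀ P, Valued.v ((x - diagA Fq a) (some P)) ≤ 1 := by
    classical
    intro S
    induction S using Finset.induction_on with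
    | empty =>
      intro x hx
      refine ⟨0, fun P => ?_⟩
      rw [map_zero, sub_zero]; exact hx P (by simp)
    | insert P S hP ih =>
      intro x hx
      obtain ⟨a, ha1, ha2⟩ := exists_approx_fin P (x (some P)) 0
      rw [neg_zero] at ha1
      obtain ⟨b, hb⟩ := ih (x - diagA Fq a) (by
        intro Q hQ
        rw [subA_app, diagA_apply]
        by_cases hQP : Q = P
        · subst hQP; exact ha1
        · refine (Valuation.map_sub _ _ _).trans (max_le (hx Q (by simp [hQP, hQ])) ?_)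
          rw [valued_toKv]; exact ha2 Q hQP)
      refine ⟨a + b, fun Q => ?_⟩
      have := hb Q
      rw [subA_app, subA_app] at this
      rw [subA_app, map_add, addA_app, ← sub_sub]
      exact this
  have hfin : {v : Place Fq | ¬ x v ∈ Ov Fq v}.Finite := x.2
  have hfin2 : {P : HeightOneSpectrum Fq[X] | ¬ x (some P) ∈ Ov Fq (some P)}.Finite := by
    refine (hfin.preimage (f := some) ((Option.some_injective _).injOn)).subset ?_
    intro P hP
    exact hP
  obtain ⟨a, ha⟩ := key hfin2.toFinset x (fun P hP => by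
    by_contra hcon
    exact hP (by simpa [Valuation.mem_integer_iff] using hcon))
  -- the infinite place
  obtain ⟨b, hb⟩ := exists_approx_lt none ((x - diagA Fq a) none)
  obtain ⟨Q, hQ⟩ := exists_poly_approx b
  refine ⟨a + algebraMap Fq[X] (RatFunc Fq) Q, fun v => ?_⟩
  change Valued.v ((x - diagA Fq (a + algebraMap Fq[X] (RatFunc Fq) Q)) v) ≤ 1
  rw [subA_app, map_add, addA_app, ← sub_sub]
  cases v with
  | none =>
    rw [subA_app] at hb
    have : x none - diagA Fq a none - diagA Fq (algebraMap Fq[X] (RatFunc Fq) Q) none =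
        (x none - diagA Fq a none - toKv Fq none b) + toKv Fq none (b - algebraMap Fq[X] (RatFunc Fq) Q) := by
      rw [diagA_apply _ none, diagA_apply _ none, map_sub]; ring
    rw [this]
    refine (Valuation.map_add _ _ _).trans (max_le hb.le ?_)
    rw [valued_toKv]; exact hQ.le
  | some P =>
    refine (Valuation.map_sub _ _ _).trans (max_le (ha P) ?_)
    rw [diagA_apply, valued_toKv]
    exact placeVal_some_poly P Q

/-- **Finiteness of `A_K / (K + 𝔲)`.** -/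
theorem finite_quotA [Fintype Fq] (𝔲 : AddSubgroup (AK Fq)) (h𝔲 : IsOpen (𝔲 : Set (AK Fq))) :
    Finite (AK Fq ⧸ ((diagA Fq).toAddMonoidHom.range ⊔ 𝔲)) := by
  have hcomp : CompactSpace (OA Fq) := isCompact_iff_compactSpace.mp isCompact_OA
  have hfact : Fact (∀ v : Place Fq, IsOpen (Ov Fq v : Set (Kv Fq v))) :=
    ⟨fun v => Valued.isOpen_integer _⟩
  have h1 : IsOpen ((𝔲.addSubgroupOf (OA Fq) : AddSubgroup (OA Fq)) : Set (OA Fq)) :=
    h𝔲.preimage continuous_subtype_val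
  have h2 : Finite (OA Fq ⧸ 𝔲.addSubgroupOf (OA Fq)) := AddSubgroup.quotient_finite_of_isOpen _ h1
  let f : (OA Fq ⧸ 𝔲.addSubgroupOf (OA Fq)) →
      (AK Fq ⧸ ((diagA Fq).toAddMonoidHom.range ⊔ 𝔲)) :=
    QuotientAddGroup.map _ _ (OA Fq).subtype (fun x hx => by
      exact AddSubgroup.mem_sup_right hx)
  refine Finite.of_surjective f ?_
  intro q
  obtain ⟨x, rfl⟩ := QuotientAddGroup.mk_surjective q
  obtain ⟨a, ha⟩ := exists_int x
  refine ⟨QuotientAddGroup.mk ⟨_, ha⟩, ?_⟩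
  change (QuotientAddGroup.mk (x - diagA Fq a) : AK Fq ⧸ _) = QuotientAddGroup.mk x
  rw [QuotientAddGroup.eq]
  apply AddSubgroup.mem_sup_left
  refine ⟨a, ?_⟩
  change diagA Fq a = -(x - diagA Fq a) + x
  abel

/-! ### sums over quotients -/

section Sums

variable {A : Type} [AddCommGroup A]

lemma inv_out {H : AddSubgroup A} {F : A → ℂ} (hF : ∀ x, ∀ h ∈ H, F (x + h) = F x) (x : A) :
    F ((QuotientAddGroup.mk x : A ⧸ H).out) = F x := by
  have h1 : -x + (QuotientAddGroup.mk x : A ⧸ H).out ∈ H := by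
    rw [← QuotientAddGroup.eq, QuotientAddGroup.out_eq']
  have h2 : (QuotientAddGroup.mk x : A ⧸ H).out = x + (-x + (QuotientAddGroup.mk x : A ⧸ H).out) := by
    abel
  rw [h2, hF _ _ h1]

/-- twisted invariance implies vanishing of the sum -/
lemma sum_twist {H : AddSubgroup A} [Fintype (A ⧸ H)] {F : A → ℂ}
    (hF : ∀ x, ∀ h ∈ H, F (x + h) = F x) {x₀ : A} {c : ℂ} (hc : c ≠ 1)
    (ht : ∀ x, F (x + x₀) = c * F x) : ∑ q : A ⧸ H, F q.out = 0 := by
  have h1 : ∑ q : A ⧸ H, F q.out = c * ∑ q : A ⧸ H, F q.out := by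
    rw [Finset.mul_sum]
    rw [← Fintype.sum_equiv (Equiv.addRight (QuotientAddGroup.mk x₀ : A ⧸ H))
      (fun q => F ((q + QuotientAddGroup.mk x₀ : A ⧸ H).out)) (fun q => F q.out) (fun q => rfl)]
    refine Finset.sum_congr rfl fun q _ => ?_
    rw [← ht]
    have : (q + QuotientAddGroup.mk x₀ : A ⧸ H) = QuotientAddGroup.mk (q.out + x₀) := by
      conv_lhs => rw [← QuotientAddGroup.out_eq' q]
      rfl
    rw [this, inv_out hF]
  have h2 : (c - 1) * ∑ q : A ⧸ H, F q.out = 0 := by linear_combination -h1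
  rcases mul_eq_zero.mp h2 with h | h
  · exact absurd (sub_eq_zero.mp h) hc
  · exact h

/-- change of level -/
lemma sum_level {H H' : AddSubgroup A} (hle : H' ≤ H) [Fintype (A ⧸ H)] [Fintype (A ⧸ H')] {F : A → ℂ}
    (hF : ∀ x, ∀ h ∈ H, F (x + h) = F x) (h0 : ∑ q : A ⧸ H', F q.out = 0) :
    ∑ q : A ⧸ H, F q.out = 0 := by
  classical
  let f : A ⧸ H' →+ A ⧸ H := QuotientAddGroup.map H' H (AddMonoidHom.id A) hle
  have hf : ∀ x : A, f (QuotientAddGroup.mk x) = QuotientAddGroup.mk x := fun x => rfl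
  have hsurj : Function.Surjective f := by
    intro q
    obtain ⟨x, rfl⟩ := QuotientAddGroup.mk_surjective q
    exact ⟨QuotientAddGroup.mk x, rfl⟩
  have h1 : ∀ q : A ⧸ H', F q.out = F (f q).out := by
    intro q
    have : f q = QuotientAddGroup.mk q.out := by
      conv_lhs => rw [← QuotientAddGroup.out_eq' q]
      rfl
    rw [this, inv_out hF]
  have hcard : ∀ x y : A ⧸ H, (Finset.univ.filter fun g => f g = x).card =
      (Finset.univ.filter fun g => f g = y).card := by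
    intro x y
    exact AddMonoidHom.card_fiber_eq_of_mem_range f (hsurj x) (hsurj y)
  have h2 : ∑ q : A ⧸ H', F q.out =
      ((Finset.univ.filter fun g => f g = 0).card : ℂ) * ∑ q : A ⧸ H, F q.out := by
    simp_rw [h1]
    rw [← Finset.sum_fiberwise (s := Finset.univ) (g := f) (f := fun q => F (f q).out), Finset.mul_sum]
    refine Finset.sum_congr rfl fun q _ => ?_
    rw [Finset.sum_congr rfl (g := fun _ => F q.out) (fun g hg => by
      rw [(Finset.mem_filter.mp hg).2]), Finset.sum_const, hcard q 0, nsmul_eq_mul]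
  rw [h2] at h0
  rcases mul_eq_zero.mp h0 with h | h
  · exfalso
    have h3 : (Finset.univ.filter fun g => f g = 0).card ≠ 0 := by
      apply Finset.card_ne_zero_of_mem (a := 0)
      simp
    exact h3 (by exact_mod_cast h)
  · exact h

end Sums

/-! ### the cusp form -/

lemma continuous_uniA : Continuous (uniA Fq) := by
  have h1 : (uniA Fq) = fun x : AK Fq => RestrictedProduct.map (fun v => (nn : Kv Fq v → Gv Fq v))
      (Filter.Eventually.of_forall fun v => fun x hx => nn_mem _ hx) x := by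
    funext x
    rfl
  rw [h1]
  exact RestrictedProduct.mapAlong_continuous _ _ _ _ _ _ (fun v => continuous_nn)

lemma uniA_diag (a : RatFunc Fq) : uniA Fq (diagA Fq a) = diagG Fq (nn a) := by
  apply GA_ext
  intro v
  rw [diagG_apply, toGv_nn]
  rfl

lemma uniA_left {f : GA Fq → ℂ} (hf : ∀ γ g, f (diagG Fq γ * g) = f g) (x : AK Fq) (a : RatFunc Fq)
    (g : GA Fq) : f (uniA Fq (x + diagA Fq a) * g) = f (uniA Fq x * g) := by
  rw [add_comm, uniA_add, uniA_diag, mul_assoc, hf]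

lemma uniA_zero : uniA Fq 0 = 1 := by
  apply GA_ext
  intro v
  change nn 0 = (1 : Gv Fq v)
  apply GL_ext <;> simp [nn]

/-- smoothness along the unipotent radical -/
lemma exists_open_inv {f : GA Fq → ℂ} {U : Subgroup (GA Fq)} (hU : IsOpen (U : Set (GA Fq)))
    (h : ∀ g, ∀ u ∈ U, f (g * u) = f g) (g : GA Fq) :
    ∃ 𝔲 : AddSubgroup (AK Fq), IsOpen (𝔲 : Set (AK Fq)) ∧
      ∀ x, ∀ u ∈ 𝔲, f (uniA Fq (x + u) * g) = f (uniA Fq x * g) := by
  let 𝔲 : AddSubgroup (AK Fq) :=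
    { carrier := {u | ∀ x, f (uniA Fq (x + u) * g) = f (uniA Fq x * g)}
      zero_mem' := fun x => by rw [add_zero]
      add_mem' := fun {a b} ha hb x => by rw [← add_assoc, hb, ha]
      neg_mem' := fun {a} ha x => by
        have := ha (x + -a)
        rw [neg_add_cancel_right] at this
        exact this.symm }
  have hfact : Fact (∀ v : Place Fq, IsOpen (Ov Fq v : Set (Kv Fq v))) :=
    ⟨fun v => Valued.isOpen_integer _⟩
  refine ⟨𝔲, ?_, fun x u hu => hu x⟩
  apply AddSubgroup.isOpen_of_mem_nhds (g := 0)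
  have hc : Continuous fun u : AK Fq => g⁻¹ * uniA Fq u * g := by
    exact (continuous_const.mul continuous_uniA).mul continuous_const
  have h1 : (fun u : AK Fq => g⁻¹ * uniA Fq u * g) ⁻¹' (U : Set (GA Fq)) ∈ 𝓝 (0 : AK Fq) := by
    apply (hU.preimage hc).mem_nhds
    change g⁻¹ * uniA Fq 0 * g ∈ U
    rw [uniA_zero, mul_one, inv_mul_cancel]
    exact one_mem _
  refine Filter.mem_of_superset h1 fun u hu x => ?_
  have h2 : uniA Fq (x + u) * g = uniA Fq x * g * (g⁻¹ * uniA Fq u * g) := by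
    rw [uniA_add]; group
  rw [h2, h _ _ hu]

/-- the inductive form of cuspidality -/
def CuspAt (g : GA Fq) (y : GA Fq → ℂ) : Prop :=
  ∃ 𝔲₀ : AddSubgroup (AK Fq), IsOpen (𝔲₀ : Set (AK Fq)) ∧
    (∀ x, ∀ u ∈ 𝔲₀, y (uniA Fq (x + u) * g) = y (uniA Fq x * g)) ∧
    ∀ 𝔲 : AddSubgroup (AK Fq), IsOpen (𝔲 : Set (AK Fq)) → 𝔲 ≤ 𝔲₀ →
    ∑ᶠ c : AK Fq ⧸ ((diagA Fq).toAddMonoidHom.range ⊔ 𝔲), y (uniA Fq c.out * g) = 0

lemma inv_sup {y : GA Fq → ℂ} (hy : ∀ γ g, y (diagG Fq γ * g) = y g) {g : GA Fq}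
    {𝔲 : AddSubgroup (AK Fq)} (h : ∀ x, ∀ u ∈ 𝔲, y (uniA Fq (x + u) * g) = y (uniA Fq x * g)) :
    ∀ x, ∀ u ∈ (diagA Fq).toAddMonoidHom.range ⊔ 𝔲,
      y (uniA Fq (x + u) * g) = y (uniA Fq x * g) := by
  intro x u hu
  obtain ⟨_, ⟨a, rfl⟩, b, hb, rfl⟩ := AddSubgroup.mem_sup.mp hu
  rw [← add_assoc, h _ b hb]
  exact uniA_left hy x a g

variable [Fintype Fq]

lemma CuspAt.add {g : GA Fq} {y z : GA Fq → ℂ} (hy : CuspAt g y) (hz : CuspAt g z) :
    CuspAt g (y + z) := by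
  obtain ⟨𝔲₁, ho₁, hi₁, hs₁⟩ := hy
  obtain ⟨𝔲₂, ho₂, hi₂, hs₂⟩ := hz
  refine ⟨𝔲₁ ⊓ 𝔲₂, ho₁.inter ho₂, fun x u hu => ?_, fun 𝔲 ho hle => ?_⟩
  · simp only [Pi.add_apply]
    rw [hi₁ x u hu.1, hi₂ x u hu.2]
  · have := finite_quotA 𝔲 ho
    simp only [Pi.add_apply]
    rw [finsum_add_distrib (Set.toFinite _) (Set.toFinite _), hs₁ 𝔲 ho (hle.trans inf_le_left),
      hs₂ 𝔲 ho (hle.trans inf_le_right), add_zero]

lemma CuspAt.smul {g : GA Fq} {y : GA Fq → ℂ} (hy : CuspAt g y) (r : ℂ) : CuspAt g (r • y) := by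
  obtain ⟨𝔲₁, ho₁, hi₁, hs₁⟩ := hy
  refine ⟨𝔲₁, ho₁, fun x u hu => ?_, fun 𝔲 ho hle => ?_⟩
  · simp only [Pi.smul_apply]
    rw [hi₁ x u hu]
  · have := finite_quotA 𝔲 ho
    simp only [Pi.smul_apply, smul_eq_mul]
    rw [← mul_finsum, hs₁ 𝔲 ho hle, mul_zero]

omit [Fintype Fq] in
lemma CuspAt.zero {g : GA Fq} : CuspAt g (0 : GA Fq → ℂ) :=
  ⟨⊤, isOpen_univ, fun _ _ _ => rfl, fun 𝔲 _ _ => by simp⟩

/-- passage to arbitrary level -/
lemma CuspAt.all {g : GA Fq} {y : GA Fq → ℂ} (hl : ∀ γ g, y (diagG Fq γ * g) = y g)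
    (hy : CuspAt g y) (𝔲 : AddSubgroup (AK Fq)) (ho : IsOpen (𝔲 : Set (AK Fq)))
    (hi : ∀ x, ∀ u ∈ 𝔲, y (uniA Fq (x + u) * g) = y (uniA Fq x * g)) :
    ∑ᶠ c : AK Fq ⧸ ((diagA Fq).toAddMonoidHom.range ⊔ 𝔲), y (uniA Fq c.out * g) = 0 := by
  obtain ⟨𝔲₀, ho₀, hi₀, hs₀⟩ := hy
  have h1 := finite_quotA 𝔲 ho
  have h2 := finite_quotA (𝔲 ⊓ 𝔲₀) (ho.inter ho₀)
  have f1 := Fintype.ofFinite (AK Fq ⧸ ((diagA Fq).toAddMonoidHom.range ⊔ 𝔲))
  have f2 := Fintype.ofFinite (AK Fq ⧸ ((diagA Fq).toAddMonoidHom.range ⊔ (𝔲 ⊓ 𝔲₀)))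
  have h3 := hs₀ (𝔲 ⊓ 𝔲₀) (ho.inter ho₀) inf_le_right
  rw [finsum_eq_sum_of_fintype] at h3 ⊢
  exact sum_level (F := fun x => y (uniA Fq x * g)) (sup_le_sup_left inf_le_left _)
    (inv_sup hl hi) h3

/-- translates of the cusp form -/
lemma cuspAt_klf {ψ₀ : AddChar Fq ℂ} (hψ : ψ₀ 1 ≠ 1) (g h : GA Fq) :
    CuspAt g (rtr Fq h (klf ψ₀)) := by
  obtain ⟨U, hU, hsm⟩ := smoothVec_klf ψ₀
  obtain ⟨𝔲₀, ho₀, hi₀⟩ := exists_open_inv (f := klf ψ₀) hU (fun g u hu => congrFun (hsm u hu) g)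
    (g * h)
  have e : ∀ x : AK Fq, rtr Fq h (klf ψ₀) (uniA Fq x * g) = klf ψ₀ (uniA Fq x * (g * h)) := by
    intro x
    change klf ψ₀ (uniA Fq x * g * h) = _
    rw [mul_assoc]
  refine ⟨𝔲₀, ho₀, fun x u hu => ?_, fun 𝔲 ho hle => ?_⟩
  · rw [e, e, hi₀ x u hu]
  · simp_rw [e]
    obtain ⟨x₀, c, hc, ht⟩ := exists_twist hψ (g * h)
    have h1 := finite_quotA 𝔲 ho
    have f1 := Fintype.ofFinite (AK Fq ⧸ ((diagA Fq).toAddMonoidHom.range ⊔ 𝔲))
    rw [finsum_eq_sum_of_fintype]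
    exact sum_twist (F := fun x => klf ψ₀ (uniA Fq x * (g * h)))
      (inv_sup (klf_left ψ₀) (fun x u hu => hi₀ x u (hle hu))) hc ht

/-- **All functions generated by the cusp form are cuspidal.** -/
theorem isCuspidal_cyc {ψ₀ : AddChar Fq ℂ} (hψ : ψ₀ 1 ≠ 1) {y : GA Fq → ℂ}
    (hy : y ∈ cyc (rtr Fq) (klf ψ₀)) : IsCuspidal y := by
  have hl : ∀ γ g, y (diagG Fq γ * g) = y g := by
    unfold cyc at hy
    induction hy using Submodule.span_induction with
    | mem y hy =>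
      obtain ⟨h, rfl⟩ := hy
      intro γ g
      change klf ψ₀ (diagG Fq γ * g * h) = klf ψ₀ (g * h)
      rw [mul_assoc, klf_left]
    | zero => intro γ g; rfl
    | add a b _ _ ha hb => intro γ g; simp only [Pi.add_apply, ha, hb]
    | smul r a _ ha => intro γ g; simp only [Pi.smul_apply, ha]
  intro g 𝔲 ho hi
  apply CuspAt.all hl _ 𝔲 ho hi
  unfold cyc at hy
  clear hl hi
  induction hy using Submodule.span_induction with
  | mem y hy => obtain ⟨h, rfl⟩ := hy; exact cuspAt_klf hψ g h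
  | zero => exact CuspAt.zero
  | add a b _ _ ha hb => exact ha.add hb
  | smul r a _ ha => exact ha.smul r

end

end Pool.Agent.H330R2
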