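import Mathlib
import Pool.Agent.H330R2.Eis

/-!
# The function `φ₁`, continued (helper file)
-/

namespace Pool.Agent.H330R2

open IsDedekindDomain Polynomial WithZero RestrictedProduct Topology

noncomputable section

variable {Fq : Type} [Field Fq] [Fintype Fq]

/-- the Hecke operator at infinity -/
abbrev Tinf (f : GA Fq → ℂ) (g : GA Fq) : ℂ := Hk none (Dinf Fq) (pk Fq) pk_ne f g

/-- the values of a spherical function -/
def val (f : GA Fq → ℂ) (m : ℤ) : ℂ := f (single Fq none (dT m 0))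

omit [Fintype Fq] in
lemma SFun.val_natAbs {f : GA Fq → ℂ} (hf : SFun f) (m : ℤ) : val f m = val f (m.natAbs : ℤ) := by
  rcases Int.natAbs_eq m with h | h
  · rw [← h]
  · change f (single Fq none (dT m 0)) = f (single Fq none (dT (m.natAbs : ℤ) 0))
    rw [hf.neg_gap]
    congr 3
    omega

theorem SFun.tinf {f : GA Fq → ℂ} (hf : SFun f) (g : GA Fq) :
    Tinf f g = val f ((gap g : ℤ) + 1) + Fintype.card Fq * val f ((gap g : ℤ) - 1) := by
  have h1 := (hf.hk (hπ := pk_ne) valued_pk isDigits_inf).eq_gap g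
  change Tinf f g = _ at h1
  rw [h1]
  set n := gap g with hn
  unfold Hk
  rw [sum_option (D := Dinf Fq) (fun t => f (single Fq none (dT n 0) *
    single Fq none (t * dd 1 (pk Fq) one_ne_zero pk_ne))), sum_Dinf, one_mul]
  congr 1
  · have h2 : (dT n 0 * dd 1 (pk Fq) one_ne_zero pk_ne : Gv Fq none) =
        dT (n + 1) 0 * scal (pk Fq) pk_ne := by
      have h3 : Tk Fq ^ ((n : ℤ) + 1) * pk Fq = Tk Fq ^ (n : ℤ) := by
        rw [pk, zpow_add_one₀ Tk_ne, mul_assoc, mul_inv_cancel₀ Tk_ne, mul_one]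
      apply GL_ext
      · simp only [mul_apply', dT, dd, scal, mk2_00, mk2_01, mk2_10, h3]; ring
      · simp only [mul_apply', dT, dd, scal, mk2_00, mk2_01, mk2_11, zpow_zero]; ring
      · simp only [mul_apply', dT, dd, scal, mk2_00, mk2_10, mk2_11, zpow_zero]; ring
      · simp only [mul_apply', dT, dd, scal, mk2_01, mk2_10, mk2_11, zpow_zero]
    rw [← map_mul, h2, map_mul, hf.center]
    rfl
  · have h2 : ∀ c : Fq, f (single Fq none (dT n 0) *
        single Fq none (kap (cst c) * dd 1 (pk Fq) one_ne_zero pk_ne)) = val f ((n : ℤ) - 1) := by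
      intro c
      rw [kap_dd, map_mul _ _ ss, ← mul_assoc, hf.ka _ _ (mem_KA_single (ss_mem _))]
      have h3 := shift hf.left c n (k := 1) rfl 1
      rw [mul_one, mul_one, mul_one, mul_one] at h3
      rw [h3, hf.ka _ _ (inv_mem (finPart_mem (finInt_nn _)).1)]
      rfl
    simp_rw [h2]
    rw [Finset.sum_const, Finset.card_univ, nsmul_eq_mul]

/-- the cardinality of `F_q` -/
abbrev qc (Fq : Type) [Fintype Fq] : ℂ := (Fintype.card Fq : ℂ)

lemma one_lt_card : 1 < Fintype.card Fq := Fintype.one_lt_card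

lemma qc_ne : qc Fq ≠ 0 := by
  have := one_lt_card (Fq := Fq)
  exact_mod_cast (by omega : Fintype.card Fq ≠ 0)

lemma qc_sub : qc Fq - 1 ≠ 0 := by
  have := one_lt_card (Fq := Fq)
  rw [sub_ne_zero]
  exact_mod_cast (by omega : Fintype.card Fq ≠ 1)

omit [Field Fq] in
lemma qc_add : qc Fq + 1 ≠ 0 := Nat.cast_add_one_ne_zero _

/-- spherical eigenfunctions with eigenvalue `q + 1` are constant -/
theorem SFun.const {f : GA Fq → ℂ} (hf : SFun f) (h : ∀ g, Tinf f g = (qc Fq + 1) * f g) (g : GA Fq) :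
    f g = f 1 := by
  have h1 : ∀ n : ℕ, val f ((n : ℤ) + 1) + qc Fq * val f ((n : ℤ) - 1) = (qc Fq + 1) * val f n := by
    intro n
    have := h (single Fq none (dT n 0))
    rw [hf.tinf, gap_dT] at this
    exact this
  have h2 : ∀ n : ℕ, val f n = val f 0 ∧ val f ((n : ℤ) + 1) = val f 0 := by
    intro n
    induction n with
    | zero =>
      refine ⟨rfl, ?_⟩
      have h3 := h1 0
      have h4 : val f (((0 : ℕ) : ℤ) - 1) = val f (((0 : ℕ) : ℤ) + 1) := by
        rw [hf.val_natAbs]; norm_num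
      rw [h4] at h3
      have h5 : (qc Fq + 1) * (val f (((0 : ℕ) : ℤ) + 1) - val f 0) = 0 := by
        have : val f (((0 : ℕ) : ℤ)) = val f 0 := rfl
        rw [this] at h3
        linear_combination h3
      rcases mul_eq_zero.mp h5 with h6 | h6
      · exact absurd h6 qc_add
      · exact sub_eq_zero.mp h6
    | succ n ih =>
      have h3 := h1 (n + 1)
      have e1 : (((n + 1 : ℕ) : ℤ) - 1) = n := by push_cast; ring
      have e2 : ((n + 1 : ℕ) : ℤ) = (n : ℤ) + 1 := by push_cast; ring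
      rw [e1, e2, ih.1, ih.2] at h3
      rw [e2]
      refine ⟨ih.2, ?_⟩
      linear_combination h3
  rw [hf.eq_gap g, hf.eq_gap 1]
  have h3 := (h2 (gap g)).1
  have h4 := (h2 (gap (1 : GA Fq))).1
  rw [val] at h3 h4
  rw [h3, h4]

/-- the explicit sequence -/
def Fseq (Fq : Type) [Fintype Fq] (n : ℕ) : ℂ := 2 * qc Fq ^ (n + 1) / (qc Fq ^ 2 - 1) - n

/-- the function `Λ` -/
def Lam (g : GA Fq) : ℂ := Fseq Fq (gap g)

lemma sFun_Lam : SFun (Lam (Fq := Fq)) := sFun_gap _

lemma val_Lam (n : ℕ) : val (Lam (Fq := Fq)) n = Fseq Fq n := by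
  rw [val, Lam, gap_dT]

lemma qc_sq_sub : qc Fq ^ 2 - 1 ≠ 0 := by
  have : qc Fq ^ 2 - 1 = (qc Fq - 1) * (qc Fq + 1) := by ring
  rw [this]
  exact mul_ne_zero qc_sub qc_add

lemma tinf_Lam (g : GA Fq) : Tinf (Lam (Fq := Fq)) g = (qc Fq + 1) * Lam g + (qc Fq - 1) := by
  rw [sFun_Lam.tinf]
  have hL : Lam g = Fseq Fq (gap g) := rfl
  rw [hL]
  cases hn : gap g with
  | zero =>
    have e1 : val (Lam (Fq := Fq)) (((0 : ℕ) : ℤ) - 1) = Fseq Fq 1 := by
      rw [sFun_Lam.val_natAbs, ← val_Lam]; norm_num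
    have e2 : val (Lam (Fq := Fq)) (((0 : ℕ) : ℤ) + 1) = Fseq Fq 1 := by
      rw [← val_Lam]; norm_num
    rw [e1, e2]
    have h := qc_sq_sub (Fq := Fq)
    simp only [Fseq]
    field_simp
    push_cast
    ring
  | succ n =>
    have e1 : val (Lam (Fq := Fq)) (((n + 1 : ℕ) : ℤ) - 1) = Fseq Fq n := by
      rw [← val_Lam]; congr 1; push_cast; ring
    have e2 : val (Lam (Fq := Fq)) (((n + 1 : ℕ) : ℤ) + 1) = Fseq Fq (n + 2) := by
      rw [← val_Lam]; congr 1
    rw [e1, e2]
    have h := qc_sq_sub (Fq := Fq)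
    simp only [Fseq]
    field_simp
    push_cast
    ring

/-- `Λ` is an eigenfunction of the Hecke operators at the finite places, up to constants. -/
theorem hecke_Lam {P : HeightOneSpectrum Fq[X]} {D : Finset (Kv Fq (some P))} {π : Kv Fq (some P)}
    (hπ : π ≠ 0) (hw : Valued.v π = exp (-1 : ℤ)) (hD : IsDigits (Valued.v (R := Kv Fq (some P))) D) :
    ∃ c : ℂ, ∀ g, Hk (some P) D π hπ (Lam (Fq := Fq)) g = (D.card + 1) * Lam g + c := by
  set Df : GA Fq → ℂ := fun g => Hk (some P) D π hπ (Lam (Fq := Fq)) g - (D.card + 1) * Lam g with hDf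
  have h1 := sFun_Lam.hk (hπ := hπ) hw hD
  have hS : SFun Df := by
    refine ⟨fun γ g => ?_, fun g k hk => ?_, fun g z hz => ?_⟩
    · simp only [hDf]; rw [h1.left, sFun_Lam.left]
    · simp only [hDf]; rw [h1.ka _ _ hk, sFun_Lam.ka _ _ hk]
    · simp only [hDf]; rw [h1.center, sFun_Lam.center]
  have hT : ∀ g, Tinf Df g = (qc Fq + 1) * Df g := by
    intro g
    have e1 : Tinf Df g = Tinf (Hk (some P) D π hπ (Lam (Fq := Fq))) g -
        (D.card + 1) * Tinf (Lam (Fq := Fq)) g := Hk_sub _ _ _ _ _ _ _ _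
    have e2 : Tinf (Hk (some P) D π hπ (Lam (Fq := Fq))) g =
        Hk (some P) D π hπ (Tinf (Lam (Fq := Fq))) g :=
      congrFun (Hk_comm (by simp) _ _ _ _ _ _ _) g
    have e3 : Tinf (Lam (Fq := Fq)) = fun g => (qc Fq + 1) * Lam g + (qc Fq - 1) := by
      funext g; exact tinf_Lam g
    rw [e1, e2, tinf_Lam, e3, Hk_affine]
    simp only [hDf]
    ring
  refine ⟨Df 1, fun g => ?_⟩
  have := hS.const hT g
  simp only [hDf] at this ⊢
  linear_combination this

/-! ### the function `φ₁` -/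

/-- `diag(1, ϖ)` at infinity -/
def aI (Fq : Type) [Field Fq] : Gv Fq none := dd 1 (pk Fq) one_ne_zero pk_ne

/-- the function `φ₁` -/
def phi1 (g : GA Fq) : ℂ := Lam g - Lam (g * single Fq none (aI Fq))

theorem hFun_phi1 : HFun (phi1 (Fq := Fq)) (-(qc Fq - 1)) where
  left γ g := by
    unfold phi1
    rw [mul_assoc, sFun_Lam.left, sFun_Lam.left]
  iw g u hu := by
    unfold phi1
    rw [sFun_Lam.ka _ _ (mem_KA_single (Iw_le _ hu))]
    have : g * single Fq none u * single Fq none (aI Fq) =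
        g * single Fq none (aI Fq) * single Fq none ((aI Fq)⁻¹ * u * aI Fq) := by
      rw [mul_assoc, mul_assoc, ← map_mul, ← map_mul]
      congr 2
      group
    have h4 : (aI Fq)⁻¹ * u * aI Fq ∈ GLO Fq none := conj_mem pk_ne valued_pk hu
    rw [this, sFun_Lam.ka _ _ (mem_KA_single h4)]
  center g z hz := by
    unfold phi1
    rw [mul_assoc, ← scal_central, ← mul_assoc, sFun_Lam.center, sFun_Lam.center]
  atkin g := by
    unfold phi1
    have h1 : (wA (pk Fq) pk_ne : Gv Fq none) = aI Fq * ss := by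
      apply GL_ext <;> simp [mul_apply', wA, aI, ss, dd]
    have h2 : (wA (pk Fq) pk_ne * aI Fq : Gv Fq none) = ss * scal (pk Fq) pk_ne := by
      apply GL_ext <;> simp [mul_apply', wA, aI, ss, dd, scal]
    rw [mul_assoc, ← map_mul, h2, map_mul, ← mul_assoc, sFun_Lam.center,
      sFun_Lam.ka _ _ (mem_KA_single (ss_mem _)), h1, map_mul, ← mul_assoc,
      sFun_Lam.ka _ _ (mem_KA_single (ss_mem _))]
    ring
  harm g := by
    unfold phi1
    rw [Finset.sum_sub_distrib]
    have h1 : ∀ t : Option (Dinf Fq), Lam (g * single Fq none (rep (Dinf Fq) t)) = Lam g := fun t =>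
      sFun_Lam.ka _ _ (mem_KA_single (rep_mem isDigits_inf t))
    have h2 : ∑ t : Option (Dinf Fq), Lam (g * single Fq none (rep (Dinf Fq) t) *
        single Fq none (aI Fq)) = Tinf (Lam (Fq := Fq)) g := by
      unfold Tinf Hk
      refine Finset.sum_congr rfl fun t _ => ?_
      rw [mul_assoc, ← map_mul]
      rfl
    simp_rw [h1]
    rw [h2, tinf_Lam, Finset.sum_const, Finset.card_univ, Fintype.card_option, Fintype.card_coe,
      card_Dinf]
    simp only [nsmul_eq_mul]
    push_cast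
    ring

/-- `φ₁` is spherical at the finite places with trivial Hecke eigenvalues. -/
theorem sph_phi1 {P : HeightOneSpectrum Fq[X]} {D : Finset (Kv Fq (some P))} {π : Kv Fq (some P)}
    (hπ : π ≠ 0) (hw : Valued.v π = exp (-1 : ℤ)) (hD : IsDigits (Valued.v (R := Kv Fq (some P))) D) :
    SphVec Valued.v π hπ D ((rtr Fq).comp (single Fq (some P))) (phi1 (Fq := Fq)) where
  sph k hk := by
    funext g
    change phi1 (g * single Fq (some P) k) = phi1 g
    unfold phi1
    rw [sFun_Lam.ka _ _ (mem_KA_single hk), mul_assoc, single_comm_single (by simp), ← mul_assoc,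
      sFun_Lam.ka _ _ (mem_KA_single hk)]
  center z hz := by
    funext g
    change phi1 (g * single Fq (some P) _) = phi1 g
    unfold phi1
    rw [sFun_Lam.center_all, mul_assoc, single_comm_single (by simp), ← mul_assoc,
      sFun_Lam.center_all]
  hecke := by
    obtain ⟨c, hc⟩ := hecke_Lam hπ hw hD
    funext g
    rw [Finset.sum_apply]
    change ∑ t : Option D, phi1 (g * single Fq (some P) _) = (D.card + 1 : ℂ) * phi1 g
    unfold phi1
    rw [Finset.sum_sub_distrib]
    have h1 := hc g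
    have h2 := hc (g * single Fq none (aI Fq))
    unfold Hk at h1 h2
    rw [h1]
    have h3 : ∀ t : Option D, g * single Fq (some P) (rep D t * dd 1 π one_ne_zero hπ) *
        single Fq none (aI Fq) = g * single Fq none (aI Fq) *
        single Fq (some P) (rep D t * dd 1 π one_ne_zero hπ) := by
      intro t
      rw [mul_assoc, single_comm_single (by simp), ← mul_assoc]
    simp_rw [h3]
    rw [h2]
    ring

/-- `φ₁` is not constant. -/
theorem phi1_not_const : ¬ ∃ c : ℂ, ∀ g, phi1 (Fq := Fq) g = c := by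
  rintro ⟨c, hc⟩
  have hval : ∀ n : ℕ, phi1 (single Fq none (dT n 0)) = Fseq Fq n - Fseq Fq (n + 1) := by
    intro n
    unfold phi1
    have h2 : (dT n 0 * aI Fq : Gv Fq none) = dT (n + 1 : ℕ) 0 * scal (pk Fq) pk_ne := by
      have h3 : Tk Fq ^ (((n + 1 : ℕ) : ℤ)) * pk Fq = Tk Fq ^ (n : ℤ) := by
        push_cast
        rw [pk, zpow_add_one₀ Tk_ne, mul_assoc, mul_inv_cancel₀ Tk_ne, mul_one]
      apply GL_ext
      · simp only [mul_apply', dT, dd, scal, aI, mk2_00, mk2_01, mk2_10, h3]; ring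
      · simp only [mul_apply', dT, dd, scal, aI, mk2_00, mk2_01, mk2_11, zpow_zero]; ring
      · simp only [mul_apply', dT, dd, scal, aI, mk2_00, mk2_10, mk2_11, zpow_zero]; ring
      · simp only [mul_apply', dT, dd, scal, aI, mk2_01, mk2_10, mk2_11, zpow_zero]
    rw [← map_mul, h2, map_mul, sFun_Lam.center]
    rw [Lam, Lam, gap_dT, gap_dT]
  have h0 := hval 0
  have h1 := hval 1
  rw [hc] at h0 h1
  rw [h0] at h1
  have h := qc_sq_sub (Fq := Fq)
  simp only [Fseq] at h1
  field_simp at h1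
  push_cast at h1
  have h2 : qc Fq * (qc Fq - 1) ^ 2 * 2 = 0 := by
    ring_nf at h1 ⊢
    linear_combination h1
  have := mul_ne_zero (mul_ne_zero (qc_ne (Fq := Fq)) (pow_ne_zero 2 (qc_sub (Fq := Fq))))
    (two_ne_zero (α := ℂ))
  exact this h2

end

end Pool.Agent.H330R2
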