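import Mathlib
import Pool.Agent.H330R2.Decomp

/-!
# The product formula for `F_q(T)` (helper file)
-/

namespace Pool.Agent.H330R2

open IsDedekindDomain Polynomial WithZero RestrictedProduct Topology

noncomputable section

variable {Fq : Type} [Field Fq]

lemma finite_ne_one {x : RatFunc Fq} (hx : x ≠ 0) : {v : Place Fq | placeVal Fq v x ≠ 1}.Finite := by
  refine ((finite_not_integral x).union (finite_not_integral x⁻¹)).subset ?_
  intro v hv
  by_contra h
  simp only [Set.mem_union, Set.mem_ofPred_eq, not_or, not_not] at h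
  apply hv
  apply le_antisymm h.1
  have h2 := h.2
  rw [map_inv₀] at h2
  exact (inv_le_one₀ (zero_lt_iff.mpr ((Valuation.ne_zero_iff _).mpr hx))).mp h2

/-- The homomorphism `x ↦ ∏ a_v ^ log |x|_v`. -/
def prodHom (a : Place Fq → ℂˣ) : (RatFunc Fq)ˣ →* ℂˣ where
  toFun x := ∏ᶠ v, a v ^ log (placeVal Fq v (x : RatFunc Fq))
  map_one' := by simp
  map_mul' x y := by
    have hfin : ∀ x : (RatFunc Fq)ˣ,
        (Function.mulSupport fun v => a v ^ log (placeVal Fq v (x : RatFunc Fq))).Finite := by
      intro x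
      refine (finite_ne_one x.ne_zero).subset ?_
      intro v hv h1
      apply hv
      simp only
      rw [h1, log_one, zpow_zero]
    rw [← finprod_mul_distrib (hfin x) (hfin y)]
    refine finprod_congr fun v => ?_
    rw [← zpow_add, Units.val_mul, map_mul, log_mul ((Valuation.ne_zero_iff _).mpr x.ne_zero)
      ((Valuation.ne_zero_iff _).mpr y.ne_zero)]

lemma prodHom_apply (a : Place Fq → ℂˣ) (x : (RatFunc Fq)ˣ) :
    prodHom a x = ∏ᶠ v, a v ^ log (placeVal Fq v (x : RatFunc Fq)) := rfl

/-- the unit of `K` attached to a nonzero polynomial -/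
def pU (p : Fq[X]) (hp : p ≠ 0) : (RatFunc Fq)ˣ :=
  Units.mk0 (algebraMap Fq[X] (RatFunc Fq) p) (by simpa using hp)

lemma prodHom_pU_irred (a : Place Fq → ℂˣ) {p : Fq[X]} (hp : Irreducible p)
    (ha : ∀ P : HeightOneSpectrum Fq[X], P.asIdeal = Ideal.span {p} →
      a (some P) = a none ^ p.natDegree) :
    prodHom a (pU p hp.ne_zero) = 1 := by
  classical
  have hp0 : p ≠ 0 := hp.ne_zero
  let P : HeightOneSpectrum Fq[X] :=
    ⟨Ideal.span {p}, (Ideal.span_singleton_prime hp0).mpr hp.prime, by simpa using hp0⟩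
  have hP : P.asIdeal = Ideal.span {p} := rfl
  have h1 : placeVal Fq (some P) (algebraMap Fq[X] (RatFunc Fq) p) = exp (-1 : ℤ) := by
    rw [placeVal_some, HeightOneSpectrum.valuation_of_algebraMap]
    exact P.intValuation_singleton hp0 hP
  have h2 : ∀ Q, Q ≠ P → placeVal Fq (some Q) (algebraMap Fq[X] (RatFunc Fq) p) = 1 := by
    intro Q hQ
    rw [placeVal_some, HeightOneSpectrum.valuation_eq_one_iff_notMem]
    intro hmem
    apply hQ
    have h1 : P.asIdeal ≤ Q.asIdeal := by
      rw [hP, Ideal.span_le]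
      simpa using hmem
    have h2 := P.isMaximal.eq_of_le Q.isPrime.ne_top h1
    exact HeightOneSpectrum.ext h2.symm
  rw [prodHom_apply, finprod_eq_prod_of_mulSupport_subset (s := {none, some P})]
  · rw [Finset.prod_insert (by simp), Finset.prod_singleton]
    change a none ^ log (placeVal Fq none (algebraMap Fq[X] (RatFunc Fq) p)) *
      a (some P) ^ log (placeVal Fq (some P) (algebraMap Fq[X] (RatFunc Fq) p)) = 1
    rw [placeVal_none_poly hp0, h1, log_exp, log_exp, ha P hP, zpow_natCast, zpow_neg, zpow_one,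
      mul_inv_cancel]
  · intro v hv
    by_contra hmem
    apply hv
    cases v with
    | none => simp at hmem
    | some Q =>
      have hQ : Q ≠ P := by
        rintro rfl
        simp at hmem
      change a (some Q) ^ log (placeVal Fq (some Q) (algebraMap Fq[X] (RatFunc Fq) p)) = 1
      rw [h2 Q hQ, log_one, zpow_zero]

lemma prodHom_pU_unit (a : Place Fq → ℂˣ) {p : Fq[X]} (hp : IsUnit p) :
    prodHom a (pU p hp.ne_zero) = 1 := by
  obtain ⟨c, hc, rfl⟩ := Polynomial.isUnit_iff.mp hp
  rw [prodHom_apply]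
  refine finprod_eq_one_of_forall_eq_one fun v => ?_
  change a v ^ log (placeVal Fq v (algebraMap Fq[X] (RatFunc Fq) (Polynomial.C c))) = 1
  rw [RatFunc.algebraMap_C, placeVal_C v hc.ne_zero, log_one, zpow_zero]

/-- **Product formula.** -/
theorem prodHom_eq_one (a : Place Fq → ℂˣ) (ha : ∀ p : Fq[X], Irreducible p →
    ∀ P : HeightOneSpectrum Fq[X], P.asIdeal = Ideal.span {p} → a (some P) = a none ^ p.natDegree)
    (x : (RatFunc Fq)ˣ) : prodHom a x = 1 := by
  have hpoly : ∀ (p : Fq[X]) (hp : p ≠ 0), prodHom a (pU p hp) = 1 := by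
    intro p
    induction p using WfDvdMonoid.induction_on_irreducible with
    | zero => intro h; exact absurd rfl h
    | unit u hu => intro _; exact prodHom_pU_unit a hu
    | mul b i hb hi ih =>
      intro h
      have h1 : pU (i * b) h = pU i hi.ne_zero * pU b hb := by
        apply Units.ext
        simp [pU]
      rw [h1, map_mul, ih hb, prodHom_pU_irred a hi (ha i hi), mul_one]
  obtain ⟨x, y, hxy, hyx⟩ := x
  have hx0 : x ≠ 0 := left_ne_zero_of_mul_eq_one hxy
  have hn : x.num ≠ 0 := by simpa using hx0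
  have hd : x.denom ≠ 0 := x.denom_ne_zero
  have h2 : (⟨x, y, hxy, hyx⟩ : (RatFunc Fq)ˣ) * pU x.denom hd = pU x.num hn := by
    apply Units.ext
    change x * algebraMap Fq[X] (RatFunc Fq) x.denom = algebraMap Fq[X] (RatFunc Fq) x.num
    have h3 := RatFunc.num_div_denom x
    have h4 : algebraMap Fq[X] (RatFunc Fq) x.denom ≠ 0 := by simpa using hd
    rw [div_eq_iff h4] at h3
    exact h3.symm
  have h3 := congrArg (prodHom a) h2
  rw [map_mul, hpoly _ hd, hpoly _ hn, mul_one] at h3
  exact h3

/-! ### the sizes of the residue fields -/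

lemma qv_some [Finite Fq] {p : Fq[X]} (hp : Irreducible p) {P : HeightOneSpectrum Fq[X]}
    (hP : P.asIdeal = Ideal.span {p}) : qv (some P) = qv (Fq := Fq) none ^ p.natDegree := by
  change Nat.card (Fq[X] ⧸ P.asIdeal) = Nat.card Fq ^ p.natDegree
  rw [hP]
  change Nat.card (AdjoinRoot p) = _
  have hfr : Module.finrank Fq (AdjoinRoot p) = p.natDegree := by
    rw [(AdjoinRoot.powerBasis hp.ne_zero).finrank, AdjoinRoot.powerBasis_dim]
  have := (AdjoinRoot.powerBasis hp.ne_zero).finite
  rw [← hfr]
  exact Module.natCard_eq_pow_finrank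

lemma one_lt_qv [Finite Fq] (v : Place Fq) : 1 < qv v := by
  have h0 : 1 < qv (Fq := Fq) none := Finite.one_lt_card
  cases v with
  | none => exact h0
  | some P =>
    obtain ⟨p, hp⟩ := (IsPrincipalIdealRing.principal P.asIdeal).principal
    have hp' : P.asIdeal = Ideal.span {p} := hp
    have hp0 : p ≠ 0 := by
      rintro rfl
      apply P.ne_bot
      rw [hp]; simp
    have hpr : Prime p := (Ideal.span_singleton_prime hp0).mp (hp' ▸ P.isPrime)
    rw [qv_some hpr.irreducible hp']
    exact Nat.one_lt_pow hpr.irreducible.natDegree_pos.ne' h0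

end

end Pool.Agent.H330R2
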