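import Mathlib
import Pool.Agent.H330R2.Prod
import Pool.Agent.H330R2.Autom

/-!
# The trivial representation of `GL₂(A_K)` is an isobaric sum of two characters (helper file)
-/

namespace Pool.Agent.H330R2

open IsDedekindDomain Polynomial WithZero RestrictedProduct Topology

noncomputable section

/-! ### the trivial representation -/

/-- the trivial representation -/
def triv (G : Type) [Group G] [TopologicalSpace G] : IrrRep G where
  V := ℂ
  ρ := 1
  smooth x := by
    have : {g : G | (1 : Representation ℂ G ℂ) g x = x} = Set.univ := by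
      ext g; simp
    rw [this]
    exact isOpen_univ
  nontriv := ⟨1, one_ne_zero⟩
  irred W _ := eq_bot_or_eq_top W

variable {Fq : Type} [Field Fq]

lemma triv_apply {G : Type} [Group G] [TopologicalSpace G] (g : G) (x : (triv G).V) :
    (triv G).ρ g x = x := rfl

/-- constant functions -/
def cstF (Fq : Type) [Field Fq] : Submodule ℂ (GA Fq → ℂ) := Submodule.span ℂ {fun _ => (1 : ℂ)}

lemma mem_cstF {f : GA Fq → ℂ} (hf : f ∈ cstF Fq) : ∃ c : ℂ, f = fun _ => c := by
  obtain ⟨c, rfl⟩ := Submodule.mem_span_singleton.mp hf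
  exact ⟨c, by funext g; simp⟩

lemma cst_mem_cstF (c : ℂ) : (fun _ => c) ∈ cstF Fq := by
  refine Submodule.mem_span_singleton.mpr ⟨c, ?_⟩
  funext g; simp

lemma isAutomorphicForm_cst (c : ℂ) : IsAutomorphicForm (fun _ : GA Fq => c) where
  left_inv _ _ := rfl
  smooth := ⟨⊤, isOpen_univ, fun _ _ _ => rfl⟩
  admissible U _ := by
    have h1 : Set.range (fun g => rtr Fq g (fun _ : GA Fq => c)) ⊆ {fun _ => c} := by
      rintro _ ⟨g, rfl⟩
      rfl
    have h2 : Submodule.span ℂ (Set.range fun g => rtr Fq g (fun _ : GA Fq => c)) ⊓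
        fixedBy (rtr Fq) U ≤ Submodule.span ℂ {fun _ => c} :=
      inf_le_left.trans (Submodule.span_mono h1)
    exact Submodule.finiteDimensional_of_le h2

/-- the trivial representation is automorphic -/
theorem isAutomorphic_triv : IsAutomorphic (triv (GA Fq)) := by
  have hW : ∀ g, ∀ f ∈ cstF Fq, rtr Fq g f ∈ cstF Fq := by
    intro g f hf
    obtain ⟨c, rfl⟩ := mem_cstF hf
    exact cst_mem_cstF c
  refine ⟨cstF Fq, hW, ?_, ?_⟩
  · intro f hf
    obtain ⟨c, rfl⟩ := mem_cstF hf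
    exact isAutomorphicForm_cst c
  · let T : cstF Fq →ₗ[ℂ] ℂ := (LinearMap.proj (1 : GA Fq)).comp (cstF Fq).subtype
    refine ⟨T, ?_, ?_⟩
    · intro c
      exact ⟨⟨fun _ => c, cst_mem_cstF c⟩, rfl⟩
    · rintro g ⟨f, hf⟩
      obtain ⟨c, rfl⟩ := mem_cstF hf
      rfl

/-! ### the characters `|·|^{±1/2}` -/

lemma continuous_valHom {F : Type} [Field F] [Valued F ℤᵐ⁰] :
    IsOpen {x : Fˣ | Valued.v (x : F) = 1} := by
  have h1 : IsOpen {x : Fˣ | Valued.v (x : F) ≤ 1} :=
    (Valued.isOpen_integer F).preimage Units.continuous_val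
  have h2 : IsOpen {x : Fˣ | Valued.v ((x⁻¹ : Fˣ) : F) ≤ 1} :=
    (Valued.isOpen_integer F).preimage (Units.continuous_val.comp continuous_inv)
  have : {x : Fˣ | Valued.v (x : F) = 1} = {x : Fˣ | Valued.v (x : F) ≤ 1} ∩
      {x : Fˣ | Valued.v ((x⁻¹ : Fˣ) : F) ≤ 1} := by
    ext x
    simp only [Set.mem_ofPred_eq, Set.mem_inter_iff, Units.val_inv_eq_inv_val, map_inv₀]
    constructor
    · intro h
      rw [h]; simp
    · rintro ⟨h1, h2⟩
      exact le_antisymm h1 ((inv_le_one₀ (zero_lt_iff.mpr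
        ((Valuation.ne_zero_iff _).mpr x.ne_zero))).mp h2)
  rw [this]
  exact h1.inter h2

/-- the local character `x ↦ a ^ log |x|` -/
def powHom (v : Place Fq) (a : ℂˣ) : (Kv Fq v)ˣ →* ℂˣ where
  toFun x := a ^ log (Valued.v (x : Kv Fq v))
  map_one' := by simp
  map_mul' x y := by
    rw [← zpow_add, Units.val_mul, map_mul, log_mul ((Valuation.ne_zero_iff _).mpr x.ne_zero)
      ((Valuation.ne_zero_iff _).mpr y.ne_zero)]

lemma powHom_apply (v : Place Fq) (a : ℂˣ) (x : (Kv Fq v)ˣ) :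
    powHom v a x = a ^ log (Valued.v (x : Kv Fq v)) := rfl

lemma powHom_one {v : Place Fq} {a : ℂˣ} {x : (Kv Fq v)ˣ} (hx : Valued.v (x : Kv Fq v) = 1) :
    powHom v a x = 1 := by
  rw [powHom_apply, hx, log_one, zpow_zero]

/-- the Hecke character given by a family of numbers satisfying the product formula -/
def powHecke (a : Place Fq → ℂˣ) (ha : ∀ p : Fq[X], Irreducible p →
    ∀ P : HeightOneSpectrum Fq[X], P.asIdeal = Ideal.span {p} →
    a (some P) = a none ^ p.natDegree) : HeckeChar Fq where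
  χ v := powHom v (a v)
  smooth v := by
    have h1 : IsOpen {x : (Kv Fq v)ˣ | Valued.v (x : Kv Fq v) = 1} := continuous_valHom
    apply Subgroup.isOpen_of_mem_nhds _ (g := 1)
    refine Filter.mem_of_superset (h1.mem_nhds (by simp)) ?_
    intro x hx
    exact powHom_one hx
  unram := Filter.Eventually.of_forall fun v x hx => powHom_one hx
  trivial x := by
    rw [← prodHom_eq_one a ha x, prodHom_apply]
    refine finprod_congr fun v => ?_
    rw [powHom_apply]
    congr 2
    exact valued_toKv v (x : RatFunc Fq)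

section Fin

variable [Finite Fq]

/-- `√q_v` -/
def uq (v : Place Fq) : ℂˣ := Units.mk0 ((Real.sqrt (qv v) : ℝ) : ℂ) (by
  have : (0 : ℝ) < qv v := by exact_mod_cast (one_lt_qv v).pos
  exact_mod_cast (Real.sqrt_pos.mpr this).ne')

lemma uq_some {p : Fq[X]} (hp : Irreducible p) (P : HeightOneSpectrum Fq[X])
    (hP : P.asIdeal = Ideal.span {p}) : uq (some P) = uq (Fq := Fq) none ^ p.natDegree := by
  apply Units.ext
  change ((Real.sqrt (qv (some P)) : ℝ) : ℂ) = ((Real.sqrt (qv (Fq := Fq) none) : ℝ) : ℂ) ^ _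
  rw [qv_some hp hP]
  push_cast
  rw [← Complex.ofReal_pow]
  congr 1
  rw [Real.sqrt_eq_iff_mul_self_eq (by positivity) (by positivity), ← mul_pow,
    Real.mul_self_sqrt (by positivity)]

variable (Fq) in
/-- the character `|·|^{1/2}` -/
def chi1 : HeckeChar Fq := powHecke uq (fun _ hp P hP => uq_some hp P hP)

variable (Fq) in
/-- the character `|·|^{-1/2}` -/
def chi2 : HeckeChar Fq := powHecke (fun v => (uq v)⁻¹) (fun p hp P hP => by
  rw [uq_some hp P hP, inv_pow])

lemma chi1_apply (v : Place Fq) (x : (Kv Fq v)ˣ) :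
    (chi1 Fq).χ v x = uq v ^ log (Valued.v (x : Kv Fq v)) := rfl

lemma chi2_apply (v : Place Fq) (x : (Kv Fq v)ˣ) :
    (chi2 Fq).χ v x = (uq v)⁻¹ ^ log (Valued.v (x : Kv Fq v)) := rfl

lemma uq_val (v : Place Fq) : ((uq v : ℂˣ) : ℂ) = ((Real.sqrt (qv v) : ℝ) : ℂ) := rfl

lemma one_lt_sqrt (v : Place Fq) : 1 < Real.sqrt (qv v) := by
  rw [Real.lt_sqrt (by norm_num)]
  rw [one_pow]
  exact_mod_cast one_lt_qv v

lemma norm_uq_zpow (v : Place Fq) (n : ℤ) : ‖((uq v ^ n : ℂˣ) : ℂ)‖ = Real.sqrt (qv v) ^ n := by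
  rw [Units.val_zpow_eq_zpow_val, uq_val, norm_zpow, Complex.norm_real, Real.norm_eq_abs,
    abs_of_nonneg (Real.sqrt_nonneg _)]

lemma sqrt_absv (v : Place Fq) (a d : (Kv Fq v)ˣ) : ((Real.sqrt (absv v (a / d)) : ℝ) : ℂ) =
    ((uq v ^ (log (Valued.v (a : Kv Fq v)) - log (Valued.v (d : Kv Fq v))) : ℂˣ) : ℂ) := by
  rw [Units.val_zpow_eq_zpow_val, uq_val, ← Complex.ofReal_zpow]
  congr 1
  have h1 : Valued.v ((a / d : (Kv Fq v)ˣ) : Kv Fq v) =
      Valued.v (a : Kv Fq v) / Valued.v (d : Kv Fq v) := by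
    rw [Units.val_div_eq_div_val, map_div₀]
  have h2 : log (Valued.v ((a / d : (Kv Fq v)ˣ) : Kv Fq v)) =
      log (Valued.v (a : Kv Fq v)) - log (Valued.v (d : Kv Fq v)) := by
    rw [h1, log_div ((Valuation.ne_zero_iff _).mpr a.ne_zero)
      ((Valuation.ne_zero_iff _).mpr d.ne_zero)]
  have h0 : (0 : ℝ) < qv v := by exact_mod_cast (one_lt_qv v).pos
  rw [absv, h2, Real.sqrt_eq_iff_mul_self_eq (by positivity) (by positivity), ← mul_zpow,
    Real.mul_self_sqrt (by positivity)]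

/-- **The trivial representation is isobaric.** -/
theorem isIsobaric_triv : IsIsobaric (triv (GA Fq)) := by
  refine ⟨isAutomorphic_triv, Or.inr ⟨chi1 Fq, chi2 Fq, ?_, ?_⟩⟩
  · intro v x hx
    have hn : log (Valued.v (x : Kv Fq v)) ≤ 0 := by
      have h0 : Valued.v (x : Kv Fq v) ≠ 0 := (Valuation.ne_zero_iff _).mpr x.ne_zero
      rw [← log_one]
      exact (log_le_log h0 one_ne_zero).mpr hx
    rw [chi1_apply, chi2_apply, inv_zpow', norm_uq_zpow, norm_uq_zpow]
    exact zpow_le_zpow_right₀ (one_lt_sqrt v).le (by omega)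
  · rintro v σ ⟨T, hne, hT⟩
    have hinj := inj_of_irr (ρ := (triv (GA Fq)).ρ.comp (single Fq v)) T hT hne
    have htriv : ∀ g x, σ.ρ g x = x := by
      intro g x
      apply hinj
      rw [hT]
      rfl
    let c : (triv (GA Fq)).V →ₗ[ℂ] (Gv Fq v → ℂ) :=
      LinearMap.pi (fun _ => (LinearMap.id : ℂ →ₗ[ℂ] ℂ))
    refine ⟨c.comp T, ?_, ?_, ?_⟩
    · intro x y hxy
      apply hinj
      exact congrFun hxy 1
    · intro x
      refine ⟨?_, ⊤, isOpen_univ, fun _ _ _ => rfl⟩
      intro a d y g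
      have hT' : ∀ z : ℂ, z = (((chi2 Fq).χ v a : ℂˣ) : ℂ) * (((chi1 Fq).χ v d : ℂˣ) : ℂ) *
          ((Real.sqrt (absv v (a / d)) : ℝ) : ℂ) * z := by
        intro z
        rw [sqrt_absv, chi1_apply, chi2_apply]
        rw [← Units.val_mul, ← Units.val_mul, inv_zpow', ← zpow_add, ← zpow_add]
        have : -log (Valued.v (a : Kv Fq v)) + log (Valued.v (d : Kv Fq v)) +
            (log (Valued.v (a : Kv Fq v)) - log (Valued.v (d : Kv Fq v))) = 0 := by ring
        rw [this, zpow_zero, Units.val_one]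
        exact (one_mul _).symm
      exact hT' (T x)
    · intro g x
      rw [htriv]
      rfl

omit [Finite Fq] in
/-- the component at infinity of the trivial representation -/
lemma triv_local (v : Place Fq) : IsLocalComponent (triv (GA Fq)) v (triv (Gv Fq v)) :=
  ⟨LinearMap.id, ⟨(1 : ℂ), (one_ne_zero : (1 : ℂ) ≠ 0)⟩, fun _ _ => rfl⟩

omit [Finite Fq] in
lemma triv_unramified (v : Place Fq) : IsUnramified (triv (Gv Fq v)) :=
  ⟨(1 : ℂ), (one_ne_zero : (1 : ℂ) ≠ 0), fun _ _ => rfl⟩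

end Fin

end

end Pool.Agent.H330R2
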