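import Mathlib
import Pool.Agent.H330R2.Isob
import Pool.Agent.H330R2.Cusp
import Pool.Agent.H330R2.Eis2

/-!
# The two automorphic representations (helper file)
-/

namespace Pool.Agent.H330R2

open IsDedekindDomain Polynomial WithZero RestrictedProduct Topology

noncomputable section

variable {Fq : Type} [Field Fq] [Fintype Fq]

/-! ### the first representation -/

lemma smoothVec_phi1 : SmoothVec (rtr Fq) (phi1 (Fq := Fq)) := by
  refine ⟨stab (rtr Fq) phi1, ?_, fun u hu => hu⟩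
  apply Subgroup.isOpen_of_mem_nhds (g := 1)
  have h1 : (KA Fq : Set (GA Fq)) ∩ {g | g none ∈ Iw (Valued.v (R := Kv Fq none))} ∈
      𝓝 (1 : GA Fq) := by
    apply (isOpen_KA.inter (isOpen_Iw.preimage (continuous_eval' none))).mem_nhds
    exact ⟨one_mem _, one_mem (Iw (Valued.v (R := Kv Fq none)))⟩
  refine Filter.mem_of_superset h1 ?_
  rintro u ⟨hu, hu2⟩
  change rtr Fq u phi1 = phi1
  funext g
  change phi1 (g * u) = phi1 g
  obtain ⟨k, hk, hku⟩ := KA_split hu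
  have h3 : phi1 (g * k) = phi1 g := by
    unfold phi1
    rw [sFun_Lam.ka _ _ hk.1, mul_assoc, ← single_comm (aI Fq) hk.2, ← mul_assoc,
      sFun_Lam.ka _ _ hk.1]
  rw [hku, ← mul_assoc, hFun_phi1.iw _ _ hu2, h3]

theorem dat1 : Dat (phi1 (Fq := Fq)) (-(qc Fq - 1)) (cstF Fq) where
  hfun := hFun_phi1
  smooth := smoothVec_phi1
  fixed f hf g := by
    obtain ⟨c, rfl⟩ := mem_cstF hf
    rfl
  left f hf γ g := by
    obtain ⟨c, rfl⟩ := mem_cstF hf
    rfl
  fin := by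
    unfold cstF
    infer_instance
  mem := cst_mem_cstF _
  notMem h := by
    obtain ⟨c, hc⟩ := mem_cstF h
    exact phi1_not_const ⟨c, fun g => congrFun hc g⟩

/-- automorphy -/
theorem Dat.isAutomorphic {φ : GA Fq → ℂ} {c : ℂ} {W₀ : Submodule ℂ (GA Fq → ℂ)}
    (hd : Dat φ c W₀) {π : IrrRep (GA Fq)} {T : WW φ W₀ →ₗ[ℂ] π.V} (hs : Function.Surjective T)
    (hT : ∀ g f, T (hd.rp g f) = π.ρ g (T f)) : IsAutomorphic π :=
  ⟨WW φ W₀, hd.invW, fun _ hf => hd.automorphic hf, T, hs, fun g f => hT g f⟩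

/-- the vector `T φ₁` is spherical at the finite places -/
lemma sph_quot {P : HeightOneSpectrum Fq[X]} {D : Finset (Kv Fq (some P))} {p : Kv Fq (some P)}
    (hp : p ≠ 0) (hw : Valued.v p = exp (-1 : ℤ)) (hD : IsDigits (Valued.v (R := Kv Fq (some P))) D)
    {π : IrrRep (GA Fq)} {T : WW (phi1 (Fq := Fq)) (cstF Fq) →ₗ[ℂ] π.V}
    (hT : ∀ g f, T (dat1.rp g f) = π.ρ g (T f)) :
    SphVec Valued.v p hp D (res π.ρ (single Fq (some P))) (T (gen phi1 (cstF Fq))) where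
  sph k hk := by
    rw [res_apply, ← hT]
    congr 1
    apply Subtype.ext
    exact (sph_phi1 hp hw hD).sph k hk
  center z hz := by
    rw [res_apply, ← hT]
    congr 1
    apply Subtype.ext
    exact (sph_phi1 hp hw hD).center z hz
  hecke := by
    simp_rw [res_apply, ← hT]
    rw [← map_sum, ← map_smul]
    congr 1
    apply Subtype.ext
    have h := (sph_phi1 hp hw hD).hecke
    change (WW (phi1 (Fq := Fq)) (cstF Fq)).subtype _ = _
    rw [map_sum]
    exact h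

/-- the finite places act trivially on the first representation -/
lemma fin_trivial {π : IrrRep (GA Fq)} {T : WW (phi1 (Fq := Fq)) (cstF Fq) →ₗ[ℂ] π.V}
    (hT : ∀ g f, T (dat1.rp g f) = π.ρ g (T f)) (hne : T (gen phi1 (cstF Fq)) ≠ 0)
    (P : HeightOneSpectrum Fq[X]) (h : Gv Fq (some P)) (y : π.V) :
    π.ρ (single Fq (some P) h) y = y := by
  obtain ⟨a, ha⟩ := exists_unif (some P)
  obtain ⟨D, hD⟩ := exists_digits (some P)
  have hp : Valued.v (toKv Fq (some P) a) = exp (-1 : ℤ) := by rw [valued_toKv, ha]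
  have hp0 : toKv Fq (some P) a ≠ 0 := by
    intro h0
    rw [h0, map_zero] at hp
    exact exp_ne_zero hp.symm
  exact spherical_trivial hp hD (factor_single (some P)) π.irred (locFin_GLO π (some P))
    (sph_quot hp0 hp hD hT) hne h y

/-- the trivial representation is a global lifting of the first representation -/
theorem lift1 {π : IrrRep (GA Fq)} {T : WW (phi1 (Fq := Fq)) (cstF Fq) →ₗ[ℂ] π.V}
    (hT : ∀ g f, T (dat1.rp g f) = π.ρ g (T f)) (hne : T (gen phi1 (cstF Fq)) ≠ 0)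
    (h0 : ∀ f ∈ W0' (phi1 (Fq := Fq)) (cstF Fq), T f = 0) :
    IsGlobalLifting π (triv (GA Fq)) := by
  refine ⟨isIsobaric_triv, ?_⟩
  intro v σ hσ hur
  cases v with
  | none => exact absurd hur ((dat1.stRep hT hne h0).ramified hσ)
  | some P =>
    obtain ⟨S, hSne, hS⟩ := hσ
    have hinj := inj_of_irr (ρ := π.ρ.comp (single Fq (some P))) S hS hSne
    have htriv : ∀ g x, σ.ρ g x = x := by
      intro g x
      apply hinj
      rw [hS]
      exact fin_trivial hT hne P g (S x)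
    obtain ⟨x, hx⟩ := σ.nontriv
    obtain ⟨f, hf⟩ : ∃ f : Module.Dual ℂ σ.V, f x ≠ 0 := by
      by_contra hcon
      push Not at hcon
      exact hx ((Module.forall_dual_apply_eq_zero_iff ℂ x).mp hcon)
    exact ⟨f, ⟨x, hf⟩, fun g y => congrArg f (htriv g y)⟩

/-! ### the second representation -/

theorem dat2 {ψ₀ : AddChar Fq ℂ} (hψ : ψ₀ 1 ≠ 1) : Dat (klf ψ₀) 0 ⊥ where
  hfun := hFun_klf hψ
  smooth := smoothVec_klf ψ₀
  fixed f hf g := by
    rw [(Submodule.mem_bot ℂ).mp hf, map_zero]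
  left f hf γ g := by
    rw [(Submodule.mem_bot ℂ).mp hf]; rfl
  fin := inferInstance
  mem := Submodule.zero_mem _
  notMem h := by
    have h1 := congrFun ((Submodule.mem_bot ℂ).mp h) 1
    rw [klf_one] at h1
    exact one_ne_zero h1

/-- the second representation is cuspidal, hence its own lifting -/
theorem lift2 {ψ₀ : AddChar Fq ℂ} (hψ : ψ₀ 1 ≠ 1) {π : IrrRep (GA Fq)}
    {T : WW (klf ψ₀) ⊥ →ₗ[ℂ] π.V} (hs : Function.Surjective T)
    (hT : ∀ g f, T ((dat2 hψ).rp g f) = π.ρ g (T f)) : IsGlobalLifting π π := by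
  refine ⟨⟨(dat2 hψ).isAutomorphic hs hT, Or.inl
    ⟨WW (klf ψ₀) ⊥, (dat2 hψ).invW, ?_, T, hs, fun g f => hT g f⟩⟩, fun v σ h _ => h⟩
  intro f hf
  refine ⟨(dat2 hψ).automorphic hf, isCuspidal_cyc hψ ?_⟩
  unfold WW at hf
  rwa [sup_bot_eq] at hf

variable (Fq) in
/-- **Main theorem.** -/
theorem main : ¬ ∃ l : Irr (Gv Fq none) → Irr (Gv Fq none), ∀ π Pi : IrrRep (GA Fq),
    IsAutomorphic π → IsGlobalLifting π Pi → ∀ σ τ : IrrRep (Gv Fq none),
    IsLocalComponent π none σ → IsLocalComponent Pi none τ → l (Irr.mk σ) = Irr.mk τ := by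
  rintro ⟨l, hl⟩
  obtain ⟨ψ₀, hψ⟩ : ∃ ψ : AddChar Fq ℂ, ψ 1 ≠ 1 :=
    AddChar.exists_apply_ne_zero.mpr one_ne_zero
  obtain ⟨π₁, T₁, hs₁, hT₁, hne₁, h0₁⟩ := (dat1 (Fq := Fq)).exists_irr
  obtain ⟨π₂, T₂, hs₂, hT₂, hne₂, h0₂⟩ := (dat2 hψ).exists_irr
  have hx₁ := dat1.stRep hT₁ hne₁ h0₁
  have hx₂ := (dat2 hψ).stRep hT₂ hne₂ h0₂
  have e1 := hl π₁ (triv (GA Fq)) (dat1.isAutomorphic hs₁ hT₁) (lift1 hT₁ hne₁ h0₁) hx₁.comp
    (triv (Gv Fq none)) hx₁.comp_isLocal (triv_local none)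
  have e2 := hl π₂ π₂ ((dat2 hψ).isAutomorphic hs₂ hT₂) (lift2 hψ hs₂ hT₂) hx₂.comp hx₂.comp
    hx₂.comp_isLocal hx₂.comp_isLocal
  have e3 : Irr.mk hx₁.comp = Irr.mk hx₂.comp := (Irr.mk_eq_iff _ _).mpr (hx₁.iso hx₂)
  rw [← e3, e1, e3] at e2
  obtain ⟨e, he⟩ := (Irr.mk_eq_iff _ _).mp e2
  apply hx₂.ramified hx₂.comp_isLocal
  refine ⟨e (1 : ℂ), ?_, fun k _ => ?_⟩
  · intro h
    have h1 : (1 : ℂ) = 0 := (map_eq_zero_iff e e.injective).mp h
    exact one_ne_zero h1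
  · rw [← he]
    rfl

end

end Pool.Agent.H330R2
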