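import Pool.Agent.H306R2.RZ.Defs2

set_option autoImplicit false

/-! Bounds for the weights in the tail range (task TRw of project RZ). -/

namespace Pool.Agent.H330R2.RZ2

open Finset Filter Topology MeasureTheory
open Pool.Agent.H306R2.RZ

noncomputable section

/-- product of functions with bounded derivatives -/
private theorem prod_bd {f g : ℝ → ℝ} (hf : ContDiff ℝ ((⊤ : ℕ∞) : WithTop ℕ∞) f)
    (hg : ContDiff ℝ ((⊤ : ℕ∞) : WithTop ℕ∞) g) (j : ℕ) (τ A B : ℝ) (hA : 0 ≤ A)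
    (h1 : ∀ i ≤ j, |iteratedDeriv i f τ| ≤ A) (h2 : ∀ i ≤ j, |iteratedDeriv i g τ| ≤ B) :
    |iteratedDeriv j (fun t => f t * g t) τ| ≤ 2 ^ j * (A * B) := by
  have hB : 0 ≤ B := le_trans (abs_nonneg _) (h2 0 (Nat.zero_le _))
  have hj : ((j : ℕ) : WithTop ℕ∞) ≤ ((⊤ : ℕ∞) : WithTop ℕ∞) := by
    exact_mod_cast (le_top : ((j : ℕ) : ℕ∞) ≤ ⊤)
  have h := norm_iteratedFDeriv_mul_le hf hg τ hj
  simp only [norm_iteratedFDeriv_eq_norm_iteratedDeriv, Real.norm_eq_abs] at h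
  refine h.trans ?_
  calc ∑ i ∈ Finset.range (j + 1), (j.choose i : ℝ) * |iteratedDeriv i f τ| *
        |iteratedDeriv (j - i) g τ|
      ≤ ∑ i ∈ Finset.range (j + 1), (j.choose i : ℝ) * (A * B) := by
        apply Finset.sum_le_sum
        intro i hi
        rw [mul_assoc]
        apply mul_le_mul_of_nonneg_left _ (Nat.cast_nonneg _)
        exact mul_le_mul (h1 i (by have := Finset.mem_range.1 hi; omega)) (h2 _ (by omega))
          (abs_nonneg _) hA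
    _ = 2 ^ j * (A * B) := by
        rw [← Finset.sum_mul]
        congr 1
        exact_mod_cast Nat.sum_range_choose j

private theorem smooth_exp (a c : ℝ) :
    ContDiff ℝ ((⊤ : ℕ∞) : WithTop ℕ∞) (fun τ : ℝ => Real.exp (a * τ + c)) := by
  fun_prop

private theorem der_exp (a c : ℝ) (i : ℕ) :
    iteratedDeriv i (fun τ : ℝ => Real.exp (a * τ + c)) =
      fun τ => a ^ i * Real.exp (a * τ + c) := by
  induction i with
  | zero => funext τ; simp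
  | succ i ih =>
    rw [iteratedDeriv_succ, ih]
    funext τ
    have h1 : HasDerivAt (fun τ : ℝ => a * τ + c) a τ := by
      simpa using ((hasDerivAt_id τ).const_mul a).add_const c
    have h2 := (h1.exp).const_mul (a ^ i)
    rw [h2.deriv, pow_succ]
    ring

private theorem smooth_lin (c : ℝ) :
    ContDiff ℝ ((⊤ : ℕ∞) : WithTop ℕ∞) (fun τ : ℝ => τ + c) := by
  fun_prop

private theorem der_lin (c : ℝ) (hc : |c| ≤ 1) (i : ℕ) (τ : ℝ) :
    |iteratedDeriv i (fun τ : ℝ => τ + c) τ| ≤ 1 + |τ| := by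
  have hτ := abs_nonneg τ
  match i with
  | 0 =>
    rw [iteratedDeriv_zero]
    have := abs_add_le τ c
    linarith
  | 1 =>
    rw [iteratedDeriv_one]
    have : deriv (fun τ : ℝ => τ + c) τ = 1 := by
      simp
    rw [this]; simp
  | (i + 2) =>
    rw [iteratedDeriv_succ']
    have : deriv (fun τ : ℝ => τ + c) = fun _ => (1 : ℝ) := by
      funext t; simp
    rw [this, iteratedDeriv_const]
    simp
    linarith

/-- the derivatives of the partition function are bounded -/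
private theorem rho_bd {δ : ℝ} (hδ : 0 < δ) {ρ : ℝ → ℝ} (hρ : RH δ ρ) (k : ℕ) :
    ∃ R : ℝ, 0 < R ∧ ∀ j ≤ k, ∀ τ, |iteratedDeriv j ρ τ| ≤ R := by
  have key : ∀ j : ℕ, ∃ R : ℝ, 0 < R ∧ ∀ τ, |iteratedDeriv j ρ τ| ≤ R := by
    intro j
    have hcont : Continuous (iteratedDeriv j ρ) := by
      apply hρ.smooth.continuous_iteratedDeriv
      exact_mod_cast (le_top : ((j : ℕ) : ℕ∞) ≤ ⊤)
    obtain ⟨R, hR⟩ := (isCompact_Icc (a := -δ) (b := δ)).exists_bound_of_continuousOn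
      hcont.continuousOn
    refine ⟨max R 1, by positivity, fun τ => ?_⟩
    by_cases h1 : τ < -δ
    · have e1 : ρ =ᶠ[𝓝 τ] fun _ => 0 := by
        filter_upwards [Iio_mem_nhds h1] with t ht
        exact hρ.zero t (le_of_lt ht)
      rw [e1.iteratedDeriv_eq, iteratedDeriv_const]
      split_ifs <;> simp
    · by_cases h2 : δ < τ
      · have e1 : ρ =ᶠ[𝓝 τ] fun _ => 1 := by
          filter_upwards [Ioi_mem_nhds h2] with t ht
          have h3 := hρ.sym t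
          have h4 := hρ.zero (-t) (by have : δ < t := ht; linarith)
          linarith
        rw [e1.iteratedDeriv_eq, iteratedDeriv_const]
        split_ifs <;> simp
      · exact (hR τ ⟨by linarith, by linarith⟩).trans (le_max_left _ _)
  choose R hR0 hR using key
  refine ⟨∑ j ∈ Finset.range (k + 1), R j, ?_, ?_⟩
  · exact Finset.sum_pos (fun j _ => hR0 j) ⟨0, by simp⟩
  · intro j hj τ
    exact (hR j τ).trans (Finset.single_le_sum (f := R) (fun i _ => (hR0 i).le)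
      (Finset.mem_range.2 (by omega)))

private theorem pow_bd (x : ℝ) (hx : 0 ≤ x) (i k : ℕ) (hik : i ≤ k) :
    x ^ i ≤ (1 + x) ^ k := by
  calc x ^ i ≤ (1 + x) ^ i := pow_le_pow_left₀ hx (by linarith) i
    _ ≤ (1 + x) ^ k := pow_le_pow_right₀ (by linarith) hik

/-- first two functions -/
private theorem bd12 (k : ℕ) (x : ℝ) (hx : 0 ≤ x) (j : ℕ) (hj : j ≤ k) (τ : ℝ) :
    |iteratedDeriv j (Ex x) τ| ≤
      (2 ^ k * (1 + x) ^ k) * (1 + |τ|) * Real.exp (x * (τ - 1 / 2)) ∧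
    |iteratedDeriv j (Ex1 x) τ| ≤
      (2 ^ k * (1 + x) ^ k) * (1 + |τ|) * Real.exp (x * (τ - 1 / 2)) := by
  have eE : Ex x = fun τ => Real.exp (x * τ + (-(x / 2))) := by
    funext t; rw [Ex]; congr 1
  have eE1 : Ex1 x = fun τ => (τ + (-(1 / 2))) * Real.exp (x * τ + (-(x / 2))) := by
    funext t; rw [Ex1]; congr 1
  have hexp : ∀ i ≤ k, |iteratedDeriv i (fun τ => Real.exp (x * τ + (-(x / 2)))) τ| ≤
      (1 + x) ^ k * Real.exp (x * (τ - 1 / 2)) := by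
    intro i hi
    rw [der_exp]
    simp only
    rw [abs_of_nonneg (by positivity)]
    have : x * τ + -(x / 2) = x * (τ - 1 / 2) := by ring
    rw [this]
    exact mul_le_mul_of_nonneg_right (pow_bd x hx i k hi) (Real.exp_pos _).le
  have h1τ : 1 ≤ 1 + |τ| := by have := abs_nonneg τ; linarith
  have h2k : (1 : ℝ) ≤ 2 ^ k := one_le_pow₀ (by norm_num)
  constructor
  · rw [eE]
    refine (hexp j hj).trans ?_
    have hnn : 0 ≤ (1 + x) ^ k * Real.exp (x * (τ - 1 / 2)) := by positivity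
    calc (1 + x) ^ k * Real.exp (x * (τ - 1 / 2))
        = 1 * 1 * ((1 + x) ^ k * Real.exp (x * (τ - 1 / 2))) := by ring
      _ ≤ 2 ^ k * (1 + |τ|) * ((1 + x) ^ k * Real.exp (x * (τ - 1 / 2))) := by
          apply mul_le_mul_of_nonneg_right _ hnn
          exact mul_le_mul h2k h1τ (by norm_num) (by positivity)
      _ = _ := by ring
  · rw [eE1]
    have h := prod_bd (smooth_lin (-(1 / 2))) (smooth_exp x (-(x / 2))) j τ (1 + |τ|)
      ((1 + x) ^ k * Real.exp (x * (τ - 1 / 2))) (by positivity)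
      (fun i _ => der_lin _ (by norm_num [abs_of_nonneg]) i τ) (fun i hi => hexp i (by omega))
    refine h.trans ?_
    calc 2 ^ j * ((1 + |τ|) * ((1 + x) ^ k * Real.exp (x * (τ - 1 / 2))))
        ≤ 2 ^ k * ((1 + |τ|) * ((1 + x) ^ k * Real.exp (x * (τ - 1 / 2)))) := by
          apply mul_le_mul_of_nonneg_right _ (by positivity)
          exact pow_le_pow_right₀ (by norm_num) hj
      _ = _ := by ring

/-- the function `g(τ) = e^{-xτ} ρ(τ)` -/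
private def gg0 (ρ : ℝ → ℝ) (x τ : ℝ) : ℝ := Real.exp (-x * τ + 0) * ρ τ
private def mm0 (ρ : ℝ → ℝ) (x τ : ℝ) : ℝ := (τ + 1 / 2) * gg0 ρ x τ

private theorem gg0_smooth {δ : ℝ} {ρ : ℝ → ℝ} (hρ : RH δ ρ) (x : ℝ) :
    ContDiff ℝ ((⊤ : ℕ∞) : WithTop ℕ∞) (gg0 ρ x) :=
  (smooth_exp (-x) 0).mul hρ.smooth

private theorem mm0_smooth {δ : ℝ} {ρ : ℝ → ℝ} (hρ : RH δ ρ) (x : ℝ) :
    ContDiff ℝ ((⊤ : ℕ∞) : WithTop ℕ∞) (mm0 ρ x) :=
  (smooth_lin (1 / 2)).mul (gg0_smooth hρ x)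

private theorem gg0_bd {δ : ℝ} {ρ : ℝ → ℝ} (hρ : RH δ ρ) (k : ℕ)
    (R : ℝ) (hR0 : 0 < R) (hR : ∀ j ≤ k, ∀ τ, |iteratedDeriv j ρ τ| ≤ R) (x : ℝ) (hx : 0 ≤ x)
    (j : ℕ) (hj : j ≤ k) (τ : ℝ) :
    |iteratedDeriv j (gg0 ρ x) τ| ≤ 2 ^ k * ((1 + x) ^ k * Real.exp (x * δ) * R) := by
  by_cases h1 : τ < -δ
  · have e1 : gg0 ρ x =ᶠ[𝓝 τ] fun _ => 0 := by
      filter_upwards [Iio_mem_nhds h1] with t ht
      rw [gg0, hρ.zero t (le_of_lt ht), mul_zero]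
    rw [e1.iteratedDeriv_eq, iteratedDeriv_const]
    have : (0 : ℝ) ≤ 2 ^ k * ((1 + x) ^ k * Real.exp (x * δ) * R) := by positivity
    split_ifs <;> simpa using this
  · have hexp : ∀ i ≤ j, |iteratedDeriv i (fun τ => Real.exp (-x * τ + 0)) τ| ≤
        (1 + x) ^ k * Real.exp (x * δ) := by
      intro i hi
      rw [der_exp]
      simp only
      rw [abs_mul, abs_pow, abs_neg, abs_of_nonneg hx, abs_of_pos (Real.exp_pos _)]
      apply mul_le_mul (pow_bd x hx i k (by omega)) _ (Real.exp_pos _).le (by positivity)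
      apply Real.exp_le_exp.2
      nlinarith
    have h := prod_bd (smooth_exp (-x) 0) hρ.smooth j τ
      ((1 + x) ^ k * Real.exp (x * δ)) R (by positivity) hexp (fun i hi => hR i (by omega) τ)
    refine h.trans ?_
    apply mul_le_mul_of_nonneg_right _ (by positivity)
    exact pow_le_pow_right₀ (by norm_num) hj

private theorem mm0_bd {δ : ℝ} {ρ : ℝ → ℝ} (hρ : RH δ ρ) (k : ℕ)
    (R : ℝ) (hR0 : 0 < R) (hR : ∀ j ≤ k, ∀ τ, |iteratedDeriv j ρ τ| ≤ R) (x : ℝ) (hx : 0 ≤ x)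
    (j : ℕ) (hj : j ≤ k) (τ : ℝ) :
    |iteratedDeriv j (mm0 ρ x) τ| ≤
      2 ^ k * ((1 + |τ|) * (2 ^ k * ((1 + x) ^ k * Real.exp (x * δ) * R))) := by
  have h := prod_bd (smooth_lin (1 / 2)) (gg0_smooth hρ x) j τ (1 + |τ|)
    (2 ^ k * ((1 + x) ^ k * Real.exp (x * δ) * R)) (by positivity)
    (fun i _ => der_lin _ (by norm_num [abs_of_nonneg]) i τ)
    (fun i hi => gg0_bd hρ k R hR0 hR x hx i (by omega) τ)
  refine h.trans ?_
  apply mul_le_mul_of_nonneg_right _ (by positivity)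
  exact pow_le_pow_right₀ (by norm_num) hj

private theorem rho_neg {δ : ℝ} {ρ : ℝ → ℝ} (hρ : RH δ ρ) (τ : ℝ) : ρ (-τ) = 1 - ρ τ := by
  have := hρ.sym τ
  linarith

private theorem e3 {δ : ℝ} {ρ : ℝ → ℝ} (hρ : RH δ ρ) (x : ℝ) :
    (fun τ => Ex x τ - Ph ρ x τ) =
      fun τ => Real.exp (-(x / 2)) * (gg0 ρ x (-τ) - gg0 ρ x τ) := by
  funext τ
  rw [Ex, Ph, gg0, gg0, rho_neg hρ, Real.cosh_eq]
  have h1 : Real.exp (x * τ - x / 2) = Real.exp (-(x / 2)) * Real.exp (x * τ) := by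
    rw [← Real.exp_add]; congr 1; ring
  have h2 : Real.exp (-x * -τ + 0) = Real.exp (x * τ) := by congr 1; ring
  have h3 : Real.exp (-x * τ + 0) = Real.exp (-(x * τ)) := by congr 1; ring
  rw [h1, h2, h3]
  ring

private theorem e4 {δ : ℝ} {ρ : ℝ → ℝ} (hρ : RH δ ρ) (x : ℝ) :
    (fun τ => Ex1 x τ - Ph1 ρ x τ) =
      fun τ => Real.exp (-(x / 2)) * (mm0 ρ x τ - mm0 ρ x (-τ)) := by
  funext τ
  rw [Ex1, Ph1, mm0, mm0, gg0, gg0, rho_neg hρ, Real.cosh_eq, Real.sinh_eq]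
  have h1 : Real.exp (x * τ - x / 2) = Real.exp (-(x / 2)) * Real.exp (x * τ) := by
    rw [← Real.exp_add]; congr 1; ring
  have h2 : Real.exp (-x * -τ + 0) = Real.exp (x * τ) := by congr 1; ring
  have h3 : Real.exp (-x * τ + 0) = Real.exp (-(x * τ)) := by congr 1; ring
  rw [h1, h2, h3]
  ring

private theorem diff_bd (h : ℝ → ℝ) (hs : ContDiff ℝ ((⊤ : ℕ∞) : WithTop ℕ∞) h) (j : ℕ)
    (τ a M : ℝ) (ha : 0 ≤ a) (h1 : |iteratedDeriv j h τ| ≤ M)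
    (h2 : |iteratedDeriv j h (-τ)| ≤ M) :
    |iteratedDeriv j (fun t => a * (h (-t) - h t)) τ| ≤ a * (2 * M) ∧
    |iteratedDeriv j (fun t => a * (h t - h (-t))) τ| ≤ a * (2 * M) := by
  have hj : ((j : ℕ) : WithTop ℕ∞) ≤ ((⊤ : ℕ∞) : WithTop ℕ∞) := by
    exact_mod_cast (le_top : ((j : ℕ) : ℕ∞) ≤ ⊤)
  have hsn : ContDiff ℝ ((⊤ : ℕ∞) : WithTop ℕ∞) (fun t => h (-t)) := hs.comp contDiff_neg
  have c1 : ContDiffAt ℝ j h τ := (hs.of_le hj).contDiffAt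
  have c2 : ContDiffAt ℝ j (fun t => h (-t)) τ := (hsn.of_le hj).contDiffAt
  have e0 : |iteratedDeriv j (fun t => h (-t)) τ| ≤ M := by
    rw [iteratedDeriv_comp_neg, smul_eq_mul, abs_mul, abs_pow, abs_neg, abs_one, one_pow, one_mul]
    exact h2
  constructor
  · rw [iteratedDeriv_const_mul a (c2.sub c1), iteratedDeriv_fun_sub c2 c1, abs_mul,
      abs_of_nonneg ha]
    apply mul_le_mul_of_nonneg_left _ ha
    have := abs_sub (iteratedDeriv j (fun t => h (-t)) τ) (iteratedDeriv j h τ)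
    linarith
  · rw [iteratedDeriv_const_mul a (c1.sub c2), iteratedDeriv_fun_sub c1 c2, abs_mul,
      abs_of_nonneg ha]
    apply mul_le_mul_of_nonneg_left _ ha
    have := abs_sub (iteratedDeriv j h τ) (iteratedDeriv j (fun t => h (-t)) τ)
    linarith

/-- last two functions -/
private theorem bd34 {δ : ℝ} {ρ : ℝ → ℝ} (hρ : RH δ ρ) (hδ1 : δ ≤ 1 / 8) (k : ℕ)
    (R : ℝ) (hR0 : 0 < R) (hR : ∀ j ≤ k, ∀ τ, |iteratedDeriv j ρ τ| ≤ R) (x : ℝ) (hx : 0 ≤ x)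
    (j : ℕ) (hj : j ≤ k) (τ : ℝ) :
    |iteratedDeriv j (fun τ => Ex x τ - Ph ρ x τ) τ| ≤
      (2 * 4 ^ k * R) * (1 + x) ^ k * Real.exp (-(x / 4)) * (1 + |τ|) ∧
    |iteratedDeriv j (fun τ => Ex1 x τ - Ph1 ρ x τ) τ| ≤
      (2 * 4 ^ k * R) * (1 + x) ^ k * Real.exp (-(x / 4)) * (1 + |τ|) := by
  have h4k : (4 : ℝ) ^ k = 2 ^ k * 2 ^ k := by rw [← mul_pow]; norm_num
  have h2k : (1 : ℝ) ≤ 2 ^ k := one_le_pow₀ (by norm_num)
  have h1τ : 1 ≤ 1 + |τ| := by have := abs_nonneg τ; linarith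
  have hexp : Real.exp (-(x / 2)) * Real.exp (x * δ) ≤ Real.exp (-(x / 4)) := by
    rw [← Real.exp_add]
    apply Real.exp_le_exp.2
    nlinarith
  constructor
  · rw [e3 hρ]
    have h := (diff_bd (gg0 ρ x) (gg0_smooth hρ x) j τ (Real.exp (-(x / 2)))
      (2 ^ k * ((1 + x) ^ k * Real.exp (x * δ) * R)) (Real.exp_pos _).le
      (gg0_bd hρ k R hR0 hR x hx j hj τ) (gg0_bd hρ k R hR0 hR x hx j hj (-τ))).1
    refine h.trans ?_
    calc Real.exp (-(x / 2)) * (2 * (2 ^ k * ((1 + x) ^ k * Real.exp (x * δ) * R)))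
        = (2 * 2 ^ k * R * (1 + x) ^ k) * (Real.exp (-(x / 2)) * Real.exp (x * δ)) := by ring
      _ ≤ (2 * 2 ^ k * R * (1 + x) ^ k) * Real.exp (-(x / 4)) := by
          apply mul_le_mul_of_nonneg_left hexp (by positivity)
      _ = (1 * 1) * ((2 * 2 ^ k * R * (1 + x) ^ k) * Real.exp (-(x / 4))) := by ring
      _ ≤ (2 ^ k * (1 + |τ|)) * ((2 * 2 ^ k * R * (1 + x) ^ k) * Real.exp (-(x / 4))) := by
          apply mul_le_mul_of_nonneg_right _ (by positivity)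
          exact mul_le_mul h2k h1τ (by norm_num) (by positivity)
      _ = _ := by rw [h4k]; ring
  · rw [e4 hρ]
    have hneg : 1 + |-τ| = 1 + |τ| := by rw [abs_neg]
    have hm2 := mm0_bd hρ k R hR0 hR x hx j hj (-τ)
    rw [hneg] at hm2
    have h := (diff_bd (mm0 ρ x) (mm0_smooth hρ x) j τ (Real.exp (-(x / 2)))
      (2 ^ k * ((1 + |τ|) * (2 ^ k * ((1 + x) ^ k * Real.exp (x * δ) * R)))) (Real.exp_pos _).le
      (mm0_bd hρ k R hR0 hR x hx j hj τ) hm2).2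
    refine h.trans ?_
    calc Real.exp (-(x / 2)) * (2 * (2 ^ k * ((1 + |τ|) *
          (2 ^ k * ((1 + x) ^ k * Real.exp (x * δ) * R)))))
        = (2 * (2 ^ k * 2 ^ k) * R * (1 + x) ^ k * (1 + |τ|)) *
            (Real.exp (-(x / 2)) * Real.exp (x * δ)) := by ring
      _ ≤ (2 * (2 ^ k * 2 ^ k) * R * (1 + x) ^ k * (1 + |τ|)) * Real.exp (-(x / 4)) := by
          apply mul_le_mul_of_nonneg_left hexp (by positivity)
      _ = _ := by rw [h4k]; ring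

private theorem Ex_smooth (x : ℝ) : ContDiff ℝ ((⊤ : ℕ∞) : WithTop ℕ∞) (Ex x) := by
  unfold Ex; fun_prop

private theorem Ex1_smooth (x : ℝ) : ContDiff ℝ ((⊤ : ℕ∞) : WithTop ℕ∞) (Ex1 x) := by
  unfold Ex1; fun_prop

/-- TRw, with the kernel bounds as a hypothesis -/
theorem TRw_of (hKB : ∀ (k : ℕ) (b : ℝ) (_ : 0 ≤ b), ∃ C L0 : ℝ, 0 < C ∧ 0 < L0 ∧
    ∀ (L β x : ℝ) (Φ : ℝ → ℝ),
    L0 ≤ L → |β| ≤ b / L → 0 ≤ x → x ≤ L / 2 → ContDiff ℝ ((⊤ : ℕ∞) : WithTop ℕ∞) Φ →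
    (∀ j : ℕ, ∃ B : ℝ, ∀ τ, |iteratedDeriv j Φ τ| ≤ B * (1 + |τ|) * Real.exp (x * (τ - 1 / 2))) →
    ContDiff ℝ ((⊤ : ℕ∞) : WithTop ℕ∞) (KW L β Φ) ∧
    (∀ (j : ℕ) (y : ℝ), iteratedDeriv j (KW L β Φ) y = (-1) ^ j * KW L β (iteratedDeriv j Φ) y) ∧
    (∀ y : ℝ, HasDerivAt (fun z => KW L z Φ y) (KW L β (deriv Φ) y) β) ∧
    (∀ B : ℝ, (∀ j ≤ k, ∀ τ, |iteratedDeriv j Φ τ| ≤
        B * (1 + |τ|) * Real.exp (x * (τ - 1 / 2))) →
      ∀ j ≤ k, ∀ y, |iteratedDeriv j (KW L β Φ) y| ≤ C * B * (1 + |y|) * Real.exp (-(x * y))))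
    (δ b : ℝ) (hδ : 0 < δ) (hδ1 : δ ≤ 1 / 8) (hb : 0 ≤ b) (ρ : ℝ → ℝ) (hρ : RH δ ρ)
    (k : ℕ) : ∃ C L0 : ℝ, 0 < C ∧ 0 < L0 ∧ ∀ (L β x : ℝ), L0 ≤ L → |β| ≤ b / L → 1 ≤ x → x ≤ L / 2 →
    ∀ (j : ℕ) (y : ℝ), j ≤ k →
      |iteratedDeriv j (KW L β (Ex x)) y| ≤ C * (1 + x) ^ k * (1 + |y|) * Real.exp (-(x * y)) ∧
      |iteratedDeriv j (KW L β (Ex1 x)) y| ≤ C * (1 + x) ^ k * (1 + |y|) * Real.exp (-(x * y)) ∧
      |iteratedDeriv j (KW L β (fun τ => Ex x τ - Ph ρ x τ)) y| ≤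
        C * (1 + x) ^ k * (1 + |y|) * Real.exp (-(x / 4)) ∧
      |iteratedDeriv j (KW L β (fun τ => Ex1 x τ - Ph1 ρ x τ)) y| ≤
        C * (1 + x) ^ k * (1 + |y|) * Real.exp (-(x / 4)) := by
  obtain ⟨C, L0, hC, hL0, H⟩ := hKB k b hb
  obtain ⟨R, hR0, hR⟩ := rho_bd hδ hρ k
  refine ⟨C * (2 ^ k + 2 * 4 ^ k * R), L0, by positivity, hL0, ?_⟩
  intro L β x hL hβ hx1 hx2 j y hj
  have hx : 0 ≤ x := by linarith
  have hL' : 0 ≤ L / 2 := by linarith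
  -- the factors
  have f1 : C * (2 ^ k * (1 + x) ^ k) * (1 + |y|) * Real.exp (-(x * y)) ≤
      C * (2 ^ k + 2 * 4 ^ k * R) * (1 + x) ^ k * (1 + |y|) * Real.exp (-(x * y)) := by
    have e : C * (2 ^ k * (1 + x) ^ k) * (1 + |y|) * Real.exp (-(x * y)) +
        C * (2 * 4 ^ k * R) * (1 + x) ^ k * (1 + |y|) * Real.exp (-(x * y)) =
        C * (2 ^ k + 2 * 4 ^ k * R) * (1 + x) ^ k * (1 + |y|) * Real.exp (-(x * y)) := by ring
    have e2 : 0 ≤ C * (2 * 4 ^ k * R) * (1 + x) ^ k * (1 + |y|) * Real.exp (-(x * y)) := by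
      positivity
    linarith
  have f2 : C * ((2 * 4 ^ k * R) * (1 + x) ^ k * Real.exp (-(x / 4))) * (1 + |y|) *
      Real.exp (-(0 * y)) ≤
      C * (2 ^ k + 2 * 4 ^ k * R) * (1 + x) ^ k * (1 + |y|) * Real.exp (-(x / 4)) := by
    have e : C * ((2 * 4 ^ k * R) * (1 + x) ^ k * Real.exp (-(x / 4))) * (1 + |y|) *
        Real.exp (-(0 * y)) + C * 2 ^ k * (1 + x) ^ k * (1 + |y|) * Real.exp (-(x / 4)) =
        C * (2 ^ k + 2 * 4 ^ k * R) * (1 + x) ^ k * (1 + |y|) * Real.exp (-(x / 4)) := by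
      rw [zero_mul, neg_zero, Real.exp_zero]; ring
    have e2 : 0 ≤ C * 2 ^ k * (1 + x) ^ k * (1 + |y|) * Real.exp (-(x / 4)) := by
      positivity
    linarith
  -- smoothness of the differences
  have s3 : ContDiff ℝ ((⊤ : ℕ∞) : WithTop ℕ∞) (fun τ => Ex x τ - Ph ρ x τ) := by
    rw [e3 hρ]
    exact contDiff_const.mul (((gg0_smooth hρ x).comp contDiff_neg).sub (gg0_smooth hρ x))
  have s4 : ContDiff ℝ ((⊤ : ℕ∞) : WithTop ℕ∞) (fun τ => Ex1 x τ - Ph1 ρ x τ) := by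
    rw [e4 hρ]
    exact contDiff_const.mul ((mm0_smooth hρ x).sub ((mm0_smooth hρ x).comp contDiff_neg))
  have hz : ∀ τ : ℝ, Real.exp (0 * (τ - 1 / 2)) = 1 := by
    intro τ; rw [zero_mul, Real.exp_zero]
  refine ⟨?_, ?_, ?_, ?_⟩
  · have h := (H L β x (Ex x) hL hβ hx hx2 (Ex_smooth x) (fun i =>
      ⟨2 ^ i * (1 + x) ^ i, fun τ => (bd12 i x hx i le_rfl τ).1⟩)).2.2.2
      (2 ^ k * (1 + x) ^ k) (fun i hi τ => (bd12 k x hx i hi τ).1) j hj y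
    exact h.trans f1
  · have h := (H L β x (Ex1 x) hL hβ hx hx2 (Ex1_smooth x) (fun i =>
      ⟨2 ^ i * (1 + x) ^ i, fun τ => (bd12 i x hx i le_rfl τ).2⟩)).2.2.2
      (2 ^ k * (1 + x) ^ k) (fun i hi τ => (bd12 k x hx i hi τ).2) j hj y
    exact h.trans f1
  · have h := (H L β 0 (fun τ => Ex x τ - Ph ρ x τ) hL hβ le_rfl hL' s3 (fun i => by
      obtain ⟨R', hR0', hR'⟩ := rho_bd hδ hρ i
      refine ⟨(2 * 4 ^ i * R') * (1 + x) ^ i * Real.exp (-(x / 4)), fun τ => ?_⟩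
      rw [hz, mul_one]
      exact (bd34 hρ hδ1 i R' hR0' hR' x hx i le_rfl τ).1)).2.2.2
      ((2 * 4 ^ k * R) * (1 + x) ^ k * Real.exp (-(x / 4))) (fun i hi τ => by
        rw [hz, mul_one]
        exact (bd34 hρ hδ1 k R hR0 hR x hx i hi τ).1) j hj y
    exact h.trans f2
  · have h := (H L β 0 (fun τ => Ex1 x τ - Ph1 ρ x τ) hL hβ le_rfl hL' s4 (fun i => by
      obtain ⟨R', hR0', hR'⟩ := rho_bd hδ hρ i
      refine ⟨(2 * 4 ^ i * R') * (1 + x) ^ i * Real.exp (-(x / 4)), fun τ => ?_⟩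
      rw [hz, mul_one]
      exact (bd34 hρ hδ1 i R' hR0' hR' x hx i le_rfl τ).2)).2.2.2
      ((2 * 4 ^ k * R) * (1 + x) ^ k * Real.exp (-(x / 4))) (fun i hi τ => by
        rw [hz, mul_one]
        exact (bd34 hρ hδ1 k R hR0 hR x hx i hi τ).2) j hj y
    exact h.trans f2

end

end Pool.Agent.H330R2.RZ2
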