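import Mathlib
import Pool.Agent.H330R2.Rp

/-!
# Automorphic representations of `GL₂` over the rational function field `K = F_q(T)`

All definitions used in the statement of the theorem.
-/

namespace Pool.Agent.H330R2.St

open IsDedekindDomain Polynomial WithZero RestrictedProduct

noncomputable section

/-! ## Generalities on representations of topological groups -/

section General

variable {G H : Type} [Group G] [TopologicalSpace G] [Group H] [TopologicalSpace H]

/-- `σ` (a representation of the group `H`) occurs in the restriction of `π` along `ι : H → G`. -/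
def Occurs (ι : H → G) (π : IrrRep G) (σ : IrrRep H) : Prop :=
  ∃ T : σ.V →ₗ[ℂ] π.V, (∃ x, T x ≠ 0) ∧ ∀ h x, T (σ.ρ h x) = π.ρ (ι h) (T x)

/-- There is a nonzero vector fixed by `K`. -/
def HasFixed (K : Subgroup G) (σ : IrrRep G) : Prop :=
  ∃ x : σ.V, x ≠ 0 ∧ ∀ k ∈ K, σ.ρ k x = x

/-- The right translate of a function by `g`. -/
def tr (g : G) (f : G → ℂ) : G → ℂ := fun x => f (x * g)

/-- Automorphic forms on `G` with respect to a subset `Γ`: functions which are left invariant under
`Γ`, right invariant under an open subgroup, and which generate an admissible representation (for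
every open subgroup `U`, the `U`-fixed functions in the span of all right translates are contained
in a finite dimensional space). -/
structure IsAutForm (Γ : Set G) (f : G → ℂ) : Prop where
  left_inv : ∀ γ ∈ Γ, ∀ g, f (γ * g) = f g
  smooth : ∃ U : Subgroup G, IsOpen (U : Set G) ∧ ∀ u ∈ U, tr u f = f
  admissible : ∀ U : Subgroup G, IsOpen (U : Set G) →
    ∃ E : Submodule ℂ (G → ℂ), Module.Finite ℂ E ∧
      ∀ f' ∈ Submodule.span ℂ (Set.range fun g => tr g f), (∀ u ∈ U, tr u f' = f') → f' ∈ E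

/-- `π` is isomorphic to a quotient of a space `W` of functions on `G`, invariant under right
translations and consisting of functions with the property `P`: there is a linear map `T` whose
restriction to `W` is equivariant and has image `π`. -/
def IsConstituent (P : (G → ℂ) → Prop) (π : IrrRep G) : Prop :=
  ∃ W : Submodule ℂ (G → ℂ), (∀ f ∈ W, P f ∧ ∀ g, tr g f ∈ W) ∧
    ∃ T : (G → ℂ) →ₗ[ℂ] π.V, (∀ x, ∃ f ∈ W, T f = x) ∧ ∀ f ∈ W, ∀ g, T (tr g f) = π.ρ g (T f)

end General

/-! ## The group `GL₂(F)` for a field `F` -/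

section Local

/-- The group `GL₂(F)`. -/
def G2 (F : Type) [Field F] : Type := GL (Fin 2) F

variable {F : Type} [Field F]

instance : Group (G2 F) := (inferInstance : Group (GL (Fin 2) F))

instance [TopologicalSpace F] : TopologicalSpace (G2 F) :=
  (inferInstance : TopologicalSpace (GL (Fin 2) F))

/-- The entries of an element of `GL₂(F)`. -/
def entry (g : G2 F) (i j : Fin 2) : F := Units.val (α := Matrix (Fin 2) (Fin 2) F) g i j

/-- The matrix `[[a, x], [0, d]]`. -/
def tri (a d : Fˣ) (x : F) : G2 F :=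
  Matrix.GeneralLinearGroup.mkOfDetNeZero !![(a : F), x; 0, (d : F)] (by simp)

/-- The subgroup `GL₂(O)` of `GL₂(F)`, where `O` is the ring of integers of the valuation `w`. -/
def integral (w : Valuation F ℤᵐ⁰) : Subgroup (G2 F) :=
  (Matrix.GeneralLinearGroup.map (n := Fin 2) w.integer.subtype).range

variable [TopologicalSpace F]

/-- The space of the (normalised) induced representation `Ind(μ₁, μ₂)` of `GL₂(F)`: smooth functions
`h` with `h([[a, x], [0, d]] g) = μ₁(a) μ₂(d) |a/d|^{1/2} h(g)`. -/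
def indSpace (abs : Fˣ → ℝ) (μ₁ μ₂ : Fˣ →* ℂˣ) : Set (G2 F → ℂ) :=
  {h | (∀ (a d : Fˣ) (x : F) (g : G2 F),
      h (tri a d x * g) = (μ₁ a : ℂ) * (μ₂ d : ℂ) * ((Real.sqrt (abs (a / d)) : ℝ) : ℂ) * h g) ∧
    ∃ U : Subgroup (G2 F), IsOpen (U : Set (G2 F)) ∧ ∀ u ∈ U, tr u h = h}

/-- `σ` is isomorphic to a subrepresentation of the induced representation `Ind(μ₁, μ₂)`. -/
def EmbedsInInd (abs : Fˣ → ℝ) (μ₁ μ₂ : Fˣ →* ℂˣ) (σ : IrrRep (G2 F)) : Prop :=
  ∃ T : σ.V →ₗ[ℂ] (G2 F → ℂ), Function.Injective T ∧ (∀ x, T x ∈ indSpace abs μ₁ μ₂) ∧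
    ∀ g x, T (σ.ρ g x) = tr g (T x)

end Local

/-! ## The field `K = F_q(T)`, its places, completions and adeles -/

variable (Fq : Type) [Field Fq]

/-- The completion `K_v`. -/
def Kv (v : Place Fq) : Type := (placeVal Fq v).Completion

section

variable (v : Place Fq)

instance : Field (Kv Fq v) := (inferInstance : Field (placeVal Fq v).Completion)

instance : TopologicalSpace (Kv Fq v) :=
  (inferInstance : TopologicalSpace (placeVal Fq v).Completion)

/-- The valuation of `K_v`. -/
def val : Valuation (Kv Fq v) ℤᵐ⁰ := Valued.v (R := (placeVal Fq v).Completion)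

/-- The embedding `K → K_v`. -/
def toKv (x : RatFunc Fq) : Kv Fq v :=
  ((WithVal.toVal (placeVal Fq v) x : WithVal (placeVal Fq v)) :
    UniformSpace.Completion (WithVal (placeVal Fq v)))

/-- The normalised absolute value of a nonzero element of `K_v`. -/
def absv (x : (Kv Fq v)ˣ) : ℝ := (qv v : ℝ) ^ log (val Fq v x)

/-- The ring of integers `O_v` of `K_v`. -/
def Ov : Subring (Kv Fq v) := (val Fq v).integer

/-- The maximal compact subgroup `GL₂(O_v)` of `GL₂(K_v)`. -/
def GLO : Subgroup (G2 (Kv Fq v)) := integral (val Fq v)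

end

/-- The adele ring `A_K` (restricted product of the `K_v` with respect to the `O_v`). -/
def AK : Type := Πʳ v : Place Fq, [Kv Fq v, Ov Fq v]

instance : AddCommGroup (AK Fq) :=
  (inferInstance : AddCommGroup (Πʳ v : Place Fq, [Kv Fq v, Ov Fq v]))

instance : TopologicalSpace (AK Fq) :=
  (inferInstance : TopologicalSpace (Πʳ v : Place Fq, [Kv Fq v, Ov Fq v]))

/-- The adelic group `GL₂(A_K)` (restricted product of the `GL₂(K_v)` with respect to the
`GL₂(O_v)`). -/
def GA : Type := Πʳ v : Place Fq, [G2 (Kv Fq v), GLO Fq v]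

instance : Group (GA Fq) :=
  (inferInstance : Group (Πʳ v : Place Fq, [G2 (Kv Fq v), GLO Fq v]))

instance : TopologicalSpace (GA Fq) :=
  (inferInstance : TopologicalSpace (Πʳ v : Place Fq, [G2 (Kv Fq v), GLO Fq v]))

variable {Fq}

/-- The component `a_v` of an adele. -/
def AK.comp (a : AK Fq) (v : Place Fq) : Kv Fq v := a.1 v

/-- The component `g_v` of an element of `GL₂(A_K)`. -/
def GA.comp (g : GA Fq) (v : Place Fq) : G2 (Kv Fq v) := g.1 v

variable (Fq)

/-- The principal adeles: the image of `K` in `A_K`. -/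
def principal : Set (AK Fq) := {a | ∃ y : RatFunc Fq, ∀ v, a.comp v = toKv Fq v y}

/-- The rational points: the image of `GL₂(K)` in `GL₂(A_K)`. -/
def rational : Set (GA Fq) :=
  {g | ∃ γ : G2 (RatFunc Fq), ∀ v i j, entry (g.comp v) i j = toKv Fq v (entry γ i j)}

variable {Fq}

lemma uni_mem (v : Place Fq) {x : Kv Fq v} (hx : x ∈ Ov Fq v) : tri 1 1 x ∈ GLO Fq v := by
  refine ⟨Matrix.GeneralLinearGroup.mk'' (R := (val Fq v).integer) !![1, ⟨x, hx⟩; 0, 1]
    (by simp), ?_⟩
  apply Units.ext
  ext i j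
  fin_cases i <;> fin_cases j <;> rfl

/-- The element `[[1, x], [0, 1]]` of `GL₂(A_K)`, for an adele `x`. -/
def uni (x : AK Fq) : GA Fq :=
  ⟨fun v => tri 1 1 (x.comp v), x.2.mono fun v hv => uni_mem v hv⟩

open Classical in
/-- The embedding of `GL₂(K_v)` into `GL₂(A_K)`. -/
def single (v : Place Fq) (g : G2 (Kv Fq v)) : GA Fq :=
  RestrictedProduct.mulSingle (GLO Fq) v g

/-! ## Automorphic representations -/

/-- Cuspidal functions: for every `g`, the integral of `x ↦ f([[1, x], [0, 1]] g)` over the compact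
group `A_K / K` vanishes. If `𝔲` is an open subgroup of `A_K` under which this function is
invariant, the integral is (up to a positive constant) the sum over the finite group
`A_K / (K + 𝔲)`. -/
def IsCuspidal (f : GA Fq → ℂ) : Prop :=
  ∀ g : GA Fq, ∀ 𝔲 : AddSubgroup (AK Fq), IsOpen (𝔲 : Set (AK Fq)) →
    (∀ x, ∀ u ∈ 𝔲, f (uni (x + u) * g) = f (uni x * g)) →
    ∑ᶠ c : AK Fq ⧸ (AddSubgroup.closure (principal Fq) ⊔ 𝔲), f (uni c.out * g) = 0

/-- Automorphic representations: irreducible subquotients of the space of automorphic forms. -/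
def IsAutomorphic (π : IrrRep (GA Fq)) : Prop := IsConstituent (IsAutForm (rational Fq)) π

/-- Cuspidal automorphic representations: irreducible subquotients of the space of cusp forms. -/
def IsCuspidalRep (π : IrrRep (GA Fq)) : Prop :=
  IsConstituent (fun f => IsAutForm (rational Fq) f ∧ IsCuspidal f) π

/-- `σ` is the local component `π_v` of `π = ⊗ π_v`: the restriction of `π` to `GL₂(K_v)` is a
multiple of `π_v`, so this says that `σ` occurs in it. -/
def IsLocalComponent (π : IrrRep (GA Fq)) (v : Place Fq) (σ : IrrRep (G2 (Kv Fq v))) : Prop :=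
  Occurs (single v) π σ

variable (Fq) in
/-- A Hecke character `χ = ⊗ χ_v` of `K`: a family of characters of the groups `K_v^×` with open
kernels, almost all unramified, with `∏_v χ_v(x) = 1` for `x` in `K^×`. -/
structure HeckeChar where
  /-- the local components -/
  χ : ∀ v : Place Fq, (Kv Fq v)ˣ →* ℂˣ
  smooth : ∀ v, IsOpen ((χ v).ker : Set (Kv Fq v)ˣ)
  unram : ∀ᶠ v in Filter.cofinite, ∀ x : (Kv Fq v)ˣ, val Fq v x = 1 → χ v x = 1
  trivial : ∀ (x : RatFunc Fq) (y : ∀ v, (Kv Fq v)ˣ), x ≠ 0 → (∀ v, (y v : Kv Fq v) = toKv Fq v x) →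
    ∏ᶠ v, χ v (y v) = 1

/-- The isobaric sum of two Hecke characters `χ₁ ⊞ χ₂`: we may number the two characters such that
`|χ₁| = |·|^{s₁}`, `|χ₂| = |·|^{s₂}` with `s₁ ≥ s₂`, i.e. such that `|χ₁(x)| ≤ |χ₂(x)|` for
integral `x`; then the component of `χ₁ ⊞ χ₂` at `v` is the Langlands quotient of
`Ind(χ₁_v, χ₂_v)`, which is the unique irreducible subrepresentation of `Ind(χ₂_v, χ₁_v)`. -/
def IsIsobaricSum (π : IrrRep (GA Fq)) (χ₁ χ₂ : HeckeChar Fq) : Prop :=
  (∀ (v : Place Fq) (x : (Kv Fq v)ˣ), val Fq v x ≤ 1 → ‖(χ₁.χ v x : ℂ)‖ ≤ ‖(χ₂.χ v x : ℂ)‖) ∧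
  ∀ (v : Place Fq) (σ : IrrRep (G2 (Kv Fq v))), IsLocalComponent π v σ →
    EmbedsInInd (absv Fq v) (χ₂.χ v) (χ₁.χ v) σ

/-- Isobaric automorphic representations of `GL₂(A_K)`: the cuspidal ones, and the isobaric sums
of two Hecke characters. -/
def IsIsobaric (π : IrrRep (GA Fq)) : Prop :=
  IsAutomorphic π ∧ (IsCuspidalRep π ∨ ∃ χ₁ χ₂ : HeckeChar Fq, IsIsobaricSum π χ₁ χ₂)

/-- `Π` is a global lifting of `π` for the standard representation `ρ = id` of
`GL₂(ℂ) = GL₂^∨`: `Π` is an isobaric automorphic representation of `GL₂(A_K)` with `Π_v = π_v` at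
every place `v` at which `π_v` is unramified, i.e. has a nonzero `GL₂(O_v)`-fixed vector. -/
def IsGlobalLifting (π Pi : IrrRep (GA Fq)) : Prop :=
  IsIsobaric Pi ∧ ∀ (v : Place Fq) (σ : IrrRep (G2 (Kv Fq v))),
    IsLocalComponent π v σ → HasFixed (GLO Fq v) σ → IsLocalComponent Pi v σ

end

end Pool.Agent.H330R2.St
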