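import Mathlib
import Pool.Agent.H330R2.St
import Pool.Agent.H330R2.Main

/-!
# Transfer to the definitions of `St.lean` (helper file)
-/

namespace Pool.Agent.H330R2

open IsDedekindDomain Polynomial WithZero RestrictedProduct Topology

noncomputable section

variable {Fq : Type} [Field Fq]

/-! ### automorphic forms -/

lemma rational_eq {γ : GA Fq} (h : γ ∈ St.rational Fq) : ∃ η, γ = diagG Fq η := by
  obtain ⟨η, hη⟩ := h
  refine ⟨η, ?_⟩
  apply GA_ext
  intro v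
  apply GL_ext
  · exact hη v 0 0
  · exact hη v 0 1
  · exact hη v 1 0
  · exact hη v 1 1

lemma isAutForm_of {f : GA Fq → ℂ} (h : IsAutomorphicForm f) :
    St.IsAutForm (G := GA Fq) (St.rational Fq) f where
  left_inv γ hγ g := by
    obtain ⟨η, rfl⟩ := rational_eq hγ
    exact h.left_inv η g
  smooth := by
    obtain ⟨U, hU, hf⟩ := h.smooth
    exact ⟨U, hU, fun u hu => funext fun g => hf g u hu⟩
  admissible U hU := ⟨_, h.admissible U hU, fun f' hf' hu => ⟨hf', hu⟩⟩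

lemma isConstituent_of {P : (GA Fq → ℂ) → Prop} {W : Submodule ℂ (GA Fq → ℂ)}
    {hW : ∀ g, ∀ f ∈ W, rtr Fq g f ∈ W} {π : IrrRep (GA Fq)} (hP : ∀ f ∈ W, P f)
    (hq : IsQuotientOf W hW π) : St.IsConstituent (G := GA Fq) P π := by
  obtain ⟨T, hs, hT⟩ := hq
  obtain ⟨T', hT'⟩ := T.exists_extend
  have h1 : ∀ f (hf : f ∈ W), T' f = T ⟨f, hf⟩ := fun f hf => by
    rw [← hT']; rfl
  refine ⟨W, fun f hf => ⟨hP f hf, fun g => hW g f hf⟩, T', fun x => ?_, fun f hf g => ?_⟩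
  · obtain ⟨⟨f, hf⟩, rfl⟩ := hs x
    exact ⟨f, hf, h1 f hf⟩
  · rw [h1 f hf, ← hT g ⟨f, hf⟩]
    exact h1 _ (hW g f hf)

lemma isAutomorphic_of {π : IrrRep (GA Fq)} (h : IsAutomorphic π) :
    St.IsAutomorphic (Fq := Fq) π := by
  obtain ⟨W, hW, hf, hq⟩ := h
  exact isConstituent_of (fun f hf' => isAutForm_of (hf f hf')) hq

lemma closure_principal :
    AddSubgroup.closure (St.principal Fq) = (diagA Fq).toAddMonoidHom.range := by
  apply le_antisymm
  · rw [AddSubgroup.closure_le]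
    rintro a ⟨y, hy⟩
    refine ⟨y, ?_⟩
    ext v
    exact (hy v).symm
  · rintro _ ⟨y, rfl⟩
    exact AddSubgroup.subset_closure ⟨y, fun v => rfl⟩

lemma isCuspidal_of {f : GA Fq → ℂ} (h : IsCuspidal f) : St.IsCuspidal (Fq := Fq) f := by
  intro g 𝔲 ho hi
  have h1 := h g 𝔲 ho hi
  rw [← closure_principal] at h1
  exact h1

lemma isCuspidalRep_of {π : IrrRep (GA Fq)} (h : IsCuspidalRep π) :
    St.IsCuspidalRep (Fq := Fq) π := by
  obtain ⟨W, hW, hf, hq⟩ := h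
  exact isConstituent_of (fun f hf' => ⟨isAutForm_of (hf f hf').1, isCuspidal_of (hf f hf').2⟩) hq

lemma isLocal_of {π : IrrRep (GA Fq)} {v : Place Fq} {σ : IrrRep (Gv Fq v)} :
    IsLocalComponent π v σ ↔ St.IsLocalComponent (Fq := Fq) π v σ := Iff.rfl

/-! ### isobaric representations -/

/-- transfer of Hecke characters -/
def stHecke (χ : HeckeChar Fq) : St.HeckeChar Fq where
  χ := χ.χ
  smooth := χ.smooth
  unram := χ.unram
  trivial x y hx hy := by
    rw [← χ.trivial (Units.mk0 x hx)]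
    refine finprod_congr fun v => ?_
    congr 1
    apply Units.ext
    exact hy v

lemma isIsobaric_of {π : IrrRep (GA Fq)} (h : IsIsobaric π) : St.IsIsobaric (Fq := Fq) π := by
  obtain ⟨ha, h | ⟨χ₁, χ₂, h1, h2⟩⟩ := h
  · exact ⟨isAutomorphic_of ha, Or.inl (isCuspidalRep_of h)⟩
  · refine ⟨isAutomorphic_of ha, Or.inr ⟨stHecke χ₁, stHecke χ₂, h1, fun v σ hσ => ?_⟩⟩
    obtain ⟨T, hT1, hT2, hT3⟩ := h2 v σ hσ
    refine ⟨T, hT1, fun x => ⟨fun a d y g => (hT2 x).1 a d y g, ?_⟩, hT3⟩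
    obtain ⟨U, hU, hf⟩ := (hT2 x).2
    exact ⟨U, hU, fun u hu => funext fun g => hf g u hu⟩

lemma isGlobalLifting_of {π Pi : IrrRep (GA Fq)} (h : IsGlobalLifting π Pi) :
    St.IsGlobalLifting (Fq := Fq) π Pi :=
  ⟨isIsobaric_of h.1, fun v σ h1 h2 => h.2 v σ h1 h2⟩

variable (Fq) in
/-- **Main theorem.** -/
theorem main_St [Finite Fq] :
    ¬ ∃ l : Irr (St.G2 (St.Kv Fq none)) → Irr (St.G2 (St.Kv Fq none)),
      ∀ π Pi : IrrRep (St.GA Fq), St.IsAutomorphic π → St.IsGlobalLifting π Pi →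
        ∀ σ τ : IrrRep (St.G2 (St.Kv Fq none)), St.IsLocalComponent π none σ →
          St.IsLocalComponent Pi none τ → l (Irr.mk σ) = Irr.mk τ := by
  rintro ⟨l, hl⟩
  have := Fintype.ofFinite Fq
  exact main Fq ⟨l, fun π Pi h1 h2 σ τ h3 h4 =>
    hl π Pi (isAutomorphic_of h1) (isGlobalLifting_of h2) σ τ h3 h4⟩

end

end Pool.Agent.H330R2
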